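import Pool.Agent.Work.MP_a8fbd7_nt.PAR.EF.StmtsU

set_option autoImplicit false

/-!
Item AP: arithmetic progressions in an interval.
-/

open Finset

namespace Pool.Agent.Work.MP_a8fbd7_nt.PAR.EF

theorem iAP : StAP := by
  intro a b D x0 hab hD
  set r : ℕ := (x0 + a * (D - 1)) % D with hr
  have hrD : r < D := Nat.mod_lt _ (by omega)
  have hmod : a + r ≡ x0 [MOD D] := by
    have h1 : a + r ≡ a + (x0 + a * (D - 1)) [MOD D] := Nat.ModEq.add_left a (Nat.mod_modEq _ _)
    have h2 : a + (x0 + a * (D - 1)) = x0 + D * a := by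
      obtain ⟨d, rfl⟩ : ∃ d, D = d + 1 := ⟨D - 1, by omega⟩
      simp only [Nat.add_sub_cancel]
      ring
    rw [h2] at h1
    refine h1.trans ?_
    have h3 : x0 + D * a ≡ x0 + 0 [MOD D] :=
      Nat.ModEq.add_left x0 ((Nat.modEq_zero_iff_dvd).2 (Dvd.intro _ rfl))
    simpa using h3
  have hDR : (0 : ℝ) < (D : ℝ) := by exact_mod_cast hD
  have hmem : ∀ g, a ≤ g → g ≡ x0 [MOD D] → ∃ i, g = a + r + D * i := by
    intro g hg hgx
    have h1 : g ≡ a + r [MOD D] := hgx.trans hmod.symm
    by_cases hlt : g < a + r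
    · exfalso
      have h2 : D ∣ (a + r) - g := (Nat.modEq_iff_dvd' hlt.le).1 h1
      have h3 := Nat.le_of_dvd (by omega) h2
      omega
    · have hge : a + r ≤ g := by omega
      obtain ⟨i, hi⟩ := (Nat.modEq_iff_dvd' hge).1 h1.symm
      exact ⟨i, by omega⟩
  by_cases hgb : a + r ≤ b
  · refine ⟨a + r, (b - (a + r)) / D + 1, by omega, ?_, ?_⟩
    · obtain ⟨q, hq⟩ : ∃ q, q = (b - (a + r)) / D := ⟨_, rfl⟩
      rw [← hq]
      have h1 : D * q ≤ b - (a + r) := by rw [hq]; exact Nat.mul_div_le _ _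
      have h2 : b - (a + r) < D * q + D := by
        rw [hq]
        have := Nat.lt_mul_div_succ (b - (a + r)) (by omega : 0 < D)
        rw [Nat.mul_add, Nat.mul_one] at this
        exact this
      have h3 : a + r + D * q ≤ b := by omega
      have h4 : b < a + r + (D * q + D) := by omega
      have h3' : (a : ℝ) + r + D * q ≤ b := by exact_mod_cast h3
      have h4' : (b : ℝ) < a + r + (D * q + D) := by exact_mod_cast h4
      have h5 : (r : ℝ) ≤ D := by exact_mod_cast hrD.le
      have h6 : (0 : ℝ) ≤ r := Nat.cast_nonneg _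
      push_cast
      rw [abs_le]
      constructor
      · rw [neg_le_sub_iff_le_add, div_le_iff₀ hDR]
        nlinarith
      · rw [sub_le_iff_le_add, ← sub_le_iff_le_add', le_div_iff₀ hDR]
        nlinarith
    · ext g
      simp only [mem_filter, mem_Icc, mem_image, mem_range]
      constructor
      · rintro ⟨⟨h1, h2⟩, h3⟩
        obtain ⟨i, hi⟩ := hmem g h1 h3
        refine ⟨i, ?_, hi.symm⟩
        rw [Nat.lt_succ_iff, Nat.le_div_iff_mul_le (by omega)]
        have h4 : i * D = D * i := Nat.mul_comm _ _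
        omega
      · rintro ⟨i, hi, rfl⟩
        rw [Nat.lt_succ_iff, Nat.le_div_iff_mul_le (by omega)] at hi
        have h4 : i * D = D * i := Nat.mul_comm _ _
        refine ⟨⟨by omega, by omega⟩, ?_⟩
        have h5 : a + r + D * i ≡ a + r + 0 [MOD D] :=
          Nat.ModEq.add_left (a + r) ((Nat.modEq_zero_iff_dvd).2 (Dvd.intro _ rfl))
        exact (by simpa using h5 : a + r + D * i ≡ a + r [MOD D]).trans hmod
  · refine ⟨a + r, 0, by omega, ?_, ?_⟩
    · have h1 : b < a + r := by omega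
      have h1' : (b : ℝ) < a + r := by exact_mod_cast h1
      have h5 : (r : ℝ) ≤ D := by exact_mod_cast hrD.le
      have h7 : (a : ℝ) ≤ b := by exact_mod_cast hab
      rw [Nat.cast_zero, zero_sub, abs_neg, abs_of_nonneg (div_nonneg (sub_nonneg.2 h7) hDR.le), div_le_iff₀ hDR]
      linarith
    · ext g
      simp only [mem_filter, mem_Icc, mem_image, mem_range, Nat.not_lt_zero, false_and, exists_false,
        iff_false]
      rintro ⟨⟨h1, h2⟩, h3⟩
      obtain ⟨i, hi⟩ := hmem g h1 h3
      omega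

end Pool.Agent.Work.MP_a8fbd7_nt.PAR.EF
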