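import Pool.Agent.Work.MP_a8fbd7_nt.PAR.EF.StmtsU
import Pool.Agent.Work.MP_a8fbd7_nt.PAR.LC.I_EQ

set_option autoImplicit false

/-!
MP_a8fbd7_nt, block EF, part U, item CB: the cells as a condition on one fractional part.
-/

open Finset

noncomputable section

namespace Pool.Agent.Work.MP_a8fbd7_nt.PAR.EF

open Pool.Agent.Work.MP_a8fbd7_nt.PAR.LC

/-- ITEM CB -/
theorem iCB : StCB := by
  intro Y g Z B M0 k hY hg hZ hB hk
  refine ⟨fun h => I_EQ.fract_lt Y g Z B M0 k hZ hB h.1 h.2.1 h.2.2, fun h => ?_⟩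
  have hgr : (0 : ℝ) < g := by exact_mod_cast hg
  have hZr : (0 : ℝ) < Z := by exact_mod_cast hZ
  have hBr : (0 : ℝ) < B := by exact_mod_cast hB
  set w : ℝ := Y / (g : ℝ) with hw
  have hw0 : 0 ≤ w := div_nonneg hY hgr.le
  set u : ℝ := Y / (Z * g) - (M0 + (k : ℝ) / B) / Z with hu
  have h1 : (⌊u⌋ : ℝ) + Int.fract u = u := Int.floor_add_fract u
  have h2 : w = ((M0 : ℝ) + Z * ⌊u⌋) + ((k : ℝ) / B + Z * Int.fract u) := by
    have e1 : Z * u = w - (M0 + (k : ℝ) / B) := by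
      rw [hu, hw]
      field_simp
    have e2 : Z * u = Z * ⌊u⌋ + Z * Int.fract u := by
      conv_lhs => rw [← h1]
      ring
    linarith
  have ht0 : 0 ≤ Z * Int.fract u := mul_nonneg hZr.le (Int.fract_nonneg u)
  have ht1 : Z * Int.fract u < 1 / B := by
    have h3 : Z * Int.fract u < Z * (1 / ((Z : ℝ) * B)) := mul_lt_mul_of_pos_left h hZr
    have h4 : Z * (1 / ((Z : ℝ) * B)) = 1 / B := by field_simp
    rwa [h4] at h3
  have hk0 : (0 : ℝ) ≤ (k : ℝ) / B := by positivity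
  have hk1 : (k : ℝ) / B + 1 / B ≤ 1 := by
    rw [← add_div, div_le_one hBr]
    exact_mod_cast hk
  have hfl : ⌊w⌋ = (M0 : ℤ) + Z * ⌊u⌋ := by
    rw [Int.floor_eq_iff]
    push_cast
    constructor <;> linarith
  have hfl2 : ((⌊w⌋₊ : ℕ) : ℤ) = (M0 : ℤ) + Z * ⌊u⌋ := by
    rw [← hfl]
    exact Int.natCast_floor_eq_floor hw0
  have hfl3 : ((⌊w⌋₊ : ℕ) : ℝ) = (M0 : ℝ) + Z * ⌊u⌋ := by exact_mod_cast congrArg (Int.cast (R := ℝ)) hfl2
  have hdiff : w - ((⌊w⌋₊ : ℕ) : ℝ) = (k : ℝ) / B + Z * Int.fract u := by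
    rw [hfl3]
    linarith
  refine ⟨?_, ?_, ?_⟩
  · refine (Nat.modEq_iff_dvd.2 ?_).symm
    exact ⟨⌊u⌋, by rw [hfl2]; ring⟩
  · rw [hdiff]
    linarith
  · rw [hdiff, add_div]
    linarith

end Pool.Agent.Work.MP_a8fbd7_nt.PAR.EF
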