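import Pool.Agent.Work.MP_a8fbd7_nt.PAR.EF.StmtsU

set_option autoImplicit false

/-!
MP_a8fbd7_nt, block EF, item E1: the upper bound of a weak inequality of Erdős and Turán.
-/

open Finset

noncomputable section

namespace Pool.Agent.Work.MP_a8fbd7_nt.PAR.EF

open Pool.Agent.Work.MP_a8fbd7_nt.PAR.LC

namespace XE1

theorem ee_norm (x : ℝ) : ‖ee x‖ = 1 := Complex.norm_exp_ofReal_mul_I _

theorem ee_add (x y : ℝ) : ee (x + y) = ee x * ee y := by
  unfold ee
  rw [← Complex.exp_add]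
  congr 1
  push_cast
  ring

theorem ee_im (x : ℝ) : (ee x).im = Real.sin (2 * Real.pi * x) := Complex.exp_ofReal_mul_I_im _

/-- the sine sums -/
theorem sin_sum (N h : ℕ) (x : ℕ → ℝ) (γ : ℝ) :
    |∑ i ∈ range N, Real.sin (2 * Real.pi * h * (x i + γ))| ≤ ‖∑ i ∈ range N, ee (h * x i)‖ := by
  have e1 : ∑ i ∈ range N, Real.sin (2 * Real.pi * h * (x i + γ)) =
      (ee (h * γ) * ∑ i ∈ range N, ee (h * x i)).im := by
    rw [mul_sum, Complex.im_sum]
    refine sum_congr rfl fun i _ => ?_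
    rw [← ee_add, ee_im]
    congr 1
    ring
  rw [e1]
  refine (Complex.abs_im_le_norm _).trans (le_of_eq ?_)
  rw [norm_mul, ee_norm, one_mul]

theorem main (hGG : StGG) (H N : ℕ) (x : ℕ → ℝ) (α β : ℝ) (hH : 1 ≤ H) (hβ : 0 ≤ β) :
    (((range N).filter (fun i => Int.fract (x i - α) < β)).card : ℝ) ≤
    β * N + (2 * N / Real.sqrt H + ∑ h ∈ Icc 1 H, ‖∑ i ∈ range N, ee (h * x i)‖ / h) := by
  obtain ⟨hmono, hshift, hodd, hlow⟩ := hGG H
  have hHr : (1 : ℝ) ≤ H := by exact_mod_cast hH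
  have hs1 : 1 ≤ Real.sqrt H := by
    rw [Real.one_le_sqrt]
    exact hHr
  have hs0 : 0 < Real.sqrt H := by linarith
  obtain ⟨ε, hε⟩ : ∃ ε : ℝ, ε = 1 / (2 * Real.sqrt H) := ⟨_, rfl⟩
  have hε0 : 0 < ε := by
    rw [hε]
    positivity
  have hε1 : ε ≤ 1 / 2 := by
    rw [hε]
    exact one_div_le_one_div_of_le (by norm_num) (by linarith)
  have h2ε : 2 * ε = 1 / Real.sqrt H := by
    rw [hε]
    field_simp
  have hG : 1 - 1 / Real.sqrt H ≤ 2 * GH H ε := by
    have h1 := hlow ε hε0 hε1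
    have h2 : 1 / (4 * ((H : ℝ) + 1) * ε) ≤ 1 / (2 * Real.sqrt H) := by
      refine one_div_le_one_div_of_le (by positivity) ?_
      rw [hε]
      have h3 : 4 * ((H : ℝ) + 1) * (1 / (2 * Real.sqrt H)) = 2 * ((H : ℝ) + 1) / Real.sqrt H := by
        field_simp
        norm_num
      rw [h3, le_div_iff₀ hs0]
      have h4 : Real.sqrt H * Real.sqrt H = H := Real.mul_self_sqrt (by linarith)
      nlinarith
    have h5 : 1 / (2 * Real.sqrt H) = 1 / Real.sqrt H / 2 := by
      field_simp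
    rw [h5] at h2
    linarith
  obtain ⟨P, hP⟩ : ∃ P : ℝ → ℝ, P = fun y => GH H (y + ε) - GH H (y - β - ε) := ⟨_, rfl⟩
  have hP0 : ∀ y, 0 ≤ P y := by
    intro y
    rw [hP]
    exact sub_nonneg.2 (hmono (by linarith))
  have hP1 : ∀ y, Int.fract y < β → 1 - 1 / Real.sqrt H ≤ P y := by
    intro y hy
    have e1 : y + ε = (Int.fract y + ε) + (⌊y⌋ : ℤ) := by
      have := Int.fract_add_floor y
      linarith
    have e2 : y - β - ε = (Int.fract y - β - ε) + (⌊y⌋ : ℤ) := by
      have := Int.fract_add_floor y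
      linarith
    have e3 : P y = GH H (Int.fract y + ε) - GH H (Int.fract y - β - ε) := by
      rw [hP]
      show GH H (y + ε) - GH H (y - β - ε) = _
      rw [e1, e2, hshift, hshift]
      ring
    have h3 : GH H ε ≤ GH H (Int.fract y + ε) := hmono (by linarith [Int.fract_nonneg y])
    have h4 : GH H (Int.fract y - β - ε) ≤ GH H (-ε) := hmono (by linarith)
    rw [hodd] at h4
    rw [e3]
    linarith
  -- the count
  have hc : (((range N).filter (fun i => Int.fract (x i - α) < β)).card : ℝ) ≤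
      ∑ i ∈ range N, (P (x i - α) + 1 / Real.sqrt H) := by
    rw [card_filter]
    push_cast
    refine sum_le_sum fun i _ => ?_
    have h1 : 0 ≤ 1 / Real.sqrt H := by positivity
    split_ifs with h2
    · have := hP1 _ h2
      linarith
    · have := hP0 (x i - α)
      linarith
  rw [sum_add_distrib, sum_const, card_range, nsmul_eq_mul] at hc
  -- the sum of P
  have hPe : ∀ i, P (x i - α) = (β + 2 * ε) + ∑ h ∈ Icc 1 H, (1 - (h : ℝ) / (H + 1)) *
      (1 / (Real.pi * h)) * (Real.sin (2 * Real.pi * h * (x i + (ε - α))) -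
        Real.sin (2 * Real.pi * h * (x i + (-α - β - ε)))) := by
    intro i
    rw [hP]
    show GH H (x i - α + ε) - GH H (x i - α - β - ε) = _
    unfold GH
    have e1 : x i - α + ε = x i + (ε - α) := by ring
    have e2 : x i - α - β - ε = x i + (-α - β - ε) := by ring
    rw [e1, e2]
    have e3 : ∀ a b c d : ℝ, a + b - (c + d) = (a - c) + (b - d) := fun a b c d => by ring
    rw [e3, ← sum_sub_distrib]
    congr 1
    · ring
    · refine sum_congr rfl fun h _ => ?_
      ring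
  have hPs : ∑ i ∈ range N, P (x i - α) ≤ N * (β + 2 * ε) +
      ∑ h ∈ Icc 1 H, ‖∑ i ∈ range N, ee (h * x i)‖ / h := by
    rw [sum_congr rfl fun i _ => hPe i, sum_add_distrib, sum_const, card_range, nsmul_eq_mul,
      sum_comm]
    refine add_le_add_right (sum_le_sum fun h hh => ?_) _
    obtain ⟨h1, h2⟩ := mem_Icc.1 hh
    have h0 : (0 : ℝ) < h := by exact_mod_cast (by omega : 0 < h)
    have hhH : (h : ℝ) ≤ H := by exact_mod_cast h2
    rw [← mul_sum, sum_sub_distrib]
    have a1 := sin_sum N h x (ε - α)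
    have a2 := sin_sum N h x (-α - β - ε)
    obtain ⟨S, hS⟩ : ∃ S : ℝ, S = ‖∑ i ∈ range N, ee (h * x i)‖ := ⟨_, rfl⟩
    rw [← hS] at a1 a2 ⊢
    have hS0 : 0 ≤ S := by
      rw [hS]
      exact norm_nonneg _
    have a3 : ∑ i ∈ range N, Real.sin (2 * Real.pi * h * (x i + (ε - α))) -
        ∑ i ∈ range N, Real.sin (2 * Real.pi * h * (x i + (-α - β - ε))) ≤ 2 * S := by
      have b1 := (abs_le.1 a1).2
      have b2 := (abs_le.1 a2).1
      linarith
    have c0 : 0 ≤ (h : ℝ) / (H + 1) := by positivity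
    have c1 : (h : ℝ) / (H + 1) ≤ 1 := by
      rw [div_le_one (by linarith)]
      linarith
    have hpi : 2 ≤ Real.pi := by
      have := Real.pi_gt_three
      linarith
    have hpi0 : 0 < Real.pi := Real.pi_pos
    have w0 : 0 ≤ (1 - (h : ℝ) / (H + 1)) * (1 / (Real.pi * h)) := by
      have : 0 ≤ 1 - (h : ℝ) / (H + 1) := by linarith
      positivity
    have w1 : (1 - (h : ℝ) / (H + 1)) * (1 / (Real.pi * h)) ≤ 1 / (2 * h) := by
      have d1 : 1 / (Real.pi * h) ≤ 1 / (2 * (h : ℝ)) :=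
        one_div_le_one_div_of_le (by positivity) (by nlinarith)
      have d2 : 0 ≤ 1 / (Real.pi * (h : ℝ)) := by positivity
      nlinarith
    calc (1 - (h : ℝ) / (H + 1)) * (1 / (Real.pi * h)) *
          (∑ i ∈ range N, Real.sin (2 * Real.pi * h * (x i + (ε - α))) -
            ∑ i ∈ range N, Real.sin (2 * Real.pi * h * (x i + (-α - β - ε))))
        ≤ (1 - (h : ℝ) / (H + 1)) * (1 / (Real.pi * h)) * (2 * S) :=
          mul_le_mul_of_nonneg_left a3 w0
      _ ≤ 1 / (2 * h) * (2 * S) := mul_le_mul_of_nonneg_right w1 (by linarith)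
      _ = S / h := by
          field_simp
  have e9 : (2 : ℝ) * N / Real.sqrt H = N * (1 / Real.sqrt H) + N * (1 / Real.sqrt H) := by
    ring
  rw [h2ε] at hPs
  rw [e9]
  calc (((range N).filter (fun i => Int.fract (x i - α) < β)).card : ℝ)
      ≤ ∑ i ∈ range N, P (x i - α) + N * (1 / Real.sqrt H) := hc
    _ ≤ (N * (β + 1 / Real.sqrt H) +
        ∑ h ∈ Icc 1 H, ‖∑ i ∈ range N, ee (h * x i)‖ / h) + N * (1 / Real.sqrt H) :=
        add_le_add_left hPs _
    _ = β * N + (N * (1 / Real.sqrt H) + N * (1 / Real.sqrt H) +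
        ∑ h ∈ Icc 1 H, ‖∑ i ∈ range N, ee (h * x i)‖ / h) := by ring

end XE1

theorem iE1 (hGG : StGG) : StE1 := fun H N x α β hH hβ => XE1.main hGG H N x α β hH hβ

end Pool.Agent.Work.MP_a8fbd7_nt.PAR.EF
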