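import Pool.Agent.Work.MP_a8fbd7_nt.PAR.EF.StmtsU

set_option autoImplicit false

/-!
MP_a8fbd7_nt, block EF, part U, item E2: weak Erdős-Turán inequality, both directions.
-/

open Finset

noncomputable section

namespace Pool.Agent.Work.MP_a8fbd7_nt.PAR.EF

open Pool.Agent.Work.MP_a8fbd7_nt.PAR.LC

namespace XE2

theorem fract_sub {y β : ℝ} (h0 : 0 ≤ β) (h : β ≤ Int.fract y) :
    Int.fract (y - β) = Int.fract y - β := by
  have h1 := Int.fract_lt_one y
  rw [Int.fract_eq_iff]
  refine ⟨by linarith, by linarith, ⌊y⌋, ?_⟩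
  have h2 := Int.floor_add_fract y
  linarith

end XE2

theorem iE2 (hE1 : StE1) : StE2 := by
  intro H N x α β hH hβ hβ1
  set err : ℝ := 2 * N / Real.sqrt H + ∑ h ∈ Icc 1 H, ‖∑ i ∈ range N, ee (h * x i)‖ / h
  have h1 := hE1 H N x α β hH hβ
  have h2 := hE1 H N x (α + β) (1 - β) hH (by linarith)
  have h3 : ((range N).filter (fun i => ¬ Int.fract (x i - α) < β)).card ≤
      ((range N).filter (fun i => Int.fract (x i - (α + β)) < 1 - β)).card := by
    refine Finset.card_le_card fun i hi => ?_
    rw [Finset.mem_filter] at hi ⊢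
    refine ⟨hi.1, ?_⟩
    have h4 : x i - (α + β) = (x i - α) - β := by ring
    rw [h4, XE2.fract_sub hβ (not_lt.1 hi.2)]
    have h5 := Int.fract_lt_one (x i - α)
    linarith
  have h4 : ((range N).filter (fun i => Int.fract (x i - α) < β)).card +
      ((range N).filter (fun i => ¬ Int.fract (x i - α) < β)).card = N := by
    rw [Finset.card_filter_add_card_filter_not, Finset.card_range]
  have h5 : (((range N).filter (fun i => Int.fract (x i - α) < β)).card : ℝ) +
      (((range N).filter (fun i => ¬ Int.fract (x i - α) < β)).card : ℝ) = N := by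
    exact_mod_cast h4
  have h6 : (((range N).filter (fun i => ¬ Int.fract (x i - α) < β)).card : ℝ) ≤
      (((range N).filter (fun i => Int.fract (x i - (α + β)) < 1 - β)).card : ℝ) := by
    exact_mod_cast h3
  rw [abs_le]
  constructor
  · nlinarith
  · linarith

end Pool.Agent.Work.MP_a8fbd7_nt.PAR.EF
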