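import Pool.Agent.Work.MP_a8fbd7_nt.PAR.EF.StmtsU

set_option autoImplicit false

/-!
MP_a8fbd7_nt, block EF, part U, item EQE: the interface statement from StE2, StXS, StCB, StAP.
-/

open Finset

noncomputable section

namespace Pool.Agent.Work.MP_a8fbd7_nt.PAR.EF

open Pool.Agent.Work.MP_a8fbd7_nt.PAR.LC

namespace XEQE

/-- the cell count as a count of fractional parts -/
theorem card_eq (hCB : StCB) (Y : ℝ) (a b D x0 Z M0 B k g0 N : ℕ) (hY : 0 ≤ Y) (ha : 1 ≤ a) (hD : 1 ≤ D)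
    (hZ : 1 ≤ Z) (hB : 1 ≤ B) (hk : k < B)
    (hS : (Icc a b).filter (fun g => g ≡ x0 [MOD D]) = (range N).image (fun i => g0 + D * i)) :
    (cel2 Y a b D x0 Z M0 B k).card = ((range N).filter (fun i : ℕ =>
      Int.fract (Y / (Z * ((g0 + D * i : ℕ) : ℝ)) - (M0 + (k : ℝ) / B) / Z) < 1 / ((Z : ℝ) * B))).card := by
  have h2 : cel2 Y a b D x0 Z M0 B k = ((Icc a b).filter (fun g => g ≡ x0 [MOD D])).filter
      (fun g : ℕ => Int.fract (Y / (Z * (g : ℝ)) - (M0 + (k : ℝ) / B) / Z) < 1 / ((Z : ℝ) * B)) := by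
    ext g
    rw [cel2, mem_filter, mem_filter, mem_filter]
    constructor
    · rintro ⟨h3, h4, h5⟩
      exact ⟨⟨h3, h4⟩, (hCB Y g Z B M0 k hY (by have := (mem_Icc.1 h3).1; omega) hZ hB hk).1 h5⟩
    · rintro ⟨⟨h3, h4⟩, h5⟩
      exact ⟨h3, h4, (hCB Y g Z B M0 k hY (by have := (mem_Icc.1 h3).1; omega) hZ hB hk).2 h5⟩
  rw [h2, hS, filter_image, card_image_of_injective]
  intro i j hij
  have h3 : g0 + D * i = g0 + D * j := hij
  have h4 : D * i = D * j := by omega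
  exact Nat.eq_of_mul_eq_mul_left hD h4

/-- the bound for one exponential sum, in terms of `q = n^(1/50)` -/
theorem one (n r q : ℝ) (D Z h : ℕ) (hn : 1 ≤ n) (hq : 1 ≤ q) (hqn : q ≤ n) (hr0 : 0 < r) (hr1 : 1 / q ≤ r) (hr2 : r ≤ q)
    (hD1 : 1 ≤ D) (hD2 : (D : ℝ) ≤ q) (hZ1 : 1 ≤ Z) (hZ2 : (Z : ℝ) ≤ q) (hh : 1 ≤ h) :
    ((r * n / D + 1) * Real.sqrt ((h : ℝ) * D ^ 2 / (4 * Z * r ^ 3 * n)) +
      1 / Real.sqrt ((h : ℝ) * D ^ 2 / (4 * Z * r ^ 3 * n))) / h ≤ 4 * (Real.sqrt n * q ^ 2) := by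
  have hn0 : 0 < n := by linarith
  have hq0 : 0 < q := by linarith
  have hDr : (1 : ℝ) ≤ D := by exact_mod_cast hD1
  have hZr : (1 : ℝ) ≤ Z := by exact_mod_cast hZ1
  have hhr : (1 : ℝ) ≤ h := by exact_mod_cast hh
  have hD0 : (0 : ℝ) < D := by linarith
  have hZ0 : (0 : ℝ) < Z := by linarith
  have hh0 : (0 : ℝ) < h := by linarith
  set lam' : ℝ := (h : ℝ) * D ^ 2 / (4 * Z * r ^ 3 * n) with hlam
  have hl0 : 0 < lam' := by positivity
  set w : ℝ := Real.sqrt n * q ^ 2 with hw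
  have hw0 : 0 < w := by positivity
  have hw2 : w ^ 2 = n * q ^ 4 := by
    rw [hw, mul_pow, Real.sq_sqrt hn0.le]; ring
  have hsh : Real.sqrt h ^ 2 = h := Real.sq_sqrt hh0.le
  have hsh0 : 0 < Real.sqrt h := Real.sqrt_pos.2 hh0
  have hsh1 : 1 ≤ Real.sqrt h := by rw [Real.one_le_sqrt]; exact hhr
  have hir : 1 / r ≤ q := by
    rw [div_le_iff₀ hr0]
    have := (div_le_iff₀ hq0).1 hr1
    linarith
  have hs0 : 0 ≤ Real.sqrt lam' := Real.sqrt_nonneg _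
  have hs2 : Real.sqrt lam' ^ 2 = lam' := Real.sq_sqrt hl0.le
  -- A
  have hA : r * n / D * Real.sqrt lam' ≤ Real.sqrt h * w := by
    apply le_of_sq_le_sq _ (by positivity)
    rw [mul_pow, hs2, mul_pow, hsh, hw2]
    have e1 : (r * n / D) ^ 2 * lam' = h * n * (1 / r) / (4 * Z) := by
      rw [hlam]; field_simp
    rw [e1, div_le_iff₀ (by positivity)]
    have h1 : h * n * (1 / r) ≤ h * n * q := mul_le_mul_of_nonneg_left hir (by positivity)
    have h2 : h * n * q ≤ h * n * q ^ 4 := by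
      apply mul_le_mul_of_nonneg_left _ (by positivity)
      calc q = q ^ 1 := (pow_one q).symm
        _ ≤ q ^ 4 := pow_le_pow_right₀ hq (by norm_num)
    have h3 : 0 ≤ h * n * q ^ 4 := by positivity
    have h4 : h * n * q ^ 4 ≤ h * (n * q ^ 4) * (4 * Z) := by nlinarith
    linarith
  -- B
  have hB : Real.sqrt lam' ≤ Real.sqrt h * w := by
    apply le_of_sq_le_sq _ (by positivity)
    rw [hs2, mul_pow, hsh, hw2]
    have e1 : lam' = h * D ^ 2 * (1 / r) ^ 3 / (4 * Z * n) := by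
      rw [hlam]; field_simp
    rw [e1, div_le_iff₀ (by positivity)]
    have h1 : (D : ℝ) ^ 2 ≤ q ^ 2 := pow_le_pow_left₀ hD0.le hD2 2
    have h2 : (1 / r) ^ 3 ≤ q ^ 3 := pow_le_pow_left₀ (by positivity) hir 3
    have h3 : h * (D : ℝ) ^ 2 * (1 / r) ^ 3 ≤ h * q ^ 2 * q ^ 3 :=
      mul_le_mul (mul_le_mul_of_nonneg_left h1 hh0.le) h2 (by positivity) (by positivity)
    have h4 : h * q ^ 2 * q ^ 3 ≤ h * (n * q ^ 4) := by
      have : h * q ^ 2 * q ^ 3 = h * (q * q ^ 4) := by ring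
      rw [this]
      apply mul_le_mul_of_nonneg_left _ hh0.le
      exact mul_le_mul_of_nonneg_right hqn (by positivity)
    have h5 : 0 ≤ h * (n * q ^ 4) := by positivity
    have h6 : h * (n * q ^ 4) ≤ h * (n * q ^ 4) * (4 * Z * n) := by
      apply le_mul_of_one_le_right h5
      nlinarith
    linarith
  -- C
  have hC : 1 / Real.sqrt lam' ≤ 2 * w := by
    apply le_of_sq_le_sq _ (by positivity)
    rw [div_pow, hs2, mul_pow, hw2]
    have e1 : (1 : ℝ) ^ 2 / lam' = 4 * Z * r ^ 3 * n / (h * D ^ 2) := by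
      rw [hlam]; field_simp
    rw [e1, div_le_iff₀ (by positivity)]
    have h1 : r ^ 3 ≤ q ^ 3 := pow_le_pow_left₀ hr0.le hr2 3
    have h2 : Z * r ^ 3 ≤ q * q ^ 3 := mul_le_mul hZ2 h1 (by positivity) hq0.le
    have h3 : 4 * Z * r ^ 3 * n ≤ 2 ^ 2 * (n * q ^ 4) := by nlinarith
    have h4 : (2 : ℝ) ^ 2 * (n * q ^ 4) ≤ 2 ^ 2 * (n * q ^ 4) * (h * D ^ 2) := by
      apply le_mul_of_one_le_right (by positivity)
      nlinarith
    linarith
  have hC' : 1 / Real.sqrt lam' ≤ 2 * (Real.sqrt h * w) := by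
    have : w ≤ Real.sqrt h * w := le_mul_of_one_le_left hw0.le hsh1
    linarith
  have hsum : (r * n / D + 1) * Real.sqrt lam' + 1 / Real.sqrt lam' ≤ 4 * (Real.sqrt h * w) := by
    rw [add_mul, one_mul]; linarith
  rw [div_le_iff₀ hh0]
  have h7 : Real.sqrt h ≤ h := by nlinarith
  have h8 : Real.sqrt h * w ≤ w * h := by
    rw [mul_comm]; exact mul_le_mul_of_nonneg_left h7 hw0.le
  linarith

end XEQE

open XEQE in
theorem iEQE (hE2 : StE2) (hXS : StXS) (hCB : StCB) (hAP : StAP) : StEQE := by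
  obtain ⟨C0, hC0, hX⟩ := hXS
  refine ⟨8 * C0 + 5, by linarith, ?_⟩
  intro n r a b D x0 Z M0 B k hn hr1 hr2 ha hab hb hD1 hD2 hZ1 hZ2 hB1 hB2 hk
  have hn0 : 0 < n := by linarith
  have pm : ∀ x y : ℝ, x ≤ y → n ^ x ≤ n ^ y := fun x y h => Real.rpow_le_rpow_of_exponent_le hn h
  have p1 : ∀ x : ℝ, 0 ≤ x → 1 ≤ n ^ x := fun x h => Real.one_le_rpow hn h
  set q : ℝ := n ^ (1 / 50 : ℝ) with hq
  have hq1 : 1 ≤ q := p1 _ (by norm_num)
  have hq0 : 0 < q := by linarith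
  have hqn : q ≤ n := by
    have := pm (1 / 50) 1 (by norm_num)
    rwa [Real.rpow_one] at this
  have hr0 : 0 < r := lt_of_lt_of_le (Real.rpow_pos_of_pos hn0 _) hr1
  have hr1' : 1 / q ≤ r := by
    have : 1 / q = n ^ (-(1 / 50) : ℝ) := by rw [Real.rpow_neg hn0.le, one_div]
    rw [this]; exact hr1
  have hDr : (1 : ℝ) ≤ D := by exact_mod_cast hD1
  have hZr : (1 : ℝ) ≤ Z := by exact_mod_cast hZ1
  have hBr : (1 : ℝ) ≤ B := by exact_mod_cast hB1
  have hD0 : (0 : ℝ) < D := by linarith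
  have hZ0 : (0 : ℝ) < Z := by linarith
  have hB0 : (0 : ℝ) < B := by linarith
  have hrn : 0 < r * n := mul_pos hr0 hn0
  have ha1 : 1 ≤ a := by
    have : (0 : ℝ) < a := by linarith
    exact_mod_cast this
  obtain ⟨g0, N, hg0, hN, hS⟩ := hAP a b D x0 hab hD1
  have hcard := card_eq hCB (n ^ 2) a b D x0 Z M0 B k g0 N (by positivity) ha1 hD1 hZ1 hB1 hk hS
  -- the number H
  set X : ℝ := n ^ (1 / 4 : ℝ) with hXd
  have hX1 : 1 ≤ X := p1 _ (by norm_num)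
  set H : ℕ := ⌈X⌉₊ with hH
  have hH1 : 1 ≤ H := by
    rw [hH]; exact Nat.one_le_iff_ne_zero.2 (Nat.ceil_pos.2 (by linarith)).ne'
  have hHlo : X ≤ H := Nat.le_ceil _
  have hHup : (H : ℝ) ≤ 2 * X := by
    have := (Nat.ceil_lt_add_one (show (0 : ℝ) ≤ X by linarith)).le
    linarith
  have hHr : (1 : ℝ) ≤ H := by exact_mod_cast hH1
  -- size of N
  have hba : (b : ℝ) - a ≤ r * n := by linarith
  have habr : (0 : ℝ) ≤ (b : ℝ) - a := by
    have : (a : ℝ) ≤ b := by exact_mod_cast hab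
    linarith
  have hNabs := abs_le.1 hN
  have hNup : (N : ℝ) ≤ r * n + 1 := by
    have h1 : ((b : ℝ) - a) / D ≤ (b : ℝ) - a := div_le_self habr hDr
    linarith [hNabs.2]
  have hN2 : (N : ℝ) ≤ 2 * n ^ (51 / 50 : ℝ) := by
    have h1 : r * n ≤ n ^ (51 / 50 : ℝ) := by
      have : n ^ (51 / 50 : ℝ) = q * n := by
        rw [hq]
        nth_rewrite 3 [← Real.rpow_one n]
        rw [← Real.rpow_add hn0]; norm_num
      rw [this]
      exact mul_le_mul_of_nonneg_right hr2 hn0.le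
    have h2 := p1 (51 / 50) (by norm_num)
    linarith
  -- the points
  have hmem : ∀ i < N, g0 + D * i ∈ Icc a b := by
    intro i hi
    have h1 : g0 + D * i ∈ (range N).image (fun i => g0 + D * i) :=
      mem_image_of_mem (f := fun i => g0 + D * i) (mem_range.2 hi)
    rw [← hS] at h1
    exact (mem_filter.1 h1).1
  have hg0r : r * n ≤ g0 := by
    have : (a : ℝ) ≤ g0 := by exact_mod_cast hg0
    linarith
  have hhi : ∀ i < N, ((g0 + D * i : ℕ) : ℝ) ≤ 2 * r * n := by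
    intro i hi
    have h1 : g0 + D * i ≤ b := (mem_Icc.1 (hmem i hi)).2
    have h2 : ((g0 + D * i : ℕ) : ℝ) ≤ b := by exact_mod_cast h1
    linarith
  have hsum : ∀ h ∈ Icc 1 H,
      ‖∑ i ∈ range N, ee (h * (fun i : ℕ => n ^ 2 / (Z * ((g0 + D * i : ℕ) : ℝ))) i)‖ / h ≤
        C0 * (4 * (Real.sqrt n * q ^ 2)) := by
    intro h hh
    have hh1 := (mem_Icc.1 hh).1
    have hhr : (0 : ℝ) < h := by exact_mod_cast hh1
    have h1 := hX n r D Z h g0 N hn0 hr0 hD1 hZ1 hh1 hg0r hhi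
    have h2 := one n r q D Z h hn hq1 hqn hr0 hr1' hr2 hD1 hD2 hZ1 hZ2 hh1
    calc _ ≤ C0 * ((r * n / D + 1) * Real.sqrt ((h : ℝ) * D ^ 2 / (4 * Z * r ^ 3 * n)) +
          1 / Real.sqrt ((h : ℝ) * D ^ 2 / (4 * Z * r ^ 3 * n))) / h :=
          div_le_div_of_nonneg_right h1 hhr.le
      _ = C0 * (((r * n / D + 1) * Real.sqrt ((h : ℝ) * D ^ 2 / (4 * Z * r ^ 3 * n)) +
          1 / Real.sqrt ((h : ℝ) * D ^ 2 / (4 * Z * r ^ 3 * n))) / h) := by rw [mul_div_assoc]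
      _ ≤ _ := mul_le_mul_of_nonneg_left h2 (by linarith)
  have hT : n ^ (19 / 20 : ℝ) = n ^ (19 / 20 : ℝ) := rfl
  set T : ℝ := n ^ (19 / 20 : ℝ) with hTd
  have hT1 : 1 ≤ T := p1 _ (by norm_num)
  have hS2 : ∑ h ∈ Icc 1 H,
      ‖∑ i ∈ range N, ee (h * (fun i : ℕ => n ^ 2 / (Z * ((g0 + D * i : ℕ) : ℝ))) i)‖ / h ≤
        8 * C0 * T := by
    calc _ ≤ ∑ h ∈ Icc 1 H, C0 * (4 * (Real.sqrt n * q ^ 2)) := sum_le_sum hsum
      _ = H * (C0 * (4 * (Real.sqrt n * q ^ 2))) := by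
          rw [sum_const, nsmul_eq_mul, Nat.card_Icc]; norm_num
      _ ≤ (2 * X) * (C0 * (4 * (Real.sqrt n * q ^ 2))) :=
          mul_le_mul_of_nonneg_right hHup (by positivity)
      _ = 8 * C0 * (X * (Real.sqrt n * q ^ 2)) := by ring
      _ ≤ 8 * C0 * T := by
          apply mul_le_mul_of_nonneg_left _ (by linarith)
          have e1 : X * (Real.sqrt n * q ^ 2) = n ^ (79 / 100 : ℝ) := by
            rw [hXd, hq, Real.sqrt_eq_rpow, ← Real.rpow_natCast (n ^ (1 / 50 : ℝ)) 2,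
              ← Real.rpow_mul hn0.le, ← Real.rpow_add hn0, ← Real.rpow_add hn0]
            norm_num
          rw [e1]
          exact pm _ _ (by norm_num)
  have hE := hE2 H N (fun i : ℕ => n ^ 2 / (Z * ((g0 + D * i : ℕ) : ℝ))) ((M0 + (k : ℝ) / B) / Z)
    (1 / ((Z : ℝ) * B)) hH1 (by positivity) (by rw [div_le_one (by positivity)]; nlinarith)
  have hF : 2 * N / Real.sqrt H ≤ 4 * T := by
    have hs : n ^ (1 / 8 : ℝ) ≤ Real.sqrt H := by
      apply Real.le_sqrt_of_sq_le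
      have : (n ^ (1 / 8 : ℝ)) ^ 2 = X := by
        rw [hXd, ← Real.rpow_natCast (n ^ (1 / 8 : ℝ)) 2, ← Real.rpow_mul hn0.le]; norm_num
      rw [this]; exact hHlo
    have hs0 : 0 < Real.sqrt H := Real.sqrt_pos.2 (by linarith)
    rw [div_le_iff₀ hs0]
    have h1 : n ^ (51 / 50 : ℝ) ≤ T * n ^ (1 / 8 : ℝ) := by
      rw [hTd, ← Real.rpow_add hn0]
      exact pm _ _ (by norm_num)
    have h2 : T * n ^ (1 / 8 : ℝ) ≤ T * Real.sqrt H := mul_le_mul_of_nonneg_left hs (by linarith)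
    linarith
  have hG : |1 / ((Z : ℝ) * B) * N - ((b : ℝ) - a) / ((D : ℝ) * Z * B)| ≤ T := by
    have e1 : 1 / ((Z : ℝ) * B) * N - ((b : ℝ) - a) / ((D : ℝ) * Z * B) =
        1 / ((Z : ℝ) * B) * (N - ((b : ℝ) - a) / D) := by
      field_simp
    rw [e1, abs_mul, abs_of_nonneg (show (0 : ℝ) ≤ 1 / ((Z : ℝ) * B) by positivity)]
    have h1 : 1 / ((Z : ℝ) * B) ≤ 1 := by rw [div_le_one (by positivity)]; nlinarith
    have h2 : 1 / ((Z : ℝ) * B) * |(N : ℝ) - ((b : ℝ) - a) / D| ≤ 1 * 1 :=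
      mul_le_mul h1 hN (abs_nonneg _) (by norm_num)
    linarith
  rw [hcard]
  have htri := abs_sub_le ((((range N).filter (fun i : ℕ =>
      Int.fract (n ^ 2 / (Z * ((g0 + D * i : ℕ) : ℝ)) - (M0 + (k : ℝ) / B) / Z) < 1 / ((Z : ℝ) * B))).card : ℕ) : ℝ)
      (1 / ((Z : ℝ) * B) * N) (((b : ℝ) - a) / ((D : ℝ) * Z * B))
  refine htri.trans ?_
  have hE' := hE.trans (add_le_add hF hS2)
  have : (8 * C0 + 5) * T = 4 * T + 8 * C0 * T + T := by ring
  rw [this]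
  exact add_le_add hE' hG

end Pool.Agent.Work.MP_a8fbd7_nt.PAR.EF
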