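import Pool.Agent.Work.MP_a8fbd7_nt.PAR.EF.StmtsU

set_option autoImplicit false

open Finset

namespace Pool.Agent.Work.MP_a8fbd7_nt.PAR.EF

namespace XGG

lemma der (H : ℕ) (t : ℝ) : HasDerivAt (GH H) (FH H t) t := by
  have h1 : ∀ h ∈ Icc 1 H, HasDerivAt
      (fun t : ℝ => (1 - (h : ℝ) / (H + 1)) * (Real.sin (2 * Real.pi * h * t) / (Real.pi * h)))
      (2 * (1 - (h : ℝ) / (H + 1)) * Real.cos (2 * Real.pi * h * t)) t := by
    intro h hh
    have hpos : (0:ℝ) < h := by exact_mod_cast (Finset.mem_Icc.mp hh).1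
    have h2 : HasDerivAt (fun t : ℝ => 2 * Real.pi * h * t) (2 * Real.pi * h) t := by
      simpa using (hasDerivAt_id t).const_mul (2 * Real.pi * (h:ℝ))
    have h3 := ((h2.sin).div_const (Real.pi * h)).const_mul (1 - (h : ℝ) / (H + 1))
    have h4 : (1 - (h : ℝ) / (H + 1)) *
        (Real.cos (2 * Real.pi * h * t) * (2 * Real.pi * h) / (Real.pi * h)) =
        2 * (1 - (h : ℝ) / (H + 1)) * Real.cos (2 * Real.pi * h * t) := by
      have hpi : Real.pi ≠ 0 := Real.pi_ne_zero
      have hh0 : (h:ℝ) ≠ 0 := hpos.ne'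
      have : (2 * Real.pi * h) = 2 * (Real.pi * h) := by ring
      rw [this]
      have hne : Real.pi * (h:ℝ) ≠ 0 := mul_ne_zero hpi hh0
      rw [← mul_assoc, mul_div_assoc, div_self hne]
      ring
    rw [← h4]
    exact h3
  have h5 := HasDerivAt.fun_sum h1
  exact (hasDerivAt_id t).add h5

lemma half (H : ℕ) : GH H (1 / 2) = 1 / 2 := by
  unfold GH
  have : ∑ h ∈ Icc 1 H, (1 - (h : ℝ) / (H + 1)) *
      (Real.sin (2 * Real.pi * h * (1 / 2)) / (Real.pi * h)) = 0 := by
    apply Finset.sum_eq_zero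
    intro h _
    have h1 : 2 * Real.pi * (h:ℝ) * (1 / 2) = (h:ℝ) * Real.pi := by ring
    rw [h1, Real.sin_nat_mul_pi]
    simp
  rw [this, add_zero]

end XGG

theorem iGG (hFK : StFK) : StGG := by
  intro H
  refine ⟨?_, ?_, ?_, ?_⟩
  · apply monotone_of_deriv_nonneg
    · intro t
      exact (XGG.der H t).differentiableAt
    · intro t
      rw [(XGG.der H t).deriv]
      exact (hFK H t).1
  · intro x k
    unfold GH
    have : ∑ h ∈ Icc 1 H, (1 - (h : ℝ) / (H + 1)) *
        (Real.sin (2 * Real.pi * h * (x + k)) / (Real.pi * h)) =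
        ∑ h ∈ Icc 1 H, (1 - (h : ℝ) / (H + 1)) *
        (Real.sin (2 * Real.pi * h * x) / (Real.pi * h)) := by
      apply Finset.sum_congr rfl
      intro h _
      have h1 : 2 * Real.pi * (h:ℝ) * (x + k) =
          2 * Real.pi * h * x + (((h:ℤ) * k : ℤ) : ℝ) * (2 * Real.pi) := by
        push_cast
        ring
      rw [h1, Real.sin_add_int_mul_two_pi]
    rw [this]
    ring
  · intro x
    unfold GH
    have : ∑ h ∈ Icc 1 H, (1 - (h : ℝ) / (H + 1)) *
        (Real.sin (2 * Real.pi * h * (-x)) / (Real.pi * h)) =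
        -∑ h ∈ Icc 1 H, (1 - (h : ℝ) / (H + 1)) *
        (Real.sin (2 * Real.pi * h * x) / (Real.pi * h)) := by
      rw [← Finset.sum_neg_distrib]
      apply Finset.sum_congr rfl
      intro h _
      have h1 : 2 * Real.pi * (h:ℝ) * (-x) = -(2 * Real.pi * h * x) := by ring
      rw [h1, Real.sin_neg]
      ring
    rw [this]
    ring
  · intro ε hε hε2
    have hH : (0:ℝ) < (H:ℝ) + 1 := by positivity
    have hd : ∀ t : ℝ, 0 < t → HasDerivAt (fun t : ℝ => GH H t + 1 / (4 * ((H:ℝ) + 1)) * t⁻¹)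
        (FH H t + 1 / (4 * ((H:ℝ) + 1)) * (-(t ^ 2)⁻¹)) t := by
      intro t ht
      exact (XGG.der H t).add ((hasDerivAt_inv ht.ne').const_mul _)
    have hanti : AntitoneOn (fun t : ℝ => GH H t + 1 / (4 * ((H:ℝ) + 1)) * t⁻¹)
        (Set.Icc ε (1 / 2)) := by
      apply antitoneOn_of_deriv_nonpos (convex_Icc _ _)
      · intro t ht
        exact (hd t (lt_of_lt_of_le hε ht.1)).continuousAt.continuousWithinAt
      · intro t ht
        rw [interior_Icc] at ht
        exact (hd t (lt_trans hε ht.1)).differentiableAt.differentiableWithinAt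
      · intro t ht
        rw [interior_Icc] at ht
        have ht0 : 0 < t := lt_trans hε ht.1
        rw [(hd t ht0).deriv]
        have h1 : 2 * t ≤ Real.sin (Real.pi * t) := by
          have h2 := Real.mul_le_sin (x := Real.pi * t) (by positivity)
            (by nlinarith [Real.pi_pos, ht.2])
          have h3 : 2 / Real.pi * (Real.pi * t) = 2 * t := by
            field_simp
          rw [h3] at h2
          exact h2
        have h4 : (2 * t) ^ 2 ≤ Real.sin (Real.pi * t) ^ 2 :=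
          pow_le_pow_left₀ (by positivity) h1 2
        obtain ⟨hF0, hF1⟩ := hFK H t
        have h5 : FH H t * (((H:ℝ) + 1) * (2 * t) ^ 2) ≤ 1 := by
          refine le_trans ?_ hF1
          apply mul_le_mul_of_nonneg_left _ hF0
          apply mul_le_mul_of_nonneg_left h4 hH.le
        have h6 : FH H t ≤ 1 / (((H:ℝ) + 1) * (2 * t) ^ 2) := by
          rw [le_div_iff₀ (by positivity)]
          exact h5
        have h7 : 1 / (((H:ℝ) + 1) * (2 * t) ^ 2) = 1 / (4 * ((H:ℝ) + 1)) * (t ^ 2)⁻¹ := by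
          field_simp
          ring
        rw [h7] at h6
        linarith
    have h8 := hanti (Set.mem_Icc.mpr ⟨le_refl ε, hε2⟩) (Set.mem_Icc.mpr ⟨hε2, le_refl _⟩) hε2
    simp only [XGG.half] at h8
    have h9 : 1 / (4 * ((H : ℝ) + 1) * ε) = 1 / (4 * ((H:ℝ) + 1)) * ε⁻¹ := by
      rw [one_div, mul_inv, one_div]
    rw [h9]
    have h10 : 0 ≤ 1 / (4 * ((H:ℝ) + 1)) * (1 / 2 : ℝ)⁻¹ := by positivity
    linarith

end Pool.Agent.Work.MP_a8fbd7_nt.PAR.EF
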