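import Pool.Agent.Work.MP_a8fbd7_nt.PAR.EF.StmtsU
import Pool.Agent.Work.MP_56b8f5_nt.UT.I_VB
import Pool.Agent.Work.MP_56b8f5_nt.UT.I_KL

set_option autoImplicit false

/-!
MP_a8fbd7_nt, block EF, item XS: exponential sums over progressions, uniform.
-/

open Finset
open Pool.Agent.Work.MP_a8fbd7_nt.PAR.LC

noncomputable section

namespace Pool.Agent.Work.MP_a8fbd7_nt.PAR.EF

namespace XXS

/-- the second difference -/
theorem sd (M w l : ℝ) (hw : 0 < w) (hl : 0 < l) :
    (M / (w + 2 * l) - M / (w + l)) - (M / (w + l) - M / w) =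
      2 * M * l ^ 2 / (w * (w + l) * (w + 2 * l)) := by
  have h1 : w + l ≠ 0 := by positivity
  have h2 : w + 2 * l ≠ 0 := by positivity
  field_simp
  ring

end XXS

open XXS in
theorem iXS : StXS := by
  obtain ⟨C0, hC0, hVB⟩ := Pool.Agent.Work.MP_56b8f5_nt.UT.iVB Pool.Agent.Work.MP_56b8f5_nt.UT.iKL
    (8 : ℝ) (by norm_num)
  refine ⟨max C0 1, le_max_right _ _, ?_⟩
  intro n r D Z h x0 N hn0 hr hD hZ hh hlo hhi
  have hDr : (0 : ℝ) < D := by exact_mod_cast hD
  have hZr : (0 : ℝ) < Z := by exact_mod_cast hZ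
  have hhr : (0 : ℝ) < h := by exact_mod_cast hh
  set K : ℝ := (h : ℝ) * D ^ 2 / (4 * Z * r ^ 3 * n) with hK
  have hK0 : 0 < K := by positivity
  have hsK : 0 < Real.sqrt K := Real.sqrt_pos.2 hK0
  have hrn : 0 < r * n := mul_pos hr hn0
  have hN : (N : ℝ) ≤ r * n / D + 1 := by
    rcases Nat.eq_zero_or_pos N with h | h
    · rw [h]; push_cast; positivity
    · have h1 := hhi (N - 1) (by omega)
      push_cast at h1
      have h2 : ((N - 1 : ℕ) : ℝ) = N - 1 := by rw [Nat.cast_sub h]; norm_num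
      rw [h2] at h1
      have h3 : (N - 1 : ℝ) ≤ r * n / D := by
        rw [le_div_iff₀ (by positivity)]
        nlinarith
      linarith
  have hdd : ∀ i, 0 ≤ i → i + 2 < N →
      K ≤ Pool.Agent.Work.MP_56b8f5_nt.UT.dd 2
        (fun i : ℕ => (h : ℝ) * (n ^ 2 / (Z * ((x0 + D * i : ℕ) : ℝ)))) i ∧
      Pool.Agent.Work.MP_56b8f5_nt.UT.dd 2
        (fun i : ℕ => (h : ℝ) * (n ^ 2 / (Z * ((x0 + D * i : ℕ) : ℝ)))) i ≤
        (8 : ℝ) * K := by
    intro i _ hi
    set w : ℝ := (x0 : ℝ) + D * i with hw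
    have hwlo : r * n ≤ w := by
      have : (0 : ℝ) ≤ D * i := by positivity
      rw [hw]; linarith
    have hw0 : 0 < w := lt_of_lt_of_le hrn hwlo
    have hwhi : w + 2 * D ≤ 2 * r * n := by
      have := hhi (i + 2) hi
      push_cast at this
      rw [hw]; linarith
    have hval : Pool.Agent.Work.MP_56b8f5_nt.UT.dd 2
        (fun i : ℕ => (h : ℝ) * (n ^ 2 / (Z * ((x0 + D * i : ℕ) : ℝ)))) i =
        2 * (h * n ^ 2 / Z) * D ^ 2 / (w * (w + D) * (w + 2 * D)) := by
      rw [← sd (h * n ^ 2 / Z) w D hw0 hDr]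
      show ((h : ℝ) * (n ^ 2 / (Z * ((x0 + D * (i + 1 + 1) : ℕ) : ℝ))) -
        (h : ℝ) * (n ^ 2 / (Z * ((x0 + D * (i + 1) : ℕ) : ℝ)))) -
        ((h : ℝ) * (n ^ 2 / (Z * ((x0 + D * (i + 1) : ℕ) : ℝ))) -
        (h : ℝ) * (n ^ 2 / (Z * ((x0 + D * i : ℕ) : ℝ)))) = _
      have e0 : ((x0 + D * i : ℕ) : ℝ) = w := by push_cast; rw [hw]
      have e1 : ((x0 + D * (i + 1) : ℕ) : ℝ) = w + D := by push_cast; rw [hw]; ring
      have e2 : ((x0 + D * (i + 1 + 1) : ℕ) : ℝ) = w + 2 * D := by push_cast; rw [hw]; ring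
      rw [e0, e1, e2]
      have h1 : w + D ≠ 0 := by positivity
      have h2 : w + 2 * D ≠ 0 := by positivity
      field_simp
    rw [hval]
    have hprod1 : (r * n) ^ 3 ≤ w * (w + D) * (w + 2 * D) := by
      have a1 : r * n * (r * n) ≤ w * (w + D) :=
        mul_le_mul hwlo (by linarith) hrn.le hw0.le
      have a2 : r * n * (r * n) * (r * n) ≤ w * (w + D) * (w + 2 * D) :=
        mul_le_mul a1 (by linarith) hrn.le (by positivity)
      calc (r * n) ^ 3 = r * n * (r * n) * (r * n) := by ring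
        _ ≤ _ := a2
    have hprod2 : w * (w + D) * (w + 2 * D) ≤ (2 * r * n) ^ 3 := by
      have hb : 0 ≤ 2 * r * n := by positivity
      have a1 : w * (w + D) ≤ (2 * r * n) * (2 * r * n) :=
        mul_le_mul (by linarith) (by linarith) (by positivity) hb
      have a2 : w * (w + D) * (w + 2 * D) ≤ (2 * r * n) * (2 * r * n) * (2 * r * n) :=
        mul_le_mul a1 hwhi (by positivity) (by positivity)
      calc w * (w + D) * (w + 2 * D) ≤ _ := a2
        _ = (2 * r * n) ^ 3 := by ring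
    have hnum : 0 ≤ 2 * ((h : ℝ) * n ^ 2 / Z) * D ^ 2 := by positivity
    constructor
    · have : K = 2 * (h * n ^ 2 / Z) * D ^ 2 / (2 * r * n) ^ 3 := by
        rw [hK]; field_simp; ring
      rw [this]
      exact div_le_div_of_nonneg_left hnum (by positivity) hprod2
    · have : (8 : ℝ) * K = 2 * (h * n ^ 2 / Z) * D ^ 2 / (r * n) ^ 3 := by
        rw [hK]; field_simp; ring
      rw [this]
      exact div_le_div_of_nonneg_left hnum (by positivity) hprod1
  have hmain := hVB (fun i : ℕ => (h : ℝ) * (n ^ 2 / (Z * ((x0 + D * i : ℕ) : ℝ)))) 0 N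
    (r * n / D + 1) K (Nat.zero_le _) (by push_cast; linarith)
    (by have : 0 ≤ r * n / D := by positivity
        linarith) hK0 hdd
  rw [Finset.range_eq_Ico]
  refine le_trans hmain ?_
  exact mul_le_mul_of_nonneg_right (le_max_left _ _) (by positivity)

end Pool.Agent.Work.MP_a8fbd7_nt.PAR.EF
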