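import Pool.Agent.Work.MP_a8fbd7_nt.PAR.EF.I_FK
import Pool.Agent.Work.MP_a8fbd7_nt.PAR.EF.I_GG
import Pool.Agent.Work.MP_a8fbd7_nt.PAR.EF.I_E1
import Pool.Agent.Work.MP_a8fbd7_nt.PAR.EF.I_E2
import Pool.Agent.Work.MP_a8fbd7_nt.PAR.EF.I_XS
import Pool.Agent.Work.MP_a8fbd7_nt.PAR.EF.I_CB
import Pool.Agent.Work.MP_a8fbd7_nt.PAR.EF.I_AP
import Pool.Agent.Work.MP_a8fbd7_nt.PAR.EF.I_EQE

set_option autoImplicit false

/-!
MP_a8fbd7_nt, block EF, part U, composition (items: helper94, helper74, helper76, helper78, helper86, helper24, helper34, helper95).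
-/

namespace Pool.Agent.Work.MP_a8fbd7_nt.PAR.EF

/-- The effective equidistribution statement of `EF/Defs.lean`. -/
theorem all_EQE : StEQE := iEQE (iE2 (iE1 (iGG iFK))) iXS iCB iAP

end Pool.Agent.Work.MP_a8fbd7_nt.PAR.EF
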