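import Pool.Agent.Work.MP_a8fbd7_nt.PAR.EF.StmtsM

set_option autoImplicit false

/-!
MP_a8fbd7_nt, block EF, part Z (choice of the parameters, conclusion), captain helper73.  The docstring of each statement is its
complete proof.  An item is `theorem prf (h1 : StA) (h2 : StB) ... : StNAME` in `PAR/EF/I_NAME.lean` (namespace `...PAR.EF.I_NAME`) with
exactly the hypotheses listed in the docstring.

`l = log x = 2 log n`, `n = √x = exp (l/2)`.  All statements are for large `l`; `≪` means up to a constant factor.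
-/

open Finset

noncomputable section

namespace Pool.Agent.Work.MP_a8fbd7_nt.PAR.EF

open Pool.Agent.Work.MP_a8fbd7_nt.PAR.LC

/-! ## The parameters -/

def cL (l : ℝ) : ℝ := l ^ (-(1 / 100) : ℝ)
def JL (l : ℝ) : ℕ := ⌈8 / (cL l) ^ 2⌉₊
def BL (l : ℝ) : ℕ := ⌈380000 * (JL l : ℝ) / (cL l) ^ 2⌉₊
def WL (l : ℝ) : ℕ := ⌊l ^ (17 / 20 : ℝ)⌋₊
def K0L (l : ℝ) : ℕ := ⌊Real.exp (l ^ (1 / 20 : ℝ))⌋₊
def K1L (l : ℝ) : ℕ := ⌊Real.exp (l ^ (17 / 20 : ℝ))⌋₊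
def K2L (l : ℝ) : ℕ := ⌊Real.exp (l ^ (9 / 10 : ℝ))⌋₊
def K3L (l : ℝ) : ℕ := ⌊Real.exp (l ^ (49 / 50 : ℝ))⌋₊
def mL (l : ℝ) : ℕ := ⌊11 / 25 * Real.log l⌋₊

/-- lower bound for the expectation of the weighted number of links: `Am = ω φ(P)/(84 P) ((3/2)^m - 1)`, `P = primorial W` -/
def Am (c r : ℝ) (W m : ℕ) : ℝ :=
  ((c / (25 * r)) * (Nat.totient (primorial W) : ℝ) / (84 * (primorial W : ℝ))) * ((3 / 2 : ℝ) ^ m - 1)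

/-- the bound of StBn -/
def Vm (c r : ℝ) (W K0 K1 K3 m : ℕ) : ℝ :=
  Real.exp (5 * Sr K0 K1 / 4) * ((c / (25 * r)) ^ 2 / (10 * W) + (1 + Real.log (3 * (K1 : ℝ) ^ (2 * m))) / K0) +
    Real.exp (Sr K0 K1 / 4) * (3 + 3 * (1 + Real.log ((K1 : ℝ) ^ m * K3)) ^ 2 / K0)

/-! ## Items -/

/-- ITEM Pa1 (the conditions hold; limits).  `n^(1/200) = exp(l/400)`, `n^(1/100) = exp(l/200)`, `c = l^(-1/100)`, `8/c² ≤ J ≤ 8/c² + 1 ≤ 9/c²`, `J/c² ≤ 9 l^(1/25)`.  `c1`: `l ≥ 10^100`.  `B2`: `B ≤ 380000 J/c² + 1`.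
`s1`: `K1^m K3 ≤ exp((11/25) log l · l^(17/20) + l^(49/50)) ≤ exp(l/400)`.  `s2`: `10^7 · 81 · l^(7/100) ≤ exp(l/200)`.  `WK`: `l^(17/20) ≤ exp(l^(1/20)) - 1`.  `m1`: `log l ≥ 25/11`.  `K0m`: `C log l · l^(1/25) ≤ exp(l^(1/20)) - 1`.
`K12`: `C l^(1/25) exp((22/25) log l · l^(17/20)) ≤ exp(l^(9/10)) - 1`.  `PK`: `primorial W ≤ 4^W` (Mathlib `primorial_le_four_pow`), `C l^(1/25) exp(log 4 · l^(17/20)) ≤ exp(l^(9/10)) - 1`.  `K01`, `K23`: monotone for `l ≥ 1`. -/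
def StPa1 : Prop := ∃ l0 : ℝ, ∀ l : ℝ, l0 ≤ l →
  Pa (Real.exp (l / 2)) (cL l) (JL l) (BL l) (WL l) (K0L l) (K1L l) (K2L l) (K3L l) (mL l)

/-- ITEM Mes (sizes of the sums `Sr`).  Uses StSr.  `exp x - 1 ≥ exp(x/2)` for `x ≥ 2`... so for large `l`: `l^a/2 ≤ log ⌊exp(l^a)⌋ ≤ l^a`.  So by StSr `exp(Sr K0 K1) ≤ e^C log K1/log K0 ≤ 2 e^C l^(4/5)`, `≥ l^(4/5)/(2 e^C)`, and
`exp(Sr K2 K3) ≥ l^(2/25)/(2 e^C)`, `Sr K2 K3 ≤ C + log (2 l^(2/25)) ≤ log l`. -/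
def StMes : Prop := StSr → ∃ C l0 : ℝ, 1 ≤ C ∧ ∀ l : ℝ, l0 ≤ l →
  Real.exp (Sr (K0L l) (K1L l)) ≤ C * l ^ (4 / 5 : ℝ) ∧ l ^ (4 / 5 : ℝ) ≤ C * Real.exp (Sr (K0L l) (K1L l)) ∧
  l ^ (2 / 25 : ℝ) ≤ C * Real.exp (Sr (K2L l) (K3L l)) ∧ Sr (K2L l) (K3L l) ≤ Real.log l

/-- ITEM Ph (totient of the primorial).  `P/φ(P) = ∏_{p ≤ W} (1 - 1/p)⁻¹ ≤ exp(∑_{p ≤ W} (1/p + 1/(p(p-1)))) ≤ e exp(S1 W) ≤ C log W`: `S_Mert` of `Pool.Agent.Work.MP_56b8f5_nt.WM` (theorem `I_Mert.Mert_pf`); the same computation is in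
`PAR/LC/I_Ttp.lean`. -/
def StPh : Prop := ∃ C : ℝ, 1 ≤ C ∧ ∀ W : ℕ, 2 ≤ W →
  (primorial W : ℝ) ≤ C * Real.log W * (Nat.totient (primorial W) : ℝ)

/-- ITEM T12 (first two limits).  Uses StMes, StSr.  `2^m ≤ exp((11/25) log 2 · log l) ≤ l^(306/1000)` (`log 2 < 0.6932`), `J³ ≤ 729 c^(-6) = 729 l^(6/100)`, `exp(-Sr/2) = (exp Sr)^(-1/2) ≤ (C/l^(4/5))^(1/2)`: the first expression is
`≪ l^(0.06 + 0.306 - 0.4)`; the second is `≪ l^(0.06 - 0.08)`. -/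
def StT12 : Prop := StMes → StSr → ∀ κ : ℝ, 0 < κ → ∃ l0 : ℝ, ∀ l : ℝ, l0 ≤ l →
  (JL l : ℝ) ^ 3 * (2 ^ (mL l) * Real.exp (-(Sr (K0L l) (K1L l) / 2))) ≤ κ ∧
  (JL l : ℝ) ^ 3 * Real.exp (-Sr (K2L l) (K3L l)) ≤ κ

/-- ITEM AmL (lower bound for `Am`).  Uses StPh.  `ω = c/(25 r) ≥ c²/(47500 J) ≥ c⁴/427500` (`J ≤ 9/c²`), `(3/2)^m - 1 ≥ (3/2)^m/2` (`m ≥ 2`), `(3/2)^m ≥ (2/3) exp((11/25) log(3/2) log l) ≥ (2/3) l^(176/1000)` (`log(3/2) ≥ 0.4`), and `φ(P)/P ≥ 1/(C log W) ≥ 1/(C log l)`.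
So `Am ≥ c0 ω l^(0.176)/log l ≥ c0' l^(-0.04 + 0.176)/log l`. -/
def StAmL : Prop := StPh → ∃ d l0 : ℝ, 0 < d ∧ ∀ l : ℝ, l0 ≤ l → ∀ r : ℝ, 200 * (JL l : ℝ) / cL l ≤ r → r ≤ 1900 * (JL l : ℝ) / cL l →
  d * (cL l / (25 * r)) * l ^ (176 / 1000 : ℝ) / Real.log l ≤ Am (cL l) r (WL l) (mL l) ∧
  d * l ^ (136 / 1000 : ℝ) / Real.log l ≤ Am (cL l) r (WL l) (mL l)

/-- ITEM T3 (main limit).  Uses StMes, StSr, StAmL, StPh.  `ω = c/(25r) ≤ 1`.  `exp(5Sr/4) ω²/(10 W) ≤ C l^(1) ω² l^(-17/20)` (`W ≥ l^(17/20)/2`), divided by `Am² ≥ d² ω² l^(0.352)/(log l)²`: `≪ l^(-0.202) (log l)²`.  `exp(5Sr/4)(1 + log(3K1^(2m)))/K0` and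
`exp(Sr/4)(1 + log(K1^m K3))²/K0` are `≪ l⁴ exp(-l^(1/20))`, divided by `Am² ≥ d² l^(0.272)/(log l)²`, and `3 exp(Sr/4)` is `≪ l^(0.2)`, divided by `Am²`: `≪ l^(-0.072)(log l)²`.  Times `Sr K2 K3 ≤ log l` and `J² ≤ 81 l^(0.04)`: everything tends to `0`. -/
def StT3 : Prop := StMes → StSr → StAmL → StPh → ∀ κ : ℝ, 0 < κ → ∃ l0 : ℝ, ∀ l : ℝ, l0 ≤ l → ∀ r : ℝ,
  200 * (JL l : ℝ) / cL l ≤ r → r ≤ 1900 * (JL l : ℝ) / cL l →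
  Sr (K2L l) (K3L l) * Vm (cL l) r (WL l) (K0L l) (K1L l) (K3L l) (mL l) * (JL l : ℝ) ^ 2 ≤ κ * Am (cL l) r (WL l) (mL l) ^ 2

/-- ITEM BdS (few bad `g`).  Uses StBd1, StUm, StOm, StNo, StPa1, StT12, StT3, StAmL and the results they need (StMes, StSr, StPh).  `n = exp(l/2)`, `c`, `J`, ... the parameters, `R = 200 J/c`, target `T = 200 n/(c J²) = R n/J³`.  StBd1.  First term: StOm with
`X = ⌊9Rn⌋ ≥ n ≥ K1` (`s1`): `≤ C·9Rn·2^m exp(-Sr/2) ≤ 9 C κ' R n/J³` (StT12).  Second: StNo, `K3 ≤ n`: `≤ 9 C κ' Rn/J³`.  Third: `46 (B/J + 1) ≤ 92 B/J` sets, by StUm (`r_i = R(21/20)^i ∈ [R, (19/2)R]`) each at most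
`Am^(-2) ((95 J n/(cB)) Sr Vm + C n^(199/200))`; by StT3 `Sr Vm/Am² ≤ κ'/J²`, so the main terms add up to `≤ 92·95 κ' n/(c J²) ≤ 44 κ' T`; the errors: `Am² ≥ l^(-1)`... `≥ 1/l` for large `l` (StAmL), so they are `≤ 92 B C l n^(199/200) ≤ κ' T` for large `l`
(`B ≤ 400000 J/c²`, `J ≤ 9/c²`: powers of `l` against `n^(1/200) = exp(l/400)`). -/
def StBdS : Prop := ∀ κ : ℝ, 0 < κ → ∃ l0 : ℝ, ∀ l : ℝ, l0 ≤ l → ∀ (f : ℕ → ℤ) (F : ℤ), Sgn f → Cst f F (Real.exp (l / 2)) (cL l) →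
  ((Bd f (Real.exp (l / 2)) (200 * (JL l : ℝ) / cL l) (JL l)).card : ℝ) ≤ κ * (200 * Real.exp (l / 2) / (cL l * (JL l : ℝ) ^ 2))

/-- A positive proportion of sign changes (block MR, `MRchg`, with the `lam` of block LC). -/
def Chg : Prop := ∃ (c : ℝ) (X0 : ℕ), 0 < c ∧ ∀ X : ℕ, X0 ≤ X →
  c * X ≤ (((Ico X (2 * X)).filter (fun x => lam x ≠ lam (x + 1))).card : ℝ)

/-- ITEM EnS (conclusion).  Uses Chg, StCh4, StBdS, StPa1.  Suppose `x` is large and no `m` with `x ≤ m ≤ x + √x/(log x)^(1/100)` has `liouville m = s`.  `l = log x`, `n = √x = exp(l/2)`, `c = cL l = (log x)^(-1/100)`: `Cst lam (-s) n c` (`n² = x`, the values of the Liouville function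
at `m ≥ 1` are `±1`).  `lam` is `Sgn` (as in `PAR/LC/I_EnN.lean`).  With `X = ⌈200 J/c · n/J²⌉ ≥ 200 n/(cJ)`: StCh4 (`J/c ≤ n^(1/400)` for large `l`: a power of `l` against `exp(l/800)`; `J ≥ J0` as `J ≥ 8/c² → ∞`; StPa1 gives the bounds for `J`, `c`) and StBdS with `κ = c₁/16` give
`#{m ∈ [X,2X) : lam m ≠ lam (m+1)} ≤ 3J κ · 200n/(cJ²) + 4J^(-1/4) X ≤ (3κ + 4 J^(-1/4)) X ≤ c₁ X/2 < c₁ X` for large `l`, against Chg (`X ≥ X0` for large `l`: `X ≥ n`... `200/(cJ) ≥ 22 c`). -/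
def StEnS : Prop := Chg → StCh4 → StBdS → StPa1 → ThmS

end Pool.Agent.Work.MP_a8fbd7_nt.PAR.EF
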