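import Pool.Agent.Work.MP_a8fbd7_nt.PAR.MR.Bridge
import Pool.Agent.Work.MP_a8fbd7_nt.PAR.EF.StmtsZ

set_option autoImplicit false

/-!
MP_a8fbd7_nt, block EF: the interface with block MR.
-/

open Finset

noncomputable section

namespace Pool.Agent.Work.MP_a8fbd7_nt.PAR

theorem bridge_Chg (h : MR.MRchg) : EF.Chg := by
  obtain ⟨c, X0, hc, hX⟩ := h
  refine ⟨c, X0, hc, fun X hXX => ?_⟩
  have h1 := hX X hXX
  have h2 : ((Ico X (2 * X)).filter (fun x => LC.lam x ≠ LC.lam (x + 1))) =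
      ((Ico X (2 * X)).filter (fun x => MR.lam (x + 1) ≠ MR.lam x)) := by
    ext x
    simp only [Finset.mem_filter]
    constructor
    · rintro ⟨h3, h4⟩
      exact ⟨h3, fun h5 => h4 ((bridge_lam _ _).1 h5).symm⟩
    · rintro ⟨h3, h4⟩
      exact ⟨h3, fun h5 => h4 ((bridge_lam _ _).2 h5.symm)⟩
  rw [h2]
  exact h1

end Pool.Agent.Work.MP_a8fbd7_nt.PAR
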