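import Pool.Agent.Work.MP_a8fbd7_nt.PAR.LC.Stmts3

set_option autoImplicit false

/-!
MP_a8fbd7_nt, block EF (effective local constancy), captain helper73: definitions and interface statements.

THEOREM S: for all large `x` the Liouville function takes both values on `[x, x + √x/(log x)^(1/100)]`.

Sizes (`L = log n`): `c = L^(-1/100)`, `J = ⌈8/c²⌉`, `R = 200 J/c`, `B = ⌈1900 R/c⌉`, `K0 = ⌊exp (L^(1/20))⌋`, `K1 = ⌊exp (L^(17/20))⌋`,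
`W = ⌊L^(17/20)⌋`, `K2 = ⌊exp (L^(9/10))⌋`, `K3 = ⌊exp (L^(49/50))⌋`, `m = ⌊(11/25) log L⌋`.  The links `(q, t, z, ρ)` of block LC are used with `j = 1`, `t` a
prime of `(K2, K3]` and `q` a product of at most `m` primes of `(K0, K1]`.
-/

open Finset

noncomputable section

namespace Pool.Agent.Work.MP_a8fbd7_nt.PAR.EF

open Pool.Agent.Work.MP_a8fbd7_nt.PAR.LC

/-- the primes of `(a, b]` -/
def Pr (a b : ℕ) : Finset ℕ := (Ioc a b).filter Nat.Prime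

/-- `∑ 1/p` over the primes of `(a, b]` -/
def Sr (a b : ℕ) : ℝ := ∑ p ∈ Pr a b, 1 / (p : ℝ)

/-- the number of the primes of `(a, b]` which divide `g` -/
def om (a b g : ℕ) : ℕ := ((Pr a b).filter (fun p => p ∣ g)).card

/-- the nonempty sets of at most `m` primes of `(a, b]` -/
def SS (a b m : ℕ) : Finset (Finset ℕ) := (Pr a b).powerset.filter (fun S => S.Nonempty ∧ S.card ≤ m)

/-- the product of a set of primes -/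
def qS (S : Finset ℕ) : ℕ := ∏ p ∈ S, p

/-- the weight `2^(-|S|)` -/
def vS (S : Finset ℕ) : ℝ := (1 / 2 : ℝ) ^ S.card

/-- The integers `g ∈ [a, b]` with `g ≡ x0 mod D`, `⌊Y/g⌋ ≡ M0 mod Z` and fractional part of `Y/g` in the cell `[k/B, (k+1)/B)`. -/
def cel2 (Y : ℝ) (a b D x0 Z M0 B k : ℕ) : Finset ℕ :=
  (Icc a b).filter (fun g => g ≡ x0 [MOD D] ∧ ⌊Y / g⌋₊ ≡ M0 [MOD Z] ∧
    (k : ℝ) / B ≤ Y / g - ⌊Y / g⌋₊ ∧ Y / g - ⌊Y / g⌋₊ < ((k : ℝ) + 1) / B)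

/-! ## Interface: part U (equidistribution) -/

/-- RESULT of part U (effective equidistribution of `(g mod D, ⌊n²/g⌋ mod Z, cell)`). -/
def StEQE : Prop := ∃ C : ℝ, 1 ≤ C ∧ ∀ (n r : ℝ) (a b D x0 Z M0 B k : ℕ), 1 ≤ n → n ^ (-(1 / 50) : ℝ) ≤ r → r ≤ n ^ (1 / 50 : ℝ) →
  r * n ≤ a → a ≤ b → (b : ℝ) ≤ 2 * r * n → 1 ≤ D → (D : ℝ) ≤ n ^ (1 / 50 : ℝ) → 1 ≤ Z → (Z : ℝ) ≤ n ^ (1 / 50 : ℝ) →
  1 ≤ B → (B : ℝ) ≤ n ^ (1 / 50 : ℝ) → k < B →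
  |((cel2 (n ^ 2) a b D x0 Z M0 B k).card : ℝ) - ((b : ℝ) - a) / ((D : ℝ) * Z * B)| ≤ C * n ^ (19 / 20 : ℝ)

/-! ## Interface: part H (anatomy of integers) -/

/-- RESULT (few small prime factors): the `g ≤ X` with fewer than `m` prime factors in `(a, b]`. -/
def StOm : Prop := ∃ C : ℝ, 1 ≤ C ∧ ∀ X a b m : ℕ, 2 ≤ X → b ≤ X →
  (((Icc 1 X).filter (fun g => om a b g < m)).card : ℝ) ≤ C * X * 2 ^ m * Real.exp (-(Sr a b / 2))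

/-- RESULT (no prime factor): the `g ≤ X` such that no prime of `(a, b]` divides `g + 1`. -/
def StNo : Prop := ∃ C : ℝ, 1 ≤ C ∧ ∀ X a b : ℕ, 2 ≤ X → b ≤ X →
  (((Icc 1 X).filter (fun g => ∀ p ∈ Pr a b, ¬ p ∣ g + 1)).card : ℝ) ≤ C * X * Real.exp (-Sr a b)

/-- RESULT (Mertens). -/
def StSr : Prop := ∃ C : ℝ, 1 ≤ C ∧ ∀ a b : ℕ, 2 ≤ a → a ≤ b → |Sr a b - Real.log (Real.log b / Real.log a)| ≤ C

/-- RESULT (sums over `SS`). -/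
def StSS : Prop := ∀ a b m : ℕ,
  ∑ S ∈ SS a b m, vS S ^ 2 / (qS S : ℝ) ≤ Real.exp (Sr a b / 4) ∧
  ∑ S ∈ SS a b m, ∑ S' ∈ SS a b m, vS S * vS S' / (Nat.lcm (qS S) (qS S') : ℝ) ≤ Real.exp (5 * Sr a b / 4)

/-- RESULT (size of `SS`; lower bound for the weight of the divisors). -/
def StSz : Prop := ∀ a b m : ℕ, 1 ≤ a → a ≤ b →
  ((SS a b m).card : ℝ) ≤ ((b : ℝ) + 1) ^ m ∧
  (∀ S ∈ SS a b m, a < qS S ∧ qS S ≤ b ^ m ∧ (qS S).primeFactors = S) ∧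
  ∀ g : ℕ, m ≤ om a b g → (3 / 2 : ℝ) ^ m - 1 ≤ ∑ S ∈ (SS a b m).filter (fun S => qS S ∣ g), vS S

/-! ## Interface: part Q (the sums over `Zs` for composite `q`) -/

/-- RESULT (lower bound for the single sum; compare StElo). -/
def StEloC : Prop := ∀ (W : ℕ) (w0 ω e0 e1 : ℝ) (q t K0 m : ℕ), Wn w0 ω e0 e1 → 1 < q → (∀ p ∈ q.primeFactors, K0 < p) →
  q.primeFactors.card ≤ m → t.Prime → q < t → W ≤ K0 → 4 * ((m : ℝ) + 1) / ω ≤ K0 → 6 * (primorial W : ℝ) / (e1 - e0) ≤ t →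
  ω * (e1 - e0) * (Nat.totient (primorial W) : ℝ) / (4 * e1 * (primorial W : ℝ)) ≤ Es W w0 ω e0 e1 q t

/-- RESULT (correlations for `q ≠ q'`, composite; compare StFne). -/
def StFneC : Prop := ∀ (W : ℕ) (w0 ω e0 e1 : ℝ) (q q' t : ℕ), Wn w0 ω e0 e1 → 1 ≤ q → 1 ≤ q' → q ≠ q' → 1 ≤ t → 1 ≤ W →
  1 / ω ≤ q → 1 / ω ≤ q' → (3 * q * q' : ℝ) ≤ (e1 - e0) * t →
  Fs W w0 ω e0 e1 q t q' t ≤ Es W w0 ω e0 e1 q t * Es W w0 ω e0 e1 q' t +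
    (8 * ω * (e1 - e0) ^ 2 / e0 ^ 2) * (ω / W + (1 + Real.log (3 * q * q')) / q')

/-- RESULT (correlations for `q = q'`, `t = t'`, composite; compare StFeq, StGsd). -/
def StFeqC : Prop := ∀ (W : ℕ) (w0 ω e0 e1 : ℝ) (q t : ℕ), Wn w0 ω e0 e1 → 1 ≤ q → 1 ≤ t → q.Coprime t → 1 ≤ W → 1 / ω ≤ q →
  (q : ℝ) ≤ (e1 - e0) * t →
  Fs W w0 ω e0 e1 q t q t ≤ Es W w0 ω e0 e1 q t ^ 2 + 16 * ω ^ 2 * (e1 - e0) ^ 2 / e0 ^ 2 / W +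
    (2 * (e1 / e0) + 2 * (e1 / e0) * (1 + Real.log (q * t)) ^ 2 / q)

/-! ## The goal -/

/-- THEOREM S: both values of the Liouville function occur on `[x, x + √x/(log x)^(1/100)]` for all large `x`. -/
def ThmS : Prop := ∃ x0 : ℝ, ∀ x : ℝ, x0 ≤ x → ∀ s : ℤ, s = 1 ∨ s = -1 → ∃ m : ℕ, x ≤ m ∧
  (m : ℝ) ≤ x + Real.sqrt x / Real.log x ^ (1 / 100 : ℝ) ∧ ArithmeticFunction.liouville m = s

end Pool.Agent.Work.MP_a8fbd7_nt.PAR.EF
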