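import Pool.Agent.Work.MP_a8fbd7_nt.PAR.EF.StmtsZ

set_option autoImplicit false

/-!
Item AmL: lower bound for `Am`.
-/

open Finset

noncomputable section

namespace Pool.Agent.Work.MP_a8fbd7_nt.PAR.EF.I_AmL

open Pool.Agent.Work.MP_a8fbd7_nt.PAR.LC

theorem log_three_half : (2 / 5 : ℝ) ≤ Real.log (3 / 2) := by
  rw [Real.le_log_iff_exp_le (by norm_num)]
  have h1 : Real.exp 1 < 2.7182818286 := Real.exp_one_lt_d9
  have h2 : Real.exp (2 / 5) ^ 5 = Real.exp 1 ^ 2 := by
    rw [← Real.exp_nat_mul, ← Real.exp_nat_mul]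
    norm_num
  have h3 : Real.exp 1 ^ 2 ≤ (3 / 2 : ℝ) ^ 5 := by
    have := Real.exp_pos 1
    nlinarith
  refine le_of_pow_le_pow_left₀ (n := 5) (by norm_num) (by norm_num) ?_
  rw [h2]
  exact h3

theorem pow_lower {l : ℝ} (hl : 1 < l) :
    2 / 3 * l ^ (176 / 1000 : ℝ) ≤ (3 / 2 : ℝ) ^ (mL l) := by
  have hlog : 0 < Real.log l := Real.log_pos hl
  have hl0 : 0 < l := by linarith
  have hm : 11 / 25 * Real.log l - 1 ≤ (mL l : ℝ) := by
    unfold mL
    have := Nat.lt_floor_add_one (11 / 25 * Real.log l)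
    linarith
  have h1 : (3 / 2 : ℝ) ^ (11 / 25 * Real.log l - 1) ≤ (3 / 2 : ℝ) ^ (mL l) := by
    rw [← Real.rpow_natCast]
    exact Real.rpow_le_rpow_of_exponent_le (by norm_num) hm
  refine le_trans ?_ h1
  rw [Real.rpow_sub (by norm_num), Real.rpow_one]
  have h2 : l ^ (176 / 1000 : ℝ) ≤ (3 / 2 : ℝ) ^ (11 / 25 * Real.log l) := by
    rw [Real.rpow_def_of_pos hl0, Real.rpow_def_of_pos (by norm_num : (0 : ℝ) < 3 / 2)]
    apply Real.exp_le_exp.2
    have h3 := mul_le_mul_of_nonneg_right log_three_half (by positivity : 0 ≤ 11 / 25 * Real.log l)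
    linarith
  have h3 : (3 / 2 : ℝ) ^ (11 / 25 * Real.log l) / (3 / 2) =
      2 / 3 * (3 / 2 : ℝ) ^ (11 / 25 * Real.log l) := by ring
  rw [h3]
  linarith

theorem prf : StAmL := by
  intro hPh
  obtain ⟨C, hC1, hC⟩ := hPh
  have hC0 : 0 < C := by linarith
  refine ⟨1 / (427500 * 252 * C), Real.exp 5, by positivity, fun l hl r hr1 hr2 => ?_⟩
  have he5 : (6 : ℝ) ≤ Real.exp 5 := by
    have := Real.add_one_le_exp (5 : ℝ)
    linarith
  have hl1 : 1 < l := by linarith
  have hl0 : 0 < l := by linarith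
  have hlog5 : 5 ≤ Real.log l := by
    rw [Real.le_log_iff_exp_le hl0]
    exact hl
  have hlog0 : 0 < Real.log l := by linarith
  -- the parameters
  have hc0 : 0 < cL l := by
    unfold cL
    positivity
  have hc1 : cL l ≤ 1 := by
    unfold cL
    exact Real.rpow_le_one_of_one_le_of_nonpos hl1.le (by norm_num)
  have hc4 : cL l ^ 4 = l ^ (-(4 / 100) : ℝ) := by
    unfold cL
    rw [← Real.rpow_natCast, ← Real.rpow_mul hl0.le]
    norm_num
  have hJ1 : 8 / cL l ^ 2 ≤ (JL l : ℝ) := Nat.le_ceil _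
  have hJ0 : 0 < (JL l : ℝ) := lt_of_lt_of_le (by positivity) hJ1
  have hJ2 : (JL l : ℝ) * cL l ^ 2 ≤ 9 := by
    have h1 : (JL l : ℝ) < 8 / cL l ^ 2 + 1 := Nat.ceil_lt_add_one (by positivity)
    have h2 : (JL l : ℝ) * cL l ^ 2 ≤ (8 / cL l ^ 2 + 1) * cL l ^ 2 :=
      mul_le_mul_of_nonneg_right h1.le (by positivity)
    have h3 : (8 / cL l ^ 2 + 1) * cL l ^ 2 = 8 + cL l ^ 2 := by
      field_simp
    have h4 : cL l ^ 2 ≤ 1 := pow_le_one₀ hc0.le hc1
    linarith
  have hr0 : 0 < r := lt_of_lt_of_le (by positivity) hr1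
  have hW1 : (2 : ℝ) ≤ l ^ (17 / 20 : ℝ) := by
    have h1 : (4 : ℝ) ^ (1 / 2 : ℝ) ≤ l ^ (17 / 20 : ℝ) := by
      calc (4 : ℝ) ^ (1 / 2 : ℝ) ≤ l ^ (1 / 2 : ℝ) :=
            Real.rpow_le_rpow (by norm_num) (by linarith) (by norm_num)
        _ ≤ l ^ (17 / 20 : ℝ) := Real.rpow_le_rpow_of_exponent_le hl1.le (by norm_num)
    have h2 : (4 : ℝ) ^ (1 / 2 : ℝ) = 2 := by
      rw [show (4 : ℝ) = 2 ^ (2 : ℝ) by norm_num, ← Real.rpow_mul (by norm_num)]
      norm_num
    linarith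
  have hW2 : 2 ≤ WL l := Nat.le_floor (by exact_mod_cast hW1)
  have hW3 : (WL l : ℝ) ≤ l := by
    calc (WL l : ℝ) ≤ l ^ (17 / 20 : ℝ) := Nat.floor_le (by positivity)
      _ ≤ l ^ (1 : ℝ) := Real.rpow_le_rpow_of_exponent_le hl1.le (by norm_num)
      _ = l := Real.rpow_one l
  have hW0 : (0 : ℝ) < (WL l : ℝ) := by
    have : 0 < WL l := by omega
    exact_mod_cast this
  have hP0 : (0 : ℝ) < (primorial (WL l) : ℝ) := by exact_mod_cast primorial_pos _
  have hφ : 1 / (C * Real.log l) ≤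
      (Nat.totient (primorial (WL l)) : ℝ) / (primorial (WL l) : ℝ) := by
    rw [div_le_div_iff₀ (by positivity) hP0, one_mul]
    have h1 := hC (WL l) hW2
    have h2 : Real.log (WL l) ≤ Real.log l := Real.log_le_log hW0 hW3
    have h3 : C * Real.log (WL l) * (Nat.totient (primorial (WL l)) : ℝ) ≤
        C * Real.log l * (Nat.totient (primorial (WL l)) : ℝ) := by gcongr
    linarith
  have hm2 : 2 ≤ mL l := by
    unfold mL
    refine Nat.le_floor ?_
    push_cast
    linarith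
  have h32 : 2 ≤ (3 / 2 : ℝ) ^ (mL l) := by
    calc (2 : ℝ) ≤ (3 / 2 : ℝ) ^ 2 := by norm_num
      _ ≤ (3 / 2 : ℝ) ^ (mL l) := pow_le_pow_right₀ (by norm_num) hm2
  have hpl := pow_lower hl1
  have hE : l ^ (176 / 1000 : ℝ) / 3 ≤ (3 / 2 : ℝ) ^ (mL l) - 1 := by linarith
  have hω : 0 < cL l / (25 * r) := by positivity
  have hl176 : 0 < l ^ (176 / 1000 : ℝ) := by positivity
  have key : cL l / (25 * r) * l ^ (176 / 1000 : ℝ) / (252 * C * Real.log l) ≤
      Am (cL l) r (WL l) (mL l) := by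
    unfold Am
    have e1 : cL l / (25 * r) * (Nat.totient (primorial (WL l)) : ℝ) /
        (84 * (primorial (WL l) : ℝ)) = cL l / (25 * r) / 84 *
        ((Nat.totient (primorial (WL l)) : ℝ) / (primorial (WL l) : ℝ)) := by
      field_simp
    rw [e1]
    calc cL l / (25 * r) * l ^ (176 / 1000 : ℝ) / (252 * C * Real.log l) =
          cL l / (25 * r) / 84 * (1 / (C * Real.log l)) * (l ^ (176 / 1000 : ℝ) / 3) := by
            field_simp
            ring
      _ ≤ cL l / (25 * r) / 84 *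
          ((Nat.totient (primorial (WL l)) : ℝ) / (primorial (WL l) : ℝ)) *
            ((3 / 2 : ℝ) ^ (mL l) - 1) := by
            refine mul_le_mul ?_ hE (by positivity) (by positivity)
            exact mul_le_mul_of_nonneg_left hφ (by positivity)
  constructor
  · refine le_trans ?_ key
    have h1 : 1 / (427500 * 252 * C) * (cL l / (25 * r)) * l ^ (176 / 1000 : ℝ) / Real.log l =
        cL l / (25 * r) * l ^ (176 / 1000 : ℝ) / (252 * C * Real.log l) / 427500 := by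
      field_simp
    rw [h1]
    refine div_le_self (by positivity) (by norm_num)
  · refine le_trans ?_ key
    have hω2 : cL l ^ 4 / 427500 ≤ cL l / (25 * r) := by
      rw [div_le_div_iff₀ (by norm_num) (by positivity)]
      have h1 : r * cL l ≤ 1900 * (JL l : ℝ) := by
        rwa [le_div_iff₀ hc0] at hr2
      have h2 : r * cL l * cL l ^ 2 ≤ 1900 * (JL l : ℝ) * cL l ^ 2 :=
        mul_le_mul_of_nonneg_right h1 (by positivity)
      have h3 : r * cL l ^ 3 ≤ 17100 := by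
        have : r * cL l * cL l ^ 2 = r * cL l ^ 3 := by ring
        nlinarith
      have h4 : cL l * (r * cL l ^ 3) ≤ cL l * 17100 := mul_le_mul_of_nonneg_left h3 hc0.le
      nlinarith
    have h5 : l ^ (136 / 1000 : ℝ) = cL l ^ 4 * l ^ (176 / 1000 : ℝ) := by
      rw [hc4, ← Real.rpow_add hl0]
      norm_num
    rw [h5]
    calc 1 / (427500 * 252 * C) * (cL l ^ 4 * l ^ (176 / 1000 : ℝ)) / Real.log l =
          cL l ^ 4 / 427500 * l ^ (176 / 1000 : ℝ) / (252 * C * Real.log l) := by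
            field_simp
      _ ≤ cL l / (25 * r) * l ^ (176 / 1000 : ℝ) / (252 * C * Real.log l) := by
            gcongr

end Pool.Agent.Work.MP_a8fbd7_nt.PAR.EF.I_AmL
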