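import Pool.Agent.Work.MP_a8fbd7_nt.PAR.EF.StmtsM

set_option autoImplicit false

open Finset

noncomputable section

namespace Pool.Agent.Work.MP_a8fbd7_nt.PAR.EF.I_Bn

open Pool.Agent.Work.MP_a8fbd7_nt.PAR.LC

/-- the numerical facts used -/
theorem nums {n c r : ℝ} {J B W K0 K1 K2 K3 m k : ℕ} (P : Pa n c J B W K0 K1 K2 K3 m)
    (hr1 : 200 * J / c ≤ r) (hr2 : r ≤ 1900 * J / c) (hk : k ≤ B / J) :
    0 < r ∧ 1 / (c / (25 * r)) ≤ K0 ∧ 3 * (K1 : ℝ) ^ (2 * m) ≤ (c / (50 * r)) * K2 ∧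
    Wn (((k : ℝ) + 1) / B + 17 / 20 * c / r) (c / (25 * r)) (2 * c / (5 * r)) (21 * c / (50 * r)) := by
  have hc0 := P.c0
  have hc1 := P.c1
  have hc2 : 0 < c ^ 2 := by positivity
  have hc2' : c ^ 2 ≤ 1 / 100 := by nlinarith
  have hJ8 : 800 ≤ (J : ℝ) := by
    refine le_trans ?_ P.J1
    rw [le_div_iff₀ hc2]
    nlinarith
  have hJ0 : (0 : ℝ) < J := by linarith
  have hrc : 200 * (J : ℝ) ≤ r * c := by
    rw [div_le_iff₀ hc0] at hr1; exact hr1
  have hrc2 : r * c ≤ 1900 * (J : ℝ) := by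
    rw [le_div_iff₀ hc0] at hr2; exact hr2
  have hr : 1600000 ≤ r := by
    have : 160000 ≤ r * c := by nlinarith
    nlinarith
  have hr0 : 0 < r := by linarith
  have hB : (1 : ℝ) ≤ B := by
    refine le_trans ?_ P.B1
    rw [le_div_iff₀ hc2]
    nlinarith
  have hBbig : (1000 : ℝ) ≤ B := by
    refine le_trans ?_ P.B1
    rw [le_div_iff₀ hc2]
    nlinarith
  have hm1 : (1 : ℝ) ≤ m := by exact_mod_cast P.m1
  have hA : 25 * r / c ≤ 47500 * J / c ^ 2 := by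
    rw [div_le_div_iff₀ hc0 hc2]
    have : 25 * r * c ^ 2 = 25 * (r * c) * c := by ring
    rw [this]
    have := mul_le_mul_of_nonneg_right hrc2 hc0.le
    nlinarith
  have hA2 : 50 * r / c ≤ 95000 * J / c ^ 2 := by
    have h1 : 50 * r / c = 2 * (25 * r / c) := by ring
    have h2 : 95000 * (J : ℝ) / c ^ 2 = 2 * (47500 * J / c ^ 2) := by ring
    rw [h1, h2]; linarith
  refine ⟨hr0, ?_, ?_, ?_⟩
  · have h1 : 1 / (c / (25 * r)) = 25 * r / c := by
      rw [one_div, inv_div]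
    rw [h1]
    refine hA.trans (le_trans ?_ P.K0m)
    have : 0 ≤ 47500 * (J : ℝ) / c ^ 2 := by positivity
    nlinarith
  · have h1 := P.K12
    have h2 : 1 ≤ (c / (50 * r)) * (95000 * J / c ^ 2) := by
      have h3 : (c / (50 * r)) * (50 * r / c) = 1 := by field_simp
      rw [← h3]
      exact mul_le_mul_of_nonneg_left hA2 (by positivity)
    calc 3 * (K1 : ℝ) ^ (2 * m) ≤ 3 * (K1 : ℝ) ^ (2 * m) * ((c / (50 * r)) * (95000 * J / c ^ 2)) := by
          have : 0 ≤ 3 * (K1 : ℝ) ^ (2 * m) := by positivity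
          nlinarith
      _ = (c / (50 * r)) * (3 * (K1 : ℝ) ^ (2 * m) * (95000 * J / c ^ 2)) := by ring
      _ ≤ (c / (50 * r)) * K2 := mul_le_mul_of_nonneg_left h1 (by positivity)
  · have hkB : (k : ℝ) ≤ B / J := by
      exact (Nat.cast_le.mpr hk).trans Nat.cast_div_le
    have hw : ((k : ℝ) + 1) / B ≤ 1 := by
      rw [div_le_one (by linarith)]
      have : (B : ℝ) / J ≤ B / 800 := by
        apply div_le_div_of_nonneg_left (by linarith) (by norm_num) hJ8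
      linarith
    have hcr : c / r ≤ 1 / 100 := by
      rw [div_le_iff₀ hr0]; linarith
    have hcr0 : 0 < c / r := by positivity
    have e1 : 17 / 20 * c / r = 17 / 20 * (c / r) := by ring
    have e2 : c / (25 * r) = 1 / 25 * (c / r) := by field_simp
    have e3 : 2 * c / (5 * r) = 2 / 5 * (c / r) := by field_simp
    have e4 : 21 * c / (50 * r) = 21 / 50 * (c / r) := by field_simp
    rw [e1, e2, e3, e4]
    refine ⟨by positivity, by linarith, by linarith, by linarith, by linarith, by linarith, by linarith⟩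

theorem arith1 {F E a X Y b : ℝ} (h : F ≤ E + a * (1 / 25) + (2 * (21 / 20) + 2 * (21 / 20) * X))
    (ha : 0 ≤ a) (hX : X ≤ Y) (hb : 0 ≤ b) (hY : 0 ≤ Y) : F - E ≤ a * (1 / 10) + b + (3 + 3 * Y) := by
  linarith

theorem arith2 {a b d : ℝ} (ha : 0 ≤ a) (h : b ≤ 1 * d) : a * (1 / 50) + b ≤ a * (1 / 10) + d := by
  linarith

theorem arith3 {a b d e : ℝ} (h : a ≤ b + d) (h' : d ≤ e) : a - b ≤ e := by
  linarith

theorem prf (h1 : StFneC) (h2 : StFeqC) (h3 : StSS) (h4 : StSz) : StBn := by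
  intro n c r J B W K0 K1 K2 K3 m k t P hr1 hr2 hk ht
  obtain ⟨hr0, hK0, hK2, hW⟩ := nums P hr1 hr2 hk
  have hc0 := P.c0
  set w0 : ℝ := ((k : ℝ) + 1) / B + 17 / 20 * c / r with hw0
  set ω : ℝ := c / (25 * r) with hω
  set e0 : ℝ := 2 * c / (5 * r) with he0
  set e1 : ℝ := 21 * c / (50 * r) with he1
  have hη : e1 - e0 = c / (50 * r) := by
    rw [he0, he1]; field_simp; ring
  have hrat : (e1 - e0) ^ 2 / e0 ^ 2 = 1 / 400 := by
    rw [hη, he0]; field_simp; norm_num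
  have hrat2 : e1 / e0 = 21 / 20 := by
    rw [he0, he1]; field_simp; norm_num
  have hω0 : 0 < ω := hW.ho0
  have hω1 : ω ≤ 1 / 2 := hW.ho1
  -- t
  have htp : t.Prime := by
    simp only [Pr, mem_filter] at ht; exact ht.2
  have htI : K2 < t ∧ t ≤ K3 := by
    simp only [Pr, mem_filter, mem_Ioc] at ht; exact ht.1
  have hW1 : (1 : ℝ) ≤ W := by exact_mod_cast P.W1
  have hK01 : 1 ≤ K0 := P.W1.trans P.WK
  have hK0r : (1 : ℝ) ≤ K0 := by exact_mod_cast hK01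
  have hK1r : (1 : ℝ) ≤ K1 := by exact_mod_cast hK01.trans P.K01
  have hSz := h4 K0 K1 m hK01 P.K01
  have hηt : 3 * (K1 : ℝ) ^ (2 * m) ≤ (e1 - e0) * t := by
    rw [hη]
    refine hK2.trans ?_
    apply mul_le_mul_of_nonneg_left _ (by positivity)
    exact_mod_cast htI.1.le
  have hP1 : (1 : ℝ) ≤ (K1 : ℝ) ^ m := one_le_pow₀ hK1r
  have hP2 : (1 : ℝ) ≤ (K1 : ℝ) ^ (2 * m) := one_le_pow₀ hK1r
  have hPm : (K1 : ℝ) ^ (2 * m) = (K1 : ℝ) ^ m * (K1 : ℝ) ^ m := by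
    rw [two_mul, pow_add]
  set L1 : ℝ := 1 + Real.log (3 * (K1 : ℝ) ^ (2 * m)) with hL1
  set L2 : ℝ := 1 + Real.log ((K1 : ℝ) ^ m * K3) with hL2
  have hL1p : 0 ≤ L1 := by
    have : 0 ≤ Real.log (3 * (K1 : ℝ) ^ (2 * m)) := Real.log_nonneg (by linarith)
    linarith
  set Δ : ℝ := ω ^ 2 / (10 * W) + L1 / K0 with hΔ
  have hΔ0 : 0 ≤ Δ := by positivity
  set E : ℝ := 3 + 3 * L2 ^ 2 / K0 with hE
  have hE0 : 0 ≤ E := by positivity
  -- properties of q
  have hq : ∀ S ∈ SS K0 K1 m, (K0 : ℝ) < qS S ∧ (qS S : ℝ) ≤ (K1 : ℝ) ^ m ∧ (qS S).primeFactors = S ∧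
      1 ≤ qS S := by
    intro S hS
    obtain ⟨a1, a2, a3⟩ := hSz.2.1 S hS
    refine ⟨by exact_mod_cast a1, by exact_mod_cast a2, a3, by omega⟩
  have key : ∀ S ∈ SS K0 K1 m, ∀ S' ∈ SS K0 K1 m,
      vS S * vS S' / (Nat.lcm (qS S) (qS S') : ℝ) *
        (Fs W w0 ω e0 e1 (qS S) t (qS S') t - Es W w0 ω e0 e1 (qS S) t * Es W w0 ω e0 e1 (qS S') t) ≤
      vS S * vS S' / (Nat.lcm (qS S) (qS S') : ℝ) * Δ +
        (if S = S' then vS S ^ 2 / (qS S : ℝ) * E else 0) := by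
    intro S hS S' hS'
    obtain ⟨a1, a2, a3, a4⟩ := hq S hS
    obtain ⟨b1, b2, b3, b4⟩ := hq S' hS'
    have hv : 0 ≤ vS S := by unfold vS; positivity
    have hv' : 0 ≤ vS S' := by unfold vS; positivity
    have hwt : 0 ≤ vS S * vS S' / (Nat.lcm (qS S) (qS S') : ℝ) := by positivity
    by_cases hSS : S = S'
    · subst hSS
      rw [if_pos rfl]
      have hlcm : Nat.lcm (qS S) (qS S) = qS S := Nat.lcm_self _
      rw [hlcm]
      have hqt : (qS S : ℝ) ≤ (e1 - e0) * t := by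
        refine le_trans ?_ hηt
        have : (K1 : ℝ) ^ m ≤ (K1 : ℝ) ^ (2 * m) := pow_le_pow_right₀ hK1r (by omega)
        linarith
      have hqlt : qS S < t := by
        have h5 : (e1 - e0) * t ≤ 1 * t := by
          apply mul_le_mul_of_nonneg_right _ (Nat.cast_nonneg _)
          have := hW.he0
          have := hW.he1
          linarith
        have h6 : 3 * (K1 : ℝ) ^ (2 * m) ≤ t := by linarith
        have : (K1 : ℝ) ^ m ≤ (K1 : ℝ) ^ (2 * m) := pow_le_pow_right₀ hK1r (by omega)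
        have h7 : (qS S : ℝ) < t := by linarith
        exact_mod_cast h7
      have hcop : (qS S).Coprime t := by
        rw [Nat.coprime_comm, htp.coprime_iff_not_dvd]
        intro hd
        have := Nat.le_of_dvd (by omega) hd
        omega
      have hF := h2 W w0 ω e0 e1 (qS S) t hW a4 htp.one_lt.le hcop P.W1 (hK0.trans a1.le) hqt
      have hlog : Real.log ((qS S : ℝ) * t) ≤ Real.log ((K1 : ℝ) ^ m * K3) := by
        apply Real.log_le_log
        · have : (0 : ℝ) < qS S := by exact_mod_cast a4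
          have : (0 : ℝ) < t := by exact_mod_cast htp.pos
          positivity
        · apply mul_le_mul a2 (by exact_mod_cast htI.2) (Nat.cast_nonneg _) (by positivity)
      have hlog0 : 0 ≤ Real.log ((qS S : ℝ) * t) := by
        apply Real.log_nonneg
        have h8 : (1 : ℝ) ≤ qS S := by exact_mod_cast a4
        have h9 : (1 : ℝ) ≤ t := by exact_mod_cast htp.one_lt.le
        exact one_le_mul_of_one_le_of_one_le h8 h9
      have hq0 : (0 : ℝ) < qS S := by exact_mod_cast a4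
      have hsq : (1 + Real.log ((qS S : ℝ) * t)) ^ 2 / (qS S : ℝ) ≤ L2 ^ 2 / K0 := by
        apply div_le_div₀ (by positivity) _ (by linarith) a1.le
        apply pow_le_pow_left₀ (by linarith)
        linarith
      have hsum : Fs W w0 ω e0 e1 (qS S) t (qS S) t - Es W w0 ω e0 e1 (qS S) t * Es W w0 ω e0 e1 (qS S) t ≤
          Δ + E := by
        have e5 : 16 * ω ^ 2 * (e1 - e0) ^ 2 / e0 ^ 2 / W = 16 * ω ^ 2 / W * ((e1 - e0) ^ 2 / e0 ^ 2) := by ring
        have e6 : 2 * (e1 / e0) * (1 + Real.log ((qS S : ℝ) * t)) ^ 2 / (qS S : ℝ) =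
            2 * (e1 / e0) * ((1 + Real.log ((qS S : ℝ) * t)) ^ 2 / (qS S : ℝ)) := by ring
        rw [e5, e6, hrat, hrat2] at hF
        have e8 : 16 * ω ^ 2 / W * (1 / 400) = ω ^ 2 / W * (1 / 25) := by ring
        have e9 : ω ^ 2 / (10 * W) = ω ^ 2 / W * (1 / 10) := by ring
        have e9' : 0 ≤ ω ^ 2 / (W : ℝ) := by positivity
        have e10 : 0 ≤ L1 / K0 := by positivity
        have e11 : 0 ≤ L2 ^ 2 / (K0 : ℝ) := by positivity
        have e12 : 3 * L2 ^ 2 / (K0 : ℝ) = 3 * (L2 ^ 2 / K0) := by ring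
        have e13 : Es W w0 ω e0 e1 (qS S) t * Es W w0 ω e0 e1 (qS S) t =
          Es W w0 ω e0 e1 (qS S) t ^ 2 := by ring
        rw [e8] at hF
        rw [hΔ, hE, e12, e9, e13]
        exact arith1 hF e9' hsq e10 e11
      have e13 : vS S * vS S / (qS S : ℝ) = vS S ^ 2 / (qS S : ℝ) := by ring
      rw [e13]
      have hw2 : 0 ≤ vS S ^ 2 / (qS S : ℝ) := by positivity
      calc vS S ^ 2 / (qS S : ℝ) * (Fs W w0 ω e0 e1 (qS S) t (qS S) t -
              Es W w0 ω e0 e1 (qS S) t * Es W w0 ω e0 e1 (qS S) t)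
          ≤ vS S ^ 2 / (qS S : ℝ) * (Δ + E) := mul_le_mul_of_nonneg_left hsum hw2
        _ = _ := by ring
    · rw [if_neg hSS, add_zero]
      apply mul_le_mul_of_nonneg_left _ hwt
      have hne : qS S ≠ qS S' := by
        intro h
        apply hSS
        rw [← a3, ← b3, h]
      have hqq : (3 * (qS S : ℝ) * (qS S' : ℝ)) ≤ 3 * (K1 : ℝ) ^ (2 * m) := by
        rw [hPm, mul_assoc]
        exact mul_le_mul_of_nonneg_left (mul_le_mul a2 b2 (Nat.cast_nonneg _) (by positivity)) (by norm_num)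
      have hF := h1 W w0 ω e0 e1 (qS S) (qS S') t hW a4 b4 hne htp.one_lt.le P.W1 (hK0.trans a1.le)
        (hK0.trans b1.le) (hqq.trans hηt)
      have hq0 : (1 : ℝ) ≤ qS S := by exact_mod_cast a4
      have hq0' : (1 : ℝ) ≤ qS S' := by exact_mod_cast b4
      have hqq1 : (1 : ℝ) ≤ 3 * (qS S : ℝ) * (qS S' : ℝ) := by
        have h31 : (1 : ℝ) ≤ 3 * (qS S : ℝ) := by linarith
        exact one_le_mul_of_one_le_of_one_le h31 hq0'
      have hlog : Real.log (3 * (qS S : ℝ) * (qS S' : ℝ)) ≤ Real.log (3 * (K1 : ℝ) ^ (2 * m)) :=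
        Real.log_le_log (by linarith) hqq
      have hlog0 : 0 ≤ Real.log (3 * (qS S : ℝ) * (qS S' : ℝ)) := Real.log_nonneg hqq1
      have hdiv : (1 + Real.log (3 * (qS S : ℝ) * (qS S' : ℝ))) / (qS S' : ℝ) ≤ L1 / K0 := by
        apply div_le_div₀ hL1p _ (by linarith) b1.le
        linarith
      have hdiv0 : 0 ≤ (1 + Real.log (3 * (qS S : ℝ) * (qS S' : ℝ))) / (qS S' : ℝ) := by positivity
      have e5 : 8 * ω * (e1 - e0) ^ 2 / e0 ^ 2 = 8 * ω * ((e1 - e0) ^ 2 / e0 ^ 2) := by ring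
      rw [e5, hrat] at hF
      have e6 : 8 * ω * (1 / 400) * (ω / W + (1 + Real.log (3 * (qS S : ℝ) * (qS S' : ℝ))) / (qS S' : ℝ)) ≤ Δ := by
        have e9 : ω ^ 2 / (10 * W) = ω ^ 2 / W * (1 / 10) := by ring
        have e10 : 8 * ω * (1 / 400) * (ω / W + (1 + Real.log (3 * (qS S : ℝ) * (qS S' : ℝ))) / (qS S' : ℝ)) =
          ω ^ 2 / W * (1 / 50) + (ω / 50) * ((1 + Real.log (3 * (qS S : ℝ) * (qS S' : ℝ))) / (qS S' : ℝ)) := by ring
        rw [hΔ, e9, e10]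
        have e11 : 0 ≤ ω ^ 2 / (W : ℝ) := by positivity
        have e12 : (ω / 50) * ((1 + Real.log (3 * (qS S : ℝ) * (qS S' : ℝ))) / (qS S' : ℝ)) ≤ 1 * (L1 / K0) := by
          apply mul_le_mul (by linarith) hdiv hdiv0 (by norm_num)
        exact arith2 e11 e12
      exact arith3 hF e6
  have hsumk : ∑ S ∈ SS K0 K1 m, ∑ S' ∈ SS K0 K1 m, vS S * vS S' / (Nat.lcm (qS S) (qS S') : ℝ) *
      (Fs W w0 ω e0 e1 (qS S) t (qS S') t - Es W w0 ω e0 e1 (qS S) t * Es W w0 ω e0 e1 (qS S') t) ≤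
      ∑ S ∈ SS K0 K1 m, ∑ S' ∈ SS K0 K1 m, (vS S * vS S' / (Nat.lcm (qS S) (qS S') : ℝ) * Δ +
        (if S = S' then vS S ^ 2 / (qS S : ℝ) * E else 0)) :=
    Finset.sum_le_sum (fun S hS => Finset.sum_le_sum (fun S' hS' => key S hS S' hS'))
  refine hsumk.trans ?_
  have hsplit : ∑ S ∈ SS K0 K1 m, ∑ S' ∈ SS K0 K1 m, (vS S * vS S' / (Nat.lcm (qS S) (qS S') : ℝ) * Δ +
        (if S = S' then vS S ^ 2 / (qS S : ℝ) * E else 0)) =
      (∑ S ∈ SS K0 K1 m, ∑ S' ∈ SS K0 K1 m, vS S * vS S' / (Nat.lcm (qS S) (qS S') : ℝ)) * Δ +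
        (∑ S ∈ SS K0 K1 m, vS S ^ 2 / (qS S : ℝ)) * E := by
    rw [Finset.sum_mul, Finset.sum_mul, ← Finset.sum_add_distrib]
    apply Finset.sum_congr rfl
    intro S hS
    rw [Finset.sum_add_distrib, Finset.sum_mul]
    congr 1
    rw [Finset.sum_ite_eq, if_pos hS]
  rw [hsplit]
  obtain ⟨s1, s2⟩ := h3 K0 K1 m
  exact add_le_add (mul_le_mul_of_nonneg_right s2 hΔ0) (mul_le_mul_of_nonneg_right s1 hE0)

end Pool.Agent.Work.MP_a8fbd7_nt.PAR.EF.I_Bn
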