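import Pool.Agent.Work.MP_a8fbd7_nt.PAR.EF.StmtsM

set_option autoImplicit false

/-!
MP_a8fbd7_nt, block EF, item Ch1: the chain for one prime.
-/

open Finset

noncomputable section

namespace Pool.Agent.Work.MP_a8fbd7_nt.PAR.EF.I_Ch1

theorem chain (f : ℕ → ℤ) (x L : ℕ) (h : ∀ i, i < L → f (x + i) = f (x + i + 1)) :
    ∀ i, i ≤ L → f x = f (x + i) := by
  intro i
  induction i with
  | zero => intro _; simp
  | succ i ih =>
    intro hi
    rw [ih (by omega), h i (by omega), add_assoc]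

theorem floor_g (n c : ℝ) (J p m g : ℕ) (hc0 : 0 < c) (hJ1 : 8 / c ^ 2 ≤ J)
    (hJ2 : (J : ℝ) ≤ 9 / c ^ 2) (hn : 1 ≤ n) (hp : J ^ 2 < p)
    (hm : 200 * J / c * n / J ^ 2 ≤ m) (hA : Al n J p m) (hg1 : p * m ≤ g)
    (hg2 : g ≤ p * (m + 1)) :
    n ^ 2 / (g : ℝ) - ⌊n ^ 2 / (g : ℝ)⌋₊ < 1 / (J : ℝ) := by
  have hJ0 : (0 : ℝ) < J := lt_of_lt_of_le (by positivity) hJ1
  have hpr : (J : ℝ) ^ 2 < p := by exact_mod_cast hp
  have hp0 : (0 : ℝ) < p := lt_trans (by positivity) hpr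
  have hm0 : (0 : ℝ) < m := lt_of_lt_of_le (by positivity) hm
  have hg1r : (p : ℝ) * m ≤ g := by exact_mod_cast hg1
  have hg2r : (g : ℝ) ≤ p * (m + 1) := by exact_mod_cast hg2
  have hg0 : (0 : ℝ) < g := lt_of_lt_of_le (by positivity) hg1r
  obtain ⟨y, hy⟩ : ∃ y, y = n ^ 2 / (m : ℝ) := ⟨_, rfl⟩
  obtain ⟨M, hM⟩ : ∃ M, M = ⌊y⌋₊ := ⟨_, rfl⟩
  obtain ⟨A1, A2⟩ := hA
  rw [← hy, ← hM] at A1 A2
  have hy0 : 0 ≤ y := by rw [hy]; positivity
  have hM1 : (M : ℝ) ≤ y := by rw [hM]; exact Nat.floor_le hy0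
  have hM2 : y < M + 1 := by rw [hM]; exact Nat.lt_floor_add_one y
  have hMd : (M : ℝ) = p * ((M / p : ℕ) : ℝ) + ((M % p : ℕ) : ℝ) := by
    exact_mod_cast (Nat.div_add_mod M p).symm
  obtain ⟨Q, hQ⟩ : ∃ Q : ℕ, Q = M / p := ⟨_, rfl⟩
  obtain ⟨b, hb⟩ : ∃ b : ℕ, b = M % p := ⟨_, rfl⟩
  rw [← hQ, ← hb] at hMd
  rw [← hb] at A1 A2
  -- the value at `p m`
  have e1 : n ^ 2 / ((p : ℝ) * m) = y / p := by
    rw [hy]; field_simp
  have u1 : y / p < Q + 1 / J := by
    rw [div_lt_iff₀ hp0]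
    have : ((Q : ℝ) + 1 / J) * p = p * Q + p / J := by ring
    rw [this]
    linarith
  have u2 : (Q : ℝ) + 1 / (2 * J) ≤ y / p := by
    rw [le_div_iff₀ hp0]
    have : ((Q : ℝ) + 1 / (2 * J)) * p = p * Q + p / (2 * J) := by ring
    rw [this]
    linarith
  have v1 : n ^ 2 / (g : ℝ) ≤ y / p := by
    rw [← e1]
    exact div_le_div_of_nonneg_left (by positivity) (by positivity) hg1r
  have v2 : y / p - c ^ 2 / 40000 ≤ n ^ 2 / (g : ℝ) := by
    have w1 : n ^ 2 / ((p : ℝ) * (m + 1)) ≤ n ^ 2 / (g : ℝ) :=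
      div_le_div_of_nonneg_left (by positivity) hg0 hg2r
    have w2 : n ^ 2 / ((p : ℝ) * m) - n ^ 2 / ((p : ℝ) * (m + 1)) =
        n ^ 2 / ((p : ℝ) * m * (m + 1)) := by
      field_simp
      ring
    have w3 : n ^ 2 / ((p : ℝ) * m * (m + 1)) ≤ c ^ 2 / 40000 := by
      rw [div_le_div_iff₀ (by positivity) (by norm_num)]
      have z1 : 200 * n / (c * J) ≤ m := by
        have : 200 * (J : ℝ) / c * n / J ^ 2 = 200 * n / (c * J) := by
          field_simp
        rw [← this]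
        exact hm
      have z2 : 200 * n ≤ c * J * m := by
        rw [div_le_iff₀ (by positivity)] at z1
        linarith
      have z3 : (200 * n) ^ 2 ≤ (c * J * m) ^ 2 :=
        pow_le_pow_left₀ (by positivity) z2 2
      have z4 : (c * J * m) ^ 2 ≤ c ^ 2 * ((p : ℝ) * m * (m + 1)) := by
        have : (c * J * m) ^ 2 = c ^ 2 * ((J : ℝ) ^ 2 * m * m) := by ring
        rw [this]
        refine mul_le_mul_of_nonneg_left ?_ (by positivity)
        refine mul_le_mul (mul_le_mul_of_nonneg_right hpr.le hm0.le) (by linarith) hm0.le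
          (by positivity)
      linarith
    rw [e1] at w2
    linarith
  have hcJ : c ^ 2 / 40000 ≤ 1 / (2 * J) := by
    rw [div_le_div_iff₀ (by norm_num) (by positivity)]
    rw [le_div_iff₀ (by positivity)] at hJ2
    nlinarith
  have hfl : ⌊n ^ 2 / (g : ℝ)⌋₊ = Q := by
    rw [Nat.floor_eq_iff (by positivity)]
    refine ⟨by linarith, ?_⟩
    have : 1 / (J : ℝ) ≤ 1 := by
      rw [div_le_one hJ0]
      have h8 : (1 : ℕ) ≤ J := by exact_mod_cast hJ0
      exact_mod_cast h8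
    linarith
  rw [hfl]
  linarith

open Classical in
theorem prf : StCh1 := by
  intro f n c J p hf hc0 hc1 hJ1 hJ2 hJn hn hp
  have hJ0 : (0 : ℝ) < J := lt_of_lt_of_le (by positivity) hJ1
  obtain ⟨X, hX⟩ : ∃ X, X = ⌈200 * J / c * n / J ^ 2⌉₊ := ⟨_, rfl⟩
  rw [← hX]
  unfold Pr at hp
  rw [mem_filter, mem_Ioc] at hp
  obtain ⟨⟨hp1, hp2⟩, hpp⟩ := hp
  have hp2r : (p : ℝ) ≤ 4 * J ^ 2 := by exact_mod_cast hp2
  have hp1r : (J : ℝ) ^ 2 < p := by exact_mod_cast hp1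
  have hX1 : 200 * J / c * n / J ^ 2 ≤ (X : ℝ) := by rw [hX]; exact Nat.le_ceil _
  have hX2 : (X : ℝ) < 200 * J / c * n / J ^ 2 + 1 := by
    rw [hX]; exact Nat.ceil_lt_add_one (by positivity)
  have hRX : 200 * J / c * n ≤ (J : ℝ) ^ 2 * X := by
    rw [div_le_iff₀ (by positivity)] at hX1
    linarith
  have hRX2 : (J : ℝ) ^ 2 * X ≤ 200 * J / c * n + J ^ 2 := by
    have h1 : (X : ℝ) * J ^ 2 ≤ (200 * J / c * n / J ^ 2 + 1) * J ^ 2 :=
      mul_le_mul_of_nonneg_right hX2.le (by positivity)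
    have h2 : (200 * (J : ℝ) / c * n / J ^ 2 + 1) * J ^ 2 = 200 * J / c * n + J ^ 2 := by
      field_simp
    linarith
  have hsub : (Ico X (2 * X)).filter (fun m => Al n J p m ∧ f m ≠ f (m + 1)) ⊆
      (Bd f n (200 * J / c) J).image (fun g => g / p) := by
    intro m hm
    rw [mem_filter, mem_Ico] at hm
    obtain ⟨⟨hm1, hm2⟩, hA, hne⟩ := hm
    have hm1r : (X : ℝ) ≤ m := by exact_mod_cast hm1
    have hm2r : (m : ℝ) + 1 ≤ 2 * X := by exact_mod_cast hm2
    have hm0r : (0 : ℝ) < m := by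
      have : 0 < 200 * J / c * n / (J : ℝ) ^ 2 := by positivity
      linarith
    have hm0 : 0 < m := by exact_mod_cast hm0r
    obtain ⟨i, hi, hfi⟩ : ∃ i, i < p ∧ f (p * m + i) ≠ f (p * m + i + 1) := by
      by_contra hcon
      push Not at hcon
      have h1 := chain f (p * m) p hcon p le_rfl
      have h2 : p * m + p = p * (m + 1) := by ring
      rw [h2, hf.mul p m hpp.pos hm0, hf.mul p (m + 1) hpp.pos (by omega)] at h1
      exact hne (mul_left_cancel₀ (hf.ne hpp.pos) h1)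
    rw [mem_image]
    refine ⟨p * m + i, ?_, ?_⟩
    · unfold Bd
      rw [mem_filter, mem_Icc]
      have k1 : (p : ℝ) * m ≤ ((p * m + i : ℕ) : ℝ) := by
        push_cast
        have : (0 : ℝ) ≤ i := Nat.cast_nonneg i
        linarith
      have k2 : ((p * m + i : ℕ) : ℝ) ≤ p * (m + 1) := by
        push_cast
        have : (i : ℝ) ≤ p := by exact_mod_cast hi.le
        linarith
      refine ⟨⟨?_, ?_⟩, ?_, hfi⟩
      · refine Nat.ceil_le.2 (le_trans ?_ k1)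
        refine hRX.trans ?_
        exact mul_le_mul hp1r.le hm1r (Nat.cast_nonneg _) (Nat.cast_nonneg _)
      · refine Nat.le_floor (k2.trans ?_)
        have h1 : (p : ℝ) * (m + 1) ≤ 4 * J ^ 2 * (2 * X) :=
          mul_le_mul hp2r hm2r (by positivity) (by positivity)
        linarith
      · refine floor_g n c J p m (p * m + i) hc0 hJ1 hJ2 hn hp1 (hX1.trans hm1r) hA
          (Nat.le_add_right _ _) ?_
        rw [Nat.mul_succ]
        omega
    · show (p * m + i) / p = m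
      rw [Nat.mul_add_div hpp.pos, Nat.div_eq_of_lt hi, add_zero]
  have h := (card_le_card hsub).trans card_image_le
  exact_mod_cast h

end Pool.Agent.Work.MP_a8fbd7_nt.PAR.EF.I_Ch1
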