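import Pool.Agent.Work.MP_a8fbd7_nt.PAR.EF.StmtsM

set_option autoImplicit false

open Finset

noncomputable section

namespace Pool.Agent.Work.MP_a8fbd7_nt.PAR.EF.I_Ch4

open Pool.Agent.Work.MP_a8fbd7_nt.PAR.LC
open Pool.Agent.Work.MP_a8fbd7_nt.PAR.EF

/-- Cauchy-Schwarz for the first moment over a set. -/
theorem cs {ι : Type*} (S : Finset ι) (g : ι → ℝ) (T : ℝ) (hT : ∑ i ∈ S, g i ^ 2 ≤ T)
    (X : ℝ) (hX : (S.card : ℝ) ≤ X) (hT0 : 0 ≤ T) : ∑ i ∈ S, g i ≤ Real.sqrt (X * T) := by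
  have h1 : (∑ i ∈ S, g i) ^ 2 ≤ (S.card : ℝ) * ∑ i ∈ S, g i ^ 2 := sq_sum_le_card_mul_sum_sq
  have h2 : (S.card : ℝ) * ∑ i ∈ S, g i ^ 2 ≤ X * T :=
    mul_le_mul hX hT (Finset.sum_nonneg fun i _ => sq_nonneg _) (le_trans (Nat.cast_nonneg _) hX)
  exact Real.le_sqrt_of_sq_le (h1.trans h2)

open Classical in
theorem prf (h1 : StCh1) (h2 : StMo) (h3 : StMu) : StCh4 := by
  obtain ⟨n1, hMo⟩ := h2
  obtain ⟨J0, hMu⟩ := h3
  refine ⟨max n1 1, J0, ?_⟩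
  intro f n c J hn hJ hf hc0 hc1 hJ1 hJ2 hJn
  have hn1 : n1 ≤ n := (le_max_left _ _).trans hn
  have hn0 : (1 : ℝ) ≤ n := (le_max_right _ _).trans hn
  have hJ800 : (800 : ℝ) ≤ J := by
    refine le_trans ?_ hJ1
    rw [le_div_iff₀ (by positivity)]
    nlinarith
  have hJpos : (0 : ℝ) < J := by linarith
  obtain ⟨hPμ, hμ⟩ := hMu J hJ
  have hM := hMo n c J hn1 hc0 hc1 hJ1 hJ2 hJn
  set X : ℕ := ⌈200 * J / c * n / J ^ 2⌉₊ with hX
  set P : Finset ℕ := Pr (J ^ 2) (4 * J ^ 2) with hP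
  set μ : ℝ := muJ J with hμdef
  set N : ℕ → ℝ := fun m => ((P.filter (fun p => Al n J p m)).card : ℝ) with hN
  set S : Finset ℕ := (Ico X (2 * X)).filter (fun m => f m ≠ f (m + 1)) with hS
  have hJn' : (J : ℝ) / c ≤ n := by
    refine hJn.trans ?_
    calc n ^ (1 / 400 : ℝ) ≤ n ^ (1 : ℝ) :=
          Real.rpow_le_rpow_of_exponent_le hn0 (by norm_num)
      _ = n := Real.rpow_one n
  have hcond : 8 * (J : ℝ) ^ 2 ≤ 200 * J / c * n := by
    have h4 : (J : ℝ) ≤ n := by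
      refine le_trans ?_ hJn'
      rw [le_div_iff₀ hc0]
      nlinarith
    have h5 : (J : ℝ) ≤ J / c := by
      rw [le_div_iff₀ hc0]
      nlinarith
    have h6 : 200 * (J : ℝ) / c * n = 200 * ((J : ℝ) / c) * n := by ring
    rw [h6]
    have h7 : (J : ℝ) * J ≤ (J : ℝ) / c * n := mul_le_mul h5 h4 hJpos.le (by positivity)
    nlinarith
  -- the first moment
  have hfirst : ∑ m ∈ S, N m ≤ (P.card : ℝ) * ((Bd f n (200 * J / c) J).card : ℝ) := by
    have h8 : ∑ m ∈ S, N m = ∑ p ∈ P,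
        (((Ico X (2 * X)).filter (fun m => Al n J p m ∧ f m ≠ f (m + 1))).card : ℝ) := by
      have h9 : ∀ m, N m = ∑ p ∈ P, (if Al n J p m then (1 : ℝ) else 0) := by
        intro m
        simp only [hN]
        rw [Finset.sum_boole]
      rw [Finset.sum_congr rfl fun m _ => h9 m, Finset.sum_comm]
      refine Finset.sum_congr rfl fun p _ => ?_
      rw [Finset.sum_boole, hS, Finset.filter_filter]
      congr 2
      ext m
      simp only [Finset.mem_filter]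
      tauto
    rw [h8]
    calc ∑ p ∈ P, (((Ico X (2 * X)).filter (fun m => Al n J p m ∧ f m ≠ f (m + 1))).card : ℝ)
        ≤ ∑ p ∈ P, ((Bd f n (200 * J / c) J).card : ℝ) :=
          Finset.sum_le_sum fun p hp => h1 f n c J p hf hc0 hc1 hJ1 hJ2 hcond hn0 hp
      _ = (P.card : ℝ) * ((Bd f n (200 * J / c) J).card : ℝ) := by
          rw [Finset.sum_const, nsmul_eq_mul]
  -- positivity of the mean
  have hr1 : (J : ℝ) ^ (1 / 2 : ℝ) * (J : ℝ) ^ (1 / 2 : ℝ) = J := by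
    rw [← Real.rpow_add hJpos]; norm_num
  have hr0 : (0 : ℝ) < (J : ℝ) ^ (1 / 2 : ℝ) := Real.rpow_pos_of_pos hJpos _
  have hr9 : (3 : ℝ) ≤ (J : ℝ) ^ (1 / 2 : ℝ) := by
    by_contra hcon
    push Not at hcon
    nlinarith
  have hμ1 : (1 : ℝ) ≤ μ := by linarith
  have hμ0 : (0 : ℝ) < μ := by linarith
  set t : ℝ := (J : ℝ) ^ (-(1 / 4) : ℝ) with ht
  have ht0 : 0 < t := Real.rpow_pos_of_pos hJpos _
  have ht2 : t ^ 2 * (J : ℝ) ^ (1 / 2 : ℝ) = 1 := by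
    rw [ht, ← Real.rpow_natCast, ← Real.rpow_mul hJpos.le, ← Real.rpow_add hJpos]
    norm_num
  -- the second moment
  have hcardS : (S.card : ℝ) ≤ X := by
    have : S.card ≤ (Ico X (2 * X)).card := Finset.card_filter_le _ _
    rw [Nat.card_Ico] at this
    exact_mod_cast this.trans (by omega)
  have hsecond : ∑ m ∈ S, (μ - N m) ≤ Real.sqrt ((X : ℝ) * ((X : ℝ) * (μ + 1))) := by
    refine cs S _ _ ?_ _ hcardS (by positivity)
    refine le_trans ?_ hM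
    calc ∑ m ∈ S, (μ - N m) ^ 2 ≤ ∑ m ∈ Ico X (2 * X), (μ - N m) ^ 2 :=
          Finset.sum_le_sum_of_subset_of_nonneg (Finset.filter_subset _ _)
            (fun _ _ _ => sq_nonneg _)
      _ = ∑ m ∈ Ico X (2 * X), (N m - μ) ^ 2 := Finset.sum_congr rfl fun m _ => by ring
  have hsq : Real.sqrt ((X : ℝ) * ((X : ℝ) * (μ + 1))) ≤ μ * (4 * t * X) := by
    rw [Real.sqrt_le_iff]
    refine ⟨by positivity, ?_⟩
    have h10 : μ + 1 ≤ 16 * μ ^ 2 * t ^ 2 := by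
      have h11 : 1 ≤ 3 * μ * t ^ 2 := by
        have : (J : ℝ) ^ (1 / 2 : ℝ) * t ^ 2 ≤ 3 * μ * t ^ 2 :=
          mul_le_mul_of_nonneg_right (by linarith) (by positivity)
        nlinarith [ht2]
      have h12 : 16 * μ ^ 2 * t ^ 2 = 16 / 3 * μ * (3 * μ * t ^ 2) := by ring
      rw [h12]
      nlinarith
    have hX0 : (0 : ℝ) ≤ (X : ℝ) ^ 2 := sq_nonneg _
    calc (X : ℝ) * ((X : ℝ) * (μ + 1)) = (X : ℝ) ^ 2 * (μ + 1) := by ring
      _ ≤ (X : ℝ) ^ 2 * (16 * μ ^ 2 * t ^ 2) := mul_le_mul_of_nonneg_left h10 hX0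
      _ = (μ * (4 * t * X)) ^ 2 := by ring
  have hPle : (P.card : ℝ) ≤ 3 * J * μ := by
    rw [div_le_iff₀ (by positivity)] at hPμ
    linarith
  have hmain : μ * (S.card : ℝ) ≤
      μ * (3 * J * ((Bd f n (200 * J / c) J).card : ℝ) + 4 * t * (X : ℝ)) := by
    have h13 : μ * (S.card : ℝ) = ∑ m ∈ S, N m + ∑ m ∈ S, (μ - N m) := by
      rw [← Finset.sum_add_distrib]
      have : ∀ m ∈ S, N m + (μ - N m) = μ := fun m _ => by ring
      rw [Finset.sum_congr rfl this, Finset.sum_const, nsmul_eq_mul]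
      ring
    have h14 : (P.card : ℝ) * ((Bd f n (200 * J / c) J).card : ℝ) ≤
        3 * J * μ * ((Bd f n (200 * J / c) J).card : ℝ) :=
      mul_le_mul_of_nonneg_right hPle (Nat.cast_nonneg _)
    rw [h13]
    linarith [hfirst, hsecond, hsq, h14]
  exact le_of_mul_le_mul_left hmain hμ0

end Pool.Agent.Work.MP_a8fbd7_nt.PAR.EF.I_Ch4
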