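import Pool.Agent.Work.MP_a8fbd7_nt.PAR.EF.StmtsM
import Pool.Agent.Work.MP_a8fbd7_nt.PAR.LC.I_PmC

set_option autoImplicit false

/-!
MP_a8fbd7_nt, block EF, item Cn: joint counts.
-/

open Finset

noncomputable section

namespace Pool.Agent.Work.MP_a8fbd7_nt.PAR.EF.I_Cn

open Pool.Agent.Work.MP_a8fbd7_nt.PAR.LC

/-- the conditions on `g` are one class -/
theorem cls (q q' t : ℕ) (hq : 1 ≤ q) (hq' : 1 ≤ q') (ht : 1 ≤ t) (h1 : q.Coprime t)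
    (h2 : q'.Coprime t) : ∃ x0 : ℕ, ∀ g : ℕ, (q ∣ g ∧ q' ∣ g ∧ t ∣ g + 1) ↔
      g ≡ x0 [MOD Nat.lcm q q' * t] := by
  have hcop : Nat.Coprime (Nat.lcm q q') t :=
    Nat.Coprime.coprime_dvd_left (Nat.lcm_dvd_mul q q') (Nat.Coprime.mul_left h1 h2)
  obtain ⟨c, hc1, hc2⟩ := Nat.chineseRemainder hcop 0 (t - 1)
  refine ⟨c, fun g => ?_⟩
  have hc3 : t ∣ c + 1 := by
    have h5 : c + 1 ≡ t - 1 + 1 [MOD t] := Nat.ModEq.add_right 1 hc2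
    rw [Nat.sub_add_cancel ht] at h5
    exact Nat.modEq_zero_iff_dvd.1 (h5.trans (Nat.modEq_zero_iff_dvd.2 (dvd_refl t)))
  have hc4 : Nat.lcm q q' ∣ c := Nat.modEq_zero_iff_dvd.1 hc1
  rw [← Nat.modEq_and_modEq_iff_modEq_mul hcop]
  constructor
  · rintro ⟨g1, g2, g3⟩
    refine ⟨?_, ?_⟩
    · exact (Nat.modEq_zero_iff_dvd.2 (Nat.lcm_dvd g1 g2)).trans (Nat.modEq_zero_iff_dvd.2 hc4).symm
    · have h7 : g + 1 ≡ c + 1 [MOD t] :=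
        (Nat.modEq_zero_iff_dvd.2 g3).trans (Nat.modEq_zero_iff_dvd.2 hc3).symm
      exact Nat.ModEq.add_right_cancel' 1 h7
  · rintro ⟨g1, g2⟩
    have h8 : Nat.lcm q q' ∣ g := Nat.modEq_zero_iff_dvd.1 (g1.trans (Nat.modEq_zero_iff_dvd.2 hc4))
    have h9 : t ∣ g + 1 :=
      Nat.modEq_zero_iff_dvd.1 ((Nat.ModEq.add_right 1 g2).trans (Nat.modEq_zero_iff_dvd.2 hc3))
    exact ⟨(Nat.dvd_lcm_left q q').trans h8, (Nat.dvd_lcm_right q q').trans h8, h9⟩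

theorem mem_ce (n : ℝ) (u v B k g : ℕ) : g ∈ ce n u v B k ↔ g ∈ Icc u v ∧
    (k : ℝ) / B ≤ n ^ 2 / g - ⌊n ^ 2 / (g : ℝ)⌋₊ ∧ n ^ 2 / g - ⌊n ^ 2 / (g : ℝ)⌋₊ < ((k : ℝ) + 1) / B := by
  unfold ce cel2
  rw [mem_filter]
  constructor
  · rintro ⟨h1, -, -, h2⟩
    exact ⟨h1, h2⟩
  · rintro ⟨h1, h2⟩
    exact ⟨h1, Nat.modEq_one, Nat.modEq_one, h2⟩

theorem mem_cel2 (n : ℝ) (u v D x0 Z M0 B k g : ℕ) : g ∈ cel2 (n ^ 2) u v D x0 Z M0 B k ↔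
    g ∈ ce n u v B k ∧ g ≡ x0 [MOD D] ∧ ⌊n ^ 2 / (g : ℝ)⌋₊ ≡ M0 [MOD Z] := by
  rw [mem_ce]
  unfold cel2
  rw [mem_filter]
  tauto

theorem lcm_inv (z z' : ℕ) (hz : 1 ≤ z) (hz' : 1 ≤ z') :
    (Nat.gcd z z' : ℝ) / ((z : ℝ) * z') = 1 / (Nat.lcm z z' : ℝ) := by
  have e1 : (Nat.gcd z z' : ℝ) * (Nat.lcm z z' : ℝ) = (z : ℝ) * z' := by
    exact_mod_cast Nat.gcd_mul_lcm z z'
  have e3 : (z : ℝ) ≠ 0 := by exact_mod_cast (by omega : z ≠ 0)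
  have e4 : (z' : ℝ) ≠ 0 := by exact_mod_cast (by omega : z' ≠ 0)
  have e2 : (Nat.lcm z z' : ℝ) ≠ 0 := by
    intro h
    rw [h, mul_zero] at e1
    exact mul_ne_zero e3 e4 e1.symm
  have e5 : (Nat.gcd z z' : ℝ) ≠ 0 := by
    intro h
    rw [h, zero_mul] at e1
    exact mul_ne_zero e3 e4 e1.symm
  rw [← e1]
  field_simp

theorem cor_nonneg (q q' : ℕ) (s s' : ℕ × ℕ) : 0 ≤ cor q q' s s' := by
  unfold cor
  split_ifs
  · positivity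
  · exact le_rfl

theorem prf (hEQ : StEQE) : StCn := by
  obtain ⟨C, hC, hE⟩ := hEQ
  refine ⟨C, hC, ?_⟩
  intro n r u v B k q q' t z z' ρ ρ' hn hr1 hr2 hu huv hv hB hB2 hk hq hq' ht hz hz' h1 h2 h3 h4
    bq bq' bt bz bz'
  obtain ⟨x0, hx0⟩ := cls q q' t hq hq' ht h1 h2
  have hn0 : (0 : ℝ) ≤ n := by linarith
  have hn0' : (0 : ℝ) < n := by linarith
  have hL : 1 ≤ Nat.lcm q q' := Nat.lcm_pos hq hq'
  have hD : 1 ≤ Nat.lcm q q' * t := Nat.mul_pos hL ht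
  have hLle : (Nat.lcm q q' : ℝ) ≤ q * q' := by
    exact_mod_cast Nat.le_of_dvd (Nat.mul_pos hq hq') (Nat.lcm_dvd_mul q q')
  have hP0 : (0 : ℝ) ≤ n ^ (1 / 200 : ℝ) := Real.rpow_nonneg hn0 _
  have hpow3 : n ^ (1 / 200 : ℝ) * n ^ (1 / 200 : ℝ) * n ^ (1 / 200 : ℝ) ≤ n ^ (1 / 50 : ℝ) := by
    rw [← Real.rpow_add hn0', ← Real.rpow_add hn0']
    exact Real.rpow_le_rpow_of_exponent_le hn (by norm_num)
  have hpow2 : n ^ (1 / 200 : ℝ) * n ^ (1 / 200 : ℝ) ≤ n ^ (1 / 50 : ℝ) := by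
    rw [← Real.rpow_add hn0']
    exact Real.rpow_le_rpow_of_exponent_le hn (by norm_num)
  have hpow1 : n ^ (1 / 200 : ℝ) ≤ n ^ (1 / 50 : ℝ) :=
    Real.rpow_le_rpow_of_exponent_le hn (by norm_num)
  have hone : (1 : ℝ) ≤ n ^ (1 / 50 : ℝ) := Real.one_le_rpow hn (by norm_num)
  have hDle : ((Nat.lcm q q' * t : ℕ) : ℝ) ≤ n ^ (1 / 50 : ℝ) := by
    push_cast
    refine le_trans ?_ hpow3
    exact mul_le_mul (hLle.trans (mul_le_mul bq bq' (by positivity) hP0)) bt (by positivity)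
      (by positivity)
  have hDcast : ((Nat.lcm q q' * t : ℕ) : ℝ) = (Nat.lcm q q' : ℝ) * t := by push_cast; rfl
  have hX : (0 : ℝ) ≤ (v : ℝ) - u := by
    have : (u : ℝ) ≤ v := by exact_mod_cast huv
    linarith
  have hLr : (0 : ℝ) < (Nat.lcm q q' : ℝ) := by exact_mod_cast hL
  have htr : (0 : ℝ) < (t : ℝ) := by exact_mod_cast ht
  have hBr : (0 : ℝ) < (B : ℝ) := by exact_mod_cast hB
  refine ⟨?_, ?_, ?_⟩
  · have h := hE n r u v (Nat.lcm q q' * t) x0 1 0 B k hn hr1 hr2 hu huv hv hD hDle le_rfl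
      (by exact_mod_cast hone) hB hB2 hk
    have hset : (ce n u v B k).filter (fun g => q ∣ g ∧ q' ∣ g ∧ t ∣ g + 1) =
        cel2 (n ^ 2) u v (Nat.lcm q q' * t) x0 1 0 B k := by
      ext g
      rw [mem_filter, mem_cel2, hx0]
      constructor
      · rintro ⟨a, b⟩
        exact ⟨a, b, Nat.modEq_one⟩
      · rintro ⟨a, b, -⟩
        exact ⟨a, b⟩
    rw [hset]
    have h5 := (abs_le.1 h).2
    rw [hDcast, Nat.cast_one, mul_one] at h5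
    linarith
  · obtain ⟨M0, hM0⟩ := LC.I_PmC.sol q z ρ hz h3
    have h := hE n r u v (Nat.lcm q q' * t) x0 z M0 B k hn hr1 hr2 hu huv hv hD hDle hz
      (bz.trans hpow1) hB hB2 hk
    have hset : (ce n u v B k).filter (fun g => q ∣ g ∧ q' ∣ g ∧ t ∣ g + 1 ∧
        z ∣ q * ⌊n ^ 2 / (g : ℝ)⌋₊ + ρ) =
        cel2 (n ^ 2) u v (Nat.lcm q q' * t) x0 z M0 B k := by
      ext g
      rw [mem_filter, mem_cel2, ← hx0, ← hM0]
      tauto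
    rw [hset]
    have h5 := (abs_le.1 h).1
    have hzr : (0 : ℝ) < (z : ℝ) := by exact_mod_cast hz
    have e : ((v : ℝ) - u) / ((Nat.lcm q q' : ℝ) * t * B) / z =
        ((v : ℝ) - u) / (((Nat.lcm q q' * t : ℕ) : ℝ) * z * B) := by
      rw [hDcast, div_div]
      congr 1
      ring
    rw [e]
    linarith
  · rcases ((ce n u v B k).filter (fun g => q ∣ g ∧ q' ∣ g ∧ t ∣ g + 1 ∧
        z ∣ q * ⌊n ^ 2 / (g : ℝ)⌋₊ + ρ ∧
        z' ∣ q' * ⌊n ^ 2 / (g : ℝ)⌋₊ + ρ')).eq_empty_or_nonempty with h0 | ⟨g0, hg0⟩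
    · rw [h0]
      simp only [card_empty, Nat.cast_zero]
      have := cor_nonneg q q' (z, ρ) (z', ρ')
      have hCn : 0 ≤ C * n ^ (19 / 20 : ℝ) :=
        mul_nonneg (by linarith) (Real.rpow_nonneg hn0 _)
      positivity
    · obtain ⟨-, -, -, -, m1, m2⟩ := mem_filter.1 hg0
      obtain ⟨M0, hM0def⟩ : ∃ M0 : ℕ, M0 = ⌊n ^ 2 / (g0 : ℝ)⌋₊ := ⟨_, rfl⟩
      rw [← hM0def] at m1 m2
      obtain ⟨s, hs⟩ := LC.I_PmC.sol q z ρ hz h3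
      obtain ⟨s', hs'⟩ := LC.I_PmC.sol q' z' ρ' hz' h4
      have hlc : 1 ≤ Nat.lcm z z' := Nat.lcm_pos hz hz'
      have hlcle : (Nat.lcm z z' : ℝ) ≤ n ^ (1 / 50 : ℝ) := by
        have a1 : (Nat.lcm z z' : ℝ) ≤ z * z' := by
          exact_mod_cast Nat.le_of_dvd (Nat.mul_pos hz hz') (Nat.lcm_dvd_mul z z')
        exact a1.trans ((mul_le_mul bz bz' (by positivity) hP0).trans hpow2)
      have h := hE n r u v (Nat.lcm q q' * t) x0 (Nat.lcm z z') M0 B k hn hr1 hr2 hu huv hv hD hDle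
        hlc hlcle hB hB2 hk
      have hsub : (ce n u v B k).filter (fun g => q ∣ g ∧ q' ∣ g ∧ t ∣ g + 1 ∧
          z ∣ q * ⌊n ^ 2 / (g : ℝ)⌋₊ + ρ ∧ z' ∣ q' * ⌊n ^ 2 / (g : ℝ)⌋₊ + ρ') ⊆
          cel2 (n ^ 2) u v (Nat.lcm q q' * t) x0 (Nat.lcm z z') M0 B k := by
        intro g hg
        obtain ⟨b0, b1, b2, b3, b4, b5⟩ := mem_filter.1 hg
        rw [mem_cel2, ← hx0]
        refine ⟨b0, ⟨b1, b2, b3⟩, ?_⟩
        have a1 : ⌊n ^ 2 / (g : ℝ)⌋₊ ≡ M0 [MOD z] := ((hs _).1 b4).trans ((hs M0).1 m1).symm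
        have a2 : ⌊n ^ 2 / (g : ℝ)⌋₊ ≡ M0 [MOD z'] := ((hs' _).1 b5).trans ((hs' M0).1 m2).symm
        rw [Nat.modEq_iff_dvd] at a1 a2 ⊢
        rw [Int.natCast_dvd] at a1 a2 ⊢
        exact Nat.lcm_dvd a1 a2
      have hg : ((Nat.gcd z z' : ℕ) : ℤ) ∣ (q' : ℤ) * ρ - q * ρ' := by
        have g1 : ((Nat.gcd z z' : ℕ) : ℤ) ∣ (q : ℤ) * M0 + ρ := by
          have := (Nat.gcd_dvd_left z z').trans m1
          exact_mod_cast this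
        have g2 : ((Nat.gcd z z' : ℕ) : ℤ) ∣ (q' : ℤ) * M0 + ρ' := by
          have := (Nat.gcd_dvd_right z z').trans m2
          exact_mod_cast this
        have e : (q' : ℤ) * ρ - q * ρ' =
            q' * ((q : ℤ) * M0 + ρ) - q * ((q' : ℤ) * M0 + ρ') := by ring
        rw [e]
        exact dvd_sub (g1.mul_left _) (g2.mul_left _)
      have hcor : cor q q' (z, ρ) (z', ρ') = 1 / (Nat.lcm z z' : ℝ) := by
        unfold cor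
        rw [if_pos hg]
        exact lcm_inv z z' hz hz'
      have h5 := (abs_le.1 h).2
      have h6 : (((ce n u v B k).filter (fun g => q ∣ g ∧ q' ∣ g ∧ t ∣ g + 1 ∧
          z ∣ q * ⌊n ^ 2 / (g : ℝ)⌋₊ + ρ ∧ z' ∣ q' * ⌊n ^ 2 / (g : ℝ)⌋₊ + ρ')).card : ℝ) ≤
          ((cel2 (n ^ 2) u v (Nat.lcm q q' * t) x0 (Nat.lcm z z') M0 B k).card : ℝ) := by
        exact_mod_cast card_le_card hsub
      have e : ((v : ℝ) - u) / ((Nat.lcm q q' : ℝ) * t * B) * (1 / (Nat.lcm z z' : ℝ)) =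
          ((v : ℝ) - u) / (((Nat.lcm q q' * t : ℕ) : ℝ) * (Nat.lcm z z' : ℝ) * B) := by
        rw [hDcast, mul_one_div, div_div]
        congr 1
        ring
      rw [hcor, e]
      linarith

end Pool.Agent.Work.MP_a8fbd7_nt.PAR.EF.I_Cn
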