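import Pool.Agent.Work.MP_a8fbd7_nt.PAR.EF.StmtsX

set_option autoImplicit false

/-!
MP_a8fbd7_nt, block EF, item EnX: conclusion with many integers (copy of `I_EnS.lean`).
-/

open Finset Filter Topology

noncomputable section

namespace Pool.Agent.Work.MP_a8fbd7_nt.PAR.EF.I_EnX

open Pool.Agent.Work.MP_a8fbd7_nt.PAR.LC

theorem lam_val (a : ℕ) (ha : 0 < a) : lam a = 1 ∨ lam a = -1 := by
  unfold lam
  rw [ArithmeticFunction.liouville_apply ha.ne']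
  exact neg_one_pow_eq_or ℤ _

theorem lam_sgn : Sgn lam where
  mul a b _ _ := ArithmeticFunction.liouville_apply_mul a b
  val := lam_val

theorem ev_pow (k : ℕ) (C b : ℝ) (hb : 0 < b) :
    ∀ᶠ l : ℝ in atTop, C * l ^ k ≤ Real.exp (b * l) := by
  have h := (isLittleO_pow_exp_pos_mul_atTop k hb).bound
    (show (0 : ℝ) < 1 / (|C| + 1) by positivity)
  filter_upwards [h, eventually_ge_atTop (0 : ℝ)] with l hl hl0
  rw [Real.norm_of_nonneg (by positivity), Real.norm_of_nonneg (Real.exp_pos _).le] at hl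
  have h1 : (|C| + 1) * l ^ k ≤ Real.exp (b * l) := by
    have h2 : (0 : ℝ) < |C| + 1 := by positivity
    calc (|C| + 1) * l ^ k ≤ (|C| + 1) * (1 / (|C| + 1) * Real.exp (b * l)) :=
          mul_le_mul_of_nonneg_left hl h2.le
      _ = Real.exp (b * l) := by field_simp
  refine le_trans (mul_le_mul_of_nonneg_right ?_ (by positivity)) h1
  have := le_abs_self C
  linarith

/-- The elementary inequalities for one value of `l`. -/
theorem core {c₁ κ n c : ℝ} {J X A Bd' : ℝ} (hc₁ : 0 < c₁) (hκ : κ = c₁ / 16) (hJ : 0 < J)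
    (hc : 0 < c) (hJ4 : 4 * J ^ (-(1 / 4) : ℝ) ≤ c₁ / 4)
    (hX : 200 * J / c * n / J ^ 2 ≤ X) (hX1 : 0 < X)
    (hA : A ≤ 3 * J * Bd' + 4 * J ^ (-(1 / 4) : ℝ) * X)
    (hB : Bd' ≤ κ * (200 * n / (c * J ^ 2))) (hM : c₁ * X ≤ A) : False := by
  have h1 : 3 * J * Bd' ≤ 3 * κ * X := by
    calc 3 * J * Bd' ≤ 3 * J * (κ * (200 * n / (c * J ^ 2))) :=
          mul_le_mul_of_nonneg_left hB (by positivity)
      _ = 3 * κ * (200 * J / c * n / J ^ 2) := by field_simp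
      _ ≤ 3 * κ * X := mul_le_mul_of_nonneg_left hX (by rw [hκ]; positivity)
  have h2 : 4 * J ^ (-(1 / 4) : ℝ) * X ≤ c₁ / 4 * X := mul_le_mul_of_nonneg_right hJ4 hX1.le
  rw [hκ] at h1
  have h3 : 0 < c₁ * X := by positivity
  linarith

/-- The size of the divisor weight for large `l`. -/
theorem ev_key : ∀ᶠ l : ℝ in atTop, 12 * (2 + l / 2) ^ 16 * Real.exp (-(l ^ (99 / 100 : ℝ))) ≤
    Real.exp (-(10 * l ^ (49 / 50 : ℝ))) ^ 2 := by
  have h1 : Tendsto (fun l : ℝ => l ^ (49 / 50 : ℝ)) atTop atTop :=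
    tendsto_rpow_atTop (by norm_num)
  have h2 : Tendsto (fun l : ℝ => l ^ (1 / 100 : ℝ)) atTop atTop :=
    tendsto_rpow_atTop (by norm_num)
  filter_upwards [h1.eventually (ev_pow 32 (12 * 3 ^ 16) 1 (by norm_num)),
    h2.eventually_ge_atTop 21, eventually_ge_atTop (1 : ℝ)] with l h3 h4 h5
  have hl0 : 0 < l := by linarith
  obtain ⟨y, hy⟩ : ∃ y : ℝ, y = l ^ (49 / 50 : ℝ) := ⟨_, rfl⟩
  rw [← hy] at h3 ⊢
  have hy1 : 1 ≤ y := by rw [hy]; exact Real.one_le_rpow h5 (by norm_num)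
  have hly : l ≤ y ^ 2 := by
    have h6 : y ^ 2 = l ^ (49 / 25 : ℝ) := by
      rw [hy, ← Real.rpow_natCast, ← Real.rpow_mul hl0.le]
      norm_num
    rw [h6]
    calc l = l ^ (1 : ℝ) := (Real.rpow_one l).symm
      _ ≤ l ^ (49 / 25 : ℝ) := Real.rpow_le_rpow_of_exponent_le h5 (by norm_num)
  have hpow : l ^ (99 / 100 : ℝ) = y * l ^ (1 / 100 : ℝ) := by
    rw [hy, ← Real.rpow_add hl0]
    norm_num
  have hge : 21 * y ≤ l ^ (99 / 100 : ℝ) := by
    rw [hpow]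
    nlinarith
  have hp : 12 * (2 + l / 2) ^ 16 ≤ Real.exp y := by
    have h7 : 2 + l / 2 ≤ 3 * y ^ 2 := by nlinarith
    have h8 : (2 + l / 2) ^ 16 ≤ (3 * y ^ 2) ^ 16 := pow_le_pow_left₀ (by positivity) h7 16
    have h9 : 12 * (3 * y ^ 2) ^ 16 = 12 * 3 ^ 16 * y ^ 32 := by ring
    rw [one_mul] at h3
    linarith
  calc 12 * (2 + l / 2) ^ 16 * Real.exp (-(l ^ (99 / 100 : ℝ)))
      ≤ Real.exp y * Real.exp (-(21 * y)) := by
        refine mul_le_mul hp (Real.exp_le_exp.2 (by linarith)) (Real.exp_pos _).le (Real.exp_pos _).le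
    _ = Real.exp (-(10 * y)) ^ 2 := by
        rw [← Real.exp_add, ← Real.exp_nat_mul]
        congr 1
        push_cast
        ring

theorem prf : StEnX := by
  rintro ⟨c₁, X0, hc₁, hMR⟩ ⟨n1, J0, hCh⟩ hBd hTu ⟨l0, hPa⟩
  obtain ⟨l1, hB⟩ := hBd (c₁ / 16) (by positivity)
  -- the size of `J` which is needed
  obtain ⟨K, hKdef⟩ : ∃ K : ℝ, K = max (J0 : ℝ) ((16 / c₁) ^ 4) := ⟨_, rfl⟩
  have hK0 : 0 ≤ K := by
    rw [hKdef]
    exact le_max_of_le_left (Nat.cast_nonneg _)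
  have e1 : ∀ᶠ l : ℝ in atTop, cL l ≤ 1 / (K + 1) := by
    have h := tendsto_rpow_neg_atTop (show (0 : ℝ) < 1 / 100 by norm_num)
    exact h.eventually_le_const (by positivity)
  have e2 := ev_pow 3 9 (1 / 800) (by norm_num)
  have e3 := ev_pow 1 ((X0 : ℝ) + 1) (1 / 2) (by norm_num)
  have e4 := ev_pow 0 n1 (1 / 2) (by norm_num)
  have hall := ((e1.and (e2.and (e3.and e4))).and
    ((eventually_ge_atTop l0).and ((eventually_ge_atTop l1).and
      ((eventually_ge_atTop (2 : ℝ)).and ev_key))))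
  obtain ⟨L, hL⟩ := eventually_atTop.1 hall
  refine ⟨Real.exp L, fun x hx s hs => ?_⟩
  have hx0 : 0 < x := lt_of_lt_of_le (Real.exp_pos _) hx
  obtain ⟨l, hl⟩ : ∃ l : ℝ, l = Real.log x := ⟨_, rfl⟩
  have hLl : L ≤ l := by
    rw [hl, Real.le_log_iff_exp_le hx0]
    exact hx
  obtain ⟨⟨h1, h2, h3, h4⟩, h5, h6, h72, hkey⟩ := hL l hLl
  have h7 : 1 ≤ l := by linarith
  have hxl : x = Real.exp l := by rw [hl, Real.exp_log hx0]
  have hn2 : Real.exp (l / 2) ^ 2 = x := by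
    rw [hxl, ← Real.exp_nat_mul]
    congr 1
    push_cast
    ring
  have hsq : Real.sqrt x = Real.exp (l / 2) := by
    rw [← hn2]
    exact Real.sqrt_sq (Real.exp_pos _).le
  have hP := hPa l h5
  have hBl := hB l h6
  obtain ⟨n, hn⟩ : ∃ n : ℝ, n = Real.exp (l / 2) := ⟨_, rfl⟩
  obtain ⟨c, hc⟩ : ∃ c : ℝ, c = cL l := ⟨_, rfl⟩
  obtain ⟨J, hJ⟩ : ∃ J : ℕ, J = JL l := ⟨_, rfl⟩
  have hcl : 1 / c = l ^ (1 / 100 : ℝ) := by
    rw [hc]
    unfold cL
    rw [Real.rpow_neg (by linarith), one_div, inv_inv]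
  have hcl' : 1 / c ≤ l := by
    rw [hcl]
    calc l ^ (1 / 100 : ℝ) ≤ l ^ (1 : ℝ) :=
          Real.rpow_le_rpow_of_exponent_le h7 (by norm_num)
      _ = l := Real.rpow_one l
  rw [← hn, ← hc, ← hJ] at hP hBl
  rw [← hn] at hn2 hsq
  rw [← hc] at h1
  have hc0 := hP.c0
  have hJ1 := hP.J1
  have hJ2 := hP.J2
  have hn0 : 0 < n := by rw [hn]; exact Real.exp_pos _
  -- size of `J`
  have hic : K + 1 ≤ 1 / c := by
    rw [le_div_iff₀ hc0]
    rw [le_div_iff₀ (by positivity)] at h1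
    linarith
  have hic0 : 0 ≤ 1 / c := by positivity
  have hKJ : K ≤ J := by
    have h8 : (8 : ℝ) / c ^ 2 = 8 * (1 / c) ^ 2 := by
      rw [one_div, inv_pow]
      rfl
    rw [h8] at hJ1
    nlinarith
  have hJpos : (0 : ℝ) < J := lt_of_lt_of_le (by positivity) hJ1
  have hJ0 : J0 ≤ J := by
    have h9 : (J0 : ℝ) ≤ J := le_trans (by rw [hKdef]; exact le_max_left _ _) hKJ
    exact_mod_cast h9
  have hJ4 : 4 * (J : ℝ) ^ (-(1 / 4) : ℝ) ≤ c₁ / 4 := by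
    have h9 : (16 / c₁) ^ 4 ≤ (J : ℝ) := le_trans (by rw [hKdef]; exact le_max_right _ _) hKJ
    have h10 : 16 / c₁ ≤ (J : ℝ) ^ (1 / 4 : ℝ) := by
      have h11 : ((16 / c₁) ^ 4) ^ (1 / 4 : ℝ) = 16 / c₁ := by
        rw [← Real.rpow_natCast, ← Real.rpow_mul (by positivity)]
        norm_num
      rw [← h11]
      exact Real.rpow_le_rpow (by positivity) h9 (by norm_num)
    rw [Real.rpow_neg hJpos.le]
    have h12 : ((J : ℝ) ^ (1 / 4 : ℝ))⁻¹ ≤ (16 / c₁)⁻¹ := inv_anti₀ (by positivity) h10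
    rw [inv_div] at h12
    linarith
  have hJc : (J : ℝ) / c ≤ n ^ (1 / 400 : ℝ) := by
    have h9 : n ^ (1 / 400 : ℝ) = Real.exp (1 / 800 * l) := by
      rw [hn, ← Real.exp_mul]
      congr 1
      ring
    rw [h9]
    refine le_trans ?_ h2
    have h10 : (J : ℝ) / c ≤ 9 * (1 / c) ^ 3 := by
      calc (J : ℝ) / c ≤ 9 / c ^ 2 / c := div_le_div_of_nonneg_right hJ2 hc0.le
        _ = 9 * (1 / c) ^ 3 := by field_simp
    refine h10.trans (mul_le_mul_of_nonneg_left ?_ (by norm_num))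
    exact pow_le_pow_left₀ hic0 hcl' 3
  have hn1 : n1 ≤ n := by
    rw [hn]
    rw [pow_zero, mul_one] at h4
    refine h4.trans_eq ?_
    congr 1
    ring
  -- size of `X`
  obtain ⟨X, hX⟩ : ∃ X : ℕ, X = ⌈200 * (J : ℝ) / c * n / (J : ℝ) ^ 2⌉₊ := ⟨_, rfl⟩
  have hXle : 200 * (J : ℝ) / c * n / (J : ℝ) ^ 2 ≤ X := by
    rw [hX]
    exact Nat.le_ceil _
  have hXX : (X0 : ℝ) + 1 ≤ X := by
    refine le_trans ?_ hXle
    have h9 : 200 * (J : ℝ) / c * n / (J : ℝ) ^ 2 = 200 * n / (c * J) := by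
      field_simp
    rw [h9, le_div_iff₀ (by positivity)]
    have h10 : c * J ≤ 9 * l := by
      calc c * J ≤ c * (9 / c ^ 2) := mul_le_mul_of_nonneg_left hJ2 hc0.le
        _ = 9 * (1 / c) := by field_simp
        _ ≤ 9 * l := mul_le_mul_of_nonneg_left hcl' (by norm_num)
    have h11 : ((X0 : ℝ) + 1) * l ≤ n := by
      rw [hn]
      rw [pow_one] at h3
      refine h3.trans_eq ?_
      congr 1
      ring
    have h12 : (0 : ℝ) ≤ (X0 : ℝ) + 1 := by positivity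
    calc ((X0 : ℝ) + 1) * (c * J) ≤ ((X0 : ℝ) + 1) * (9 * l) :=
          mul_le_mul_of_nonneg_left h10 h12
      _ = 9 * (((X0 : ℝ) + 1) * l) := by ring
      _ ≤ 9 * n := mul_le_mul_of_nonneg_left h11 (by norm_num)
      _ ≤ 200 * n := by linarith
  by_contra hcon
  push Not at hcon
  have hsub : Ex lam (-s) n c ⊆ (Icc ⌈x⌉₊ ⌊x + Real.sqrt x / Real.log x ^ (1 / 100 : ℝ)⌋₊).filter
      (fun m => ArithmeticFunction.liouville m = s) := by
    intro m hm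
    have hcn : x + c * n = x + Real.sqrt x / Real.log x ^ (1 / 100 : ℝ) := by
      rw [hsq, ← hl, ← hcl]
      field_simp
    rw [Ex, mem_filter, hn2, hcn] at hm
    refine mem_filter.2 ⟨hm.1, ?_⟩
    have hmpos : 0 < m := lt_of_lt_of_le (Nat.ceil_pos.2 hx0) (mem_Icc.1 hm.1).1
    have h9 : lam m ≠ -s := hm.2
    have h10 : lam m = s := by
      rcases lam_val m hmpos with h | h <;> rcases hs with rfl | rfl
      · exact h
      · exact absurd (by rw [h]; norm_num) h9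
      · exact absurd h h9
      · exact h
    exact h10
  have hcard : ((Ex lam (-s) n c).card : ℝ) ≤ n * Real.exp (-(l ^ (99 / 100 : ℝ))) := by
    have h9 : ((Ex lam (-s) n c).card : ℝ) ≤ (((Icc ⌈x⌉₊ ⌊x + Real.sqrt x /
        Real.log x ^ (1 / 100 : ℝ)⌋₊).filter (fun m => ArithmeticFunction.liouville m = s)).card : ℝ) := by
      exact_mod_cast card_le_card hsub
    have h10 := h9.trans hcon.le
    rw [hsq, ← hl] at h10
    exact h10
  have hn2l : 2 ≤ n := by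
    rw [hn]
    have := Real.add_one_le_exp (l / 2)
    linarith
  have hτ : ∑ m ∈ Ex lam (-s) n c, (m.divisors.card : ℝ) ^ 2 ≤ 12 * n * (2 + l / 2) ^ 16 := by
    have h9 := hTu n c hn2l hc0 (by linarith [hP.c1])
    have h10 : Real.log n = l / 2 := by rw [hn, Real.log_exp]
    rw [h10] at h9
    exact (sum_le_sum_of_subset_of_nonneg (filter_subset _ _) (fun _ _ _ => sq_nonneg _)).trans h9
  have hDv0 : 0 ≤ Dv lam (-s) n c := sum_nonneg (fun _ _ => Nat.cast_nonneg _)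
  have hDv2 : Dv lam (-s) n c ^ 2 ≤ (n * Real.exp (-(10 * l ^ (49 / 50 : ℝ)))) ^ 2 := by
    have h9 : Dv lam (-s) n c ^ 2 ≤ ((Ex lam (-s) n c).card : ℝ) *
        ∑ m ∈ Ex lam (-s) n c, (m.divisors.card : ℝ) ^ 2 := sq_sum_le_card_mul_sum_sq
    calc Dv lam (-s) n c ^ 2 ≤ ((Ex lam (-s) n c).card : ℝ) *
        ∑ m ∈ Ex lam (-s) n c, (m.divisors.card : ℝ) ^ 2 := h9
      _ ≤ (n * Real.exp (-(l ^ (99 / 100 : ℝ)))) * (12 * n * (2 + l / 2) ^ 16) :=
          mul_le_mul hcard hτ (sum_nonneg (fun _ _ => sq_nonneg _)) (by positivity)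
      _ = n ^ 2 * (12 * (2 + l / 2) ^ 16 * Real.exp (-(l ^ (99 / 100 : ℝ)))) := by ring
      _ ≤ n ^ 2 * Real.exp (-(10 * l ^ (49 / 50 : ℝ))) ^ 2 :=
          mul_le_mul_of_nonneg_left hkey (by positivity)
      _ = (n * Real.exp (-(10 * l ^ (49 / 50 : ℝ)))) ^ 2 := by ring
  have hDv : Dv lam (-s) n c ≤ n * Real.exp (-(10 * l ^ (49 / 50 : ℝ))) :=
    (pow_le_pow_iff_left₀ hDv0 (by positivity) two_ne_zero).1 hDv2
  have hA := hCh lam n c J hn1 hJ0 lam_sgn hc0 hP.c1 hJ1 hJ2 hJc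
  have hBB := hBl lam (-s) lam_sgn hDv
  rw [← hX] at hA
  have hM := hMR X (by
    have : (X0 : ℝ) ≤ X := by linarith
    exact_mod_cast this)
  refine core hc₁ rfl hJpos hc0 hJ4 hXle ?_ hA hBB hM
  have : (0 : ℝ) ≤ X0 := Nat.cast_nonneg _
  linarith

end Pool.Agent.Work.MP_a8fbd7_nt.PAR.EF.I_EnX
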