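import Pool.Agent.Work.MP_a8fbd7_nt.PAR.EF.StmtsU

set_option autoImplicit false

open Finset

noncomputable section

namespace Pool.Agent.Work.MP_a8fbd7_nt.PAR.EF

namespace XFK

theorem dk (t : ℝ) (k : ℕ) :
    (1 + ∑ h ∈ Icc 1 k, 2 * Real.cos (2 * Real.pi * h * t)) * Real.sin (Real.pi * t) =
      Real.sin ((2 * k + 1) * (Real.pi * t)) := by
  induction k with
  | zero => simp
  | succ k ih =>
    rw [Finset.sum_Icc_succ_top (by omega), ← add_assoc, add_mul, ih]
    have h1 : ((2 * ((k + 1 : ℕ) : ℝ) + 1) * (Real.pi * t)) =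
        2 * Real.pi * ((k + 1 : ℕ) : ℝ) * t + Real.pi * t := by ring
    have h2 : ((2 * (k : ℝ) + 1) * (Real.pi * t)) =
        2 * Real.pi * ((k + 1 : ℕ) : ℝ) * t - Real.pi * t := by push_cast; ring
    rw [h1, h2, Real.sin_add, Real.sin_sub]
    ring

/-- `A_H` -/
def A (H : ℕ) (t : ℝ) : ℝ :=
  (H + 1) + ∑ h ∈ Icc 1 H, 2 * ((H : ℝ) + 1 - h) * Real.cos (2 * Real.pi * h * t)

theorem fh_A (H : ℕ) (t : ℝ) : ((H : ℝ) + 1) * FH H t = A H t := by
  unfold FH A
  have hH : ((H : ℝ) + 1) ≠ 0 := by positivity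
  rw [mul_add, mul_one, Finset.mul_sum]
  refine congrArg₂ (· + ·) rfl (Finset.sum_congr rfl fun h _ => ?_)
  field_simp

theorem a_succ (H : ℕ) (t : ℝ) :
    A (H + 1) t = A H t + (1 + ∑ h ∈ Icc 1 (H + 1), 2 * Real.cos (2 * Real.pi * h * t)) := by
  unfold A
  have h1 : ∀ h ∈ Icc 1 (H + 1), 2 * (((H + 1 : ℕ) : ℝ) + 1 - h) * Real.cos (2 * Real.pi * h * t) =
      2 * ((H : ℝ) + 1 - h) * Real.cos (2 * Real.pi * h * t) + 2 * Real.cos (2 * Real.pi * h * t) := by
    intro h _
    push_cast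
    ring
  rw [Finset.sum_congr rfl h1, Finset.sum_add_distrib,
    Finset.sum_Icc_succ_top (f := fun h : ℕ => 2 * ((H : ℝ) + 1 - h) * Real.cos (2 * Real.pi * h * t))
      (by omega)]
  push_cast
  ring

theorem a_sin (H : ℕ) (t : ℝ) :
    A H t * Real.sin (Real.pi * t) ^ 2 = Real.sin ((H + 1) * (Real.pi * t)) ^ 2 := by
  induction H with
  | zero => simp [A]
  | succ H ih =>
    rw [a_succ, add_mul, ih]
    have h1 := dk t (H + 1)
    have h2 : (1 + ∑ h ∈ Icc 1 (H + 1), 2 * Real.cos (2 * Real.pi * h * t)) *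
        Real.sin (Real.pi * t) ^ 2 =
        Real.sin ((2 * ((H + 1 : ℕ) : ℝ) + 1) * (Real.pi * t)) * Real.sin (Real.pi * t) := by
      rw [← h1]; ring
    rw [h2]
    set a : ℝ := ((H : ℝ) + 1) * (Real.pi * t)
    set b : ℝ := Real.pi * t
    have h3 : (2 * ((H + 1 : ℕ) : ℝ) + 1) * b = (a + b) + a := by
      simp only [a]; push_cast; ring
    have h4 : (((H + 1 : ℕ) : ℝ) + 1) * b = a + b := by
      simp only [a]; push_cast; ring
    have h5 : Real.sin b = Real.sin (a + b) * Real.cos a - Real.cos (a + b) * Real.sin a := by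
      rw [← Real.sin_sub]; congr 1; ring
    rw [h3, h4, Real.sin_add (a + b) a, h5]
    have ha := Real.sin_sq_add_cos_sq a
    have hb := Real.sin_sq_add_cos_sq (a + b)
    have e1 : Real.cos a ^ 2 = 1 - Real.sin a ^ 2 := by linarith
    have e2 : Real.cos (a + b) ^ 2 = 1 - Real.sin (a + b) ^ 2 := by linarith
    have : (Real.sin (a + b) * Real.cos a + Real.cos (a + b) * Real.sin a) *
        (Real.sin (a + b) * Real.cos a - Real.cos (a + b) * Real.sin a) =
        Real.sin (a + b) ^ 2 * Real.cos a ^ 2 - Real.cos (a + b) ^ 2 * Real.sin a ^ 2 := by ring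
    rw [this, e1, e2]
    ring

end XFK

theorem iFK : StFK := by
  intro H t
  have hH : (0 : ℝ) < (H : ℝ) + 1 := by positivity
  have hA := XFK.fh_A H t
  have hs := XFK.a_sin H t
  refine ⟨?_, ?_⟩
  · by_cases h0 : Real.sin (Real.pi * t) = 0
    · obtain ⟨n, hn⟩ := Real.sin_eq_zero_iff.1 h0
      have ht : t = n := by
        have hpi := Real.pi_ne_zero
        have : Real.pi * t = Real.pi * n := by rw [← hn]; ring
        exact mul_left_cancel₀ hpi this
      unfold FH
      refine add_nonneg zero_le_one (Finset.sum_nonneg fun h hh => ?_)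
      have hc : Real.cos (2 * Real.pi * h * t) = 1 := by
        rw [Real.cos_eq_one_iff]
        exact ⟨h * n, by rw [ht]; push_cast; ring⟩
      rw [hc, mul_one]
      have hh2 : (h : ℝ) ≤ (H : ℝ) := by exact_mod_cast (Finset.mem_Icc.1 hh).2
      have : (h : ℝ) / ((H : ℝ) + 1) ≤ 1 := by
        rw [div_le_one hH]; linarith
      linarith
    · have h1 : 0 < Real.sin (Real.pi * t) ^ 2 := by positivity
      have h2 : 0 ≤ XFK.A H t := by
        by_contra h3
        have h4 : XFK.A H t * Real.sin (Real.pi * t) ^ 2 < 0 :=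
          mul_neg_of_neg_of_pos (not_le.1 h3) h1
        rw [hs] at h4
        exact absurd h4 (not_lt.2 (sq_nonneg _))
      rw [← hA] at h2
      exact nonneg_of_mul_nonneg_right h2 hH
  · have h1 : FH H t * (((H : ℝ) + 1) * Real.sin (Real.pi * t) ^ 2) =
        XFK.A H t * Real.sin (Real.pi * t) ^ 2 := by rw [← hA]; ring
    rw [h1, hs]
    exact Real.sin_sq_le_one _

end Pool.Agent.Work.MP_a8fbd7_nt.PAR.EF
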