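import Pool.Agent.Work.MP_a8fbd7_nt.PAR.EF.StmtsH

set_option autoImplicit false

/-!
MP_a8fbd7_nt, block EF, part H, item H1 (Chebyshev with prime powers), helper63.
-/

open Finset

noncomputable section

namespace Pool.Agent.Work.MP_a8fbd7_nt.PAR.EF.I_H1

/-- a prime power and the von Mangoldt function -/
theorem log_le (M d : ℕ) (hd1 : 1 ≤ d) (hdM : d ≤ M) (h : IsPrimePow d) :
    Real.log d ≤ Real.log M / Real.log 2 * ArithmeticFunction.vonMangoldt d := by
  obtain ⟨p, k, hp, hk, rfl⟩ := (isPrimePow_nat_iff d).1 h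
  have hl2 : 0 < Real.log 2 := Real.log_pos one_lt_two
  rw [ArithmeticFunction.vonMangoldt_apply_pow hk.ne', ArithmeticFunction.vonMangoldt_apply_prime hp,
    Nat.cast_pow, Real.log_pow]
  refine mul_le_mul_of_nonneg_right ?_ (Real.log_natCast_nonneg p)
  rw [le_div_iff₀ hl2, ← Real.log_pow]
  refine Real.log_le_log (by positivity) ?_
  have h1 : 2 ^ k ≤ M := (Nat.pow_le_pow_left hp.two_le k).trans hdM
  exact_mod_cast h1

theorem prf : StH1 := by
  classical
  refine ⟨66, by norm_num, fun M => ?_⟩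
  rcases Nat.eq_zero_or_pos M with h0 | hM
  · subst h0
    simp
  have hM1 : (1 : ℝ) ≤ M := by exact_mod_cast hM
  have hM0 : (0 : ℝ) ≤ M := zero_le_one.trans hM1
  have hl2 : 0 < Real.log 2 := Real.log_pos one_lt_two
  have hlM : 0 ≤ Real.log M := Real.log_nonneg hM1
  -- primes
  have h1 : ∑ d ∈ ((Icc 1 M).filter IsPrimePow).filter Nat.Prime, Real.log d ≤ Real.log 4 * M := by
    refine le_trans ?_ (Chebyshev.theta_le_log4_mul_x hM0)
    rw [Chebyshev.theta_eq_sum_Icc, Nat.floor_natCast]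
    refine sum_le_sum_of_subset_of_nonneg ?_ fun i _ _ => Real.log_natCast_nonneg i
    intro d hd
    rw [mem_filter, mem_filter, mem_Icc] at hd
    exact mem_filter.2 ⟨mem_Icc.2 ⟨Nat.zero_le _, hd.1.1.2⟩, hd.2⟩
  -- higher powers
  have h2 : ∑ d ∈ ((Icc 1 M).filter IsPrimePow).filter (fun d => ¬ Nat.Prime d), Real.log d ≤
      Real.log M / Real.log 2 * (2 * Real.sqrt M * Real.log M) := by
    have h3 : ∑ d ∈ ((Icc 1 M).filter IsPrimePow).filter (fun d => ¬ Nat.Prime d), Real.log d ≤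
        ∑ d ∈ ((Icc 1 M).filter IsPrimePow).filter (fun d => ¬ Nat.Prime d),
          Real.log M / Real.log 2 * ArithmeticFunction.vonMangoldt d := by
      refine sum_le_sum fun d hd => ?_
      rw [mem_filter, mem_filter, mem_Icc] at hd
      exact log_le M d hd.1.1.1 hd.1.1.2 hd.1.2
    refine h3.trans ?_
    rw [← mul_sum]
    refine mul_le_mul_of_nonneg_left ?_ (div_nonneg hlM hl2.le)
    refine le_trans ?_ (Chebyshev.psi_sub_theta_le hM1)
    rw [Chebyshev.psi_sub_theta_eq_sum_not_prime, Nat.floor_natCast]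
    refine sum_le_sum_of_subset_of_nonneg ?_ fun i _ _ =>
      ArithmeticFunction.vonMangoldt_nonneg
    intro d hd
    rw [mem_filter, mem_filter, mem_Icc] at hd
    exact mem_filter.2 ⟨mem_Ioc.2 ⟨hd.1.1.1, hd.1.1.2⟩, hd.2⟩
  -- the logarithm and the square root
  have h4 : Real.log M ^ 2 ≤ 16 * Real.sqrt M := by
    have h5 : Real.log M ≤ (M : ℝ) ^ (1 / 4 : ℝ) / (1 / 4 : ℝ) :=
      Real.log_le_rpow_div hM0 (by norm_num)
    have h6 : ((M : ℝ) ^ (1 / 4 : ℝ)) ^ 2 = Real.sqrt M := by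
      rw [Real.sqrt_eq_rpow, ← Real.rpow_natCast, ← Real.rpow_mul hM0]
      norm_num
    calc Real.log M ^ 2 ≤ ((M : ℝ) ^ (1 / 4 : ℝ) / (1 / 4 : ℝ)) ^ 2 := pow_le_pow_left₀ hlM h5 2
      _ = 16 * ((M : ℝ) ^ (1 / 4 : ℝ)) ^ 2 := by ring
      _ = 16 * Real.sqrt M := by rw [h6]
  have h7 : Real.log M / Real.log 2 * (2 * Real.sqrt M * Real.log M) ≤ 64 * M := by
    have hl : (1 / 2 : ℝ) ≤ Real.log 2 := by linarith [Real.log_two_gt_d9]
    have h8 : Real.sqrt M * Real.sqrt M = M := Real.mul_self_sqrt hM0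
    rw [div_mul_eq_mul_div, div_le_iff₀ hl2]
    have h9 : 0 ≤ Real.sqrt M := Real.sqrt_nonneg _
    calc Real.log M * (2 * Real.sqrt M * Real.log M) = 2 * Real.sqrt M * Real.log M ^ 2 := by ring
      _ ≤ 2 * Real.sqrt M * (16 * Real.sqrt M) := mul_le_mul_of_nonneg_left h4 (by positivity)
      _ = 32 * (Real.sqrt M * Real.sqrt M) := by ring
      _ = 32 * M := by rw [h8]
      _ ≤ 64 * M * Real.log 2 := by nlinarith
  have h10 : Real.log 4 ≤ 2 := by
    have : Real.log 4 = 2 * Real.log 2 := by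
      rw [show (4 : ℝ) = 2 ^ 2 by norm_num, Real.log_pow]
      norm_num
    rw [this]
    linarith [Real.log_two_lt_d9]
  rw [← sum_filter_add_sum_filter_not ((Icc 1 M).filter IsPrimePow) Nat.Prime]
  have h11 : Real.log 4 * M ≤ 2 * M := mul_le_mul_of_nonneg_right h10 hM0
  linarith [h1, h2, h7, h11]

end Pool.Agent.Work.MP_a8fbd7_nt.PAR.EF.I_H1
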