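import Pool.Agent.Work.MP_a8fbd7_nt.PAR.EF.StmtsH

set_option autoImplicit false

open Finset

noncomputable section

namespace Pool.Agent.Work.MP_a8fbd7_nt.PAR.EF.I_H2

open Pool.Agent.Work.MP_a8fbd7_nt.PAR.LC
open Pool.Agent.Work.MP_a8fbd7_nt.PAR.EF

lemma yS_nonneg (S : Finset ℕ) (y : ℝ) (hy : 0 ≤ y) (g : ℕ) : 0 ≤ yS S y g := pow_nonneg hy _

lemma yS_le_of_dvd (S : Finset ℕ) (y : ℝ) (hy : 0 ≤ y) (hy1 : y ≤ 1) (m g : ℕ) (h : m ∣ g) :
    yS S y g ≤ yS S y m := by
  unfold yS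
  apply pow_le_pow_of_le_one hy hy1
  apply Finset.card_le_card
  intro p hp
  simp only [Finset.mem_filter] at hp ⊢
  exact ⟨hp.1, hp.2.trans h⟩

lemma log_eq (g : ℕ) (hg : 1 ≤ g) :
    Real.log g = ∑ p ∈ g.primeFactors, Real.log ((p ^ g.factorization p : ℕ) : ℝ) := by
  have h1 : (g : ℝ) = ∏ p ∈ g.primeFactors, ((p ^ g.factorization p : ℕ) : ℝ) := by
    have h2 := Nat.prod_factorization_pow_eq_self (n := g) (by omega)
    rw [← Nat.cast_prod]
    congr 1
    exact h2.symm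
  conv_lhs => rw [h1]
  rw [Real.log_prod]
  intro p hp
  have := Nat.prime_of_mem_primeFactors hp
  have : 0 < p ^ g.factorization p := pow_pos this.pos _
  positivity

theorem prf (h1 : StH1) : StH2 := by
  obtain ⟨C, hC1, hC⟩ := h1
  refine ⟨C + 2, by linarith, ?_⟩
  intro X S y hX hy hy1
  set F : ℝ := ∑ g ∈ Icc 1 X, yS S y g / g with hF
  have hX0 : (0:ℝ) < X := by exact_mod_cast hX
  have hF0 : 0 ≤ F := Finset.sum_nonneg (fun g _ => div_nonneg (yS_nonneg S y hy g) (Nat.cast_nonneg g))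
  -- part one
  have hp1 : ∑ g ∈ Icc 1 X, yS S y g ≤ X * F := by
    rw [hF, Finset.mul_sum]
    apply Finset.sum_le_sum
    intro g hg
    rw [Finset.mem_Icc] at hg
    have hg0 : (0:ℝ) < g := by exact_mod_cast hg.1
    have hgX : (g:ℝ) ≤ X := by exact_mod_cast hg.2
    rw [← mul_div_assoc, le_div_iff₀ hg0]
    nlinarith [yS_nonneg S y hy g]
  -- part two
  have hp2 : ∑ g ∈ Icc 1 X, yS S y g * Real.log (X / g) ≤ X * F := by
    rw [hF, Finset.mul_sum]
    apply Finset.sum_le_sum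
    intro g hg
    rw [Finset.mem_Icc] at hg
    have hg0 : (0:ℝ) < g := by exact_mod_cast hg.1
    have hq : (0:ℝ) < X / g := by positivity
    have hl : Real.log (X / g) ≤ X / g := (Real.log_le_sub_one_of_pos hq).trans (by linarith)
    calc yS S y g * Real.log (X / g) ≤ yS S y g * (X / g) :=
          mul_le_mul_of_nonneg_left hl (yS_nonneg S y hy g)
      _ = X * (yS S y g / g) := by ring
  -- part three
  have hp3 : ∑ g ∈ Icc 1 X, yS S y g * Real.log g ≤ C * X * F := by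
    have e1 : ∑ g ∈ Icc 1 X, yS S y g * Real.log g
        = ∑ a ∈ (Icc 1 X).sigma (fun g => g.primeFactors),
            yS S y a.1 * Real.log ((a.2 ^ a.1.factorization a.2 : ℕ) : ℝ) := by
      rw [Finset.sum_sigma]
      apply Finset.sum_congr rfl
      intro g hg
      rw [Finset.mem_Icc] at hg
      rw [log_eq g hg.1, Finset.mul_sum]
    set A : Finset (Σ _ : ℕ, ℕ) := (Icc 1 X).sigma (fun g => g.primeFactors) with hA
    set T : Finset (Σ _ : ℕ, ℕ) := (Icc 1 X).sigma (fun m => (Icc 1 (X / m)).filter IsPrimePow) with hT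
    let i : (Σ _ : ℕ, ℕ) → (Σ _ : ℕ, ℕ) := fun a =>
      ⟨a.1 / a.2 ^ a.1.factorization a.2, a.2 ^ a.1.factorization a.2⟩
    have hmem : ∀ a ∈ A, 1 ≤ a.1 ∧ a.1 ≤ X ∧ a.2.Prime ∧ a.2 ∣ a.1 ∧ 1 ≤ a.1.factorization a.2 ∧
        a.2 ^ a.1.factorization a.2 ∣ a.1 := by
      intro a ha
      rw [hA, Finset.mem_sigma, Finset.mem_Icc] at ha
      have hp := Nat.prime_of_mem_primeFactors ha.2
      have hd := Nat.dvd_of_mem_primeFactors ha.2
      refine ⟨ha.1.1, ha.1.2, hp, hd, ?_, Nat.ordProj_dvd _ _⟩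
      exact (hp.dvd_iff_one_le_factorization (by omega)).mp hd
    have hinj : Set.InjOn i A := by
      intro a ha b hb hab
      have ha' := hmem a ha
      have hb' := hmem b hb
      have h1 : a.1 / a.2 ^ a.1.factorization a.2 = b.1 / b.2 ^ b.1.factorization b.2 :=
        congrArg Sigma.fst hab
      have h2 : a.2 ^ a.1.factorization a.2 = b.2 ^ b.1.factorization b.2 := by
        have := (Sigma.ext_iff.mp hab).2
        exact eq_of_heq this
      have hg : a.1 = b.1 := by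
        rw [← Nat.div_mul_cancel ha'.2.2.2.2.2, ← Nat.div_mul_cancel hb'.2.2.2.2.2, h1, h2]
      have hpp : a.2 = b.2 := by
        have hd : a.2 ∣ b.2 ^ b.1.factorization b.2 := by
          rw [← h2]
          exact dvd_pow_self _ (by omega)
        exact (Nat.prime_dvd_prime_iff_eq ha'.2.2.1 hb'.2.2.1).mp (ha'.2.2.1.dvd_of_dvd_pow hd)
      exact Sigma.ext hg (heq_of_eq hpp)
    have hsub : A.image i ⊆ T := by
      intro t ht
      rw [Finset.mem_image] at ht
      obtain ⟨a, ha, rfl⟩ := ht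
      have ha' := hmem a ha
      have hd0 : 0 < a.2 ^ a.1.factorization a.2 := pow_pos ha'.2.2.1.pos _
      have hm1 : 1 ≤ a.1 / a.2 ^ a.1.factorization a.2 :=
        Nat.div_pos (Nat.le_of_dvd (by omega) ha'.2.2.2.2.2) hd0
      have hmX : a.1 / a.2 ^ a.1.factorization a.2 ≤ X := (Nat.div_le_self _ _).trans ha'.2.1
      rw [hT, Finset.mem_sigma, Finset.mem_Icc, Finset.mem_filter, Finset.mem_Icc]
      refine ⟨⟨hm1, hmX⟩, ⟨hd0, ?_⟩, ?_⟩
      · rw [Nat.le_div_iff_mul_le hm1]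
        show a.2 ^ a.1.factorization a.2 * (a.1 / a.2 ^ a.1.factorization a.2) ≤ X
        rw [Nat.mul_div_cancel' ha'.2.2.2.2.2]
        exact ha'.2.1
      · show IsPrimePow (a.2 ^ a.1.factorization a.2)
        exact ha'.2.2.1.isPrimePow.pow (by omega)
    have e2 : ∑ a ∈ A, yS S y a.1 * Real.log ((a.2 ^ a.1.factorization a.2 : ℕ) : ℝ)
        ≤ ∑ a ∈ A, yS S y (i a).1 * Real.log ((i a).2 : ℝ) := by
      apply Finset.sum_le_sum
      intro a ha
      have ha' := hmem a ha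
      have hd0 : 1 ≤ a.2 ^ a.1.factorization a.2 := pow_pos ha'.2.2.1.pos _
      apply mul_le_mul_of_nonneg_right
      · exact yS_le_of_dvd S y hy hy1 _ _ (Nat.div_dvd_of_dvd ha'.2.2.2.2.2)
      · apply Real.log_nonneg
        exact_mod_cast hd0
    have e3 : ∑ a ∈ A, yS S y (i a).1 * Real.log ((i a).2 : ℝ)
        = ∑ t ∈ A.image i, yS S y t.1 * Real.log (t.2 : ℝ) := by
      rw [Finset.sum_image hinj]
    have e4 : ∑ t ∈ A.image i, yS S y t.1 * Real.log (t.2 : ℝ)
        ≤ ∑ t ∈ T, yS S y t.1 * Real.log (t.2 : ℝ) := by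
      apply Finset.sum_le_sum_of_subset_of_nonneg hsub
      intro t ht _
      rw [hT, Finset.mem_sigma, Finset.mem_filter] at ht
      apply mul_nonneg (yS_nonneg S y hy _)
      apply Real.log_nonneg
      have hh := (Finset.mem_Icc.mp ht.2.1).1
      exact_mod_cast hh
    have e5 : ∑ t ∈ T, yS S y t.1 * Real.log (t.2 : ℝ)
        = ∑ m ∈ Icc 1 X, yS S y m * ∑ d ∈ (Icc 1 (X / m)).filter IsPrimePow, Real.log (d : ℝ) := by
      rw [hT, Finset.sum_sigma]
      apply Finset.sum_congr rfl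
      intro m _
      rw [Finset.mul_sum]
    have e6 : ∑ m ∈ Icc 1 X, yS S y m * ∑ d ∈ (Icc 1 (X / m)).filter IsPrimePow, Real.log (d : ℝ)
        ≤ ∑ m ∈ Icc 1 X, C * X * (yS S y m / m) := by
      apply Finset.sum_le_sum
      intro m hm
      rw [Finset.mem_Icc] at hm
      have hm0 : (0:ℝ) < m := by exact_mod_cast hm.1
      have hdiv : ((X / m : ℕ) : ℝ) ≤ X / m := Nat.cast_div_le
      calc yS S y m * ∑ d ∈ (Icc 1 (X / m)).filter IsPrimePow, Real.log (d : ℝ)
          ≤ yS S y m * (C * ((X / m : ℕ) : ℝ)) :=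
            mul_le_mul_of_nonneg_left (hC _) (yS_nonneg S y hy m)
        _ ≤ yS S y m * (C * (X / m)) := by
            apply mul_le_mul_of_nonneg_left _ (yS_nonneg S y hy m)
            exact mul_le_mul_of_nonneg_left hdiv (by linarith)
        _ = C * X * (yS S y m / m) := by ring
    rw [← Finset.mul_sum] at e6
    calc ∑ g ∈ Icc 1 X, yS S y g * Real.log g
        ≤ ∑ a ∈ A, yS S y (i a).1 * Real.log ((i a).2 : ℝ) := e1.le.trans e2
      _ = _ := e3
      _ ≤ _ := e4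
      _ = _ := e5
      _ ≤ _ := e6
  have hsum : Real.log X * ∑ g ∈ Icc 1 X, yS S y g
      = ∑ g ∈ Icc 1 X, yS S y g * Real.log g + ∑ g ∈ Icc 1 X, yS S y g * Real.log (X / g) := by
    rw [Finset.mul_sum, ← Finset.sum_add_distrib]
    apply Finset.sum_congr rfl
    intro g hg
    rw [Finset.mem_Icc] at hg
    have hg0 : (0:ℝ) < g := by exact_mod_cast hg.1
    rw [Real.log_div hX0.ne' hg0.ne']
    ring
  calc (1 + Real.log X) * ∑ g ∈ Icc 1 X, yS S y g
      = ∑ g ∈ Icc 1 X, yS S y g + Real.log X * ∑ g ∈ Icc 1 X, yS S y g := by ring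
    _ ≤ X * F + (C * X * F + X * F) := by rw [hsum]; linarith
    _ = (C + 2) * X * F := by ring

end Pool.Agent.Work.MP_a8fbd7_nt.PAR.EF.I_H2
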