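import Pool.Agent.Work.MP_a8fbd7_nt.PAR.EF.StmtsH
import Pool.Agent.Work.MP_56b8f5_nt.WM.I_Mert

set_option autoImplicit false

open Finset

noncomputable section

namespace Pool.Agent.Work.MP_a8fbd7_nt.PAR.EF.I_H3

theorem yS_one (S : Finset ℕ) (y : ℝ) (hS : ∀ p ∈ S, p.Prime) : yS S y 1 = 1 := by
  unfold yS
  have : S.filter (fun p => p ∣ 1) = ∅ := by
    apply filter_eq_empty_iff.2
    intro p hp h
    exact (hS p hp).one_lt.ne' (Nat.dvd_one.1 h)
  rw [this, card_empty, pow_zero]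

theorem yS_mul (S : Finset ℕ) (y : ℝ) (hS : ∀ p ∈ S, p.Prime) (a b : ℕ) (hab : Nat.Coprime a b) :
    yS S y (a * b) = yS S y a * yS S y b := by
  unfold yS
  rw [← pow_add]
  congr 1
  rw [← card_union_of_disjoint]
  · congr 1
    ext p
    simp only [mem_filter, mem_union]
    constructor
    · rintro ⟨hp, h⟩
      rcases (hS p hp).dvd_mul.1 h with h | h
      · exact Or.inl ⟨hp, h⟩
      · exact Or.inr ⟨hp, h⟩
    · rintro (⟨hp, h⟩ | ⟨hp, h⟩)
      · exact ⟨hp, dvd_mul_of_dvd_left h b⟩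
      · exact ⟨hp, dvd_mul_of_dvd_right h a⟩
  · rw [Finset.disjoint_left]
    intro p h1 h2
    rw [mem_filter] at h1 h2
    exact Nat.not_coprime_of_dvd_of_dvd (hS p h1.1).one_lt h1.2 h2.2 hab

/-- the value at the powers of `p` -/
def gp (S : Finset ℕ) (y : ℝ) (p : ℕ) : ℝ := if p ∈ S then y else 1

theorem yS_pow (S : Finset ℕ) (y : ℝ) (hS : ∀ p ∈ S, p.Prime) (p : ℕ) (hp : p.Prime) (n : ℕ)
    (hn : n ≠ 0) : yS S y (p ^ n) = gp S y p := by
  unfold yS gp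
  split_ifs with h
  · have : S.filter (fun q => q ∣ p ^ n) = {p} := by
      ext q
      rw [mem_filter, mem_singleton]
      constructor
      · rintro ⟨hq, hd⟩
        exact (Nat.prime_dvd_prime_iff_eq (hS q hq) hp).1 ((hS q hq).dvd_of_dvd_pow hd)
      · rintro rfl
        exact ⟨h, dvd_pow_self _ hn⟩
    rw [this, card_singleton, pow_one]
  · have : S.filter (fun q => q ∣ p ^ n) = ∅ := by
      apply filter_eq_empty_iff.2
      intro q hq hd
      have := (Nat.prime_dvd_prime_iff_eq (hS q hq) hp).1 ((hS q hq).dvd_of_dvd_pow hd)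
      exact h (this ▸ hq)
    rw [this, card_empty, pow_zero]

/-- the function `yS(m)/m` -/
def ff (S : Finset ℕ) (y : ℝ) (m : ℕ) : ℝ := yS S y m / m

theorem ff_nonneg (S : Finset ℕ) (y : ℝ) (hy : 0 ≤ y) (m : ℕ) : 0 ≤ ff S y m := by
  unfold ff yS
  positivity

theorem ff_hasSum (S : Finset ℕ) (y : ℝ) (hS : ∀ p ∈ S, p.Prime) (p : ℕ) (hp : p.Prime) :
    HasSum (fun n : ℕ => ff S y (p ^ n)) ((1 - gp S y p) + gp S y p * (1 - 1 / (p : ℝ))⁻¹) := by
  have h2 : (2 : ℝ) ≤ p := by exact_mod_cast hp.two_le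
  have h3 : (1 / (p : ℝ)) < 1 := by
    rw [div_lt_one (by linarith)]
    linarith
  have h4 := (hasSum_geometric_of_lt_one (r := 1 / (p : ℝ)) (by positivity) h3).mul_left (gp S y p)
  have h5 := hasSum_ite_eq (0 : ℕ) (1 - gp S y p)
  refine (h5.add h4).congr_fun fun n => ?_
  show ff S y (p ^ n) = (if n = 0 then 1 - gp S y p else 0) + gp S y p * (1 / (p : ℝ)) ^ n
  rcases Nat.eq_zero_or_pos n with rfl | hn
  · unfold ff
    rw [pow_zero, yS_one S y hS, if_pos rfl, pow_zero]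
    simp
  · unfold ff
    rw [yS_pow S y hS p hp n (by omega), if_neg (by omega), zero_add, Nat.cast_pow, one_div,
      inv_pow, div_eq_mul_inv]

theorem factor_le (S : Finset ℕ) (y : ℝ) (hy0 : 0 ≤ y) (hy1 : y ≤ 1) (p : ℕ) (hp : p.Prime) :
    (1 - gp S y p) + gp S y p * (1 - 1 / (p : ℝ))⁻¹ ≤
      Real.exp (gp S y p / p + 2 * (1 / (p : ℝ) ^ 2)) := by
  have h2 : (2 : ℝ) ≤ p := by exact_mod_cast hp.two_le
  have hg0 : 0 ≤ gp S y p := by unfold gp; split_ifs <;> linarith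
  have hg1 : gp S y p ≤ 1 := by unfold gp; split_ifs <;> linarith
  set g := gp S y p
  have h3 : (1 - 1 / (p : ℝ))⁻¹ = 1 + 1 / (p : ℝ) + 1 / ((p : ℝ) * (p - 1)) := by
    have : (p : ℝ) - 1 ≠ 0 := by linarith
    have hp0 : (p : ℝ) ≠ 0 := by linarith
    field_simp
    ring
  have h4 : 1 / ((p : ℝ) * (p - 1)) ≤ 2 * (1 / (p : ℝ) ^ 2) := by
    rw [mul_one_div, div_le_div_iff₀ (by nlinarith) (by positivity)]
    nlinarith
  have h5 : 0 ≤ 1 / ((p : ℝ) * (p - 1)) := by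
    apply div_nonneg zero_le_one
    nlinarith
  have h6 : g * (1 / ((p : ℝ) * (p - 1))) ≤ 1 * (1 / ((p : ℝ) * (p - 1))) :=
    mul_le_mul_of_nonneg_right hg1 h5
  rw [h3]
  have h7 := Real.add_one_le_exp (g / p + 2 * (1 / (p : ℝ) ^ 2))
  have h8 : g * (1 + 1 / (p : ℝ) + 1 / ((p : ℝ) * (p - 1))) =
      g + g / p + g * (1 / ((p : ℝ) * (p - 1))) := by ring
  linarith

theorem primes_sq (N : ℕ) : ∑ p ∈ Pool.Agent.Work.MP_56b8f5_nt.WM.pr N, 1 / (p : ℝ) ^ 2 ≤ 1 := by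
  rcases Nat.eq_zero_or_pos N with rfl | hN
  · have : Pool.Agent.Work.MP_56b8f5_nt.WM.pr 0 = ∅ := by decide
    rw [this, sum_empty]
    exact zero_le_one
  have hsub : Pool.Agent.Work.MP_56b8f5_nt.WM.pr N ⊆ Ioc 1 N := by
    intro p hp
    unfold Pool.Agent.Work.MP_56b8f5_nt.WM.pr at hp
    rw [mem_filter, mem_range] at hp
    rw [mem_Ioc]
    exact ⟨hp.2.one_lt, by omega⟩
  refine (sum_le_sum_of_subset_of_nonneg hsub fun i _ _ => by positivity).trans ?_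
  have h := sum_Ioc_inv_sq_le_sub (α := ℝ) (k := 1) (n := N) one_ne_zero hN
  simp only [one_div]
  refine h.trans ?_
  have : (0 : ℝ) ≤ (N : ℝ)⁻¹ := by positivity
  push_cast
  linarith

theorem sum_le (S : Finset ℕ) (y : ℝ) (hS : ∀ p ∈ S, p.Prime) (hy0 : 0 ≤ y) (hy1 : y ≤ 1) (N : ℕ) :
    ∑ g ∈ Icc 1 N, ff S y g ≤
      Real.exp (∑ p ∈ (N + 1).primesBelow, (gp S y p / p + 2 * (1 / (p : ℝ) ^ 2))) := by
  have h := (EulerProduct.summable_and_hasSum_smoothNumbers_prod_primesBelow_tsum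
    (f := ff S y) (by unfold ff; rw [yS_one S y hS]; simp)
    (fun {m n} hmn => by
      unfold ff
      rw [yS_mul S y hS m n hmn, Nat.cast_mul, mul_div_mul_comm])
    (fun {p} hp => by
      have := (ff_hasSum S y hS p hp).summable
      exact this.norm) (N + 1)).2
  have h2 := (hasSum_subtype_iff_indicator (f := fun b : ℕ => ff S y b)
    (s := (N + 1).smoothNumbers)).1 h
  have h3 := sum_le_hasSum (Icc 1 N) (fun b _ => Set.indicator_nonneg
    (fun b _ => ff_nonneg S y hy0 b) b) h2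
  have h4 : ∑ g ∈ Icc 1 N, ff S y g ≤ ∏ p ∈ (N + 1).primesBelow, ∑' n : ℕ, ff S y (p ^ n) := by
    refine le_trans (le_of_eq (sum_congr rfl fun b hb => ?_)) h3
    rw [mem_Icc] at hb
    rw [Set.indicator_of_mem (Nat.mem_smoothNumbers_of_lt (by omega) (by omega))]
  refine h4.trans ?_
  rw [Real.exp_sum]
  refine prod_le_prod (fun p hp => ?_) fun p hp => ?_
  · exact tsum_nonneg fun n => ff_nonneg S y hy0 _
  · have hp' := Nat.prime_of_mem_primesBelow hp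
    rw [(ff_hasSum S y hS p hp').tsum_eq]
    exact factor_le S y hy0 hy1 p hp'

theorem prf : StH3 := by
  obtain ⟨C, hC1, hC⟩ := Pool.Agent.Work.MP_56b8f5_nt.WM.Mert_pf
  have he : 1 ≤ Real.exp 2 := Real.one_le_exp (by norm_num)
  refine ⟨Real.exp 2 * C, one_le_mul_of_one_le_of_one_le he hC1, ?_⟩
  intro X S y hX hS hy0 hy1
  have h1 := sum_le S y (fun p hp => (hS p hp).1) hy0 hy1 X
  have h2 : ∑ p ∈ (X + 1).primesBelow, (gp S y p / p + 2 * (1 / (p : ℝ) ^ 2)) ≤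
      Pool.Agent.Work.MP_56b8f5_nt.WM.S1 X - (1 - y) * ∑ p ∈ S, 1 / (p : ℝ) + 2 := by
    rw [sum_add_distrib, ← mul_sum]
    have h3 : ∑ p ∈ (X + 1).primesBelow, 1 / (p : ℝ) ^ 2 ≤ 1 := primes_sq X
    have h4 : ∑ p ∈ (X + 1).primesBelow, gp S y p / p =
        Pool.Agent.Work.MP_56b8f5_nt.WM.S1 X - (1 - y) * ∑ p ∈ S, 1 / (p : ℝ) := by
      have h5 : ∀ p ∈ (X + 1).primesBelow, gp S y p / p =
          1 / (p : ℝ) - (1 - y) * (if p ∈ S then 1 / (p : ℝ) else 0) := by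
        intro p _
        unfold gp
        split_ifs <;> ring
      rw [sum_congr rfl h5, sum_sub_distrib, ← mul_sum, ← sum_filter]
      congr 2
      refine sum_congr ?_ fun _ _ => rfl
      ext p
      rw [mem_filter]
      constructor
      · exact fun h => h.2
      · intro h
        exact ⟨Nat.mem_primesBelow.2 ⟨by have := (hS p h).2; omega, (hS p h).1⟩, h⟩
    linarith
  have h6 : ∑ g ∈ Icc 1 X, yS S y g / g ≤ Real.exp (Pool.Agent.Work.MP_56b8f5_nt.WM.S1 X -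
      (1 - y) * ∑ p ∈ S, 1 / (p : ℝ) + 2) := h1.trans (Real.exp_le_exp.2 h2)
  refine h6.trans ?_
  have h7 : Pool.Agent.Work.MP_56b8f5_nt.WM.S1 X - (1 - y) * ∑ p ∈ S, 1 / (p : ℝ) + 2 =
      2 + Pool.Agent.Work.MP_56b8f5_nt.WM.S1 X + -((1 - y) * ∑ p ∈ S, 1 / (p : ℝ)) := by ring
  rw [h7, Real.exp_add, Real.exp_add]
  refine mul_le_mul_of_nonneg_right ?_ (Real.exp_pos _).le
  rw [mul_assoc]
  refine mul_le_mul_of_nonneg_left ?_ (Real.exp_pos _).le
  refine (hC X hX).1.trans ?_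
  exact mul_le_mul_of_nonneg_left (by linarith) (by linarith)

end Pool.Agent.Work.MP_a8fbd7_nt.PAR.EF.I_H3
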