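import Pool.Agent.Work.MP_a8fbd7_nt.PAR.EF.StmtsZ

set_option autoImplicit false

/-!
MP_a8fbd7_nt, block EF, ITEM Mes: the sizes of the sums `Sr`.
-/

open Finset

noncomputable section

namespace Pool.Agent.Work.MP_a8fbd7_nt.PAR.EF.I_Mes

open Pool.Agent.Work.MP_a8fbd7_nt.PAR.LC Pool.Agent.Work.MP_a8fbd7_nt.PAR.EF

/-- the logarithm of `⌊exp y⌋` -/
theorem logfl {y : ℝ} (hy : 2 ≤ y) : 2 ≤ ⌊Real.exp y⌋₊ ∧ y / 2 ≤ Real.log (⌊Real.exp y⌋₊ : ℝ) ∧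
    Real.log (⌊Real.exp y⌋₊ : ℝ) ≤ y := by
  have h1 : y / 2 + 1 ≤ Real.exp (y / 2) := Real.add_one_le_exp _
  have h2 : Real.exp y = Real.exp (y / 2) * Real.exp (y / 2) := by
    rw [← Real.exp_add]
    congr 1
    ring
  have h3 : Real.exp y < (⌊Real.exp y⌋₊ : ℝ) + 1 := Nat.lt_floor_add_one _
  have h4 : Real.exp (y / 2) ≤ (⌊Real.exp y⌋₊ : ℝ) := by nlinarith
  have h5 : (2 : ℝ) ≤ (⌊Real.exp y⌋₊ : ℝ) := by linarith
  have h6 : (⌊Real.exp y⌋₊ : ℝ) ≤ Real.exp y := Nat.floor_le (Real.exp_pos _).le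
  refine ⟨by exact_mod_cast h5, ?_, ?_⟩
  · rw [Real.le_log_iff_exp_le (by linarith)]
    exact h4
  · rw [Real.log_le_iff_le_exp (by linarith)]
    exact h6

/-- bounds for `Sr` of two exponentials -/
theorem key (C : ℝ) (hC : ∀ a b : ℕ, 2 ≤ a → a ≤ b →
      |Sr a b - Real.log (Real.log b / Real.log a)| ≤ C) {y z : ℝ} (hy : 2 ≤ y) (hyz : y ≤ z) :
    Sr ⌊Real.exp y⌋₊ ⌊Real.exp z⌋₊ ≤ C + Real.log (2 * (z / y)) ∧
    Real.exp (Sr ⌊Real.exp y⌋₊ ⌊Real.exp z⌋₊) ≤ 2 * Real.exp C * (z / y) ∧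
    z / y ≤ 2 * Real.exp C * Real.exp (Sr ⌊Real.exp y⌋₊ ⌊Real.exp z⌋₊) := by
  obtain ⟨a2, a3, a4⟩ := logfl hy
  obtain ⟨b2, b3, b4⟩ := logfl (hy.trans hyz)
  have hab : ⌊Real.exp y⌋₊ ≤ ⌊Real.exp z⌋₊ := Nat.floor_mono (Real.exp_le_exp.2 hyz)
  have h := abs_le.1 (hC _ _ a2 hab)
  set A : ℝ := Real.log (⌊Real.exp y⌋₊ : ℝ) with hA
  set B : ℝ := Real.log (⌊Real.exp z⌋₊ : ℝ) with hB
  have hA0 : 0 < A := by linarith
  have hB0 : 0 < B := by linarith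
  have hy0 : 0 < y := by linarith
  have hz0 : 0 < z := by linarith
  have hq0 : 0 < B / A := div_pos hB0 hA0
  have hz : 0 < z / y := div_pos hz0 hy0
  have q1 : B / A ≤ 2 * (z / y) := by
    rw [div_le_iff₀ hA0]
    have : z = (z / y) * y := by field_simp
    nlinarith
  have q2 : z / y ≤ 2 * (B / A) := by
    rw [div_le_iff₀ hy0]
    have : B = (B / A) * A := by field_simp
    nlinarith
  have l1 : Real.log (B / A) ≤ Real.log (2 * (z / y)) := Real.log_le_log hq0 q1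
  refine ⟨by linarith [h.2], ?_, ?_⟩
  · have : Sr ⌊Real.exp y⌋₊ ⌊Real.exp z⌋₊ ≤ C + Real.log (2 * (z / y)) := by linarith [h.2]
    calc Real.exp (Sr ⌊Real.exp y⌋₊ ⌊Real.exp z⌋₊) ≤ Real.exp (C + Real.log (2 * (z / y))) :=
          Real.exp_le_exp.2 this
      _ = 2 * Real.exp C * (z / y) := by
          rw [Real.exp_add, Real.exp_log (by positivity)]
          ring
  · have h7 : Real.log (B / A) ≤ C + Sr ⌊Real.exp y⌋₊ ⌊Real.exp z⌋₊ := by linarith [h.1]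
    have h8 : B / A ≤ Real.exp C * Real.exp (Sr ⌊Real.exp y⌋₊ ⌊Real.exp z⌋₊) := by
      rw [← Real.exp_add, ← Real.log_le_iff_le_exp hq0]
      exact h7
    linarith

theorem prf : StMes := by
  rintro ⟨C, hC1, hC⟩
  refine ⟨2 * Real.exp C, max (2 ^ 20) (Real.exp (2 * (C + 1))), ?_, fun l hl => ?_⟩
  · have := Real.add_one_le_exp C
    linarith
  have hl1 : (2 : ℝ) ^ 20 ≤ l := (le_max_left _ _).trans hl
  have hl2 : Real.exp (2 * (C + 1)) ≤ l := (le_max_right _ _).trans hl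
  have hl0 : 0 < l := by
    have : (0 : ℝ) < 2 ^ 20 := by positivity
    linarith
  have hl1' : 1 ≤ l := by
    have : (1 : ℝ) ≤ 2 ^ 20 := by norm_num
    linarith
  have hy0 : (2 : ℝ) ≤ l ^ (1 / 20 : ℝ) := by
    have h1 : ((2 : ℝ) ^ 20) ^ (1 / 20 : ℝ) = 2 := by
      rw [← Real.rpow_natCast, ← Real.rpow_mul (by norm_num)]
      norm_num
    rw [← h1]
    exact Real.rpow_le_rpow (by positivity) hl1 (by norm_num)
  have hy2 : (2 : ℝ) ≤ l ^ (9 / 10 : ℝ) :=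
    hy0.trans (Real.rpow_le_rpow_of_exponent_le hl1' (by norm_num))
  have e1 : l ^ (17 / 20 : ℝ) / l ^ (1 / 20 : ℝ) = l ^ (4 / 5 : ℝ) := by
    rw [← Real.rpow_sub hl0]
    norm_num
  have e2 : l ^ (49 / 50 : ℝ) / l ^ (9 / 10 : ℝ) = l ^ (2 / 25 : ℝ) := by
    rw [← Real.rpow_sub hl0]
    norm_num
  obtain ⟨k1, k2, k3⟩ := key C hC hy0
    (Real.rpow_le_rpow_of_exponent_le hl1' (by norm_num : (1 / 20 : ℝ) ≤ 17 / 20))
  obtain ⟨m1, m2, m3⟩ := key C hC hy2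
    (Real.rpow_le_rpow_of_exponent_le hl1' (by norm_num : (9 / 10 : ℝ) ≤ 49 / 50))
  rw [e1] at k2 k3
  rw [e2] at m1 m3
  refine ⟨k2, k3, m3, m1.trans ?_⟩
  have hlog : 2 * (C + 1) ≤ Real.log l := by
    rw [Real.le_log_iff_exp_le hl0]
    exact hl2
  rw [Real.log_mul (by norm_num) (Real.rpow_pos_of_pos hl0 _).ne', Real.log_rpow hl0]
  have h2 : Real.log 2 ≤ 1 := by
    have := Real.log_two_lt_d9
    linarith
  linarith

end Pool.Agent.Work.MP_a8fbd7_nt.PAR.EF.I_Mes
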