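import Pool.Agent.Work.MP_a8fbd7_nt.PAR.EF.StmtsM

set_option autoImplicit false

/-!
MP_a8fbd7_nt, block EF, item Mo: the second moment of the number of aligned primes.
-/

open Finset

noncomputable section

namespace Pool.Agent.Work.MP_a8fbd7_nt.PAR.EF.I_Mo

open Pool.Agent.Work.MP_a8fbd7_nt.PAR.LC Pool.Agent.Work.MP_a8fbd7_nt.PAR.EF

/-- indicator of a residue class -/
def cl (M : ℕ → ℕ) (Z b m : ℕ) : ℝ := if M m % Z = b % Z then 1 else 0

/-- indicator of the aligned residues -/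
def ch (M : ℕ → ℕ) (A : ℕ → Finset ℕ) (p m : ℕ) : ℝ := if M m % p ∈ A p then 1 else 0

theorem cl_sum (S : Finset ℕ) (M : ℕ → ℕ) (Z b : ℕ) :
    ∑ m ∈ S, cl M Z b m = ((S.filter (fun m => M m ≡ b [MOD Z])).card : ℝ) := by
  unfold cl
  rw [Finset.sum_ite, Finset.sum_const_zero, add_zero, Finset.sum_const, nsmul_eq_mul, mul_one]
  rfl

theorem ch_eq (M : ℕ → ℕ) (A : ℕ → Finset ℕ) (p m : ℕ) (hA : A p ⊆ range p) :
    ch M A p m = ∑ b ∈ A p, cl M p b m := by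
  unfold ch cl
  have h1 : ∀ b ∈ A p, (if M m % p = b % p then (1 : ℝ) else 0) = if M m % p = b then 1 else 0 := by
    intro b hb
    rw [Nat.mod_eq_of_lt (mem_range.mp (hA hb))]
  rw [Finset.sum_congr rfl h1, Finset.sum_ite_eq]

theorem ch_sq (M : ℕ → ℕ) (A : ℕ → Finset ℕ) (p m : ℕ) : ch M A p m * ch M A p m = ch M A p m := by
  unfold ch
  split_ifs <;> norm_num

theorem cl_mul (M : ℕ → ℕ) (p p' b b' m : ℕ) (h : p.Coprime p') :
    cl M p b m * cl M p' b' m = cl M (p * p') (Nat.chineseRemainder h b b') m := by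
  have hx := (Nat.chineseRemainder h b b').2
  obtain ⟨x, hxe⟩ : ∃ x : ℕ, x = (Nat.chineseRemainder h b b' : ℕ) := ⟨_, rfl⟩
  rw [← hxe] at hx ⊢
  unfold cl
  have h1 : (M m % (p * p') = x % (p * p')) ↔ (M m % p = b % p ∧ M m % p' = b' % p') := by
    constructor
    · intro h2
      have h3 : M m ≡ x [MOD p * p'] := h2
      exact ⟨(h3.of_mul_right p').trans hx.1, (h3.of_mul_left p).trans hx.2⟩
    · rintro ⟨h2, h3⟩
      have h4 : M m ≡ x [MOD p] := Nat.ModEq.trans h2 hx.1.symm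
      have h5 : M m ≡ x [MOD p'] := Nat.ModEq.trans h3 hx.2.symm
      exact (Nat.modEq_and_modEq_iff_modEq_mul h).mp ⟨h4, h5⟩
  by_cases h2 : M m % p = b % p
  · by_cases h3 : M m % p' = b' % p'
    · rw [if_pos h2, if_pos h3, if_pos (h1.mpr ⟨h2, h3⟩), mul_one]
    · rw [if_neg h3, if_neg (fun h => h3 (h1.mp h).2), mul_zero]
  · rw [if_neg h2, if_neg (fun h => h2 (h1.mp h).1), zero_mul]

/-- the abstract second moment bound -/
theorem mom (S P : Finset ℕ) (M : ℕ → ℕ) (A : ℕ → Finset ℕ) (Y E μ T : ℝ)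
    (hP : ∀ p ∈ P, p.Prime) (hA : ∀ p ∈ P, A p ⊆ range p) (hE : 0 ≤ E) (hY : 0 ≤ Y)
    (hμ : μ = ∑ p ∈ P, ((A p).card : ℝ) / p) (hT : T = ∑ p ∈ P, ((A p).card : ℝ))
    (h1 : ∀ p ∈ P, ∀ b : ℕ, |((S.filter (fun m => M m ≡ b [MOD p])).card : ℝ) - Y / p| ≤ E)
    (h2 : ∀ p ∈ P, ∀ p' ∈ P, p ≠ p' → ∀ b : ℕ,
      |((S.filter (fun m => M m ≡ b [MOD (p * p')])).card : ℝ) - Y / ((p * p' : ℕ) : ℝ)| ≤ E) :
    ∑ m ∈ S, (∑ p ∈ P, ch M A p m - μ) ^ 2 ≤
      Y * μ + μ ^ 2 * (S.card - Y) + E * (T + T ^ 2 + 2 * μ * T) := by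
  have hμ0 : 0 ≤ μ := by
    rw [hμ]
    exact Finset.sum_nonneg fun p _ => by positivity
  -- one prime
  have hone : ∀ p ∈ P, |∑ m ∈ S, ch M A p m - Y * ((A p).card / p)| ≤ E * (A p).card := by
    intro p hp
    have h3 : ∑ m ∈ S, ch M A p m - Y * ((A p).card / p) =
        ∑ b ∈ A p, (((S.filter (fun m => M m ≡ b [MOD p])).card : ℝ) - Y / p) := by
      rw [Finset.sum_sub_distrib, Finset.sum_const, nsmul_eq_mul]
      have h4 : ∑ m ∈ S, ch M A p m = ∑ b ∈ A p, ∑ m ∈ S, cl M p b m := by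
        rw [Finset.sum_comm]
        exact Finset.sum_congr rfl fun m _ => ch_eq M A p m (hA p hp)
      rw [h4]
      congr 1
      · exact Finset.sum_congr rfl fun b _ => cl_sum S M p b
      · ring
    rw [h3]
    refine (Finset.abs_sum_le_sum_abs _ _).trans ?_
    refine (Finset.sum_le_sum fun b _ => h1 p hp b).trans (le_of_eq ?_)
    rw [Finset.sum_const, nsmul_eq_mul, mul_comm]
  -- two primes
  have htwo : ∀ p ∈ P, ∀ p' ∈ P, p ≠ p' → ∑ m ∈ S, ch M A p m * ch M A p' m ≤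
      (A p).card * (A p').card * (Y / (p * p') + E) := by
    intro p hp p' hp' hne
    have hco : p.Coprime p' := (Nat.coprime_primes (hP p hp) (hP p' hp')).mpr hne
    have h3 : ∑ m ∈ S, ch M A p m * ch M A p' m =
        ∑ b ∈ A p, ∑ b' ∈ A p', ∑ m ∈ S, cl M (p * p') (Nat.chineseRemainder hco b b') m := by
      have h4 : ∀ m ∈ S, ch M A p m * ch M A p' m =
          ∑ b ∈ A p, ∑ b' ∈ A p', cl M (p * p') (Nat.chineseRemainder hco b b') m := by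
        intro m _
        rw [ch_eq M A p m (hA p hp), ch_eq M A p' m (hA p' hp'), Finset.sum_mul_sum]
        exact Finset.sum_congr rfl fun b _ => Finset.sum_congr rfl fun b' _ =>
          cl_mul M p p' b b' m hco
      rw [Finset.sum_congr rfl h4, Finset.sum_comm]
      refine Finset.sum_congr rfl fun b _ => ?_
      rw [Finset.sum_comm]
    rw [h3]
    have h5 : ∀ b ∈ A p, ∑ b' ∈ A p', ∑ m ∈ S, cl M (p * p') (Nat.chineseRemainder hco b b') m ≤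
        (A p').card * (Y / (p * p') + E) := by
      intro b _
      refine (Finset.sum_le_sum (g := fun _ => Y / (p * p') + E) fun b' _ => ?_).trans
        (le_of_eq ?_)
      · rw [cl_sum]
        have h6 := (abs_le.mp (h2 p hp p' hp' hne (Nat.chineseRemainder hco b b'))).2
        push_cast at h6
        linarith
      · rw [Finset.sum_const, nsmul_eq_mul]
    refine (Finset.sum_le_sum h5).trans (le_of_eq ?_)
    rw [Finset.sum_const, nsmul_eq_mul]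
    ring
  -- all pairs
  have hpair : ∀ p ∈ P, ∀ p' ∈ P, ∑ m ∈ S, ch M A p m * ch M A p' m ≤
      (if p = p' then Y * ((A p).card / p) + E * (A p).card else 0) +
        (A p).card * (A p').card * (Y / (p * p') + E) := by
    intro p hp p' hp'
    by_cases hpp : p = p'
    · subst hpp
      rw [if_pos rfl]
      have h3 : ∑ m ∈ S, ch M A p m * ch M A p m = ∑ m ∈ S, ch M A p m :=
        Finset.sum_congr rfl fun m _ => ch_sq M A p m
      rw [h3]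
      have h4 := (abs_le.mp (hone p hp)).2
      have h5 : (0 : ℝ) ≤ (A p).card * (A p).card * (Y / (p * p) + E) := by positivity
      linarith
    · rw [if_neg hpp, zero_add]
      exact htwo p hp p' hp' hpp
  -- first moment
  have hfirst : Y * μ - E * T ≤ ∑ p ∈ P, ∑ m ∈ S, ch M A p m := by
    rw [hμ, hT, Finset.mul_sum, Finset.mul_sum, ← Finset.sum_sub_distrib]
    refine Finset.sum_le_sum fun p hp => ?_
    have h4 := (abs_le.mp (hone p hp)).1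
    linarith
  -- second moment
  have hsecond : ∑ p ∈ P, ∑ p' ∈ P, ∑ m ∈ S, ch M A p m * ch M A p' m ≤
      Y * μ + E * T + (Y * μ ^ 2 + E * T ^ 2) := by
    refine (Finset.sum_le_sum fun p hp => Finset.sum_le_sum fun p' hp' =>
      hpair p hp p' hp').trans (le_of_eq ?_)
    have h3 : ∀ p ∈ P, ∑ p' ∈ P, ((if p = p' then Y * (((A p).card : ℝ) / p) + E * (A p).card else 0) +
        (A p).card * (A p').card * (Y / (p * p') + E)) =
        (Y * (((A p).card : ℝ) / p) + E * (A p).card) +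
          (Y * (((A p).card : ℝ) / p) * μ + E * (A p).card * T) := by
      intro p hp
      rw [Finset.sum_add_distrib, Finset.sum_ite_eq, if_pos hp, hμ, hT, Finset.mul_sum,
        Finset.mul_sum, ← Finset.sum_add_distrib]
      congr 1
      refine Finset.sum_congr rfl fun p' hp' => ?_
      have h4 : (p : ℝ) ≠ 0 := by exact_mod_cast (hP p hp).ne_zero
      have h5 : (p' : ℝ) ≠ 0 := by exact_mod_cast (hP p' hp').ne_zero
      field_simp
    rw [Finset.sum_congr rfl h3, Finset.sum_add_distrib, Finset.sum_add_distrib,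
      Finset.sum_add_distrib, ← Finset.mul_sum, ← Finset.mul_sum, ← Finset.sum_mul,
      ← Finset.mul_sum, ← Finset.sum_mul, ← Finset.mul_sum, ← hμ, ← hT]
    ring
  -- expansion
  have hexp : ∑ m ∈ S, (∑ p ∈ P, ch M A p m - μ) ^ 2 =
      ∑ p ∈ P, ∑ p' ∈ P, ∑ m ∈ S, ch M A p m * ch M A p' m -
        2 * μ * ∑ p ∈ P, ∑ m ∈ S, ch M A p m + μ ^ 2 * S.card := by
    have h3 : ∀ m ∈ S, (∑ p ∈ P, ch M A p m - μ) ^ 2 =
        ∑ p ∈ P, ∑ p' ∈ P, ch M A p m * ch M A p' m - 2 * μ * ∑ p ∈ P, ch M A p m + μ ^ 2 := by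
      intro m _
      rw [← Finset.sum_mul_sum]
      ring
    rw [Finset.sum_congr rfl h3, Finset.sum_add_distrib, Finset.sum_sub_distrib, Finset.sum_const,
      nsmul_eq_mul, ← Finset.mul_sum]
    rw [Finset.sum_comm (s := S) (t := P), Finset.sum_comm (s := S) (t := P)]
    have h4 : ∀ p ∈ P, ∑ m ∈ S, ∑ p' ∈ P, ch M A p m * ch M A p' m =
        ∑ p' ∈ P, ∑ m ∈ S, ch M A p m * ch M A p' m := fun p _ => Finset.sum_comm
    rw [Finset.sum_congr rfl h4]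
    ring
  rw [hexp]
  have h7 : 2 * μ * (Y * μ - E * T) ≤ 2 * μ * ∑ p ∈ P, ∑ m ∈ S, ch M A p m :=
    mul_le_mul_of_nonneg_left hfirst (by positivity)
  nlinarith [hsecond, h7]

/-- the aligned residues -/
def Ar (J p : ℕ) : Finset ℕ :=
  (range p).filter (fun b : ℕ => (p : ℝ) / (2 * J) ≤ (b : ℝ) ∧ (b : ℝ) + 1 ≤ (p : ℝ) / J)

theorem Ar_card (J p : ℕ) : (Ar J p).card = np J p := rfl

theorem Ar_card_le (J p : ℕ) : ((Ar J p).card : ℝ) ≤ (p : ℝ) / J := by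
  have h1 : Ar J p ⊆ range ⌊(p : ℝ) / J⌋₊ := by
    intro b hb
    have h2 := (mem_filter.mp hb).2.2
    rw [mem_range]
    have h3 : b + 1 ≤ ⌊(p : ℝ) / J⌋₊ := Nat.le_floor (by push_cast; exact h2)
    omega
  have h2 := card_le_card h1
  rw [card_range] at h2
  calc ((Ar J p).card : ℝ) ≤ (⌊(p : ℝ) / J⌋₊ : ℝ) := by exact_mod_cast h2
    _ ≤ (p : ℝ) / J := Nat.floor_le (by positivity)

open Classical in
theorem filter_Al (n : ℝ) (J m : ℕ) (P : Finset ℕ) (hP : ∀ p ∈ P, 0 < p) :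
    ((P.filter (fun p => Al n J p m)).card : ℝ) =
      ∑ p ∈ P, ch (fun m : ℕ => ⌊n ^ 2 / (m : ℝ)⌋₊) (Ar J) p m := by
  rw [Finset.card_filter]
  push_cast
  refine Finset.sum_congr rfl fun p hp => ?_
  unfold ch
  have h1 : Al n J p m ↔ ⌊n ^ 2 / (m : ℝ)⌋₊ % p ∈ Ar J p := by
    unfold Al Ar
    rw [mem_filter, mem_range]
    exact ⟨fun h => ⟨Nat.mod_lt _ (hP p hp), h⟩, fun h => h.2⟩
  by_cases h2 : Al n J p m
  · rw [if_pos h2, if_pos (h1.mp h2)]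
  · rw [if_neg h2, if_neg (fun h => h2 (h1.mpr h))]

theorem cel_eq (n : ℝ) (X Z M0 : ℕ) (hX : 1 ≤ X) : cel2 (n ^ 2) X (2 * X - 1) 1 0 Z M0 1 0 =
    (Ico X (2 * X)).filter (fun m : ℕ => ⌊n ^ 2 / (m : ℝ)⌋₊ ≡ M0 [MOD Z]) := by
  ext m
  unfold cel2
  rw [mem_filter, mem_filter, mem_Icc, mem_Ico]
  have h1 : (0 : ℝ) ≤ n ^ 2 / (m : ℝ) := by positivity
  have h2 := Nat.floor_le h1
  have h3 := Nat.lt_floor_add_one (n ^ 2 / (m : ℝ))
  constructor
  · rintro ⟨h4, _, h5, _⟩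
    exact ⟨⟨h4.1, by omega⟩, h5⟩
  · rintro ⟨h4, h5⟩
    refine ⟨⟨h4.1, by omega⟩, Nat.modEq_one, h5, ?_, ?_⟩
    · push_cast
      linarith
    · push_cast
      linarith

open Classical in
theorem prf (h : StEQE) : StMo := by
  obtain ⟨C, hC, hE⟩ := h
  refine ⟨(100 * C) ^ 50, ?_⟩
  intro n c J hn hc0 hc1 hJ1 hJ2 hJc
  have hn1 : 1 ≤ n := le_trans (one_le_pow₀ (by linarith)) hn
  have hn0 : 0 < n := by linarith
  have hJ800 : (800 : ℝ) ≤ J := by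
    refine le_trans ?_ hJ1
    rw [le_div_iff₀ (by positivity)]
    have h1 : c ^ 2 ≤ (1 / 10) ^ 2 := pow_le_pow_left₀ hc0.le hc1 2
    linarith
  have hJ0 : (0 : ℝ) < J := by linarith
  have hJne : (J : ℝ) ≠ 0 := hJ0.ne'
  have hcne : c ≠ 0 := hc0.ne'
  -- powers of n
  have h50 : 100 * C ≤ n ^ (1 / 50 : ℝ) := by
    have h1 : ((100 * C) ^ 50) ^ (1 / 50 : ℝ) ≤ n ^ (1 / 50 : ℝ) :=
      Real.rpow_le_rpow (by positivity) hn (by norm_num)
    rw [← Real.rpow_natCast, ← Real.rpow_mul (by positivity)] at h1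
    norm_num at h1 ⊢
    exact h1
  clear hn
  obtain ⟨u, hu⟩ : ∃ u : ℝ, u = J / c := ⟨_, rfl⟩
  rw [← hu] at hJc
  have hJu : (J : ℝ) = c * u := by
    rw [hu]
    field_simp
  have hu0 : 0 < u := by rw [hu]; positivity
  have hu1 : 1 / c ≤ u := by
    rw [hu]
    exact div_le_div_of_nonneg_right (by linarith) hc0.le
  have hcn : n ^ (-(1 / 50) : ℝ) ≤ c := by
    have h1 : 1 / c ≤ n ^ (1 / 50 : ℝ) := hu1.trans (hJc.trans
      (Real.rpow_le_rpow_of_exponent_le hn1 (by norm_num)))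
    rw [Real.rpow_neg hn0.le]
    have h2 : 0 < n ^ (1 / 50 : ℝ) := Real.rpow_pos_of_pos hn0 _
    rw [inv_le_comm₀ h2 hc0, ← one_div]
    exact h1
  -- the length
  obtain ⟨x, hx⟩ : ∃ x : ℝ, x = 200 * J / c * n / J ^ 2 := ⟨_, rfl⟩
  rw [← hx]
  have hx2 : x = 200 * n / (c * J) := by
    rw [hx]
    field_simp
  have hx0 : 0 < x := by rw [hx2]; positivity
  have hxl : 22 * c * n ≤ x := by
    rw [hx2, le_div_iff₀ (by positivity)]
    have h1 : (J : ℝ) * c ^ 2 ≤ 9 := by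
      rw [le_div_iff₀ (by positivity)] at hJ2
      exact hJ2
    have h2 : 22 * c * n * (c * J) = 22 * n * (J * c ^ 2) := by ring
    rw [h2]
    have h3 : 22 * n * (J * c ^ 2) ≤ 22 * n * 9 := mul_le_mul_of_nonneg_left h1 (by positivity)
    linarith
  have hxu : x ≤ 5 / 2 * n := by
    rw [hx2, div_le_iff₀ (by positivity)]
    have h1 : 8 ≤ (J : ℝ) * c ^ 2 := by
      rw [div_le_iff₀ (by positivity)] at hJ1
      exact hJ1
    have h2 : 80 ≤ (J : ℝ) * c := by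
      have h3 : (J : ℝ) * c * c ≤ J * c * (1 / 10) :=
        mul_le_mul_of_nonneg_left hc1 (by positivity)
      have h4 : (J : ℝ) * c ^ 2 = J * c * c := by ring
      linarith
    have h5 : 5 / 2 * n * 80 ≤ 5 / 2 * n * (J * c) := mul_le_mul_of_nonneg_left h2 (by positivity)
    have h6 : 5 / 2 * n * (c * J) = 5 / 2 * n * (J * c) := by ring
    rw [h6]
    linarith
  obtain ⟨X, hX⟩ : ∃ X : ℕ, X = ⌈x⌉₊ := ⟨_, rfl⟩
  rw [← hX]
  have hX1 : 1 ≤ X := by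
    rw [hX]
    exact Nat.one_le_ceil_iff.mpr hx0
  have hXx : x ≤ X := by
    rw [hX]
    exact Nat.le_ceil x
  have hXu : (X : ℝ) < x + 1 := by
    rw [hX]
    exact Nat.ceil_lt_add_one hx0.le
  have hXR : (1 : ℝ) ≤ X := by exact_mod_cast hX1
  -- equidistribution
  have heq : ∀ Z M0 : ℕ, 1 ≤ Z → (Z : ℝ) ≤ 16 * (J : ℝ) ^ 4 →
      |(((Ico X (2 * X)).filter (fun m : ℕ => ⌊n ^ 2 / (m : ℝ)⌋₊ ≡ M0 [MOD Z])).card : ℝ) -
        ((X : ℝ) - 1) / Z| ≤ C * n ^ (19 / 20 : ℝ) := by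
    intro Z M0 hZ1 hZ
    have h1 : 16 * (J : ℝ) ^ 4 ≤ n ^ (1 / 50 : ℝ) := by
      have h2 : (J : ℝ) ≤ u / 10 := by
        have h3 : c * u ≤ 1 / 10 * u := mul_le_mul_of_nonneg_right hc1 hu0.le
        linarith
      have h3 : (J : ℝ) ^ 4 ≤ (u / 10) ^ 4 := pow_le_pow_left₀ hJ0.le h2 4
      have h4 : u ^ 4 ≤ (n ^ (1 / 400 : ℝ)) ^ 4 := pow_le_pow_left₀ hu0.le hJc 4
      rw [← Real.rpow_natCast (n ^ (1 / 400 : ℝ)), ← Real.rpow_mul hn0.le] at h4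
      have h5 : n ^ (1 / 400 * ((4 : ℕ) : ℝ) : ℝ) ≤ n ^ (1 / 50 : ℝ) :=
        Real.rpow_le_rpow_of_exponent_le hn1 (by norm_num)
      have h6 : 0 < u ^ 4 := by positivity
      have h7 : (u / 10) ^ 4 = u ^ 4 / 10000 := by ring
      rw [h7] at h3
      linarith
    have h2 := hE n (X / n) X (2 * X - 1) 1 0 Z M0 1 0 hn1
      (by
        rw [le_div_iff₀ hn0]
        have h3 : n ^ (-(1 / 50) : ℝ) * n ≤ c * n := mul_le_mul_of_nonneg_right hcn hn0.le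
        have h4 : 0 < c * n := mul_pos hc0 hn0
        linarith)
      (by
        rw [div_le_iff₀ hn0]
        have h3 : 100 * n ≤ n ^ (1 / 50 : ℝ) * n :=
          mul_le_mul_of_nonneg_right (by linarith) hn0.le
        linarith)
      (by
        rw [div_mul_cancel₀ _ hn0.ne'])
      (by omega)
      (by
        rw [mul_assoc, div_mul_cancel₀ _ hn0.ne', Nat.cast_sub (by omega)]
        push_cast
        linarith)
      le_rfl (by push_cast; linarith) hZ1 (hZ.trans h1) le_rfl (by push_cast; linarith) one_pos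
    rw [cel_eq n X Z M0 hX1] at h2
    rw [Nat.cast_sub (by omega)] at h2
    have h3 : (((2 * X : ℕ) : ℝ) - ((1 : ℕ) : ℝ) - (X : ℝ)) / (((1 : ℕ) : ℝ) * Z * ((1 : ℕ) : ℝ)) =
        ((X : ℝ) - 1) / Z := by
      push_cast
      ring
    rw [h3] at h2
    exact h2
  -- the primes
  obtain ⟨P, hP⟩ : ∃ P : Finset ℕ, P = Pr (J ^ 2) (4 * J ^ 2) := ⟨_, rfl⟩
  have hPm : ∀ p ∈ P, p.Prime ∧ (p : ℝ) ≤ 4 * (J : ℝ) ^ 2 := by
    intro p hp
    rw [hP] at hp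
    unfold Pr at hp
    have h1 := (mem_Ioc.mp (mem_filter.mp hp).1).2
    exact ⟨(mem_filter.mp hp).2, by exact_mod_cast h1⟩
  obtain ⟨T, hT⟩ : ∃ T : ℝ, T = ∑ p ∈ P, ((Ar J p).card : ℝ) := ⟨_, rfl⟩
  have hμ : muJ J = ∑ p ∈ P, ((Ar J p).card : ℝ) / p := by
    unfold muJ
    rw [hP]
    exact Finset.sum_congr rfl fun p _ => by rw [Ar_card]
  have hμ0 : 0 ≤ muJ J := by
    rw [hμ]
    exact Finset.sum_nonneg fun p _ => div_nonneg (Nat.cast_nonneg _) (Nat.cast_nonneg _)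
  have hμT : muJ J ≤ T := by
    rw [hμ, hT]
    refine Finset.sum_le_sum fun p hp => ?_
    have h1 : (1 : ℝ) ≤ p := by exact_mod_cast (hPm p hp).1.one_lt.le
    exact div_le_self (Nat.cast_nonneg _) h1
  have hT16 : T ≤ 16 * (J : ℝ) ^ 3 := by
    rw [hT]
    have h1 : ∀ p ∈ P, ((Ar J p).card : ℝ) ≤ 4 * J := by
      intro p hp
      refine (Ar_card_le J p).trans ?_
      rw [div_le_iff₀ hJ0]
      have h2 : 4 * (J : ℝ) * J = 4 * (J : ℝ) ^ 2 := by ring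
      rw [h2]
      exact (hPm p hp).2
    refine (Finset.sum_le_sum h1).trans ?_
    rw [Finset.sum_const, nsmul_eq_mul]
    have h2 : (P.card : ℝ) ≤ 4 * (J : ℝ) ^ 2 := by
      have h3 : P.card ≤ 4 * J ^ 2 - J ^ 2 := by
        rw [hP]
        unfold Pr
        refine (card_filter_le _ _).trans ?_
        rw [Nat.card_Ioc]
      have h4 : P.card ≤ 4 * J ^ 2 := h3.trans (Nat.sub_le _ _)
      exact_mod_cast h4
    have h5 : (P.card : ℝ) * (4 * J) ≤ 4 * (J : ℝ) ^ 2 * (4 * J) :=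
      mul_le_mul_of_nonneg_right h2 (by positivity)
    refine h5.trans (le_of_eq ?_)
    ring
  have hEpos : 1 ≤ C * n ^ (19 / 20 : ℝ) := by
    have h1 : 1 ≤ n ^ (19 / 20 : ℝ) := Real.one_le_rpow hn1 (by norm_num)
    exact one_le_mul_of_one_le_of_one_le hC h1
  have hJ4 : 4 * (J : ℝ) ^ 2 ≤ 16 * (J : ℝ) ^ 4 := by
    have h2 : (1 : ℝ) ≤ (J : ℝ) ^ 2 := one_le_pow₀ (by linarith)
    have h3 : (J : ℝ) ^ 4 = (J : ℝ) ^ 2 * (J : ℝ) ^ 2 := by ring
    have h4 : (J : ℝ) ^ 2 * 1 ≤ (J : ℝ) ^ 2 * (J : ℝ) ^ 2 :=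
      mul_le_mul_of_nonneg_left h2 (sq_nonneg _)
    rw [h3]
    linarith
  have hq1 : ∀ p ∈ P, ∀ b : ℕ,
      |(((Ico X (2 * X)).filter (fun m : ℕ => ⌊n ^ 2 / (m : ℝ)⌋₊ ≡ b [MOD p])).card : ℝ) -
        ((X : ℝ) - 1) / p| ≤ C * n ^ (19 / 20 : ℝ) := fun p hp b =>
    heq p b (hPm p hp).1.one_lt.le ((hPm p hp).2.trans hJ4)
  have hq2 : ∀ p ∈ P, ∀ p' ∈ P, p ≠ p' → ∀ b : ℕ,
      |(((Ico X (2 * X)).filter (fun m : ℕ => ⌊n ^ 2 / (m : ℝ)⌋₊ ≡ b [MOD (p * p')])).card : ℝ) -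
        ((X : ℝ) - 1) / ((p * p' : ℕ) : ℝ)| ≤ C * n ^ (19 / 20 : ℝ) := by
    intro p hp p' hp' _ b
    refine heq (p * p') b (Nat.mul_pos (hPm p hp).1.pos (hPm p' hp').1.pos) ?_
    rw [Nat.cast_mul]
    calc (p : ℝ) * p' ≤ (4 * (J : ℝ) ^ 2) * (4 * (J : ℝ) ^ 2) :=
          mul_le_mul (hPm p hp).2 (hPm p' hp').2 (Nat.cast_nonneg _) (by positivity)
      _ = 16 * (J : ℝ) ^ 4 := by ring
  have hmom := mom (Ico X (2 * X)) P (fun m : ℕ => ⌊n ^ 2 / (m : ℝ)⌋₊) (Ar J) (X - 1)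
    (C * n ^ (19 / 20 : ℝ)) (muJ J) T (fun p hp => (hPm p hp).1)
    (fun p _ => filter_subset _ _) (zero_le_one.trans hEpos) (sub_nonneg.mpr hXR) hμ hT hq1 hq2
  have hsum : ∑ m ∈ Ico X (2 * X), ((((Pr (J ^ 2) (4 * J ^ 2)).filter
      (fun p => Al n J p m)).card : ℝ) - muJ J) ^ 2 =
      ∑ m ∈ Ico X (2 * X), (∑ p ∈ P, ch (fun m : ℕ => ⌊n ^ 2 / (m : ℝ)⌋₊) (Ar J) p m -
        muJ J) ^ 2 := by
    refine Finset.sum_congr rfl fun m _ => ?_
    rw [← hP, filter_Al n J m P fun p hp => (hPm p hp).1.pos]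
  rw [hsum]
  refine hmom.trans ?_
  rw [Nat.card_Ico]
  have hcard : ((2 * X - X : ℕ) : ℝ) = X := by
    have : 2 * X - X = X := by omega
    rw [this]
  rw [hcard]
  -- the numerical bound
  obtain ⟨E, hEd⟩ : ∃ E : ℝ, E = C * n ^ (19 / 20 : ℝ) := ⟨_, rfl⟩
  rw [← hEd] at hEpos ⊢
  have hT0 : 0 ≤ T := hμ0.trans hμT
  obtain ⟨T0, hT0d⟩ : ∃ T0 : ℝ, T0 = 16 * (J : ℝ) ^ 3 := ⟨_, rfl⟩
  rw [← hT0d] at hT16
  have hT01 : 1 ≤ T0 := by
    rw [hT0d]
    have : (1 : ℝ) ≤ (J : ℝ) ^ 3 := one_le_pow₀ (by linarith)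
    linarith
  have hbound : muJ J ^ 2 + E * (T + T ^ 2 + 2 * muJ J * T) ≤ 5 * E * T0 ^ 2 := by
    have h1 : muJ J ^ 2 ≤ T0 ^ 2 := pow_le_pow_left₀ hμ0 (hμT.trans hT16) 2
    have h2 : T ≤ T0 ^ 2 := by
      rw [sq]
      exact hT16.trans (le_mul_of_one_le_left (by linarith) hT01)
    have h3 : T ^ 2 ≤ T0 ^ 2 := pow_le_pow_left₀ hT0 hT16 2
    have h4 : muJ J * T ≤ T0 ^ 2 := by
      rw [sq]
      exact mul_le_mul (hμT.trans hT16) hT16 hT0 (by linarith)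
    have h5 : T0 ^ 2 ≤ E * T0 ^ 2 := le_mul_of_one_le_left (by positivity) hEpos
    have h7 : T + T ^ 2 + 2 * muJ J * T ≤ 4 * T0 ^ 2 := by
      have h8 : 2 * muJ J * T = 2 * (muJ J * T) := by ring
      linarith
    have h6 : E * (T + T ^ 2 + 2 * muJ J * T) ≤ E * (4 * T0 ^ 2) :=
      mul_le_mul_of_nonneg_left h7 (by linarith)
    have h9 : 5 * E * T0 ^ 2 = E * T0 ^ 2 + E * (4 * T0 ^ 2) := by ring
    rw [h9]
    linarith
  have hfin : 5 * E * T0 ^ 2 ≤ X := by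
    refine le_trans ?_ (hxl.trans hXx)
    have h1 : (J : ℝ) ^ 6 ≤ c * n ^ (6 / 400 : ℝ) := by
      rw [hJu, mul_pow]
      have h2 : u ^ 6 ≤ (n ^ (1 / 400 : ℝ)) ^ 6 := pow_le_pow_left₀ hu0.le hJc 6
      rw [← Real.rpow_natCast (n ^ (1 / 400 : ℝ)), ← Real.rpow_mul hn0.le] at h2
      have h3 : (1 / 400 * ((6 : ℕ) : ℝ) : ℝ) = 6 / 400 := by norm_num
      rw [h3] at h2
      have h4 : c ^ 6 ≤ c := by
        calc c ^ 6 ≤ c ^ 1 := pow_le_pow_of_le_one hc0.le (by linarith) (by norm_num)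
          _ = c := pow_one c
      exact mul_le_mul h4 h2 (by positivity) hc0.le
    have h5 : 5 * E * T0 ^ 2 = 1280 * C * n ^ (19 / 20 : ℝ) * (J : ℝ) ^ 6 := by
      rw [hEd, hT0d]
      ring
    rw [h5]
    have h6 : 1280 * C * n ^ (19 / 20 : ℝ) * (J : ℝ) ^ 6 ≤
        1280 * C * n ^ (19 / 20 : ℝ) * (c * n ^ (6 / 400 : ℝ)) :=
      mul_le_mul_of_nonneg_left h1 (by positivity)
    refine h6.trans ?_
    have h7 : 1280 * C * n ^ (19 / 20 : ℝ) * (c * n ^ (6 / 400 : ℝ)) ≤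
        20 * n ^ (1 / 50 : ℝ) * n ^ (19 / 20 : ℝ) * (c * n ^ (6 / 400 : ℝ)) := by
      have h8 : 1280 * C ≤ 20 * n ^ (1 / 50 : ℝ) := by linarith
      have h9 : 0 ≤ n ^ (19 / 20 : ℝ) * (c * n ^ (6 / 400 : ℝ)) := by positivity
      have h10 := mul_le_mul_of_nonneg_right h8 h9
      rw [mul_assoc (1280 * C), mul_assoc (20 * n ^ (1 / 50 : ℝ))]
      exact h10
    refine h7.trans ?_
    have h10 : n ^ (1 / 50 : ℝ) * n ^ (19 / 20 : ℝ) * n ^ (6 / 400 : ℝ) ≤ n := by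
      rw [← Real.rpow_add hn0, ← Real.rpow_add hn0]
      calc n ^ (1 / 50 + 19 / 20 + 6 / 400 : ℝ) ≤ n ^ (1 : ℝ) :=
            Real.rpow_le_rpow_of_exponent_le hn1 (by norm_num)
        _ = n := Real.rpow_one n
    have h11 : 20 * n ^ (1 / 50 : ℝ) * n ^ (19 / 20 : ℝ) * (c * n ^ (6 / 400 : ℝ)) =
        20 * c * (n ^ (1 / 50 : ℝ) * n ^ (19 / 20 : ℝ) * n ^ (6 / 400 : ℝ)) := by ring
    rw [h11]
    have h12 : 20 * c * (n ^ (1 / 50 : ℝ) * n ^ (19 / 20 : ℝ) * n ^ (6 / 400 : ℝ)) ≤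
        20 * c * n := mul_le_mul_of_nonneg_left h10 (by positivity)
    have h13 : 0 < c * n := mul_pos hc0 hn0
    linarith
  have h14 : ((X : ℝ) - 1) * muJ J + muJ J ^ 2 * (X - (X - 1)) +
      E * (T + T ^ 2 + 2 * muJ J * T) = (X : ℝ) * muJ J - muJ J +
        (muJ J ^ 2 + E * (T + T ^ 2 + 2 * muJ J * T)) := by ring
  have h15 : (X : ℝ) * (muJ J + 1) = X * muJ J + X := by ring
  rw [h14, h15]
  linarith

end Pool.Agent.Work.MP_a8fbd7_nt.PAR.EF.I_Mo
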