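import Pool.Agent.Work.MP_a8fbd7_nt.PAR.EF.StmtsM

set_option autoImplicit false

/-!
MP_a8fbd7_nt, block EF, item Mu: the mean number of aligned primes.
-/

open Finset

noncomputable section

namespace Pool.Agent.Work.MP_a8fbd7_nt.PAR.EF.I_Mu

open Pool.Agent.Work.MP_a8fbd7_nt.PAR.LC Pool.Agent.Work.MP_a8fbd7_nt.PAR.EF

/-- One prime. -/
theorem np_ge {J p : ℕ} (hJ : 12 ≤ J) (hp : J ^ 2 < p) : (p : ℝ) / (3 * J) ≤ (np J p : ℝ) := by
  have hJ0 : (0 : ℝ) < J := by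
    have : 0 < J := by omega
    exact_mod_cast this
  have hJ12 : (12 : ℝ) ≤ J := by exact_mod_cast hJ
  have hp0 : (J : ℝ) ^ 2 < p := by exact_mod_cast hp
  have hpp : (0 : ℝ) < p := lt_of_le_of_lt (by positivity) hp0
  set a : ℕ := ⌈(p : ℝ) / (2 * J)⌉₊ with ha
  set b : ℕ := ⌊(p : ℝ) / J⌋₊ with hb
  have hbge : (p : ℝ) / J - 1 < b := by
    have := Nat.lt_floor_add_one ((p : ℝ) / J)
    linarith
  have hale : (a : ℝ) < (p : ℝ) / (2 * J) + 1 := Nat.ceil_lt_add_one (by positivity)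
  have hq : (12 : ℝ) ≤ (p : ℝ) / J := by
    rw [le_div_iff₀ hJ0]
    nlinarith
  have hhalf : (p : ℝ) / (2 * J) = ((p : ℝ) / J) / 2 := by
    rw [div_div, mul_comm]
  have hthird : (p : ℝ) / (3 * J) = ((p : ℝ) / J) / 3 := by
    rw [div_div, mul_comm (J : ℝ) 3]
  have hab : a ≤ b := by
    have : (a : ℝ) < b := by
      rw [hhalf] at hale
      linarith
    exact_mod_cast this.le
  have hsub : Finset.Ico a b ⊆
      (range p).filter (fun b : ℕ => (p : ℝ) / (2 * J) ≤ (b : ℝ) ∧ (b : ℝ) + 1 ≤ (p : ℝ) / J) := by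
    intro c hc
    rw [Finset.mem_Ico] at hc
    have h1 : (p : ℝ) / (2 * J) ≤ c := (Nat.le_ceil _).trans (Nat.cast_le.2 hc.1)
    have h2 : (c : ℝ) + 1 ≤ (p : ℝ) / J := by
      have h3 : ((c + 1 : ℕ) : ℝ) ≤ (b : ℝ) := by exact_mod_cast hc.2
      have h4 : (b : ℝ) ≤ (p : ℝ) / J := Nat.floor_le (by positivity)
      push_cast at h3
      linarith
    have h3 : c < p := by
      have h4 : (p : ℝ) / J ≤ p := div_le_self hpp.le (by linarith)
      have h5 : (c : ℝ) < p := by linarith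
      exact_mod_cast h5
    exact Finset.mem_filter.2 ⟨Finset.mem_range.2 h3, h1, h2⟩
  have hcard := Finset.card_le_card hsub
  rw [Nat.card_Ico] at hcard
  have h1 : ((b - a : ℕ) : ℝ) ≤ (np J p : ℝ) := by
    unfold np
    exact_mod_cast hcard
  rw [Nat.cast_sub hab] at h1
  rw [hhalf] at hale
  rw [hthird]
  linarith

/-- The lower bound for `muJ` by the number of the primes. -/
theorem card_le {J : ℕ} (hJ : 12 ≤ J) : ((Pr (J ^ 2) (4 * J ^ 2)).card : ℝ) / (3 * J) ≤ muJ J := by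
  have hJ0 : (0 : ℝ) < J := by
    have : 0 < J := by omega
    exact_mod_cast this
  unfold muJ
  rw [div_eq_mul_inv, ← nsmul_eq_mul]
  refine Finset.card_nsmul_le_sum _ _ _ fun p hp => ?_
  unfold Pr at hp
  rw [Finset.mem_filter, Finset.mem_Ioc] at hp
  have hpp : (0 : ℝ) < p := by exact_mod_cast hp.2.pos
  rw [le_div_iff₀ hpp]
  have h1 := np_ge hJ hp.1.1
  rw [div_eq_mul_inv] at h1
  linarith [mul_comm (p : ℝ) ((3 * (J : ℝ))⁻¹)]

/-- Chebyshev: many primes in `(J², 4J²]`. -/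
theorem theta_diff (J : ℕ) :
    Chebyshev.theta ((4 * J ^ 2 : ℕ) : ℝ) - Chebyshev.theta ((J ^ 2 : ℕ) : ℝ) =
      ∑ p ∈ Pr (J ^ 2) (4 * J ^ 2), Real.log p := by
  unfold Chebyshev.theta Pr
  rw [Nat.floor_natCast, Nat.floor_natCast]
  have h : (Finset.Ioc 0 (4 * J ^ 2)).filter Nat.Prime =
      (Finset.Ioc 0 (J ^ 2)).filter Nat.Prime ∪ (Finset.Ioc (J ^ 2) (4 * J ^ 2)).filter Nat.Prime := by
    rw [← Finset.filter_union, Finset.Ioc_union_Ioc_eq_Ioc (Nat.zero_le _) (by omega)]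
  rw [h, Finset.sum_union]
  · ring
  · rw [Finset.disjoint_left]
    intro p hp hp'
    rw [Finset.mem_filter, Finset.mem_Ioc] at hp hp'
    omega

theorem card_ge {J : ℕ} (hJ : 10 ^ 8 ≤ J) :
    (J : ℝ) ^ (3 / 2 : ℝ) ≤ ((Pr (J ^ 2) (4 * J ^ 2)).card : ℝ) := by
  have hJR : (10 : ℝ) ^ 8 ≤ J := by exact_mod_cast hJ
  have hJ0 : (0 : ℝ) < J := by linarith [show (0 : ℝ) < 10 ^ 8 by norm_num]
  set y : ℝ := (J : ℝ) ^ (1 / 4 : ℝ) with hy
  have hy0 : 0 < y := Real.rpow_pos_of_pos hJ0 _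
  have hy4 : y ^ 4 = J := by
    rw [hy, ← Real.rpow_natCast, ← Real.rpow_mul hJ0.le]
    norm_num
  have hy100 : 100 ≤ y := by
    by_contra hlt
    have h1 : y < 100 := not_le.1 hlt
    have h2 : y ^ 4 < 100 ^ 4 := pow_lt_pow_left₀ h1 hy0.le (by norm_num)
    rw [hy4] at h2
    norm_num at h2 hJR
    linarith
  have hy6 : (J : ℝ) ^ (3 / 2 : ℝ) = y ^ 6 := by
    rw [hy, ← Real.rpow_natCast, ← Real.rpow_mul hJ0.le]
    norm_num
  have hlogJ : Real.log J ≤ 4 * y - 4 := by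
    rw [← hy4, Real.log_pow]
    have := Real.log_le_sub_one_of_pos hy0
    push_cast
    linarith
  have hlog4 : Real.log 4 ≤ 3 := by
    have := Real.log_le_sub_one_of_pos (show (0 : ℝ) < 4 by norm_num)
    linarith
  have hlog5 : Real.log 5 ≤ 4 := by
    have := Real.log_le_sub_one_of_pos (show (0 : ℝ) < 5 by norm_num)
    linarith
  have hL : Real.log (4 * (J : ℝ) ^ 2) ≤ 8 * y := by
    rw [Real.log_mul (by norm_num) (by positivity), Real.log_pow]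
    push_cast
    linarith
  have hL1 : Real.log (4 * (J : ℝ) ^ 2 + 1) ≤ 8 * y := by
    have h1 : 4 * (J : ℝ) ^ 2 + 1 ≤ 5 * (J : ℝ) ^ 2 := by nlinarith
    refine (Real.log_le_log (by positivity) h1).trans ?_
    rw [Real.log_mul (by norm_num) (by positivity), Real.log_pow]
    push_cast
    linarith
  have hL0 : 0 < Real.log (4 * (J : ℝ) ^ 2) := Real.log_pos (by nlinarith)
  have h1 := Chebyshev.theta_ge (4 * J ^ 2)
  have h2 := Chebyshev.theta_le_log4_mul_x (x := ((J ^ 2 : ℕ) : ℝ)) (by positivity)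
  have h3 := theta_diff J
  have h4 : ∑ p ∈ Pr (J ^ 2) (4 * J ^ 2), Real.log p ≤
      ((Pr (J ^ 2) (4 * J ^ 2)).card : ℝ) * Real.log (4 * (J : ℝ) ^ 2) := by
    rw [← nsmul_eq_mul]
    refine Finset.sum_le_card_nsmul _ _ _ fun p hp => ?_
    unfold Pr at hp
    rw [Finset.mem_filter, Finset.mem_Ioc] at hp
    have hpp : (0 : ℝ) < p := by exact_mod_cast hp.2.pos
    refine Real.log_le_log hpp ?_
    have : (p : ℝ) ≤ ((4 * J ^ 2 : ℕ) : ℝ) := by exact_mod_cast hp.1.2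
    push_cast at this
    linarith
  have hsq : Real.sqrt (4 * (J : ℝ) ^ 2) = 2 * J := by
    rw [show 4 * (J : ℝ) ^ 2 = (2 * J) ^ 2 by ring]
    exact Real.sqrt_sq (by positivity)
  have hl4 : Real.log 4 = 2 * Real.log 2 := by
    rw [show (4 : ℝ) = 2 ^ 2 by norm_num, Real.log_pow]
    norm_num
  push_cast at h1 h2
  rw [hsq] at h1
  rw [hl4] at h2
  have hlog2 : 0.69 < Real.log 2 := by linarith [Real.log_two_gt_d9]
  have hJ2 : (J : ℝ) ^ 2 = y ^ 8 := by rw [← hy4]; ring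
  -- the main inequality
  have h5 : 2 * Real.log 2 * (J : ℝ) ^ 2 - Real.log (4 * (J : ℝ) ^ 2 + 1) -
      2 * (2 * J) * Real.log (4 * (J : ℝ) ^ 2) ≤
      ((Pr (J ^ 2) (4 * J ^ 2)).card : ℝ) * Real.log (4 * (J : ℝ) ^ 2) := by
    push_cast at h3
    linarith
  have h6 : y ^ 6 * Real.log (4 * (J : ℝ) ^ 2) ≤
      2 * Real.log 2 * (J : ℝ) ^ 2 - Real.log (4 * (J : ℝ) ^ 2 + 1) -
      2 * (2 * J) * Real.log (4 * (J : ℝ) ^ 2) := by
    have a1 : y ^ 6 * Real.log (4 * (J : ℝ) ^ 2) ≤ 8 * y ^ 7 := by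
      calc y ^ 6 * Real.log (4 * (J : ℝ) ^ 2) ≤ y ^ 6 * (8 * y) :=
            mul_le_mul_of_nonneg_left hL (by positivity)
        _ = 8 * y ^ 7 := by ring
    have a2 : 2 * (2 * (J : ℝ)) * Real.log (4 * (J : ℝ) ^ 2) ≤ 32 * y ^ 5 := by
      calc 2 * (2 * (J : ℝ)) * Real.log (4 * (J : ℝ) ^ 2) ≤ 2 * (2 * (J : ℝ)) * (8 * y) :=
            mul_le_mul_of_nonneg_left hL (by positivity)
        _ = 32 * y ^ 5 := by rw [← hy4]; ring
    have a3 : 32 * y ^ 5 ≤ y ^ 7 := by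
      have : 32 * 1 ≤ y ^ 2 := by nlinarith
      have h7 : y ^ 5 * 32 ≤ y ^ 5 * y ^ 2 := mul_le_mul_of_nonneg_left (by linarith) (by positivity)
      calc 32 * y ^ 5 = y ^ 5 * 32 := by ring
        _ ≤ y ^ 5 * y ^ 2 := h7
        _ = y ^ 7 := by ring
    have a4 : 8 * y ≤ y ^ 7 := by
      have h8 : 8 ≤ y ^ 6 := by
        calc (8 : ℝ) ≤ 100 ^ 6 := by norm_num
          _ ≤ y ^ 6 := pow_le_pow_left₀ (by norm_num) hy100 6
      calc 8 * y ≤ y ^ 6 * y := mul_le_mul_of_nonneg_right h8 hy0.le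
        _ = y ^ 7 := by ring
    have a5 : 100 * y ^ 7 ≤ y ^ 8 := by
      calc 100 * y ^ 7 ≤ y * y ^ 7 := mul_le_mul_of_nonneg_right hy100 (by positivity)
        _ = y ^ 8 := by ring
    have a6 : 1 * y ^ 8 ≤ 2 * Real.log 2 * y ^ 8 :=
      mul_le_mul_of_nonneg_right (by linarith) (by positivity)
    have a7 : 2 * Real.log 2 * (J : ℝ) ^ 2 = 2 * Real.log 2 * y ^ 8 := by rw [hJ2]
    have : 0 < y ^ 7 := by positivity
    linarith
  rw [hy6]
  exact le_of_mul_le_mul_right (h6.trans h5) hL0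

theorem prf : StMu := by
  refine ⟨10 ^ 8, fun J hJ => ?_⟩
  have h12 : 12 ≤ J := by omega
  have hJ0 : (0 : ℝ) < J := by
    have : 0 < J := by omega
    exact_mod_cast this
  refine ⟨card_le h12, le_trans ?_ (card_le h12)⟩
  rw [div_le_div_iff₀ (by norm_num) (by positivity)]
  have h1 := card_ge hJ
  have h2 : (J : ℝ) ^ (3 / 2 : ℝ) = (J : ℝ) ^ (1 / 2 : ℝ) * J := by
    rw [show (3 / 2 : ℝ) = 1 / 2 + 1 by norm_num, Real.rpow_add hJ0, Real.rpow_one]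
  rw [h2] at h1
  nlinarith

end Pool.Agent.Work.MP_a8fbd7_nt.PAR.EF.I_Mu
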