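import Pool.Agent.Work.MP_a8fbd7_nt.PAR.EF.StmtsH

set_option autoImplicit false

/-!
MP_a8fbd7_nt, block EF, item No: integers without a prime factor in an interval.
-/

open Finset

noncomputable section

namespace Pool.Agent.Work.MP_a8fbd7_nt.PAR.EF.I_No

open Pool.Agent.Work.MP_a8fbd7_nt.PAR.LC
open Pool.Agent.Work.MP_a8fbd7_nt.PAR.EF

/-- ITEM No. -/
theorem prf (h1 : StH2) (h2 : StH3) : StNo := by
  obtain ⟨C, hC, h1⟩ := h1
  obtain ⟨D, hD, h2⟩ := h2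
  have hCD : 1 ≤ C * D := one_le_mul_of_one_le_of_one_le hC hD
  refine ⟨2 * (C * D), by linarith, ?_⟩
  intro X a b hX hb
  have hS : ∀ p ∈ Pr a b, p.Prime ∧ p ≤ X + 1 := by
    intro p hp
    rw [Pr, mem_filter, mem_Ioc] at hp
    exact ⟨hp.2, by omega⟩
  have e1 := h1 (X + 1) (Pr a b) 0 (by omega) le_rfl zero_le_one
  have e2 := h2 (X + 1) (Pr a b) 0 (by omega) hS le_rfl zero_le_one
  rw [sub_zero, one_mul] at e2
  have hSr : (∑ p ∈ Pr a b, 1 / (p : ℝ)) = Sr a b := rfl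
  rw [hSr] at e2
  have hX0 : (2 : ℝ) ≤ X := by exact_mod_cast hX
  have hlog : 0 ≤ Real.log ((X + 1 : ℕ) : ℝ) := Real.log_natCast_nonneg _
  have hexp : 0 < Real.exp (-Sr a b) := Real.exp_pos _
  have hcast : ((X + 1 : ℕ) : ℝ) = (X : ℝ) + 1 := by push_cast; ring
  -- the bound for the sum
  have e3 : ∑ g ∈ Icc 1 (X + 1), yS (Pr a b) 0 g ≤ 2 * (C * D) * X * Real.exp (-Sr a b) := by
    have hL : 0 < 1 + Real.log ((X + 1 : ℕ) : ℝ) := by linarith
    have e4 : (1 + Real.log ((X + 1 : ℕ) : ℝ)) * ∑ g ∈ Icc 1 (X + 1), yS (Pr a b) 0 g ≤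
        (1 + Real.log ((X + 1 : ℕ) : ℝ)) * (2 * (C * D) * X * Real.exp (-Sr a b)) := by
      refine le_trans e1 ?_
      have e5 : C * ((X + 1 : ℕ) : ℝ) * ∑ g ∈ Icc 1 (X + 1), yS (Pr a b) 0 g / g ≤
          C * ((X + 1 : ℕ) : ℝ) * (D * (1 + Real.log ((X + 1 : ℕ) : ℝ)) * Real.exp (-Sr a b)) :=
        mul_le_mul_of_nonneg_left e2 (by positivity)
      refine le_trans e5 ?_
      have e6 : C * ((X + 1 : ℕ) : ℝ) * (D * (1 + Real.log ((X + 1 : ℕ) : ℝ)) * Real.exp (-Sr a b)) =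
          ((X : ℝ) + 1) * (C * D * (1 + Real.log ((X + 1 : ℕ) : ℝ)) * Real.exp (-Sr a b)) := by
        rw [hcast]
        ring
      have e7 : (1 + Real.log ((X + 1 : ℕ) : ℝ)) * (2 * (C * D) * X * Real.exp (-Sr a b)) =
          (2 * X) * (C * D * (1 + Real.log ((X + 1 : ℕ) : ℝ)) * Real.exp (-Sr a b)) := by
        ring
      rw [e6, e7]
      apply mul_le_mul_of_nonneg_right (by linarith)
      positivity
    exact le_of_mul_le_mul_left e4 hL
  refine le_trans ?_ e3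
  have hnn : ∀ g, 0 ≤ yS (Pr a b) 0 g := by
    intro g
    unfold yS
    positivity
  have hinj : Set.InjOn (fun g : ℕ => g + 1)
      ((Icc 1 X).filter (fun g => ∀ p ∈ Pr a b, ¬ p ∣ g + 1) : Finset ℕ) := by
    intro x _ y _ hxy
    simpa using hxy
  have hsub : ((Icc 1 X).filter (fun g => ∀ p ∈ Pr a b, ¬ p ∣ g + 1)).image (fun g : ℕ => g + 1) ⊆ Icc 1 (X + 1) := by
    intro g hg
    rw [mem_image] at hg
    obtain ⟨x, hx, rfl⟩ := hg
    rw [mem_filter, mem_Icc] at hx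
    rw [mem_Icc]
    constructor <;> omega
  refine le_trans ?_ (Finset.sum_le_sum_of_subset_of_nonneg hsub (fun g _ _ => hnn g))
  rw [Finset.sum_image hinj]
  rw [← nsmul_one, ← Finset.sum_const]
  apply Finset.sum_le_sum
  intro g hg
  rw [mem_filter] at hg
  have : (Pr a b).filter (fun p => p ∣ g + 1) = ∅ := by
    rw [Finset.filter_eq_empty_iff]
    intro p hp
    exact hg.2 p hp
  unfold yS
  rw [this, Finset.card_empty, pow_zero]

end Pool.Agent.Work.MP_a8fbd7_nt.PAR.EF.I_No
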