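import Pool.Agent.Work.MP_a8fbd7_nt.PAR.EF.StmtsH

set_option autoImplicit false

open Finset

noncomputable section

namespace Pool.Agent.Work.MP_a8fbd7_nt.PAR.EF.I_Om

open Pool.Agent.Work.MP_a8fbd7_nt.PAR.LC
open Pool.Agent.Work.MP_a8fbd7_nt.PAR.EF

theorem mean (h2 : StH2) (h3 : StH3) : ∃ C : ℝ, 1 ≤ C ∧ ∀ (X : ℕ) (S : Finset ℕ) (y : ℝ), 2 ≤ X →
    (∀ p ∈ S, p.Prime ∧ p ≤ X) → 0 ≤ y → y ≤ 1 →
    ∑ g ∈ Icc 1 X, yS S y g ≤ C * X * Real.exp (-((1 - y) * ∑ p ∈ S, 1 / (p : ℝ))) := by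
  obtain ⟨C2, hC2, H2⟩ := h2
  obtain ⟨C3, hC3, H3⟩ := h3
  refine ⟨C2 * C3, by nlinarith, ?_⟩
  intro X S y hX hS hy0 hy1
  have hXr : (2 : ℝ) ≤ X := by exact_mod_cast hX
  have hL : 0 < 1 + Real.log X := by
    have := Real.log_nonneg (show (1 : ℝ) ≤ X by linarith)
    linarith
  have a := H2 X S y (by omega) hy0 hy1
  have b := H3 X S y hX hS hy0 hy1
  have c : (1 + Real.log X) * ∑ g ∈ Icc 1 X, yS S y g ≤
      (1 + Real.log X) * (C2 * C3 * X * Real.exp (-((1 - y) * ∑ p ∈ S, 1 / (p : ℝ)))) := by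
    refine a.trans ?_
    have hb : C2 * X * ∑ g ∈ Icc 1 X, yS S y g / g ≤
        C2 * X * (C3 * (1 + Real.log X) * Real.exp (-((1 - y) * ∑ p ∈ S, 1 / (p : ℝ)))) :=
      mul_le_mul_of_nonneg_left b (by positivity)
    refine hb.trans (le_of_eq ?_)
    ring
  exact le_of_mul_le_mul_left c hL

theorem prf (h2 : StH2) (h3 : StH3) : StOm := by
  obtain ⟨C, hC, H⟩ := mean h2 h3
  refine ⟨C, hC, ?_⟩
  intro X a b m hX hb
  have hS : ∀ p ∈ Pr a b, p.Prime ∧ p ≤ X := by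
    intro p hp
    unfold Pr at hp
    rw [mem_filter, mem_Ioc] at hp
    exact ⟨hp.2, hp.1.2.trans hb⟩
  have h := H X (Pr a b) (1 / 2) hX hS (by norm_num) (by norm_num)
  have e : (1 - 1 / 2 : ℝ) * ∑ p ∈ Pr a b, 1 / (p : ℝ) = Sr a b / 2 := by
    unfold Sr
    ring
  rw [e] at h
  have k : (((Icc 1 X).filter (fun g => om a b g < m)).card : ℝ) ≤
      2 ^ m * ∑ g ∈ Icc 1 X, yS (Pr a b) (1 / 2) g := by
    rw [card_eq_sum_ones, Nat.cast_sum, mul_sum, sum_filter]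
    refine sum_le_sum ?_
    intro g _
    have hpos : (0 : ℝ) ≤ 2 ^ m * yS (Pr a b) (1 / 2) g := by
      unfold yS
      positivity
    split_ifs with hg
    · unfold yS
      unfold om at hg
      rw [Nat.cast_one, one_div, inv_pow, ← div_eq_mul_inv, le_div_iff₀ (by positivity), one_mul]
      exact pow_le_pow_right₀ (by norm_num) hg.le
    · exact hpos
  calc (((Icc 1 X).filter (fun g => om a b g < m)).card : ℝ)
      ≤ 2 ^ m * ∑ g ∈ Icc 1 X, yS (Pr a b) (1 / 2) g := k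
    _ ≤ 2 ^ m * (C * X * Real.exp (-(Sr a b / 2))) := mul_le_mul_of_nonneg_left h (by positivity)
    _ = C * X * 2 ^ m * Real.exp (-(Sr a b / 2)) := by ring

end Pool.Agent.Work.MP_a8fbd7_nt.PAR.EF.I_Om
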