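import Pool.Agent.Work.MP_a8fbd7_nt.PAR.EF.StmtsZ
import Pool.Agent.Work.MP_56b8f5_nt.WM.I_Mert

set_option autoImplicit false

open Finset

noncomputable section

namespace Pool.Agent.Work.MP_a8fbd7_nt.PAR.EF.I_Ph

open Pool.Agent.Work.MP_56b8f5_nt.WM

/-- the quotient -/
def Q (n : ℕ) : ℝ := (primorial n : ℝ) / (Nat.totient (primorial n) : ℝ)

theorem prim_succ_prime (n : ℕ) (h : (n + 1).Prime) : primorial (n + 1) = (n + 1) * primorial n := by
  unfold primorial
  rw [Finset.range_add_one, Finset.filter_insert, if_pos h, Finset.prod_insert]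
  simp

theorem prim_succ_not (n : ℕ) (h : ¬ (n + 1).Prime) : primorial (n + 1) = primorial n := by
  unfold primorial
  rw [Finset.range_add_one (n := n + 1), Finset.filter_insert, if_neg h]

theorem cop (n : ℕ) (h : (n + 1).Prime) : (n + 1).Coprime (primorial n) := by
  unfold primorial
  apply Nat.Coprime.prod_right
  intro p hp
  rw [Finset.mem_filter, Finset.mem_range] at hp
  rw [Nat.coprime_primes h hp.2]
  omega

theorem Q_pos (n : ℕ) : 0 < Q n := by
  unfold Q
  have h1 := primorial_pos n
  have h2 := Nat.totient_pos.2 h1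
  positivity

theorem Q_not (n : ℕ) (h : ¬ (n + 1).Prime) : Q (n + 1) = Q n := by
  unfold Q
  rw [prim_succ_not n h]

theorem Q_prime (n : ℕ) (h : (n + 1).Prime) : Q (n + 1) = Q n * (((n : ℝ) + 1) / n) := by
  unfold Q
  have h1 := primorial_pos n
  have h2 := Nat.totient_pos.2 h1
  have h0 : 0 < n := by
    have := h.two_le
    omega
  rw [prim_succ_prime n h, Nat.totient_mul (cop n h), Nat.totient_prime h]
  have e : n + 1 - 1 = n := by omega
  rw [e]
  push_cast
  have h0' : (0 : ℝ) < n := by exact_mod_cast h0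
  have h2' : (0 : ℝ) < (Nat.totient (primorial n) : ℝ) := by exact_mod_cast h2
  field_simp

theorem S1_prime (n : ℕ) (h : (n + 1).Prime) : S1 (n + 1) = S1 n + 1 / ((n : ℝ) + 1) := by
  unfold S1 pr
  rw [Finset.range_add_one (n := n + 1), Finset.filter_insert, if_pos h, Finset.sum_insert (by simp)]
  push_cast
  ring

theorem S1_not (n : ℕ) (h : ¬ (n + 1).Prime) : S1 (n + 1) = S1 n := by
  unfold S1 pr
  rw [Finset.range_add_one (n := n + 1), Finset.filter_insert, if_neg h]

theorem S1_one : S1 1 = 0 := by
  unfold S1 pr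
  have e : (Finset.range (1 + 1)).filter Nat.Prime = ∅ := by decide
  rw [e, Finset.sum_empty]

theorem main (n : ℕ) (hn : 1 ≤ n) : Q n ≤ Real.exp (S1 n + (1 - 1 / (n : ℝ))) := by
  induction n, hn using Nat.le_induction with
  | base =>
    have e : Q 1 = 1 := by
      unfold Q
      simp
    rw [e, S1_one]
    simp
  | succ n hn ih =>
    have hn' : (0 : ℝ) < n := by exact_mod_cast hn
    by_cases h : (n + 1).Prime
    · rw [Q_prime n h, S1_prime n h]
      have h1 : ((n : ℝ) + 1) / n ≤ Real.exp (1 / (n : ℝ)) := by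
        have := Real.add_one_le_exp (1 / (n : ℝ))
        have e : ((n : ℝ) + 1) / n = 1 / (n : ℝ) + 1 := by
          field_simp
          ring
        rw [e]
        exact this
      calc Q n * (((n : ℝ) + 1) / n) ≤
          Real.exp (S1 n + (1 - 1 / (n : ℝ))) * Real.exp (1 / (n : ℝ)) :=
            mul_le_mul ih h1 (by positivity) (Real.exp_pos _).le
        _ = Real.exp (S1 n + 1 / ((n : ℝ) + 1) + (1 - 1 / ((n + 1 : ℕ) : ℝ))) := by
            rw [← Real.exp_add]
            congr 1
            push_cast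
            ring
    · rw [Q_not n h, S1_not n h]
      refine ih.trans (Real.exp_le_exp.2 ?_)
      have h2 : 1 / ((n + 1 : ℕ) : ℝ) ≤ 1 / (n : ℝ) := by
        apply one_div_le_one_div_of_le hn'
        push_cast
        linarith
      linarith

theorem prf : StPh := by
  obtain ⟨C, hC, hM⟩ := Mert_pf
  refine ⟨Real.exp 1 * C, ?_, fun W hW => ?_⟩
  · have h1 : (1 : ℝ) ≤ Real.exp 1 := Real.one_le_exp (by norm_num)
    nlinarith
  · have h1 := main W (by omega)
    have h2 := (hM W hW).1
    have hWr : (0 : ℝ) < W := by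
      have : 0 < W := by omega
      exact_mod_cast this
    have h3 : Q W ≤ Real.exp 1 * C * Real.log W := by
      calc Q W ≤ Real.exp (S1 W + (1 - 1 / (W : ℝ))) := h1
        _ ≤ Real.exp (S1 W + 1) := by
            apply Real.exp_le_exp.2
            have : (0 : ℝ) ≤ 1 / (W : ℝ) := by positivity
            linarith
        _ = Real.exp 1 * Real.exp (S1 W) := by
            rw [Real.exp_add]
            ring
        _ ≤ Real.exp 1 * (C * Real.log W) := mul_le_mul_of_nonneg_left h2 (Real.exp_pos 1).le
        _ = Real.exp 1 * C * Real.log W := by ring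
    have h4 := Nat.totient_pos.2 (primorial_pos W)
    have h5 : (0 : ℝ) < (Nat.totient (primorial W) : ℝ) := by exact_mod_cast h4
    unfold Q at h3
    rw [div_le_iff₀ h5] at h3
    exact h3

end Pool.Agent.Work.MP_a8fbd7_nt.PAR.EF.I_Ph
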