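import Pool.Agent.Work.MP_a8fbd7_nt.PAR.EF.StmtsH

set_option autoImplicit false

/-!
MP_a8fbd7_nt, block EF, part H, item SSu: sums over the sets of primes.
-/

open Finset

noncomputable section

namespace Pool.Agent.Work.MP_a8fbd7_nt.PAR.EF.I_SSu

open Pool.Agent.Work.MP_a8fbd7_nt.PAR.LC

theorem prime_of {a b p : ℕ} (h : p ∈ Pr a b) : p.Prime := (mem_filter.1 h).2

theorem pos_of {a b p : ℕ} (h : p ∈ Pr a b) : (0 : ℝ) < p := by
  exact_mod_cast (prime_of h).pos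

theorem SS_sub (a b m : ℕ) : SS a b m ⊆ (Pr a b).powerset := filter_subset _ _

theorem cast_qS (S : Finset ℕ) : (qS S : ℝ) = ∏ p ∈ S, (p : ℝ) := by
  rw [qS]; push_cast; rfl

theorem term1 (S : Finset ℕ) : vS S ^ 2 / (qS S : ℝ) = ∏ p ∈ S, 1 / (4 * (p : ℝ)) := by
  rw [cast_qS, vS, ← pow_mul, mul_comm, pow_mul]
  have : (1 / 2 : ℝ) ^ 2 = 1 / 4 := by norm_num
  rw [this, ← prod_const, ← prod_div_distrib]
  refine prod_congr rfl fun p _ => ?_
  rw [div_div]

theorem exp_bound (a b : ℕ) (c : ℝ) (hc : 0 ≤ c) :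
    ∏ p ∈ Pr a b, (1 + c / (p : ℝ)) ≤ Real.exp (c * Sr a b) := by
  rw [Sr, mul_sum, Real.exp_sum]
  refine prod_le_prod (fun p hp => ?_) (fun p hp => ?_)
  · have := pos_of hp
    positivity
  · have h := Real.add_one_le_exp (c * (1 / (p : ℝ)))
    have e : c / (p : ℝ) = c * (1 / (p : ℝ)) := by ring
    rw [e]; linarith

/-- the product of the primes of the union divides the least common multiple -/
theorem le_lcm {a b : ℕ} {S S' : Finset ℕ} (hS : S ⊆ Pr a b) (hS' : S' ⊆ Pr a b) :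
    (qS (S ∪ S') : ℝ) ≤ (Nat.lcm (qS S) (qS S') : ℝ) := by
  have hpos : ∀ T : Finset ℕ, T ⊆ Pr a b → 0 < qS T := fun T hT =>
    Finset.prod_pos fun p hp => (prime_of (hT hp)).pos
  have h1 : qS (S ∪ S') ∣ Nat.lcm (qS S) (qS S') := by
    apply Finset.prod_primes_dvd
    · intro p hp
      rcases mem_union.1 hp with h | h
      · exact (prime_of (hS h)).prime
      · exact (prime_of (hS' h)).prime
    · intro p hp
      rcases mem_union.1 hp with h | h
      · exact (dvd_prod_of_mem (fun q : ℕ => q) h).trans (Nat.dvd_lcm_left _ _)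
      · exact (dvd_prod_of_mem (fun q : ℕ => q) h).trans (Nat.dvd_lcm_right _ _)
  exact_mod_cast Nat.le_of_dvd (Nat.lcm_pos (hpos S hS) (hpos S' hS')) h1

theorem term2 {a b : ℕ} {S S' : Finset ℕ} (hS : S ⊆ Pr a b) (hS' : S' ⊆ Pr a b) :
    vS S * vS S' / (Nat.lcm (qS S) (qS S') : ℝ) ≤
      (∏ p ∈ S, 1 / (2 * (p : ℝ))) * ∏ p ∈ S', (if p ∈ S then (1 / 2 : ℝ) else 1 / (2 * (p : ℝ))) := by
  have hpos : 0 < (qS (S ∪ S') : ℝ) := by
    rw [cast_qS]
    exact prod_pos fun p hp => by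
      rcases mem_union.1 hp with h | h
      · exact pos_of (hS h)
      · exact pos_of (hS' h)
  have hv : 0 ≤ vS S * vS S' := by unfold vS; positivity
  refine (div_le_div_of_nonneg_left hv hpos (le_lcm hS hS')).trans (le_of_eq ?_)
  have e1 : (qS (S ∪ S') : ℝ) = (∏ p ∈ S, (p : ℝ)) * ∏ p ∈ S' \ S, (p : ℝ) := by
    rw [cast_qS, ← union_sdiff_self_eq_union, prod_union disjoint_sdiff]
  have e2 : ∏ p ∈ S, 1 / (2 * (p : ℝ)) = vS S / ∏ p ∈ S, (p : ℝ) := by
    rw [vS, ← prod_const, ← prod_div_distrib]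
    refine prod_congr rfl fun p _ => ?_
    rw [div_div]
  have e3 : ∏ p ∈ S', (if p ∈ S then (1 / 2 : ℝ) else 1 / (2 * (p : ℝ))) =
      vS S' / ∏ p ∈ S' \ S, (p : ℝ) := by
    have h1 : ∀ p ∈ S', (if p ∈ S then (1 / 2 : ℝ) else 1 / (2 * (p : ℝ))) =
        (1 / 2) * (if p ∈ S then (1 : ℝ) else 1 / (p : ℝ)) := by
      intro p _
      split_ifs
      · norm_num
      · rw [one_div_mul_one_div]
    rw [prod_congr rfl h1, prod_mul_distrib, prod_const, vS, prod_ite, prod_const_one, one_mul,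
      div_eq_mul_inv]
    congr 1
    rw [← prod_inv_distrib]
    have h2 : S'.filter (fun p => ¬ p ∈ S) = S' \ S := by
      ext p
      rw [mem_filter, mem_sdiff]
    rw [h2]
    refine prod_congr rfl fun p _ => ?_
    rw [one_div]
  rw [e1, e2, e3, div_mul_div_comm]

theorem prf : StSS := by
  intro a b m
  constructor
  · calc ∑ S ∈ SS a b m, vS S ^ 2 / (qS S : ℝ)
        = ∑ S ∈ SS a b m, ∏ p ∈ S, 1 / (4 * (p : ℝ)) := sum_congr rfl fun S _ => term1 S
      _ ≤ ∑ S ∈ (Pr a b).powerset, ∏ p ∈ S, 1 / (4 * (p : ℝ)) :=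
          sum_le_sum_of_subset_of_nonneg (SS_sub a b m) fun S _ _ =>
            prod_nonneg fun p _ => by positivity
      _ = ∏ p ∈ Pr a b, (1 + 1 / (4 * (p : ℝ))) := (prod_one_add _).symm
      _ = ∏ p ∈ Pr a b, (1 + (1 / 4 : ℝ) / (p : ℝ)) := by
          refine prod_congr rfl fun p _ => ?_
          rw [div_div]
      _ ≤ Real.exp (1 / 4 * Sr a b) := exp_bound a b (1 / 4) (by norm_num)
      _ = Real.exp (Sr a b / 4) := by congr 1; ring
  · have hsub : ∀ S ∈ SS a b m, S ⊆ Pr a b := fun S hS => mem_powerset.1 (SS_sub a b m hS)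
    have hnn : ∀ S S' : Finset ℕ, 0 ≤
        (∏ p ∈ S, 1 / (2 * (p : ℝ))) * ∏ p ∈ S', (if p ∈ S then (1 / 2 : ℝ) else 1 / (2 * (p : ℝ))) := by
      intro S S'
      refine mul_nonneg (prod_nonneg fun p _ => by positivity) (prod_nonneg fun p _ => ?_)
      split_ifs <;> positivity
    calc ∑ S ∈ SS a b m, ∑ S' ∈ SS a b m, vS S * vS S' / (Nat.lcm (qS S) (qS S') : ℝ)
        ≤ ∑ S ∈ SS a b m, ∑ S' ∈ SS a b m, (∏ p ∈ S, 1 / (2 * (p : ℝ))) *
            ∏ p ∈ S', (if p ∈ S then (1 / 2 : ℝ) else 1 / (2 * (p : ℝ))) :=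
          sum_le_sum fun S hS => sum_le_sum fun S' hS' => term2 (hsub S hS) (hsub S' hS')
      _ ≤ ∑ S ∈ SS a b m, ∑ S' ∈ (Pr a b).powerset, (∏ p ∈ S, 1 / (2 * (p : ℝ))) *
            ∏ p ∈ S', (if p ∈ S then (1 / 2 : ℝ) else 1 / (2 * (p : ℝ))) :=
          sum_le_sum fun S _ => sum_le_sum_of_subset_of_nonneg (SS_sub a b m) fun S' _ _ => hnn S S'
      _ ≤ ∑ S ∈ (Pr a b).powerset, ∑ S' ∈ (Pr a b).powerset, (∏ p ∈ S, 1 / (2 * (p : ℝ))) *
            ∏ p ∈ S', (if p ∈ S then (1 / 2 : ℝ) else 1 / (2 * (p : ℝ))) :=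
          sum_le_sum_of_subset_of_nonneg (SS_sub a b m) fun S _ _ => sum_nonneg fun S' _ => hnn S S'
      _ = ∑ S ∈ (Pr a b).powerset, (∏ p ∈ S, (3 / 4 : ℝ) / (p : ℝ)) *
            ∏ p ∈ Pr a b \ S, (1 + 1 / (2 * (p : ℝ))) := by
          refine sum_congr rfl fun S hS => ?_
          have hS' : S ⊆ Pr a b := mem_powerset.1 hS
          rw [← mul_sum, ← prod_one_add]
          have h1 : ∏ p ∈ Pr a b, (1 + if p ∈ S then (1 / 2 : ℝ) else 1 / (2 * (p : ℝ))) =
              (∏ p ∈ S, (3 / 2 : ℝ)) * ∏ p ∈ Pr a b \ S, (1 + 1 / (2 * (p : ℝ))) := by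
            rw [← prod_sdiff hS', mul_comm]
            congr 1
            · refine prod_congr rfl fun p hp => ?_
              rw [if_pos hp]; norm_num
            · refine prod_congr rfl fun p hp => ?_
              rw [if_neg (mem_sdiff.1 hp).2]
          rw [h1, ← mul_assoc, ← prod_mul_distrib]
          congr 1
          refine prod_congr rfl fun p hp => ?_
          have := pos_of (hS' hp)
          field_simp
          norm_num
      _ = ∏ p ∈ Pr a b, ((3 / 4 : ℝ) / (p : ℝ) + (1 + 1 / (2 * (p : ℝ)))) := (prod_add _ _ _).symm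
      _ = ∏ p ∈ Pr a b, (1 + (5 / 4 : ℝ) / (p : ℝ)) := by
          refine prod_congr rfl fun p hp => ?_
          have := pos_of hp
          field_simp
          ring
      _ ≤ Real.exp (5 / 4 * Sr a b) := exp_bound a b (5 / 4) (by norm_num)
      _ = Real.exp (5 * Sr a b / 4) := by congr 1; ring

end Pool.Agent.Work.MP_a8fbd7_nt.PAR.EF.I_SSu
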