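import Pool.Agent.Work.MP_a8fbd7_nt.PAR.EF.StmtsH

set_option autoImplicit false

/-!
MP_a8fbd7_nt, block EF, item Szz (sizes), helper72.
-/

open Finset

noncomputable section

namespace Pool.Agent.Work.MP_a8fbd7_nt.PAR.EF.I_Szz

open Pool.Agent.Work.MP_a8fbd7_nt.PAR.LC
open Pool.Agent.Work.MP_a8fbd7_nt.PAR.EF

lemma memSS {a b m : ℕ} {S : Finset ℕ} (h : S ∈ SS a b m) :
    (∀ p ∈ S, a < p ∧ p ≤ b ∧ p.Prime) ∧ S.Nonempty ∧ S.card ≤ m := by
  unfold SS at h
  rw [mem_filter, mem_powerset] at h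
  refine ⟨fun p hp => ?_, h.2⟩
  have := h.1 hp
  unfold Pr at this
  rw [mem_filter, mem_Ioc] at this
  exact ⟨this.1.1, this.1.2, this.2⟩

lemma cardSS (a b m : ℕ) : (SS a b m).card ≤ (b + 1) ^ m := by
  classical
  set F : (Fin m → Fin (b + 1)) → Finset ℕ :=
    fun f => (univ.image (fun i => (f i : ℕ))).erase 0 with hF
  have hsub : SS a b m ⊆ univ.image F := by
    intro S hS
    obtain ⟨h1, -, h3⟩ := memSS hS
    rw [mem_image]
    have hlt : ∀ i : Fin m, S.toList.getD i 0 < b + 1 := by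
      intro i
      by_cases hi : (i : ℕ) < S.toList.length
      · rw [List.getD_eq_getElem _ _ hi]
        have : S.toList[(i : ℕ)] ∈ S := by
          rw [← mem_toList]; exact List.getElem_mem hi
        have := (h1 _ this).2.1
        omega
      · rw [List.getD_eq_default _ _ (not_lt.mp hi)]
        omega
    refine ⟨fun i => ⟨S.toList.getD i 0, hlt i⟩, mem_univ _, ?_⟩
    ext x
    rw [hF]
    simp only [mem_erase, mem_image, mem_univ, true_and]
    constructor
    · rintro ⟨hx0, i, hi⟩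
      by_cases hil : (i : ℕ) < S.toList.length
      · rw [List.getD_eq_getElem _ _ hil] at hi
        rw [← hi, ← mem_toList]
        exact List.getElem_mem hil
      · rw [List.getD_eq_default _ _ (not_lt.mp hil)] at hi
        exact absurd hi.symm hx0
    · intro hx
      refine ⟨?_, ?_⟩
      · have := (h1 x hx).2.2.pos
        omega
      · have hx' : x ∈ S.toList := mem_toList.mpr hx
        obtain ⟨i, hi, hix⟩ := List.mem_iff_getElem.mp hx'
        have hlen : S.toList.length = S.card := length_toList S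
        refine ⟨⟨i, by omega⟩, ?_⟩
        simp only
        rw [List.getD_eq_getElem _ _ hi]
        exact hix
  calc (SS a b m).card ≤ (univ.image F).card := card_le_card hsub
    _ ≤ (univ : Finset (Fin m → Fin (b + 1))).card := card_image_le
    _ = (b + 1) ^ m := by simp

lemma part2 {a b m : ℕ} (hab : a ≤ b) (ha : 1 ≤ a) {S : Finset ℕ} (hS : S ∈ SS a b m) :
    a < qS S ∧ qS S ≤ b ^ m ∧ (qS S).primeFactors = S := by
  obtain ⟨h1, h2, h3⟩ := memSS hS
  have hpos : 0 < qS S := prod_pos (fun p hp => (h1 p hp).2.2.pos)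
  refine ⟨?_, ?_, ?_⟩
  · obtain ⟨p, hp⟩ := h2
    have hd : p ∣ qS S := dvd_prod_of_mem (fun p => p) hp
    exact lt_of_lt_of_le (h1 p hp).1 (Nat.le_of_dvd hpos hd)
  · calc qS S ≤ b ^ S.card := prod_le_pow_card _ _ _ (fun p hp => (h1 p hp).2.1)
      _ ≤ b ^ m := Nat.pow_le_pow_right (by omega) h3
  · exact Nat.primeFactors_prod (fun p hp => (h1 p hp).2.2)

lemma part3 {a b m g : ℕ} (hg : m ≤ om a b g) :
    (3 / 2 : ℝ) ^ m - 1 ≤ ∑ S ∈ (SS a b m).filter (fun S => qS S ∣ g), vS S := by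
  classical
  unfold om at hg
  obtain ⟨U, hU, hUc⟩ := exists_subset_card_eq hg
  have hUp : ∀ p ∈ U, p ∈ Pr a b ∧ p ∣ g := fun p hp => by
    have := hU hp
    rwa [mem_filter] at this
  have hprime : ∀ p ∈ Pr a b, p.Prime := fun p hp => by
    unfold Pr at hp
    rw [mem_filter] at hp
    exact hp.2
  have hsum : ∑ S ∈ U.powerset, vS S = (3 / 2 : ℝ) ^ m := by
    have h := sum_pow_mul_eq_add_pow (1 / 2 : ℝ) 1 U
    simp only [one_pow, mul_one] at h
    unfold vS
    rw [h, hUc]
    norm_num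
  have hsplit : ∑ S ∈ U.powerset, vS S = vS ∅ + ∑ S ∈ U.powerset.erase ∅, vS S :=
    (add_sum_erase _ _ (empty_mem_powerset U)).symm
  have hv0 : vS ∅ = 1 := by simp [vS]
  have hsub : U.powerset.erase ∅ ⊆ (SS a b m).filter (fun S => qS S ∣ g) := by
    intro S hS
    rw [mem_erase, mem_powerset] at hS
    rw [mem_filter]
    refine ⟨?_, ?_⟩
    · unfold SS
      rw [mem_filter, mem_powerset]
      refine ⟨fun p hp => (hUp p (hS.2 hp)).1, nonempty_iff_ne_empty.mpr hS.1, ?_⟩
      rw [← hUc]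
      exact card_le_card hS.2
    · unfold qS
      exact prod_primes_dvd g (fun p hp => (hprime p (hUp p (hS.2 hp)).1).prime)
        (fun p hp => (hUp p (hS.2 hp)).2)
  have hle : ∑ S ∈ U.powerset.erase ∅, vS S ≤ ∑ S ∈ (SS a b m).filter (fun S => qS S ∣ g), vS S :=
    sum_le_sum_of_subset_of_nonneg hsub (fun S _ _ => by unfold vS; positivity)
  linarith

theorem prf : StSz := by
  intro a b m ha hab
  refine ⟨?_, fun S hS => part2 hab ha hS, fun g hg => part3 hg⟩
  have := cardSS a b m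
  exact_mod_cast this

end Pool.Agent.Work.MP_a8fbd7_nt.PAR.EF.I_Szz
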