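import Pool.Agent.Work.MP_a8fbd7_nt.PAR.EF.StmtsZ

set_option autoImplicit false

/-! MP_a8fbd7_nt, block EF, item T12. -/

open Finset Filter

noncomputable section

namespace Pool.Agent.Work.MP_a8fbd7_nt.PAR.EF.I_T12

open Pool.Agent.Work.MP_a8fbd7_nt.PAR.EF
open Pool.Agent.Work.MP_a8fbd7_nt.PAR.LC

theorem JL_le {l : ℝ} (hl : 1 ≤ l) : (JL l : ℝ) ≤ 9 * l ^ (1 / 50 : ℝ) := by
  have h0 : 0 < l := by linarith
  have h1 : (1 : ℝ) ≤ l ^ (1 / 50 : ℝ) := Real.one_le_rpow hl (by norm_num)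
  have h2 : 8 / (cL l) ^ 2 = 8 * l ^ (1 / 50 : ℝ) := by
    unfold cL
    rw [← Real.rpow_natCast, ← Real.rpow_mul h0.le]
    have e : (-(1 / 100 : ℝ) * ((2 : ℕ) : ℝ)) = -(1 / 50 : ℝ) := by norm_num
    rw [e, Real.rpow_neg h0.le, div_inv_eq_mul]
  unfold JL
  rw [h2]
  have h3 := (Nat.ceil_lt_add_one (a := 8 * l ^ (1 / 50 : ℝ)) (by positivity)).le
  linarith

theorem JL_cube {l : ℝ} (hl : 1 ≤ l) : (JL l : ℝ) ^ 3 ≤ 729 * l ^ (3 / 50 : ℝ) := by
  have h0 : 0 < l := by linarith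
  refine (pow_le_pow_left₀ (Nat.cast_nonneg _) (JL_le hl) 3).trans (le_of_eq ?_)
  rw [mul_pow, ← Real.rpow_natCast (l ^ (1 / 50 : ℝ)), ← Real.rpow_mul h0.le]
  norm_num

theorem two_pow_le {l : ℝ} (hl : 1 ≤ l) : (2 : ℝ) ^ (mL l) ≤ l ^ (306 / 1000 : ℝ) := by
  have h0 : 0 < l := by linarith
  have hlog : 0 ≤ Real.log l := Real.log_nonneg hl
  rw [← Real.log_le_log_iff (by positivity) (by positivity), Real.log_pow, Real.log_rpow h0]
  have h1 : (mL l : ℝ) ≤ 11 / 25 * Real.log l := Nat.floor_le (by positivity)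
  have h2 := Real.log_two_lt_d9
  have h3 := Real.log_two_gt_d9
  calc (mL l : ℝ) * Real.log 2 ≤ (11 / 25 * Real.log l) * Real.log 2 :=
        mul_le_mul_of_nonneg_right h1 (by linarith)
    _ ≤ (11 / 25 * Real.log l) * 0.6931471808 := mul_le_mul_of_nonneg_left h2.le (by positivity)
    _ ≤ 306 / 1000 * Real.log l := by nlinarith

theorem exp_half {l C S : ℝ} (hl : 1 ≤ l) (hC : 1 ≤ C) (h : l ^ (4 / 5 : ℝ) ≤ C * Real.exp S) :
    Real.exp (-(S / 2)) ≤ C * l ^ (-(2 / 5) : ℝ) := by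
  have h0 : 0 < l := by linarith
  have h1 : Real.exp (-(S / 2)) ^ 2 = Real.exp (-S) := by
    rw [sq, ← Real.exp_add]
    congr 1
    ring
  have h2 : Real.exp (-S) ≤ C * l ^ (-(4 / 5) : ℝ) := by
    rw [Real.rpow_neg h0.le, ← div_eq_mul_inv, le_div_iff₀ (by positivity)]
    calc Real.exp (-S) * l ^ (4 / 5 : ℝ) ≤ Real.exp (-S) * (C * Real.exp S) :=
          mul_le_mul_of_nonneg_left h (Real.exp_pos _).le
      _ = C := by
          rw [Real.exp_neg]
          field_simp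
  have h3 : (C * l ^ (-(2 / 5) : ℝ)) ^ 2 = C ^ 2 * l ^ (-(4 / 5) : ℝ) := by
    rw [mul_pow, ← Real.rpow_natCast (l ^ (-(2 / 5) : ℝ)), ← Real.rpow_mul h0.le]
    norm_num
  refine (pow_le_pow_iff_left₀ (Real.exp_pos _).le (by positivity) two_ne_zero).1 ?_
  rw [h1, h3]
  refine h2.trans (mul_le_mul_of_nonneg_right ?_ (by positivity))
  nlinarith

theorem prf : StT12 := by
  intro hM hS κ hκ
  obtain ⟨C, l1, hC, hl⟩ := hM hS
  have t1 : Tendsto (fun l : ℝ => 729 * C * l ^ (-(34 / 1000 : ℝ))) atTop (nhds 0) := by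
    simpa using (tendsto_rpow_neg_atTop (by norm_num : (0 : ℝ) < 34 / 1000)).const_mul (729 * C)
  have t2 : Tendsto (fun l : ℝ => 729 * C * l ^ (-(1 / 50 : ℝ))) atTop (nhds 0) := by
    simpa using (tendsto_rpow_neg_atTop (by norm_num : (0 : ℝ) < 1 / 50)).const_mul (729 * C)
  obtain ⟨l2, h2⟩ := eventually_atTop.1 (t1.eventually (ge_mem_nhds hκ))
  obtain ⟨l3, h3⟩ := eventually_atTop.1 (t2.eventually (ge_mem_nhds hκ))
  refine ⟨max (max l1 l2) (max l3 1), fun l hl' => ?_⟩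
  have g1 : l1 ≤ l := (le_max_left _ _).trans ((le_max_left _ _).trans hl')
  have g2 : l2 ≤ l := (le_max_right _ _).trans ((le_max_left _ _).trans hl')
  have g3 : l3 ≤ l := (le_max_left _ _).trans ((le_max_right _ _).trans hl')
  have g4 : 1 ≤ l := (le_max_right _ _).trans ((le_max_right _ _).trans hl')
  have h0 : 0 < l := by linarith
  obtain ⟨-, a2, a3, -⟩ := hl l g1
  have k2 := h2 l g2
  have k3 := h3 l g3
  constructor
  · refine le_trans ?_ k2
    calc (JL l : ℝ) ^ 3 * (2 ^ (mL l) * Real.exp (-(Sr (K0L l) (K1L l) / 2)))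
        ≤ (729 * l ^ (3 / 50 : ℝ)) * (l ^ (306 / 1000 : ℝ) * (C * l ^ (-(2 / 5) : ℝ))) :=
          mul_le_mul (JL_cube g4) (mul_le_mul (two_pow_le g4) (exp_half g4 hC a2)
            (Real.exp_pos _).le (by positivity)) (by positivity) (by positivity)
      _ = 729 * C * (l ^ (3 / 50 : ℝ) * l ^ (306 / 1000 : ℝ) * l ^ (-(2 / 5) : ℝ)) := by ring
      _ = 729 * C * l ^ (-(34 / 1000 : ℝ)) := by
          rw [← Real.rpow_add h0, ← Real.rpow_add h0]
          norm_num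
  · refine le_trans ?_ k3
    have e1 : Real.exp (-Sr (K2L l) (K3L l)) ≤ C * l ^ (-(2 / 25) : ℝ) := by
      rw [Real.rpow_neg h0.le, ← div_eq_mul_inv, le_div_iff₀ (by positivity)]
      calc Real.exp (-Sr (K2L l) (K3L l)) * l ^ (2 / 25 : ℝ) ≤
            Real.exp (-Sr (K2L l) (K3L l)) * (C * Real.exp (Sr (K2L l) (K3L l))) :=
            mul_le_mul_of_nonneg_left a3 (Real.exp_pos _).le
        _ = C := by
            rw [Real.exp_neg]
            field_simp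
    calc (JL l : ℝ) ^ 3 * Real.exp (-Sr (K2L l) (K3L l))
        ≤ (729 * l ^ (3 / 50 : ℝ)) * (C * l ^ (-(2 / 25) : ℝ)) :=
          mul_le_mul (JL_cube g4) e1 (Real.exp_pos _).le (by positivity)
      _ = 729 * C * (l ^ (3 / 50 : ℝ) * l ^ (-(2 / 25) : ℝ)) := by ring
      _ = 729 * C * l ^ (-(1 / 50 : ℝ)) := by
          rw [← Real.rpow_add h0]
          norm_num

end Pool.Agent.Work.MP_a8fbd7_nt.PAR.EF.I_T12
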