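import Pool.Agent.Work.MP_a8fbd7_nt.PAR.EF.StmtsZ

set_option autoImplicit false

/-!
MP_a8fbd7_nt, block EF, item T3 (main limit), helper84.
-/

open Finset Filter Topology

noncomputable section

namespace Pool.Agent.Work.MP_a8fbd7_nt.PAR.EF.I_T3

open Pool.Agent.Work.MP_a8fbd7_nt.PAR.LC
open Pool.Agent.Work.MP_a8fbd7_nt.PAR.EF

theorem Sr_nonneg (a b : ℕ) : 0 ≤ Sr a b := by
  unfold Sr
  exact Finset.sum_nonneg fun p _ => by positivity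

/-- large `l` -/
theorem ev_large (ε : ℝ) (hε : 0 < ε) : ∃ l1 : ℝ, ∀ l : ℝ, l1 ≤ l → 3 ≤ l ∧
    2 * l ^ 10 ≤ Real.exp (l ^ (1 / 20 : ℝ)) ∧ Real.log l ^ 3 ≤ ε * l ^ (4 / 125 : ℝ) ∧
    2 ≤ l ^ (17 / 20 : ℝ) := by
  have h1 : ∀ᶠ l : ℝ in atTop, 2 * l ^ 10 ≤ Real.exp (l ^ (1 / 20 : ℝ)) := by
    have h2 := Real.tendsto_pow_mul_exp_neg_atTop_nhds_zero 200
    have h3 : Tendsto (fun l : ℝ => l ^ (1 / 20 : ℝ)) atTop atTop :=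
      tendsto_rpow_atTop (by norm_num)
    have h4 := (h2.comp h3).eventually (gt_mem_nhds (show (0 : ℝ) < 1 / 2 by norm_num))
    filter_upwards [h4, eventually_ge_atTop (1 : ℝ)] with l hl hl1
    have hl0 : 0 ≤ l := by linarith
    simp only [Function.comp_apply] at hl
    have e1 : (l ^ (1 / 20 : ℝ)) ^ 200 = l ^ 10 := by
      rw [← Real.rpow_natCast (l ^ (1 / 20 : ℝ)) 200, ← Real.rpow_mul hl0,
        ← Real.rpow_natCast l 10]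
      norm_num
    rw [e1, Real.exp_neg] at hl
    have h5 : 0 < Real.exp (l ^ (1 / 20 : ℝ)) := Real.exp_pos _
    rw [← div_eq_mul_inv, div_lt_iff₀ h5] at hl
    linarith
  have h2 : ∀ᶠ l : ℝ in atTop, Real.log l ^ 3 ≤ ε * l ^ (4 / 125 : ℝ) := by
    have h3 := isLittleO_log_rpow_rpow_atTop (3 : ℝ) (show (0 : ℝ) < 4 / 125 by norm_num)
    have h4 := h3.def hε
    filter_upwards [h4, eventually_ge_atTop (1 : ℝ)] with l hl hl1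
    have hlog : 0 ≤ Real.log l := Real.log_nonneg hl1
    have hl0 : 0 ≤ l := by linarith
    rw [Real.norm_of_nonneg (Real.rpow_nonneg hlog _), Real.norm_of_nonneg (Real.rpow_nonneg hl0 _)]
      at hl
    have e1 : Real.log l ^ (3 : ℝ) = Real.log l ^ 3 := by
      rw [← Real.rpow_natCast]
      norm_num
    rwa [e1] at hl
  have h3 : ∀ᶠ l : ℝ in atTop, 2 ≤ l ^ (17 / 20 : ℝ) :=
    (tendsto_rpow_atTop (by norm_num)).eventually_ge_atTop _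
  have h4 := (h1.and (h2.and (h3.and (eventually_ge_atTop (3 : ℝ)))))
  obtain ⟨l1, hl1⟩ := eventually_atTop.1 h4
  exact ⟨l1, fun l hl => ⟨(hl1 l hl).2.2.2, (hl1 l hl).1, (hl1 l hl).2.1, (hl1 l hl).2.2.1⟩⟩

theorem floor_half (x : ℝ) (hx : 2 ≤ x) : x / 2 ≤ (⌊x⌋₊ : ℝ) := by
  have := Nat.lt_floor_add_one x
  linarith

/-- the exponentials of the sums -/
theorem exps (S C l : ℝ) (hl : 1 ≤ l) (hC : 1 ≤ C) (h : Real.exp S ≤ C * l ^ (4 / 5 : ℝ)) :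
    Real.exp (5 * S / 4) ≤ C ^ 2 * l ∧ Real.exp (S / 4) ≤ C * l ^ (1 / 5 : ℝ) := by
  have hl0 : 0 ≤ l := by linarith
  have hC0 : 0 ≤ C := by linarith
  have hp : 0 ≤ l ^ (4 / 5 : ℝ) := Real.rpow_nonneg hl0 _
  constructor
  · have e1 : Real.exp (5 * S / 4) = Real.exp S ^ (5 / 4 : ℝ) := by
      rw [← Real.exp_mul]
      congr 1
      ring
    rw [e1]
    calc Real.exp S ^ (5 / 4 : ℝ) ≤ (C * l ^ (4 / 5 : ℝ)) ^ (5 / 4 : ℝ) :=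
          Real.rpow_le_rpow (Real.exp_pos _).le h (by norm_num)
      _ = C ^ (5 / 4 : ℝ) * l := by
          rw [Real.mul_rpow hC0 hp, ← Real.rpow_mul hl0]
          norm_num
      _ ≤ C ^ 2 * l := by
          refine mul_le_mul_of_nonneg_right ?_ hl0
          rw [← Real.rpow_natCast]
          exact Real.rpow_le_rpow_of_exponent_le hC (by norm_num)
  · have e1 : Real.exp (S / 4) = Real.exp S ^ (1 / 4 : ℝ) := by
      rw [← Real.exp_mul]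
      congr 1
      ring
    rw [e1]
    calc Real.exp S ^ (1 / 4 : ℝ) ≤ (C * l ^ (4 / 5 : ℝ)) ^ (1 / 4 : ℝ) :=
          Real.rpow_le_rpow (Real.exp_pos _).le h (by norm_num)
      _ = C ^ (1 / 4 : ℝ) * l ^ (1 / 5 : ℝ) := by
          rw [Real.mul_rpow hC0 hp, ← Real.rpow_mul hl0]
          norm_num
      _ ≤ C * l ^ (1 / 5 : ℝ) := by
          refine mul_le_mul_of_nonneg_right ?_ (Real.rpow_nonneg hl0 _)
          calc C ^ (1 / 4 : ℝ) ≤ C ^ (1 : ℝ) :=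
                Real.rpow_le_rpow_of_exponent_le hC (by norm_num)
            _ = C := Real.rpow_one C

/-- the size of a floor of an exponential -/
theorem logs (l a : ℝ) (hl : 1 ≤ l) (ha : a ≤ 1) :
    1 ≤ (⌊Real.exp (l ^ a)⌋₊ : ℝ) ∧ 0 ≤ Real.log (⌊Real.exp (l ^ a)⌋₊ : ℝ) ∧
      Real.log (⌊Real.exp (l ^ a)⌋₊ : ℝ) ≤ l := by
  have hl0 : 0 ≤ l := by linarith
  have h1 : 1 ≤ ⌊Real.exp (l ^ a)⌋₊ := by
    rw [Nat.one_le_floor_iff]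
    exact Real.one_le_exp (Real.rpow_nonneg hl0 _)
  have h1' : (1 : ℝ) ≤ (⌊Real.exp (l ^ a)⌋₊ : ℝ) := by exact_mod_cast h1
  refine ⟨h1', Real.log_nonneg h1', ?_⟩
  have h2 : (⌊Real.exp (l ^ a)⌋₊ : ℝ) ≤ Real.exp (l ^ a) := Nat.floor_le (Real.exp_pos _).le
  calc Real.log (⌊Real.exp (l ^ a)⌋₊ : ℝ) ≤ Real.log (Real.exp (l ^ a)) :=
        Real.log_le_log (by linarith) h2
    _ = l ^ a := Real.log_exp _
    _ ≤ l ^ (1 : ℝ) := Real.rpow_le_rpow_of_exponent_le hl ha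
    _ = l := Real.rpow_one l

/-- the bound for `Vm` -/
theorem Vm_le (l C r S : ℝ) (hl : 3 ≤ l) (hC : 1 ≤ C)
    (hK : 2 * l ^ 10 ≤ Real.exp (l ^ (1 / 20 : ℝ))) (hW : 2 ≤ l ^ (17 / 20 : ℝ))
    (hS : S = Sr (K0L l) (K1L l)) (hE : Real.exp S ≤ C * l ^ (4 / 5 : ℝ)) :
    Vm (cL l) r (WL l) (K0L l) (K1L l) (K3L l) (mL l) ≤
      C ^ 2 * (cL l / (25 * r)) ^ 2 * l ^ (3 / 20 : ℝ) + 35 * C ^ 2 * l ^ (1 / 5 : ℝ) := by
  have hl1 : 1 ≤ l := by linarith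
  have hl0 : 0 < l := by linarith
  have hC0 : 0 ≤ C := by linarith
  obtain ⟨E5, E1⟩ := exps S C l hl1 hC hE
  unfold Vm
  rw [← hS]
  set ω : ℝ := cL l / (25 * r) with hω
  -- `K0`
  have hK0 : l ^ 10 ≤ (K0L l : ℝ) := by
    have h10 : (1 : ℝ) ≤ l ^ 10 := one_le_pow₀ hl1
    have := floor_half (Real.exp (l ^ (1 / 20 : ℝ))) (by linarith)
    unfold K0L
    linarith
  have hK0p : 0 < (K0L l : ℝ) := lt_of_lt_of_le (by positivity) hK0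
  -- `K1`, `K3`, `m`
  obtain ⟨k1, k2, k3⟩ := logs l (17 / 20) hl1 (by norm_num)
  obtain ⟨k4, k5, k6⟩ := logs l (49 / 50) hl1 (by norm_num)
  have hlog0 : 0 ≤ Real.log l := Real.log_nonneg hl1
  have hlogl : Real.log l ≤ l := (Real.log_le_sub_one_of_pos hl0).trans (by linarith)
  have hm : ((mL l : ℕ) : ℝ) ≤ l := by
    have : ((mL l : ℕ) : ℝ) ≤ 11 / 25 * Real.log l := Nat.floor_le (by positivity)
    linarith
  have hm0 : (0 : ℝ) ≤ ((mL l : ℕ) : ℝ) := Nat.cast_nonneg _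
  have hK1e : (K1L l : ℝ) = (⌊Real.exp (l ^ (17 / 20 : ℝ))⌋₊ : ℝ) := rfl
  have hK3e : (K3L l : ℝ) = (⌊Real.exp (l ^ (49 / 50 : ℝ))⌋₊ : ℝ) := rfl
  rw [← hK1e] at k1 k2 k3
  rw [← hK3e] at k4 k5 k6
  have hK1p : (0 : ℝ) < K1L l := by linarith
  have hK3p : (0 : ℝ) < K3L l := by linarith
  have hmk : ((mL l : ℕ) : ℝ) * Real.log (K1L l) ≤ l * l := mul_le_mul hm k3 k2 hl0.le
  have hmk0 : 0 ≤ ((mL l : ℕ) : ℝ) * Real.log (K1L l) := mul_nonneg hm0 k2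
  have eP : Real.log (3 * (K1L l : ℝ) ^ (2 * mL l)) =
      Real.log 3 + 2 * (((mL l : ℕ) : ℝ) * Real.log (K1L l)) := by
    rw [Real.log_mul (by norm_num) (pow_ne_zero _ hK1p.ne'), Real.log_pow]
    push_cast
    ring
  have eQ : Real.log ((K1L l : ℝ) ^ mL l * K3L l) =
      ((mL l : ℕ) : ℝ) * Real.log (K1L l) + Real.log (K3L l) := by
    rw [Real.log_mul (pow_ne_zero _ hK1p.ne') hK3p.ne', Real.log_pow]
  have hlog3 : Real.log 3 ≤ 2 := (Real.log_le_sub_one_of_pos (by norm_num)).trans (by norm_num)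
  have hlog3' : 0 ≤ Real.log 3 := Real.log_nonneg (by norm_num)
  have hll : 1 ≤ l * l := one_le_mul_of_one_le_of_one_le hl1 hl1
  have hlll : l ≤ l * l := le_mul_of_one_le_left hl0.le hl1
  have hP : 1 + Real.log (3 * (K1L l : ℝ) ^ (2 * mL l)) ≤ 5 * (l * l) := by
    rw [eP]
    linarith
  have hQ : 1 + Real.log ((K1L l : ℝ) ^ mL l * K3L l) ≤ 3 * (l * l) := by
    rw [eQ]
    linarith
  have hQ0 : 0 ≤ 1 + Real.log ((K1L l : ℝ) ^ mL l * K3L l) := by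
    rw [eQ]
    linarith
  have hP' : (1 + Real.log (3 * (K1L l : ℝ) ^ (2 * mL l))) / (K0L l : ℝ) ≤ 5 / l := by
    rw [div_le_div_iff₀ hK0p hl0]
    have h1 : l * l * l ≤ l ^ 10 := by
      calc l * l * l = l ^ 3 := by ring
        _ ≤ l ^ 10 := pow_le_pow_right₀ hl1 (by norm_num)
    calc (1 + Real.log (3 * (K1L l : ℝ) ^ (2 * mL l))) * l ≤ 5 * (l * l) * l :=
          mul_le_mul_of_nonneg_right hP hl0.le
      _ = 5 * (l * l * l) := by ring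
      _ ≤ 5 * (K0L l : ℝ) := by linarith
  have hQ' : 3 * (1 + Real.log ((K1L l : ℝ) ^ mL l * K3L l)) ^ 2 / (K0L l : ℝ) ≤ 27 := by
    rw [div_le_iff₀ hK0p]
    have h1 : (1 + Real.log ((K1L l : ℝ) ^ mL l * K3L l)) ^ 2 ≤ (3 * (l * l)) ^ 2 :=
      pow_le_pow_left₀ hQ0 hQ 2
    have h2 : (3 * (l * l)) ^ 2 ≤ 9 * l ^ 10 := by
      calc (3 * (l * l)) ^ 2 = 9 * l ^ 4 := by ring
        _ ≤ 9 * l ^ 10 := by
            have := pow_le_pow_right₀ hl1 (show 4 ≤ 10 by norm_num)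
            linarith
    linarith
  -- `W`
  have hWf : l ^ (17 / 20 : ℝ) / 2 ≤ (WL l : ℝ) := floor_half _ hW
  have hWp : 0 < l ^ (17 / 20 : ℝ) := Real.rpow_pos_of_pos hl0 _
  have hWL : 0 < (WL l : ℝ) := lt_of_lt_of_le (by positivity) hWf
  have hω2 : 0 ≤ ω ^ 2 := sq_nonneg _
  have hW1 : ω ^ 2 / (10 * (WL l : ℝ)) ≤ ω ^ 2 / l ^ (17 / 20 : ℝ) := by
    refine div_le_div_of_nonneg_left hω2 hWp ?_
    linarith
  have hsplit : l / l ^ (17 / 20 : ℝ) = l ^ (3 / 20 : ℝ) := by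
    have e : l ^ (17 / 20 : ℝ) * l ^ (3 / 20 : ℝ) = l := by
      rw [← Real.rpow_add hl0]
      norm_num
    rw [div_eq_iff hWp.ne', mul_comm]
    exact e.symm
  have hl5 : 1 ≤ l ^ (1 / 5 : ℝ) := Real.one_le_rpow hl1 (by norm_num)
  have hC2 : C ≤ C ^ 2 := by nlinarith
  have hC20 : 0 ≤ C ^ 2 := by positivity
  have t1 : Real.exp (5 * S / 4) * (ω ^ 2 / (10 * (WL l : ℝ)) +
      (1 + Real.log (3 * (K1L l : ℝ) ^ (2 * mL l))) / (K0L l : ℝ)) ≤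
      C ^ 2 * ω ^ 2 * l ^ (3 / 20 : ℝ) + 5 * C ^ 2 := by
    have h1 : ω ^ 2 / (10 * (WL l : ℝ)) +
        (1 + Real.log (3 * (K1L l : ℝ) ^ (2 * mL l))) / (K0L l : ℝ) ≤
        ω ^ 2 / l ^ (17 / 20 : ℝ) + 5 / l := add_le_add hW1 hP'
    have h2 : 0 ≤ ω ^ 2 / l ^ (17 / 20 : ℝ) + 5 / l := by positivity
    calc _ ≤ (C ^ 2 * l) * (ω ^ 2 / l ^ (17 / 20 : ℝ) + 5 / l) :=
          (mul_le_mul_of_nonneg_left h1 (Real.exp_pos _).le).trans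
            (mul_le_mul_of_nonneg_right E5 h2)
      _ = C ^ 2 * ω ^ 2 * (l / l ^ (17 / 20 : ℝ)) + 5 * C ^ 2 := by
          field_simp
      _ = _ := by rw [hsplit]
  have t2 : Real.exp (S / 4) * (3 + 3 * (1 + Real.log ((K1L l : ℝ) ^ mL l * K3L l)) ^ 2 /
      (K0L l : ℝ)) ≤ 30 * C ^ 2 * l ^ (1 / 5 : ℝ) := by
    have h1 : 3 + 3 * (1 + Real.log ((K1L l : ℝ) ^ mL l * K3L l)) ^ 2 / (K0L l : ℝ) ≤ 30 := by
      linarith
    calc _ ≤ (C * l ^ (1 / 5 : ℝ)) * 30 :=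
          (mul_le_mul_of_nonneg_left h1 (Real.exp_pos _).le).trans
            (mul_le_mul_of_nonneg_right E1 (by norm_num))
      _ ≤ 30 * C ^ 2 * l ^ (1 / 5 : ℝ) := by nlinarith
  have t3 : 5 * C ^ 2 ≤ 5 * C ^ 2 * l ^ (1 / 5 : ℝ) := le_mul_of_one_le_right (by positivity) hl5
  linarith

/-- the size of `J` -/
theorem J_le (l : ℝ) (hl : 1 ≤ l) : (JL l : ℝ) ^ 2 ≤ 81 * l ^ (1 / 25 : ℝ) := by
  have hl0 : 0 < l := by linarith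
  have hc : 8 / (cL l) ^ 2 = 8 * l ^ (1 / 50 : ℝ) := by
    unfold cL
    rw [← Real.rpow_natCast (l ^ (-(1 / 100) : ℝ)) 2, ← Real.rpow_mul hl0.le]
    have e : (-(1 / 100) : ℝ) * ((2 : ℕ) : ℝ) = -(1 / 50) := by norm_num
    rw [e, Real.rpow_neg hl0.le]
    field_simp
  have h1 : 1 ≤ l ^ (1 / 50 : ℝ) := Real.one_le_rpow hl (by norm_num)
  have h2 : (JL l : ℝ) ≤ 9 * l ^ (1 / 50 : ℝ) := by
    unfold JL
    rw [hc]
    have := Nat.ceil_lt_add_one (show 0 ≤ 8 * l ^ (1 / 50 : ℝ) by positivity)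
    linarith
  calc (JL l : ℝ) ^ 2 ≤ (9 * l ^ (1 / 50 : ℝ)) ^ 2 := pow_le_pow_left₀ (Nat.cast_nonneg _) h2 2
    _ = 81 * (l ^ (1 / 50 : ℝ) * l ^ (1 / 50 : ℝ)) := by ring
    _ = 81 * l ^ (1 / 25 : ℝ) := by
        rw [← Real.rpow_add hl0]
        norm_num

theorem prf : StT3 := by
  intro hMes hSr hAmL hPh κ hκ
  obtain ⟨C, l2, hC, hM⟩ := hMes hSr
  obtain ⟨d, l3, hd, hA⟩ := hAmL hPh
  have hC0 : 0 < C := by linarith
  obtain ⟨l1, hl1⟩ := ev_large (κ * d ^ 2 / (5670 * C ^ 2)) (by positivity)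
  refine ⟨max l1 (max l2 l3), fun l hl r hr1 hr2 => ?_⟩
  obtain ⟨h3, hK, hlog, hW⟩ := hl1 l ((le_max_left _ _).trans hl)
  obtain ⟨m1, _, _, m4⟩ := hM l (((le_max_left _ _).trans (le_max_right _ _)).trans hl)
  obtain ⟨a1, a2⟩ := hA l (((le_max_right _ _).trans (le_max_right _ _)).trans hl) r hr1 hr2
  have hl1 : 1 ≤ l := by linarith
  have hl0 : 0 < l := by linarith
  have hV := Vm_le l C r _ h3 hC hK hW rfl m1
  have hJ := J_le l hl1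
  obtain ⟨a, ha⟩ : ∃ a : ℝ, a = Real.log l := ⟨_, rfl⟩
  obtain ⟨ω, hω⟩ : ∃ ω : ℝ, ω = cL l / (25 * r) := ⟨_, rfl⟩
  have ha0 : 0 < a := by
    rw [ha]
    exact Real.log_pos (by linarith)
  have hω0 : 0 ≤ ω := by
    rw [hω]
    have hc : 0 < cL l := Real.rpow_pos_of_pos hl0 _
    have hr : 0 ≤ r := le_trans (by positivity) hr1
    positivity
  rw [← ha] at hlog m4 a1 a2
  rw [← hω] at hV a1
  obtain ⟨V, hVd⟩ : ∃ V : ℝ, V = Vm (cL l) r (WL l) (K0L l) (K1L l) (K3L l) (mL l) := ⟨_, rfl⟩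
  obtain ⟨A, hAd⟩ : ∃ A : ℝ, A = Am (cL l) r (WL l) (mL l) := ⟨_, rfl⟩
  obtain ⟨T, hTd⟩ : ∃ T : ℝ, T = Sr (K2L l) (K3L l) := ⟨_, rfl⟩
  have hT0 : 0 ≤ T := by
    rw [hTd]
    exact Sr_nonneg _ _
  rw [← hVd] at hV ⊢
  rw [← hAd] at a1 a2 ⊢
  rw [← hTd] at m4 ⊢
  -- powers of `l`
  have p1 : l ^ (3 / 20 : ℝ) * l ^ (1 / 25 : ℝ) = l ^ (19 / 100 : ℝ) := by
    rw [← Real.rpow_add hl0]
    norm_num
  have p2 : l ^ (1 / 5 : ℝ) * l ^ (1 / 25 : ℝ) = l ^ (6 / 25 : ℝ) := by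
    rw [← Real.rpow_add hl0]
    norm_num
  have p3 : l ^ (4 / 125 : ℝ) * l ^ (19 / 100 : ℝ) ≤ (l ^ (176 / 1000 : ℝ)) ^ 2 := by
    rw [← Real.rpow_add hl0, ← Real.rpow_natCast (l ^ (176 / 1000 : ℝ)) 2, ← Real.rpow_mul hl0.le]
    exact Real.rpow_le_rpow_of_exponent_le hl1 (by norm_num)
  have p4 : l ^ (4 / 125 : ℝ) * l ^ (6 / 25 : ℝ) ≤ (l ^ (136 / 1000 : ℝ)) ^ 2 := by
    rw [← Real.rpow_add hl0, ← Real.rpow_natCast (l ^ (136 / 1000 : ℝ)) 2, ← Real.rpow_mul hl0.le]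
    exact Real.rpow_le_rpow_of_exponent_le hl1 (by norm_num)
  have q1 : 0 ≤ l ^ (19 / 100 : ℝ) := Real.rpow_nonneg hl0.le _
  have q2 : 0 ≤ l ^ (6 / 25 : ℝ) := Real.rpow_nonneg hl0.le _
  have q3 : 0 ≤ l ^ (176 / 1000 : ℝ) := Real.rpow_nonneg hl0.le _
  have q4 : 0 ≤ l ^ (136 / 1000 : ℝ) := Real.rpow_nonneg hl0.le _
  have q5 : 0 ≤ l ^ (1 / 25 : ℝ) := Real.rpow_nonneg hl0.le _
  have q6 : 0 ≤ l ^ (3 / 20 : ℝ) := Real.rpow_nonneg hl0.le _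
  have q7 : 0 ≤ l ^ (1 / 5 : ℝ) := Real.rpow_nonneg hl0.le _
  -- the squares
  have s1 : (d * ω * l ^ (176 / 1000 : ℝ) / a) ^ 2 ≤ A ^ 2 :=
    pow_le_pow_left₀ (by positivity) a1 2
  have s2 : (d * l ^ (136 / 1000 : ℝ) / a) ^ 2 ≤ A ^ 2 :=
    pow_le_pow_left₀ (by positivity) a2 2
  -- the two main inequalities
  have ε1 : 5670 * C ^ 2 * a ^ 3 ≤ κ * d ^ 2 * l ^ (4 / 125 : ℝ) := by
    have h : κ * d ^ 2 / (5670 * C ^ 2) * l ^ (4 / 125 : ℝ) =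
        κ * d ^ 2 * l ^ (4 / 125 : ℝ) / (5670 * C ^ 2) := by ring
    rw [h, le_div_iff₀ (by positivity)] at hlog
    linarith
  have n1 : a * (C ^ 2 * ω ^ 2 * l ^ (3 / 20 : ℝ)) * (81 * l ^ (1 / 25 : ℝ)) ≤ κ / 2 * A ^ 2 := by
    have h1 : a * (C ^ 2 * ω ^ 2 * l ^ (3 / 20 : ℝ)) * (81 * l ^ (1 / 25 : ℝ)) =
        81 * C ^ 2 * ω ^ 2 * a ^ 3 * l ^ (19 / 100 : ℝ) / a ^ 2 := by
      rw [← p1]
      field_simp
    have h2 : κ / 2 * (d * ω * l ^ (176 / 1000 : ℝ) / a) ^ 2 =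
        κ / 2 * (d ^ 2 * ω ^ 2 * (l ^ (176 / 1000 : ℝ)) ^ 2) / a ^ 2 := by
      rw [div_pow, mul_pow, mul_pow]
      ring
    refine le_trans ?_ (mul_le_mul_of_nonneg_left s1 (by positivity))
    rw [h1, h2]
    refine div_le_div_of_nonneg_right ?_ (by positivity)
    have h3 : 81 * C ^ 2 * a ^ 3 ≤ κ / 2 * d ^ 2 * l ^ (4 / 125 : ℝ) := by
      have : 0 ≤ C ^ 2 * a ^ 3 := by positivity
      linarith
    calc 81 * C ^ 2 * ω ^ 2 * a ^ 3 * l ^ (19 / 100 : ℝ) =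
          (81 * C ^ 2 * a ^ 3) * (ω ^ 2 * l ^ (19 / 100 : ℝ)) := by ring
      _ ≤ (κ / 2 * d ^ 2 * l ^ (4 / 125 : ℝ)) * (ω ^ 2 * l ^ (19 / 100 : ℝ)) :=
          mul_le_mul_of_nonneg_right h3 (by positivity)
      _ = κ / 2 * d ^ 2 * ω ^ 2 * (l ^ (4 / 125 : ℝ) * l ^ (19 / 100 : ℝ)) := by ring
      _ ≤ κ / 2 * d ^ 2 * ω ^ 2 * (l ^ (176 / 1000 : ℝ)) ^ 2 :=
          mul_le_mul_of_nonneg_left p3 (by positivity)
      _ = _ := by ring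
  have n2 : a * (35 * C ^ 2 * l ^ (1 / 5 : ℝ)) * (81 * l ^ (1 / 25 : ℝ)) ≤ κ / 2 * A ^ 2 := by
    have h1 : a * (35 * C ^ 2 * l ^ (1 / 5 : ℝ)) * (81 * l ^ (1 / 25 : ℝ)) =
        2835 * C ^ 2 * a ^ 3 * l ^ (6 / 25 : ℝ) / a ^ 2 := by
      rw [← p2]
      field_simp
      ring
    have h2 : κ / 2 * (d * l ^ (136 / 1000 : ℝ) / a) ^ 2 =
        κ / 2 * (d ^ 2 * (l ^ (136 / 1000 : ℝ)) ^ 2) / a ^ 2 := by
      rw [div_pow, mul_pow]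
      ring
    refine le_trans ?_ (mul_le_mul_of_nonneg_left s2 (by positivity))
    rw [h1, h2]
    refine div_le_div_of_nonneg_right ?_ (by positivity)
    have h3 : 2835 * C ^ 2 * a ^ 3 ≤ κ / 2 * d ^ 2 * l ^ (4 / 125 : ℝ) := by
      linarith
    calc 2835 * C ^ 2 * a ^ 3 * l ^ (6 / 25 : ℝ) ≤
          (κ / 2 * d ^ 2 * l ^ (4 / 125 : ℝ)) * l ^ (6 / 25 : ℝ) :=
          mul_le_mul_of_nonneg_right h3 q2
      _ = κ / 2 * d ^ 2 * (l ^ (4 / 125 : ℝ) * l ^ (6 / 25 : ℝ)) := by ring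
      _ ≤ κ / 2 * d ^ 2 * (l ^ (136 / 1000 : ℝ)) ^ 2 :=
          mul_le_mul_of_nonneg_left p4 (by positivity)
      _ = _ := by ring
  -- conclusion
  have hB0 : 0 ≤ C ^ 2 * ω ^ 2 * l ^ (3 / 20 : ℝ) + 35 * C ^ 2 * l ^ (1 / 5 : ℝ) := by positivity
  calc T * V * (JL l : ℝ) ^ 2 ≤
        T * (C ^ 2 * ω ^ 2 * l ^ (3 / 20 : ℝ) + 35 * C ^ 2 * l ^ (1 / 5 : ℝ)) * (JL l : ℝ) ^ 2 :=
        mul_le_mul_of_nonneg_right (mul_le_mul_of_nonneg_left hV hT0) (by positivity)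
    _ ≤ a * (C ^ 2 * ω ^ 2 * l ^ (3 / 20 : ℝ) + 35 * C ^ 2 * l ^ (1 / 5 : ℝ)) *
        (81 * l ^ (1 / 25 : ℝ)) :=
        mul_le_mul (mul_le_mul_of_nonneg_right m4 hB0) hJ (by positivity)
          (mul_nonneg ha0.le hB0)
    _ = a * (C ^ 2 * ω ^ 2 * l ^ (3 / 20 : ℝ)) * (81 * l ^ (1 / 25 : ℝ)) +
        a * (35 * C ^ 2 * l ^ (1 / 5 : ℝ)) * (81 * l ^ (1 / 25 : ℝ)) := by ring
    _ ≤ κ / 2 * A ^ 2 + κ / 2 * A ^ 2 := add_le_add n1 n2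
    _ = κ * A ^ 2 := by ring

end Pool.Agent.Work.MP_a8fbd7_nt.PAR.EF.I_T3
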