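import Pool.Agent.Work.MP_a8fbd7_nt.PAR.EF.StmtsX

set_option autoImplicit false

/-!
MP_a8fbd7_nt, block EF, item Tu2: second moment of the divisor function in the interval
(first part of `PAR/LC/I_CnL.lean`).
-/

open Finset

noncomputable section

namespace Pool.Agent.Work.MP_a8fbd7_nt.PAR.EF.I_Tu2

open Pool.Agent.Work.MP_a8fbd7_nt.PAR.LC Pool.Agent.Work.MP_a8fbd7_nt.PAR.EF

/-- The number of multiples of `d` in the interval. -/
lemma count (hCap : StCap) (x y : ℝ) (hx : 0 ≤ x) (hxy : x ≤ y) (d : ℕ) (hd : 1 ≤ d) :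
    (((Icc ⌈x⌉₊ ⌊y⌋₊).filter (fun m => d ∣ m)).card : ℝ) ≤ (y - x) / d + 1 := by
  have h := (hCap d 0 x y (⌊y⌋₊ + 1) hd hx hxy (by
    push_cast
    exact (Nat.lt_floor_add_one y).le)).1
  refine le_trans ?_ h
  have hy : 0 ≤ y := hx.trans hxy
  have h2 : (Icc ⌈x⌉₊ ⌊y⌋₊).filter (fun m => d ∣ m) ⊆ (range (⌊y⌋₊ + 1 + 1)).filter
      (fun n : ℕ => x ≤ (n : ℝ) ∧ (n : ℝ) ≤ y ∧ n ≡ 0 [MOD d]) := by
    intro m hm
    rw [mem_filter, mem_Icc] at hm
    rw [mem_filter, mem_range]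
    refine ⟨by omega, Nat.ceil_le.1 hm.1.1, (Nat.le_floor_iff hy).1 hm.1.2, ?_⟩
    exact (Nat.modEq_zero_iff_dvd).2 hm.2
  exact_mod_cast card_le_card h2

/-- Second moment of the divisor function on the interval. -/
lemma second (hLan : StLan) (hSt4 : StSt4) (hCap : StCap) (n c : ℝ) (hn : 2 ≤ n) (hc : 0 < c)
    (hc1 : c ≤ 1) (x : ℝ) (hxn : x = n ^ 2) :
    ∑ m ∈ Icc ⌈x⌉₊ ⌊x + c * n⌋₊, (m.divisors.card : ℝ) ^ 2 ≤
      12 * n * (2 + Real.log n) ^ 16 := by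
  have hsn : Real.sqrt x = n := by rw [hxn, Real.sqrt_sq (by linarith)]
  rw [← hsn]
  rw [← hsn] at hn
  have hx : 4 ≤ x := by
    rw [hxn, ← hsn]
    nlinarith
  set y : ℝ := x + c * Real.sqrt x with hy
  set N : ℕ := ⌊Real.sqrt (2 * x)⌋₊ with hN
  have hs0 : 0 ≤ Real.sqrt x := Real.sqrt_nonneg x
  have hs1 : Real.sqrt x * Real.sqrt x = x := Real.mul_self_sqrt (by linarith)
  have hsp : 0 < Real.sqrt x := by linarith
  have hy1 : y ≤ 2 * x := by
    have : c * Real.sqrt x ≤ x := by nlinarith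
    linarith
  have hxy : x ≤ y := by
    have : 0 ≤ c * Real.sqrt x := by positivity
    linarith
  have hN1 : (N : ℝ) ≤ Real.sqrt (2 * x) := Nat.floor_le (Real.sqrt_nonneg _)
  have hN2 : Real.sqrt (2 * x) ≤ 3 / 2 * Real.sqrt x := by
    rw [Real.sqrt_le_left (by positivity)]
    nlinarith
  have hN3 : 1 ≤ N := by
    rw [hN]
    apply Nat.le_floor
    rw [Nat.cast_one]
    apply Real.le_sqrt_of_sq_le
    linarith
  have hlog : 1 + Real.log N ≤ 2 + Real.log (Real.sqrt x) := by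
    have h1 : Real.log N ≤ Real.log (3 / 2 * Real.sqrt x) :=
      Real.log_le_log (by exact_mod_cast hN3) (hN1.trans hN2)
    rw [Real.log_mul (by norm_num) hsp.ne'] at h1
    have h2 := Real.log_le_sub_one_of_pos (show (0 : ℝ) < 3 / 2 by norm_num)
    linarith
  have hlogN : 0 ≤ Real.log N := Real.log_nonneg (by exact_mod_cast hN3)
  -- step 1
  have h1 : ∀ m ∈ Icc ⌈x⌉₊ ⌊y⌋₊, (m.divisors.card : ℝ) ^ 2 ≤
      4 * ∑ d ∈ Icc 1 N, if d ∣ m then (d.divisors.card : ℝ) ^ 4 else 0 := by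
    intro m hm
    rw [mem_Icc] at hm
    have hm1 : x ≤ m := Nat.ceil_le.1 hm.1
    have hm2 : (m : ℝ) ≤ y := (Nat.le_floor_iff (by linarith)).1 hm.2
    have hm3 : 1 ≤ m := by
      have : (1 : ℝ) ≤ m := by linarith
      exact_mod_cast this
    obtain ⟨d, hd1, hd2, hd3⟩ := hLan m hm3
    have hd0 : 1 ≤ d := Nat.pos_of_dvd_of_pos hd1 hm3
    have hdN : d ≤ N := by
      rw [hN]
      apply Nat.le_floor
      apply Real.le_sqrt_of_sq_le
      have : (d : ℝ) ^ 2 ≤ m := by exact_mod_cast hd2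
      linarith
    have h2 : (if d ∣ m then (d.divisors.card : ℝ) ^ 4 else 0) ≤
        ∑ d ∈ Icc 1 N, if d ∣ m then (d.divisors.card : ℝ) ^ 4 else 0 :=
      single_le_sum (f := fun d : ℕ => if d ∣ m then (d.divisors.card : ℝ) ^ 4 else 0)
        (fun i _ => by
          split_ifs
          · positivity
          · exact le_rfl) (mem_Icc.2 ⟨hd0, hdN⟩)
    rw [if_pos hd1] at h2
    have h3 : (m.divisors.card : ℝ) ≤ 2 * (d.divisors.card : ℝ) ^ 2 := by exact_mod_cast hd3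
    have h4 : (m.divisors.card : ℝ) ^ 2 ≤ (2 * (d.divisors.card : ℝ) ^ 2) ^ 2 :=
      pow_le_pow_left₀ (Nat.cast_nonneg _) h3 2
    calc (m.divisors.card : ℝ) ^ 2 ≤ (2 * (d.divisors.card : ℝ) ^ 2) ^ 2 := h4
      _ = 4 * (d.divisors.card : ℝ) ^ 4 := by ring
      _ ≤ _ := by linarith
  -- step 2
  have h2 : ∑ m ∈ Icc ⌈x⌉₊ ⌊y⌋₊, (m.divisors.card : ℝ) ^ 2 ≤
      4 * ∑ d ∈ Icc 1 N, (d.divisors.card : ℝ) ^ 4 * ((y - x) / d + 1) := by
    refine (sum_le_sum h1).trans ?_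
    rw [← mul_sum, sum_comm]
    refine mul_le_mul_of_nonneg_left (sum_le_sum fun d hd => ?_) (by norm_num)
    rw [← sum_filter, sum_const, nsmul_eq_mul, mul_comm]
    exact mul_le_mul_of_nonneg_left (count hCap x y (by linarith) hxy d (mem_Icc.1 hd).1)
      (by positivity)
  -- step 3
  have h3 : ∑ d ∈ Icc 1 N, (d.divisors.card : ℝ) ^ 4 * ((y - x) / d + 1) ≤
      (Real.sqrt x + N) * (1 + Real.log N) ^ 16 := by
    calc ∑ d ∈ Icc 1 N, (d.divisors.card : ℝ) ^ 4 * ((y - x) / d + 1)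
        ≤ ∑ d ∈ Icc 1 N, (Real.sqrt x + N) * ((d.divisors.card : ℝ) ^ 4 / d) := by
          refine sum_le_sum fun d hd => ?_
          rw [mem_Icc] at hd
          have hd0 : (0 : ℝ) < d := by exact_mod_cast hd.1
          have hdN : (d : ℝ) ≤ N := by exact_mod_cast hd.2
          have e1 : (Real.sqrt x + N) * ((d.divisors.card : ℝ) ^ 4 / d) =
              (d.divisors.card : ℝ) ^ 4 * ((Real.sqrt x + N) / d) := by ring
          rw [e1]
          refine mul_le_mul_of_nonneg_left ?_ (by positivity)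
          rw [div_add_one hd0.ne', div_le_div_iff_of_pos_right hd0]
          have : y - x ≤ Real.sqrt x := by
            rw [hy]
            nlinarith
          linarith
      _ = (Real.sqrt x + N) * ∑ d ∈ Icc 1 N, (d.divisors.card : ℝ) ^ 4 / d := by
          rw [mul_sum]
      _ ≤ _ := mul_le_mul_of_nonneg_left (hSt4 N hN3) (by positivity)
  have h4 : (1 + Real.log N) ^ 16 ≤ (2 + Real.log (Real.sqrt x)) ^ 16 :=
    pow_le_pow_left₀ (by linarith) hlog 16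
  have h5 : 0 ≤ (2 + Real.log (Real.sqrt x)) ^ 16 := pow_nonneg (by linarith) 16
  calc ∑ m ∈ Icc ⌈x⌉₊ ⌊y⌋₊, (m.divisors.card : ℝ) ^ 2
      ≤ 4 * ((Real.sqrt x + N) * (1 + Real.log N) ^ 16) := by linarith
    _ ≤ 4 * ((Real.sqrt x + N) * (2 + Real.log (Real.sqrt x)) ^ 16) := by
        have : (Real.sqrt x + N) * (1 + Real.log N) ^ 16 ≤ (Real.sqrt x + N) * (2 + Real.log (Real.sqrt x)) ^ 16 :=
          mul_le_mul_of_nonneg_left h4 (by positivity)
        linarith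
    _ ≤ 12 * Real.sqrt x * (2 + Real.log (Real.sqrt x)) ^ 16 := by
        have : (Real.sqrt x + N) * (2 + Real.log (Real.sqrt x)) ^ 16 ≤ (3 * Real.sqrt x) * (2 + Real.log (Real.sqrt x)) ^ 16 :=
          mul_le_mul_of_nonneg_right (by linarith) h5
        linarith

theorem prf (hLan : StLan) (hSt4 : StSt4) (hCap : StCap) : StTu2 := by
  intro n c hn hc hc1
  exact second hLan hSt4 hCap n c hn hc hc1 (n ^ 2) rfl

end Pool.Agent.Work.MP_a8fbd7_nt.PAR.EF.I_Tu2
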