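import Pool.Agent.Work.MP_a8fbd7_nt.PAR.EF.StmtsX
import Pool.Agent.Work.MP_a8fbd7_nt.PAR.Opp

/-!
# Theorem S in the intervals of Oppermann
-/

set_option autoImplicit false

open Finset

namespace Pool.Agent.Work.MP_a8fbd7_nt.PAR.EF

/-- `2.001^(99/100) ≤ 1.99` -/
theorem num1 : (2001 / 1000 : ℝ) ^ (99 / 100 : ℝ) ≤ 199 / 100 := by
  have h1 : (2001 / 1000 : ℝ) ^ (99 / 100 : ℝ) = (2001 / 1000) * (2001 / 1000 : ℝ) ^ (-(1 / 100) : ℝ) := by
    rw [← Real.rpow_one_add' (by norm_num) (by norm_num)]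
    norm_num
  have h2 : (1 + 69 / 10000 : ℝ) ≤ (2001 / 1000 : ℝ) ^ (1 / 100 : ℝ) := by
    rw [Real.rpow_def_of_pos (by norm_num)]
    have h3 : (0.69 : ℝ) ≤ Real.log (2001 / 1000) := by
      have := Real.log_two_gt_d9
      have h4 : Real.log 2 ≤ Real.log (2001 / 1000) := Real.log_le_log (by norm_num) (by norm_num)
      linarith
    have h5 := Real.add_one_le_exp (Real.log (2001 / 1000) * (1 / 100))
    linarith
  rw [h1, Real.rpow_neg (by norm_num)]
  have h6 : ((2001 / 1000 : ℝ) ^ (1 / 100 : ℝ))⁻¹ ≤ (1 + 69 / 10000 : ℝ)⁻¹ := inv_anti₀ (by norm_num) h2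
  calc (2001 / 1000 : ℝ) * ((2001 / 1000 : ℝ) ^ (1 / 100 : ℝ))⁻¹ ≤ (2001 / 1000) * (1 + 69 / 10000 : ℝ)⁻¹ := by gcongr
    _ ≤ _ := by norm_num

/-- `(3/2)^(1/100) ≥ 1 + 1/300` -/
theorem num2 : (1 + 1 / 300 : ℝ) ≤ (3 / 2 : ℝ) ^ (1 / 100 : ℝ) := by
  rw [Real.rpow_def_of_pos (by norm_num)]
  have h3 := Real.one_sub_inv_le_log_of_pos (show (0 : ℝ) < 3 / 2 by norm_num)
  have h5 := Real.add_one_le_exp (Real.log (3 / 2) * (1 / 100))
  norm_num at h3
  linarith

/-- the Oppermann form of Theorem S -/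
theorem opp (h : ThmSX) : ∃ n0 : ℕ, ∀ n a b : ℕ, n0 ≤ n → n ^ 2 - n ≤ a → b ≤ n ^ 2 + n →
    (a : ℝ) + n / Real.log n ^ (1 / 100 : ℝ) ≤ b →
    (n : ℝ) * Real.exp (-(2 * Real.log n ^ (99 / 100 : ℝ))) ≤
      (((Icc a b).filter fun m => Even (ArithmeticFunction.cardFactors m)).card : ℝ) ∧
    (n : ℝ) * Real.exp (-(2 * Real.log n ^ (99 / 100 : ℝ))) ≤
      (((Icc a b).filter fun m => Odd (ArithmeticFunction.cardFactors m)).card : ℝ) := by
  obtain ⟨x0, hx0⟩ := h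
  refine ⟨max (⌈x0⌉₊ + 200) ⌈Real.exp 10000⌉₊, fun n a b hn ha hb hab => ?_⟩
  have hn1 : ⌈x0⌉₊ + 200 ≤ n := le_trans (le_max_left _ _) hn
  have hn2 : Real.exp 10000 ≤ n := le_trans (Nat.le_ceil _) (by exact_mod_cast le_trans (le_max_right _ _) hn)
  have hn4 : 200 ≤ n := by omega
  have hnr : (200 : ℝ) ≤ n := by exact_mod_cast hn4
  have hlog : 10000 ≤ Real.log n := by
    rw [Real.le_log_iff_exp_le (by linarith)]
    exact hn2
  set L := Real.log n with hL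
  have hLpos : 0 < L := by linarith
  have hnn : n ≤ n ^ 2 := by nlinarith
  have har : (n : ℝ) ^ 2 - n ≤ a := by
    have : ((n ^ 2 - n : ℕ) : ℝ) ≤ a := by exact_mod_cast ha
    rwa [Nat.cast_sub hnn, Nat.cast_pow] at this
  have hbr : (b : ℝ) ≤ (n : ℝ) ^ 2 + n := by exact_mod_cast hb
  have hq : 0 < (n : ℝ) / L ^ (1 / 100 : ℝ) := by positivity
  have hapos : (0 : ℝ) < a := by nlinarith
  have hab' : (a : ℝ) ≤ (n : ℝ) ^ 2 + n := by linarith
  have hax0 : x0 ≤ a := by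
    have h1 : x0 ≤ ⌈x0⌉₊ := Nat.le_ceil _
    have h2 : ((⌈x0⌉₊ + 200 : ℕ) : ℝ) ≤ n := by exact_mod_cast hn1
    push_cast at h2
    nlinarith
  have hsq1 : Real.sqrt a ≤ n + 1 / 2 := by
    rw [Real.sqrt_le_left (by positivity)]
    nlinarith
  have hsq2 : (n : ℝ) / 2 ≤ Real.sqrt a := by
    refine Real.le_sqrt_of_sq_le ?_
    nlinarith
  have hloglow : 3 / 2 * L ≤ Real.log a := by
    have h1 : (n : ℝ) ^ (3 / 2 : ℝ) ≤ a := by
      have h2 : (n : ℝ) ^ (3 / 2 : ℝ) = n * Real.sqrt n := by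
        rw [Real.sqrt_eq_rpow, ← Real.rpow_one_add' (by positivity) (by norm_num)]
        norm_num
      have h3 : Real.sqrt n ≤ n - 1 := by
        rw [Real.sqrt_le_left (by linarith)]
        nlinarith
      rw [h2]
      nlinarith
    calc 3 / 2 * L = Real.log ((n : ℝ) ^ (3 / 2 : ℝ)) := (Real.log_rpow (by linarith) _).symm
      _ ≤ _ := Real.log_le_log (by positivity) h1
  have hlogup : Real.log a ≤ 2001 / 1000 * L := by
    have h1 : (a : ℝ) ≤ (n : ℝ) ^ 2 * Real.exp 1 := by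
      have h2 : (2 : ℝ) ≤ Real.exp 1 := by
        have := Real.add_one_le_exp 1
        linarith
      nlinarith
    have h3 : Real.log a ≤ Real.log ((n : ℝ) ^ 2 * Real.exp 1) := Real.log_le_log hapos h1
    rw [Real.log_mul (by positivity) (Real.exp_pos _).ne', Real.log_exp, Real.log_pow] at h3
    push_cast at h3
    linarith
  have hlogapos : 0 < Real.log a := by linarith
  -- the length
  have hlen : Real.sqrt a / Real.log a ^ (1 / 100 : ℝ) ≤ n / L ^ (1 / 100 : ℝ) := by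
    have h1 : (1 + 1 / 300) * L ^ (1 / 100 : ℝ) ≤ Real.log a ^ (1 / 100 : ℝ) := by
      calc (1 + 1 / 300) * L ^ (1 / 100 : ℝ) ≤ (3 / 2 : ℝ) ^ (1 / 100 : ℝ) * L ^ (1 / 100 : ℝ) := by
            gcongr
            exact num2
        _ = (3 / 2 * L) ^ (1 / 100 : ℝ) := (Real.mul_rpow (by norm_num) hLpos.le).symm
        _ ≤ _ := Real.rpow_le_rpow (by positivity) hloglow (by norm_num)
    have h2 : 0 < L ^ (1 / 100 : ℝ) := by positivity
    have h3 : 0 < Real.log a ^ (1 / 100 : ℝ) := by positivity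
    rw [div_le_div_iff₀ h3 h2]
    calc Real.sqrt a * L ^ (1 / 100 : ℝ) ≤ (n + 1 / 2) * L ^ (1 / 100 : ℝ) := by gcongr
      _ ≤ (n * (1 + 1 / 300)) * L ^ (1 / 100 : ℝ) := by
        gcongr
        linarith
      _ = n * ((1 + 1 / 300) * L ^ (1 / 100 : ℝ)) := by ring
      _ ≤ _ := by gcongr
  -- the number
  have hnum : (n : ℝ) * Real.exp (-(2 * L ^ (99 / 100 : ℝ))) ≤ Real.sqrt a * Real.exp (-(Real.log a ^ (99 / 100 : ℝ))) := by
    have h1 : Real.log a ^ (99 / 100 : ℝ) ≤ 199 / 100 * L ^ (99 / 100 : ℝ) := by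
      calc Real.log a ^ (99 / 100 : ℝ) ≤ (2001 / 1000 * L) ^ (99 / 100 : ℝ) :=
            Real.rpow_le_rpow hlogapos.le hlogup (by norm_num)
        _ = (2001 / 1000 : ℝ) ^ (99 / 100 : ℝ) * L ^ (99 / 100 : ℝ) := Real.mul_rpow (by norm_num) hLpos.le
        _ ≤ _ := by
          gcongr
          exact num1
    have h2 : 100 ≤ L ^ (99 / 100 : ℝ) := by
      have h4 : (100 : ℝ) = (10000 : ℝ) ^ (1 / 2 : ℝ) := by
        rw [← Real.sqrt_eq_rpow]
        rw [show (10000 : ℝ) = 100 ^ 2 by norm_num, Real.sqrt_sq (by norm_num)]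
      calc (100 : ℝ) = (10000 : ℝ) ^ (1 / 2 : ℝ) := h4
        _ ≤ L ^ (1 / 2 : ℝ) := Real.rpow_le_rpow (by norm_num) hlog (by norm_num)
        _ ≤ _ := Real.rpow_le_rpow_of_exponent_le (by linarith) (by norm_num)
    have h3 : Real.exp (-(2 * L ^ (99 / 100 : ℝ))) ≤ 1 / 2 * Real.exp (-(Real.log a ^ (99 / 100 : ℝ))) := by
      have h5 : -(2 * L ^ (99 / 100 : ℝ)) ≤ -1 + -(Real.log a ^ (99 / 100 : ℝ)) := by linarith
      have h6 : Real.exp (-1 : ℝ) ≤ 1 / 2 := by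
        have := Real.add_one_le_exp (1 : ℝ)
        rw [Real.exp_neg, one_div]
        exact inv_anti₀ (by norm_num) (by linarith)
      calc Real.exp (-(2 * L ^ (99 / 100 : ℝ))) ≤ Real.exp (-1 + -(Real.log a ^ (99 / 100 : ℝ))) := Real.exp_le_exp.mpr h5
        _ = Real.exp (-1) * Real.exp (-(Real.log a ^ (99 / 100 : ℝ))) := Real.exp_add _ _
        _ ≤ _ := by gcongr
    calc (n : ℝ) * Real.exp (-(2 * L ^ (99 / 100 : ℝ))) ≤ n * (1 / 2 * Real.exp (-(Real.log a ^ (99 / 100 : ℝ)))) := by gcongr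
      _ = (n / 2) * Real.exp (-(Real.log a ^ (99 / 100 : ℝ))) := by ring
      _ ≤ _ := by gcongr
  have hsub : Icc ⌈(a : ℝ)⌉₊ ⌊(a : ℝ) + Real.sqrt a / Real.log a ^ (1 / 100 : ℝ)⌋₊ ⊆ Icc a b := by
    rw [Nat.ceil_natCast]
    refine Icc_subset_Icc le_rfl ?_
    refine Nat.floor_le_of_le ?_
    linarith
  have hgen : ∀ s : ℤ, s = 1 ∨ s = -1 → (n : ℝ) * Real.exp (-(2 * L ^ (99 / 100 : ℝ))) ≤
      (((Icc a b).filter fun m => ArithmeticFunction.liouville m = s).card : ℝ) := by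
    intro s hs
    refine le_trans hnum (le_trans (hx0 a hax0 s hs) ?_)
    exact_mod_cast card_le_card (filter_subset_filter _ hsub)
  have ha0 : a ≠ 0 := by
    rintro rfl
    simp at hapos
  constructor
  · have e : (Icc a b).filter (fun m => Even (ArithmeticFunction.cardFactors m)) =
        (Icc a b).filter (fun m => ArithmeticFunction.liouville m = 1) := by
      refine filter_congr fun m hm => ?_
      rw [mem_Icc] at hm
      exact (liouville_one (by omega)).symm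
    rw [e]
    exact hgen 1 (Or.inl rfl)
  · have e : (Icc a b).filter (fun m => Odd (ArithmeticFunction.cardFactors m)) =
        (Icc a b).filter (fun m => ArithmeticFunction.liouville m = -1) := by
      refine filter_congr fun m hm => ?_
      rw [mem_Icc] at hm
      exact (liouville_neg_one (by omega)).symm
    rw [e]
    exact hgen (-1) (Or.inr rfl)

end Pool.Agent.Work.MP_a8fbd7_nt.PAR.EF
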