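import Pool.Agent.Work.MP_a8fbd7_nt.PAR.EF.StmtsQ

set_option autoImplicit false

/-! Item Ct1C of the block EF: pairs with `d ∣ z`, composite `q`. -/

open Finset

namespace Pool.Agent.Work.MP_a8fbd7_nt.PAR.EF.I_Ct1C

open Pool.Agent.Work.MP_a8fbd7_nt.PAR.LC Pool.Agent.Work.MP_a8fbd7_nt.PAR.EF

theorem fib (hCap : StCap) {W : ℕ} {w0 ω e0 e1 : ℝ} {q t d : ℕ} (hw : Wn w0 ω e0 e1)
    (hq : 1 ≤ q) (ht : 1 ≤ t) (hd : 1 ≤ d) (hc : d.Coprime q) (hdt : (d : ℝ) ≤ (e1 - e0) * t)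
    (ρ : ℕ) (S : Finset (ℕ × ℕ))
    (hS : ∀ s ∈ S, s ∈ Zs W w0 ω e0 e1 q t ∧ d ∣ s.1 ∧ s.2 = ρ) :
    (S.card : ℝ) ≤ 2 * (e1 - e0) * t / d := by
  have hη : 0 < e1 - e0 := sub_pos.2 hw.he01
  have q0 : (0 : ℝ) < q := by exact_mod_cast hq
  have t0 : (0 : ℝ) < t := by exact_mod_cast ht
  have d0 : (0 : ℝ) < d := by exact_mod_cast hd
  obtain ⟨k, hk1, hk2⟩ := Nat.chineseRemainder hc 0 (t * ρ)
  have he0 := hw.he0
  have h1 := (hCap (d * q) k (e0 * q * t) (e1 * q * t) (q * t)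
    (Nat.mul_pos hd hq) (by positivity)
    (mul_le_mul_of_nonneg_right (mul_le_mul_of_nonneg_right hw.he01.le q0.le) t0.le)
    (by
      push_cast
      have := hw.he1
      have h2 : e1 * q * t = e1 * (q * t) := by ring
      rw [h2]
      nlinarith [mul_pos q0 t0])).1
  have h2 : S.card ≤ ((range (q * t + 1)).filter (fun n : ℕ => e0 * q * t ≤ (n : ℝ) ∧
      (n : ℝ) ≤ e1 * q * t ∧ n ≡ k [MOD d * q])).card := by
    refine card_le_card_of_injOn (fun s => s.1) ?_ ?_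
    · intro s hs
      obtain ⟨h3, h4, h5⟩ := hS s hs
      obtain ⟨h6, h7⟩ := mem_filter.1 h3
      obtain ⟨a1, a2, _, _, _, _, a7⟩ := h7
      refine mem_coe.2 (mem_filter.2 ⟨(mem_product.1 h6).1, a1, a2, ?_⟩)
      refine (Nat.modEq_and_modEq_iff_modEq_mul hc).1 ⟨?_, ?_⟩
      · exact ((Nat.modEq_zero_iff_dvd).2 h4).trans hk1.symm
      · rw [h5] at a7
        exact a7.symm.trans hk2.symm
    · intro s hs s' hs' he
      have b1 := (hS s (mem_coe.1 hs)).2.2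
      have b2 := (hS s' (mem_coe.1 hs')).2.2
      exact Prod.ext he (b1.trans b2.symm)
  have h3 : (S.card : ℝ) ≤ (e1 * q * t - e0 * q * t) / ((d * q : ℕ) : ℝ) + 1 :=
    le_trans (by exact_mod_cast h2) h1
  have h4 : (e1 * q * t - e0 * q * t) / ((d * q : ℕ) : ℝ) = (e1 - e0) * t / d := by
    push_cast
    field_simp
  have h5 : (1 : ℝ) ≤ (e1 - e0) * t / d := by
    rw [le_div_iff₀ d0, one_mul]
    exact hdt
  rw [h4] at h3
  have h6 : 2 * (e1 - e0) * t / d = (e1 - e0) * t / d + (e1 - e0) * t / d := by ring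
  rw [h6]
  linarith

theorem main (hCap : StCap) {W : ℕ} {w0 ω e0 e1 : ℝ} {q t d : ℕ} (hw : Wn w0 ω e0 e1)
    (hq : 1 ≤ q) (ht : 1 ≤ t) (hd : 1 ≤ d) (hc : d.Coprime q) (hdt : (d : ℝ) ≤ (e1 - e0) * t)
    (m v : ℕ) (hm : 1 ≤ m) (S : Finset (ℕ × ℕ))
    (hS : ∀ s ∈ S, s ∈ Zs W w0 ω e0 e1 q t ∧ d ∣ s.1 ∧ s.2 ≡ v [MOD m]) :
    (S.card : ℝ) ≤ (ω * q / m + 1) * (2 * (e1 - e0) * t / d) := by
  classical
  have hη : 0 < e1 - e0 := sub_pos.2 hw.he01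
  have q0 : (0 : ℝ) < q := by exact_mod_cast hq
  have t0 : (0 : ℝ) < t := by exact_mod_cast ht
  have d0 : (0 : ℝ) < d := by exact_mod_cast hd
  have hB : (0 : ℝ) ≤ 2 * (e1 - e0) * t / d := by positivity
  have h1 := card_le_mul_card_image (f := fun s : ℕ × ℕ => s.2) S ⌊2 * (e1 - e0) * t / d⌋₊ (by
    intro ρ _
    refine Nat.le_floor ?_
    refine fib hCap (W := W) hw hq ht hd hc hdt ρ _ ?_
    intro s hs
    obtain ⟨a, b⟩ := mem_filter.1 hs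
    exact ⟨(hS s a).1, (hS s a).2.1, b⟩)
  have hw0 := hw.hw0
  have hw2 := hw.hw2
  have ho0 := hw.ho0
  have ho1 := hw.ho1
  have h2 := (hCap m v (w0 * q) ((w0 + ω) * q) (3 * q) hm (by positivity)
    (mul_le_mul_of_nonneg_right (by linarith) q0.le)
    (by
      push_cast
      exact mul_le_mul_of_nonneg_right (by linarith) q0.le)).1
  have h3 : (S.image (fun s : ℕ × ℕ => s.2)).card ≤ ((range (3 * q + 1)).filter (fun n : ℕ =>
      w0 * q ≤ (n : ℝ) ∧ (n : ℝ) ≤ (w0 + ω) * q ∧ n ≡ v [MOD m])).card := by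
    refine card_le_card ?_
    intro ρ hρ
    obtain ⟨s, hs, rfl⟩ := mem_image.1 hρ
    obtain ⟨b1, _, b3⟩ := hS s hs
    obtain ⟨h6, h7⟩ := mem_filter.1 b1
    obtain ⟨_, _, _, _, a5, a6, _⟩ := h7
    exact mem_filter.2 ⟨(mem_product.1 h6).2, a5, a6, b3⟩
  have h4 : ((S.image (fun s : ℕ × ℕ => s.2)).card : ℝ) ≤ ω * q / m + 1 := by
    refine le_trans (le_trans (by exact_mod_cast h3) h2) (le_of_eq ?_)
    congr 2
    ring
  calc (S.card : ℝ) ≤ ((⌊2 * (e1 - e0) * t / d⌋₊ * (S.image (fun s : ℕ × ℕ => s.2)).card : ℕ) : ℝ) := by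
        exact_mod_cast h1
    _ = (⌊2 * (e1 - e0) * t / d⌋₊ : ℝ) * (S.image (fun s : ℕ × ℕ => s.2)).card := by push_cast; ring
    _ ≤ (2 * (e1 - e0) * t / d) * (ω * q / m + 1) :=
        mul_le_mul (Nat.floor_le hB) h4 (Nat.cast_nonneg _) hB
    _ = _ := by ring

theorem prf (hCap : StCap) : StCt1C := by
  classical
  intro W w0 ω e0 e1 q t d hw hq ht hoq hd hc hdt
  have hη : 0 < e1 - e0 := sub_pos.2 hw.he01
  have q0 : (0 : ℝ) < q := by exact_mod_cast hq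
  have t0 : (0 : ℝ) < t := by exact_mod_cast ht
  have d0 : (0 : ℝ) < d := by exact_mod_cast hd
  have ho0 := hw.ho0
  refine ⟨?_, ?_, ?_⟩
  · have h1 := main hCap (W := W) hw hq ht hd hc hdt 1 0 le_rfl
      ((Zs W w0 ω e0 e1 q t).filter (fun s => d ∣ s.1)) (by
      intro s hs
      obtain ⟨a, b⟩ := mem_filter.1 hs
      exact ⟨a, b, Nat.modEq_one⟩)
    refine h1.trans ?_
    have h2 : (1 : ℝ) ≤ ω * q := by
      rw [div_le_iff₀ ho0] at hoq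
      linarith
    have h3 : ω * q / ((1 : ℕ) : ℝ) + 1 ≤ 2 * (ω * q) := by
      rw [Nat.cast_one, div_one]
      linarith
    refine (mul_le_mul_of_nonneg_right h3 (by positivity)).trans (le_of_eq ?_)
    ring
  · intro v
    exact main hCap (W := W) hw hq ht hd hc hdt d v hd
      ((Zs W w0 ω e0 e1 q t).filter (fun s => d ∣ s.1 ∧ s.2 ≡ v [MOD d])) (by
      intro s hs
      obtain ⟨a, b, c⟩ := mem_filter.1 hs
      exact ⟨a, b, c⟩)
  · intro ρ0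
    exact fib hCap (W := W) hw hq ht hd hc hdt ρ0
      ((Zs W w0 ω e0 e1 q t).filter (fun s => d ∣ s.1 ∧ s.2 = ρ0)) (by
      intro s hs
      obtain ⟨a, b, c⟩ := mem_filter.1 hs
      exact ⟨a, b, c⟩)

end Pool.Agent.Work.MP_a8fbd7_nt.PAR.EF.I_Ct1C
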