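import Pool.Agent.Work.MP_a8fbd7_nt.PAR.EF.StmtsQ

set_option autoImplicit false

/-! MP_a8fbd7_nt, block EF: item ElC (lower bound for the single sum, composite `q`), helper6, after
`LC/I_Elo.lean` of helper54. -/

open Finset

noncomputable section

namespace Pool.Agent.Work.MP_a8fbd7_nt.PAR.EF.I_ElC

open Pool.Agent.Work.MP_a8fbd7_nt.PAR.LC

/-- many `z` for a given class modulo `q` -/
theorem cardZ (hCap : StCap) {W q t c : ℕ} {e0 e1 : ℝ} (he0 : 0 < e0) (he01 : e0 < e1)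
    (he1 : e1 ≤ 1) (hq : 0 < q) (hcop : q.Coprime (primorial W))
    (h6 : 6 * (primorial W : ℝ) / (e1 - e0) ≤ t) :
    (Nat.totient (primorial W) : ℝ) * ((e1 - e0) * t / (2 * (primorial W : ℝ))) ≤
      (((range (q * t + 1)).filter (fun z : ℕ => e0 * q * t ≤ (z : ℝ) ∧ (z : ℝ) ≤ e1 * q * t ∧
        z ≡ c [MOD q] ∧ z.Coprime (primorial W))).card : ℝ) := by
  set P := primorial W with hP
  have hPpos : 0 < P := primorial_pos W
  have hP0 : (0 : ℝ) < P := by exact_mod_cast hPpos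
  have hq0 : (0 : ℝ) < q := by exact_mod_cast hq
  have ht0 : (0 : ℝ) ≤ t := Nat.cast_nonneg t
  have hη : 0 < e1 - e0 := by linarith
  set U : Finset ℕ := (range P).filter (fun u => P.Coprime u) with hU
  have hUc : U.card = Nat.totient P := by
    rw [Nat.totient_eq_card_coprime]
  set Zu : ℕ → Finset ℕ := fun u => (range (q * t + 1)).filter (fun z : ℕ => e0 * q * t ≤ (z : ℝ) ∧
    (z : ℝ) ≤ e1 * q * t ∧ z ≡ (Nat.chineseRemainder hcop c u : ℕ) [MOD (q * P)]) with hZu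
  have h1 : ∀ u, (e1 - e0) * t / (2 * P) ≤ ((Zu u).card : ℝ) := by
    intro u
    have hx : 0 ≤ e0 * q * t := by positivity
    have hxy : e0 * q * t ≤ e1 * q * t := by
      have : 0 ≤ (q : ℝ) * t := by positivity
      nlinarith
    have hyN : e1 * q * t ≤ ((q * t : ℕ) : ℝ) := by
      push_cast
      have : 0 ≤ (q : ℝ) * t := by positivity
      nlinarith
    have h2 := (hCap (q * P) (Nat.chineseRemainder hcop c u : ℕ) (e0 * q * t) (e1 * q * t) (q * t)
      (Nat.mul_pos hq hPpos) hx hxy hyN).2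
    have e1' : (e1 * q * t - e0 * q * t) / ((q * P : ℕ) : ℝ) = (e1 - e0) * t / P := by
      push_cast
      field_simp
    rw [e1'] at h2
    have h3 : 6 ≤ (e1 - e0) * t / P := by
      rw [div_le_iff₀ hη] at h6
      rw [le_div_iff₀ hP0]
      linarith
    have h4 : (e1 - e0) * t / (2 * P) = (e1 - e0) * t / P / 2 := by
      field_simp
    rw [h4]
    refine le_trans ?_ h2
    linarith
  have h2 : (U.sigma Zu).card ≤ ((range (q * t + 1)).filter (fun z : ℕ => e0 * q * t ≤ (z : ℝ) ∧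
      (z : ℝ) ≤ e1 * q * t ∧ z ≡ c [MOD q] ∧ z.Coprime P)).card := by
    apply Finset.card_le_card_of_injOn (fun x => x.2)
    · intro x hx
      have hx' := mem_sigma.1 (mem_coe.1 hx)
      obtain ⟨hu, hz⟩ := hx'
      rw [hZu] at hz
      simp only [mem_filter] at hz
      rw [hU, mem_filter] at hu
      have hcr := (Nat.chineseRemainder hcop c x.1).2
      have m1 : x.2 ≡ c [MOD q] := (Nat.ModEq.of_mul_right P hz.2.2.2).trans hcr.1
      have m2 : x.2 ≡ x.1 [MOD P] := (Nat.ModEq.of_mul_left q hz.2.2.2).trans hcr.2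
      apply mem_coe.2
      simp only [mem_filter]
      refine ⟨hz.1, hz.2.1, hz.2.2.1, m1, ?_⟩
      have h3 := m2.gcd_eq
      have h4 : Nat.gcd x.1 P = 1 := (Nat.coprime_comm.1 hu.2)
      exact h3.trans h4
    · intro x hx y hy hxy
      have hx' := mem_sigma.1 (mem_coe.1 hx)
      have hy' := mem_sigma.1 (mem_coe.1 hy)
      obtain ⟨hu, hz⟩ := hx'
      obtain ⟨hu', hz'⟩ := hy'
      rw [hZu] at hz hz'
      simp only [mem_filter] at hz hz'
      rw [hU, mem_filter, mem_range] at hu hu'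
      have m2 : x.2 ≡ x.1 [MOD P] :=
        (Nat.ModEq.of_mul_left q hz.2.2.2).trans (Nat.chineseRemainder hcop c x.1).2.2
      have m2' : y.2 ≡ y.1 [MOD P] :=
        (Nat.ModEq.of_mul_left q hz'.2.2.2).trans (Nat.chineseRemainder hcop c y.1).2.2
      have hxy' : x.2 = y.2 := hxy
      have h3 : x.1 ≡ y.1 [MOD P] := m2.symm.trans (hxy' ▸ m2')
      have h4 : x.1 = y.1 := Nat.ModEq.eq_of_lt_of_lt h3 hu.1 hu'.1
      obtain ⟨x1, x2⟩ := x
      obtain ⟨y1, y2⟩ := y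
      simp only at h4 hxy'
      subst h4
      subst hxy'
      rfl
  rw [card_sigma] at h2
  have h3 : (U.card : ℝ) * ((e1 - e0) * t / (2 * P)) ≤ ((∑ u ∈ U, (Zu u).card : ℕ) : ℝ) := by
    push_cast
    rw [← nsmul_eq_mul]
    exact card_nsmul_le_sum _ _ _ fun u _ => h1 u
  rw [← hUc]
  exact h3.trans (by exact_mod_cast h2)

theorem prf (hCap : StCap) (hRh : StRhC) : StElC := by
  intro W w0 ω e0 e1 q t K0 m hW hq1 hK0 hm ht hqt hWK h6 h6'
  obtain ⟨hw0, hw2, ho0, ho1, he0, he01, he1⟩ := hW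
  have hqpos : 0 < q := by omega
  set P := primorial W with hP
  have hPpos : 0 < P := primorial_pos W
  have hP0 : (0 : ℝ) < P := by exact_mod_cast hPpos
  have hq0 : (0 : ℝ) < q := by exact_mod_cast hqpos
  have ht0 : (0 : ℝ) < t := by exact_mod_cast ht.pos
  have hη : 0 < e1 - e0 := by linarith
  have he1p : 0 < e1 := by linarith
  have hcop : q.Coprime P := by
    rw [Nat.coprime_iff_gcd_eq_one]
    by_contra hne
    obtain ⟨p, hp, hpd⟩ := Nat.exists_prime_and_dvd hne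
    have hpq : p ∣ q := hpd.trans (Nat.gcd_dvd_left _ _)
    have hpP : p ∣ P := hpd.trans (Nat.gcd_dvd_right _ _)
    have h1 := hK0 p ((Nat.mem_primeFactors).2 ⟨hp, hpq, by omega⟩)
    rw [hP, primorial] at hpP
    obtain ⟨p', hp', hdp⟩ := (Prime.dvd_finsetProd_iff (Nat.prime_iff.1 hp) _).1 hpP
    rw [mem_filter, mem_range] at hp'
    have := (Nat.prime_dvd_prime_iff_eq hp hp'.2).1 hdp
    omega
  have hqt' : t.Coprime q := by
    rw [ht.coprime_iff_not_dvd]
    intro hd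
    have := Nat.le_of_dvd hqpos hd
    omega
  have hR := hRh w0 ω q K0 m hw0 hw2 ho0 ho1 hq1 hK0 hm h6
  set R : Finset ℕ := (range (3 * q + 1)).filter (fun ρ : ℕ => w0 * q ≤ (ρ : ℝ) ∧
      (ρ : ℝ) ≤ (w0 + ω) * q ∧ ρ.Coprime q) with hRdef
  set Z : ℕ → Finset ℕ := fun ρ => (range (q * t + 1)).filter (fun z : ℕ => e0 * q * t ≤ (z : ℝ) ∧
    (z : ℝ) ≤ e1 * q * t ∧ z ≡ t * ρ [MOD q] ∧ z.Coprime P) with hZ
  have hZc : ∀ ρ, (Nat.totient P : ℝ) * ((e1 - e0) * t / (2 * (P : ℝ))) ≤ ((Z ρ).card : ℝ) :=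
    fun ρ => cardZ hCap he0 he01 he1 hqpos hcop h6'
  have h1 : (R.sigma Z).card ≤ (Zs W w0 ω e0 e1 q t).card := by
    apply Finset.card_le_card_of_injOn (fun x => (x.2, x.1))
    · intro x hx
      obtain ⟨hr, hz⟩ := mem_sigma.1 (mem_coe.1 hx)
      rw [hRdef, mem_filter] at hr
      rw [hZ] at hz
      simp only [mem_filter] at hz
      apply mem_coe.2
      unfold Zs
      simp only [mem_filter, mem_product]
      refine ⟨⟨hz.1, hr.1⟩, hz.2.1, hz.2.2.1, hz.2.2.2.2, ?_, hr.2.1, hr.2.2.1, hz.2.2.2.1.symm⟩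
      have h2 : (t * x.1).Coprime q := Nat.Coprime.mul_left hqt' hr.2.2.2
      exact (hz.2.2.2.1.gcd_eq).trans h2
    · intro x _ y _ hxy
      obtain ⟨x1, x2⟩ := x
      obtain ⟨y1, y2⟩ := y
      simp only [Prod.mk.injEq] at hxy
      obtain ⟨h2, h3⟩ := hxy
      subst h2
      subst h3
      rfl
  rw [card_sigma] at h1
  have h2 : (ω * q / 2) * ((Nat.totient P : ℝ) * ((e1 - e0) * t / (2 * (P : ℝ)))) ≤
      ((Zs W w0 ω e0 e1 q t).card : ℝ) := by
    have h3 : (R.card : ℝ) * ((Nat.totient P : ℝ) * ((e1 - e0) * t / (2 * (P : ℝ)))) ≤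
        ((∑ ρ ∈ R, (Z ρ).card : ℕ) : ℝ) := by
      push_cast
      rw [← nsmul_eq_mul]
      exact card_nsmul_le_sum _ _ _ fun ρ _ => hZc ρ
    have h4 : 0 ≤ (Nat.totient P : ℝ) * ((e1 - e0) * t / (2 * (P : ℝ))) := by positivity
    calc (ω * q / 2) * ((Nat.totient P : ℝ) * ((e1 - e0) * t / (2 * (P : ℝ))))
        ≤ (R.card : ℝ) * ((Nat.totient P : ℝ) * ((e1 - e0) * t / (2 * (P : ℝ)))) :=
          mul_le_mul_of_nonneg_right hR h4
      _ ≤ _ := h3.trans (by exact_mod_cast h1)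
  have h3 : ((Zs W w0 ω e0 e1 q t).card : ℝ) * (1 / (e1 * q * t)) ≤ Es W w0 ω e0 e1 q t := by
    unfold Es
    rw [← nsmul_eq_mul]
    refine card_nsmul_le_sum _ _ _ fun s hs => ?_
    unfold Zs at hs
    rw [mem_filter] at hs
    have h4 : 0 < (s.1 : ℝ) := lt_of_lt_of_le (by positivity) hs.2.1
    exact one_div_le_one_div_of_le h4 hs.2.2.1
  have h4 : 0 ≤ 1 / (e1 * q * t) := by positivity
  calc ω * (e1 - e0) * (Nat.totient P : ℝ) / (4 * e1 * (P : ℝ))
      = (ω * q / 2) * ((Nat.totient P : ℝ) * ((e1 - e0) * t / (2 * (P : ℝ)))) *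
          (1 / (e1 * q * t)) := by
        field_simp
        ring
    _ ≤ ((Zs W w0 ω e0 e1 q t).card : ℝ) * (1 / (e1 * q * t)) :=
        mul_le_mul_of_nonneg_right h2 h4
    _ ≤ _ := h3

end Pool.Agent.Work.MP_a8fbd7_nt.PAR.EF.I_ElC
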