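import Pool.Agent.Work.MP_a8fbd7_nt.PAR.EF.StmtsQ

set_option autoImplicit false

/-!
MP_a8fbd7_nt, block EF, item FqG: correlations for `q = q'`, composite `q` (copy of `LC/I_Feq.lean`
of helper87 by helper24).
-/

open Finset

noncomputable section

namespace Pool.Agent.Work.MP_a8fbd7_nt.PAR.EF.I_FqG

open Pool.Agent.Work.MP_a8fbd7_nt.PAR.LC

/-- the pointwise bound -/
lemma ptw (h1 : StRgh) (W : ℕ) (w0 ω e0 e1 : ℝ) (q t t' : ℕ) (hW : Wn w0 ω e0 e1) (hq : 1 ≤ q)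
    (ht : 1 ≤ t) (ht' : 1 ≤ t') (s s' : ℕ × ℕ) (hs : s ∈ Zs W w0 ω e0 e1 q t)
    (hs' : s' ∈ Zs W w0 ω e0 e1 q t') :
    cor q q s s' ≤ 1 / (s.1 : ℝ) * (1 / (s'.1 : ℝ)) +
      ∑ d ∈ Ioc W ⌊ω * q⌋₊, (if d ∣ s.1 ∧ (d ∣ s'.1 ∧ s'.2 ≡ s.2 [MOD d]) then
        (d : ℝ) / (e0 ^ 2 * q ^ 2 * t * t') else 0) +
      (if s'.2 = s.2 then (Nat.gcd s.1 s'.1 : ℝ) / ((s.1 : ℝ) * s'.1) else 0) := by
  obtain ⟨z, ρ⟩ := s
  obtain ⟨z', ρ'⟩ := s'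
  simp only [Zs, mem_filter, mem_product] at hs hs'
  obtain ⟨-, hz0, -, hzW, hzq, hρ0, hρ1, -⟩ := hs
  obtain ⟨-, hz0', -, -, -, hρ0', hρ1', -⟩ := hs'
  have he0 := hW.he0
  have hqr : (0 : ℝ) < q := by exact_mod_cast hq
  have htr : (0 : ℝ) < t := by exact_mod_cast ht
  have htr' : (0 : ℝ) < t' := by exact_mod_cast ht'
  have hz : (0 : ℝ) < z := lt_of_lt_of_le (by positivity) hz0
  have hz' : (0 : ℝ) < z' := lt_of_lt_of_le (by positivity) hz0'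
  have hzn : 0 < z := by exact_mod_cast hz
  have hden : (0 : ℝ) < e0 ^ 2 * q ^ 2 * t * t' := by positivity
  have hA : 0 ≤ 1 / (z : ℝ) * (1 / (z' : ℝ)) := by positivity
  have hB : 0 ≤ ∑ d ∈ Ioc W ⌊ω * q⌋₊, (if d ∣ z ∧ (d ∣ z' ∧ ρ' ≡ ρ [MOD d]) then
        (d : ℝ) / (e0 ^ 2 * q ^ 2 * t * t') else 0) := by
    apply Finset.sum_nonneg
    intro d _
    split_ifs
    · positivity
    · exact le_rfl
  have hC : (0 : ℝ) ≤ (if ρ' = ρ then (Nat.gcd z z' : ℝ) / ((z : ℝ) * z') else 0) := by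
    split_ifs
    · positivity
    · exact le_rfl
  show cor q q (z, ρ) (z', ρ') ≤ 1 / (z : ℝ) * (1 / (z' : ℝ)) +
      ∑ d ∈ Ioc W ⌊ω * q⌋₊, (if d ∣ z ∧ (d ∣ z' ∧ ρ' ≡ ρ [MOD d]) then
        (d : ℝ) / (e0 ^ 2 * q ^ 2 * t * t') else 0) +
      (if ρ' = ρ then (Nat.gcd z z' : ℝ) / ((z : ℝ) * z') else 0)
  unfold cor
  simp only
  split_ifs with hc hr hr
  · linarith
  · -- condition holds, ρ' ≠ ρ
    set d := Nat.gcd z z' with hd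
    have hdpos : 0 < d := Nat.gcd_pos_of_pos_left _ hzn
    rcases Nat.lt_or_ge 1 d with h2 | h2
    · have hdW : W < d := h1 W z d hzW (Nat.gcd_dvd_left z z') h2
      have hdq : d.Coprime q := Nat.Coprime.coprime_dvd_left (Nat.gcd_dvd_left z z') hzq
      have hdvd : (d : ℤ) ∣ (ρ : ℤ) - ρ' := by
        have h3 : (d : ℤ) ∣ (q : ℤ) * ((ρ : ℤ) - ρ') := by
          have : (q : ℤ) * ((ρ : ℤ) - ρ') = q * ρ - q * ρ' := by ring
          rw [this]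
          exact hc
        exact (Nat.isCoprime_iff_coprime.mpr hdq).dvd_of_dvd_mul_left h3
      have hmod : ρ' ≡ ρ [MOD d] := by
        rw [Nat.modEq_iff_dvd]
        exact hdvd
      have hle : d ≤ ⌊ω * q⌋₊ := by
        apply Nat.le_floor
        have h4 : (d : ℤ) ≤ |(ρ : ℤ) - ρ'| := by
          apply Int.le_of_dvd
          · rw [abs_pos]
            intro h
            exact hr (by omega)
          · exact (dvd_abs _ _).mpr hdvd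
        have h5 : (d : ℝ) ≤ |(ρ : ℝ) - ρ'| := by exact_mod_cast h4
        have h6 : |(ρ : ℝ) - ρ'| ≤ ω * q := by
          rw [abs_le]
          constructor <;> nlinarith
        exact h5.trans h6
      have h7 : (d : ℝ) / ((z : ℝ) * z') ≤ ∑ d ∈ Ioc W ⌊ω * q⌋₊,
          (if d ∣ z ∧ (d ∣ z' ∧ ρ' ≡ ρ [MOD d]) then
            (d : ℝ) / (e0 ^ 2 * q ^ 2 * t * t') else 0) := by
        have h8 : (d : ℝ) / ((z : ℝ) * z') ≤ (if d ∣ z ∧ (d ∣ z' ∧ ρ' ≡ ρ [MOD d]) then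
            (d : ℝ) / (e0 ^ 2 * q ^ 2 * t * t') else 0) := by
          rw [if_pos ⟨Nat.gcd_dvd_left z z', Nat.gcd_dvd_right z z', hmod⟩]
          apply div_le_div_of_nonneg_left (by positivity) hden
          have h9 : (e0 * q * t) * (e0 * q * t') ≤ (z : ℝ) * z' :=
            mul_le_mul hz0 hz0' (by positivity) hz.le
          nlinarith
        refine h8.trans ?_
        exact Finset.single_le_sum (f := fun d : ℕ => if d ∣ z ∧ (d ∣ z' ∧ ρ' ≡ ρ [MOD d]) then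
            (d : ℝ) / (e0 ^ 2 * q ^ 2 * t * t') else 0) (fun i _ => by
              split_ifs
              · positivity
              · exact le_rfl) (Finset.mem_Ioc.mpr ⟨hdW, hle⟩)
      linarith
    · have h3 : d = 1 := by omega
      have h4 : ((d : ℕ) : ℝ) / ((z : ℝ) * z') = 1 / (z : ℝ) * (1 / (z' : ℝ)) := by
        rw [h3]
        push_cast
        field_simp
      rw [h4]
      linarith
  · rw [if_pos hr] at hC
    linarith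
  · linarith

/-- one value of `d` -/
lemma one (h2 : StCt1C) (W : ℕ) (w0 ω e0 e1 : ℝ) (q t t' d : ℕ) (hW : Wn w0 ω e0 e1)
    (hq : 1 ≤ q) (ht : 1 ≤ t) (ht' : 1 ≤ t') (hω : 1 / ω ≤ q)
    (hqt : (q : ℝ) ≤ (e1 - e0) * t) (hqt' : (q : ℝ) ≤ (e1 - e0) * t')
    (hd1 : 1 ≤ d) (hd : (d : ℝ) ≤ ω * q) :
    ∑ s ∈ Zs W w0 ω e0 e1 q t, ∑ s' ∈ Zs W w0 ω e0 e1 q t',
      (if d ∣ s.1 ∧ (d ∣ s'.1 ∧ s'.2 ≡ s.2 [MOD d]) then
        (d : ℝ) / (e0 ^ 2 * q ^ 2 * t * t') else 0) ≤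
      16 * ω ^ 2 * (e1 - e0) ^ 2 / e0 ^ 2 * ((d : ℝ) ^ 2)⁻¹ := by
  have he0 := hW.he0
  have hη : 0 < e1 - e0 := sub_pos.mpr hW.he01
  have hω0 := hW.ho0
  have hqr : (0 : ℝ) < q := by exact_mod_cast hq
  have htr : (0 : ℝ) < t := by exact_mod_cast ht
  have htr' : (0 : ℝ) < t' := by exact_mod_cast ht'
  have hdr : (0 : ℝ) < d := by exact_mod_cast hd1
  have hdq' : (d : ℝ) < q := by
    have := hW.ho1
    nlinarith
  by_cases hdq : d.Coprime q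
  swap
  · -- no `z` is divisible by `d`
    have h0 : ∑ s ∈ Zs W w0 ω e0 e1 q t, ∑ s' ∈ Zs W w0 ω e0 e1 q t',
        (if d ∣ s.1 ∧ (d ∣ s'.1 ∧ s'.2 ≡ s.2 [MOD d]) then
          (d : ℝ) / (e0 ^ 2 * q ^ 2 * t * t') else 0) = 0 := by
      apply Finset.sum_eq_zero
      intro s hs
      apply Finset.sum_eq_zero
      intro s' _
      rw [if_neg]
      rintro ⟨h3, -⟩
      apply hdq
      simp only [Zs, mem_filter, mem_product] at hs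
      obtain ⟨-, -, -, -, hzq, -⟩ := hs
      exact Nat.Coprime.coprime_dvd_left h3 hzq
    rw [h0]
    positivity
  obtain ⟨ha, -, -⟩ := h2 W w0 ω e0 e1 q t d hW hq ht hω hd1 hdq (by linarith)
  obtain ⟨-, hb, -⟩ := h2 W w0 ω e0 e1 q t' d hW hq ht' hω hd1 hdq (by linarith)
  set K : ℝ := (d : ℝ) / (e0 ^ 2 * q ^ 2 * t * t') with hK
  have hK0 : 0 ≤ K := by positivity
  set Bd : ℝ := (ω * q / d + 1) * (2 * (e1 - e0) * t' / d) with hBd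
  have hBd0 : 0 ≤ Bd := by positivity
  have h3 : ∀ s ∈ Zs W w0 ω e0 e1 q t, ∑ s' ∈ Zs W w0 ω e0 e1 q t',
      (if d ∣ s.1 ∧ (d ∣ s'.1 ∧ s'.2 ≡ s.2 [MOD d]) then K else 0) ≤
      if d ∣ s.1 then Bd * K else 0 := by
    intro s _
    by_cases hs : d ∣ s.1
    · rw [if_pos hs]
      have h4 : ∀ s' ∈ Zs W w0 ω e0 e1 q t',
          (if d ∣ s.1 ∧ (d ∣ s'.1 ∧ s'.2 ≡ s.2 [MOD d]) then K else 0) =
          if d ∣ s'.1 ∧ s'.2 ≡ s.2 [MOD d] then K else 0 := by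
        intro s' _
        simp [hs]
      rw [Finset.sum_congr rfl h4, ← Finset.sum_filter, Finset.sum_const, nsmul_eq_mul]
      exact mul_le_mul_of_nonneg_right (hb s.2) hK0
    · rw [if_neg hs]
      apply le_of_eq
      apply Finset.sum_eq_zero
      intro s' _
      rw [if_neg (fun h => hs h.1)]
  refine (Finset.sum_le_sum h3).trans ?_
  rw [← Finset.sum_filter, Finset.sum_const, nsmul_eq_mul]
  have h5 : (((Zs W w0 ω e0 e1 q t).filter (fun s => d ∣ s.1)).card : ℝ) * (Bd * K) ≤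
      4 * ω * (e1 - e0) * q * t / d * (Bd * K) :=
    mul_le_mul_of_nonneg_right ha (by positivity)
  refine h5.trans ?_
  have h6 : Bd ≤ (2 * (ω * q / d)) * (2 * (e1 - e0) * t' / d) := by
    apply mul_le_mul_of_nonneg_right _ (by positivity)
    have : 1 ≤ ω * q / d := by
      rw [le_div_iff₀ hdr]
      linarith
    linarith
  have h7 : 4 * ω * (e1 - e0) * q * t / d * (Bd * K) ≤
      4 * ω * (e1 - e0) * q * t / d * ((2 * (ω * q / d)) * (2 * (e1 - e0) * t' / d) * K) := by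
    apply mul_le_mul_of_nonneg_left _ (by positivity)
    exact mul_le_mul_of_nonneg_right h6 hK0
  refine h7.trans (le_of_eq ?_)
  rw [hK]
  field_simp
  ring

theorem prf (h1 : StRgh) (h2 : StCt1C) : StFqG := by
  intro W w0 ω e0 e1 q t t' hW hq ht ht' hW1 hω hqt hqt'
  have he0 := hW.he0
  have hη : 0 < e1 - e0 := sub_pos.mpr hW.he01
  have hω0 := hW.ho0
  have hqr : (0 : ℝ) < q := by exact_mod_cast hq
  unfold Fs
  have h3 : ∑ s ∈ Zs W w0 ω e0 e1 q t, ∑ s' ∈ Zs W w0 ω e0 e1 q t', cor q q s s' ≤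
      ∑ s ∈ Zs W w0 ω e0 e1 q t, ∑ s' ∈ Zs W w0 ω e0 e1 q t',
        (1 / (s.1 : ℝ) * (1 / (s'.1 : ℝ)) +
        ∑ d ∈ Ioc W ⌊ω * q⌋₊, (if d ∣ s.1 ∧ (d ∣ s'.1 ∧ s'.2 ≡ s.2 [MOD d]) then
          (d : ℝ) / (e0 ^ 2 * q ^ 2 * t * t') else 0) +
        (if s'.2 = s.2 then (Nat.gcd s.1 s'.1 : ℝ) / ((s.1 : ℝ) * s'.1) else 0)) :=
    Finset.sum_le_sum fun s hs => Finset.sum_le_sum fun s' hs' =>
      ptw h1 W w0 ω e0 e1 q t t' hW hq ht ht' s s' hs hs'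
  refine h3.trans ?_
  simp only [Finset.sum_add_distrib]
  have h4 : ∑ s ∈ Zs W w0 ω e0 e1 q t, ∑ s' ∈ Zs W w0 ω e0 e1 q t',
      1 / (s.1 : ℝ) * (1 / (s'.1 : ℝ)) = Es W w0 ω e0 e1 q t * Es W w0 ω e0 e1 q t' := by
    unfold Es
    rw [Finset.sum_mul_sum]
  have h5 : ∑ s ∈ Zs W w0 ω e0 e1 q t, ∑ s' ∈ Zs W w0 ω e0 e1 q t',
      (if s'.2 = s.2 then (Nat.gcd s.1 s'.1 : ℝ) / ((s.1 : ℝ) * s'.1) else 0) =
      Gs W w0 ω e0 e1 q t t' := by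
    unfold Gs
    apply Finset.sum_congr rfl
    intro s _
    rw [Finset.sum_filter]
  have h6 : ∑ s ∈ Zs W w0 ω e0 e1 q t, ∑ s' ∈ Zs W w0 ω e0 e1 q t',
      ∑ d ∈ Ioc W ⌊ω * q⌋₊, (if d ∣ s.1 ∧ (d ∣ s'.1 ∧ s'.2 ≡ s.2 [MOD d]) then
          (d : ℝ) / (e0 ^ 2 * q ^ 2 * t * t') else 0) =
      ∑ d ∈ Ioc W ⌊ω * q⌋₊, ∑ s ∈ Zs W w0 ω e0 e1 q t, ∑ s' ∈ Zs W w0 ω e0 e1 q t',
        (if d ∣ s.1 ∧ (d ∣ s'.1 ∧ s'.2 ≡ s.2 [MOD d]) then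
          (d : ℝ) / (e0 ^ 2 * q ^ 2 * t * t') else 0) := by
    exact (Finset.sum_congr rfl fun s _ => Finset.sum_comm).trans Finset.sum_comm
  have h7 : ∑ d ∈ Ioc W ⌊ω * q⌋₊, ∑ s ∈ Zs W w0 ω e0 e1 q t, ∑ s' ∈ Zs W w0 ω e0 e1 q t',
        (if d ∣ s.1 ∧ (d ∣ s'.1 ∧ s'.2 ≡ s.2 [MOD d]) then
          (d : ℝ) / (e0 ^ 2 * q ^ 2 * t * t') else 0) ≤
      16 * ω ^ 2 * (e1 - e0) ^ 2 / e0 ^ 2 / W := by
    have h8 : ∀ d ∈ Ioc W ⌊ω * q⌋₊, ∑ s ∈ Zs W w0 ω e0 e1 q t, ∑ s' ∈ Zs W w0 ω e0 e1 q t',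
        (if d ∣ s.1 ∧ (d ∣ s'.1 ∧ s'.2 ≡ s.2 [MOD d]) then
          (d : ℝ) / (e0 ^ 2 * q ^ 2 * t * t') else 0) ≤
        16 * ω ^ 2 * (e1 - e0) ^ 2 / e0 ^ 2 * ((d : ℝ) ^ 2)⁻¹ := by
      intro d hd
      rw [Finset.mem_Ioc] at hd
      have h9 : (d : ℝ) ≤ ω * q :=
        (Nat.le_floor_iff (by positivity)).mp hd.2
      exact one h2 W w0 ω e0 e1 q t t' d hW hq ht ht' hω hqt hqt' (by omega) h9
    refine (Finset.sum_le_sum h8).trans ?_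
    rw [← Finset.mul_sum, div_eq_mul_inv (16 * ω ^ 2 * (e1 - e0) ^ 2 / e0 ^ 2) (W : ℝ)]
    apply mul_le_mul_of_nonneg_left _ (by positivity)
    rcases le_or_gt W ⌊ω * q⌋₊ with hle | hgt
    · have h10 := sum_Ioc_inv_sq_le_sub (α := ℝ) (k := W) (n := ⌊ω * q⌋₊) (by omega) hle
      have h11 : (0 : ℝ) ≤ ((⌊ω * q⌋₊ : ℕ) : ℝ)⁻¹ := by positivity
      linarith
    · rw [Finset.Ioc_eq_empty (by omega), Finset.sum_empty]
      positivity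
  rw [h4, h5]
  linarith [h6.le.trans h7]

end Pool.Agent.Work.MP_a8fbd7_nt.PAR.EF.I_FqG
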