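import Pool.Agent.Work.MP_a8fbd7_nt.PAR.EF.StmtsQ

set_option autoImplicit false

/-! Item RhC of the block EF: the integers prime to `q` in a window. -/

open Finset

namespace Pool.Agent.Work.MP_a8fbd7_nt.PAR.EF.I_RhC

open Pool.Agent.Work.MP_a8fbd7_nt.PAR.LC
open Pool.Agent.Work.MP_a8fbd7_nt.PAR.EF

theorem prf (hCap : StCap) : StRhC := by
  classical
  intro w0 ω q K0 m hw0 hw2 hω hω2 hq hK hm hKm
  have q0 : (0 : ℝ) < q := by exact_mod_cast (by omega : 0 < q)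
  have m0 : (0 : ℝ) ≤ m := Nat.cast_nonneg m
  have hωK : 4 * ((m : ℝ) + 1) ≤ K0 * ω := by
    rw [div_le_iff₀ hω] at hKm
    exact hKm
  have K0pos : (0 : ℝ) < K0 := by
    by_contra hneg
    push Not at hneg
    nlinarith
  obtain ⟨p0, hp0, hp0q⟩ := Nat.exists_prime_and_dvd (show q ≠ 1 by omega)
  have hp0mem : p0 ∈ q.primeFactors := Nat.mem_primeFactors.2 ⟨hp0, hp0q, by omega⟩
  have hK0q : (K0 : ℝ) ≤ q := by
    have h1 : K0 < p0 := hK p0 hp0mem
    have h2 : p0 ≤ q := Nat.le_of_dvd (by omega) hp0q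
    exact_mod_cast (by omega : K0 ≤ q)
  have hx0 : 0 ≤ w0 * q := by positivity
  have hxy : w0 * q ≤ (w0 + ω) * q := mul_le_mul_of_nonneg_right (by linarith) q0.le
  have hyN : (w0 + ω) * q ≤ ((3 * q : ℕ) : ℝ) := by
    push_cast
    nlinarith
  have hsub : ∀ c : ℝ, ((w0 + ω) * q - w0 * q) / c = ω * q / c := by
    intro c
    congr 1
    ring
  have hall := (hCap 1 0 (w0 * q) ((w0 + ω) * q) (3 * q) le_rfl hx0 hxy hyN).2
  rw [hsub, Nat.cast_one, div_one] at hall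
  set G := (range (3 * q + 1)).filter
    (fun r : ℕ => w0 * q ≤ (r : ℝ) ∧ (r : ℝ) ≤ (w0 + ω) * q ∧ r.Coprime q) with hG
  set Bd := fun p : ℕ => (range (3 * q + 1)).filter
    (fun n : ℕ => w0 * q ≤ (n : ℝ) ∧ (n : ℝ) ≤ (w0 + ω) * q ∧ n ≡ 0 [MOD p]) with hBd
  have hcov : (range (3 * q + 1)).filter
      (fun n : ℕ => w0 * q ≤ (n : ℝ) ∧ (n : ℝ) ≤ (w0 + ω) * q ∧ n ≡ 0 [MOD 1]) ⊆
      G ∪ q.primeFactors.biUnion Bd := by
    intro n hn
    obtain ⟨h1, h2, h3, _⟩ := mem_filter.1 hn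
    rw [mem_union]
    by_cases hc : n.Coprime q
    · left
      exact mem_filter.2 ⟨h1, h2, h3, hc⟩
    · right
      obtain ⟨p, hp, hpn, hpq⟩ := Nat.Prime.not_coprime_iff_dvd.1 hc
      rw [mem_biUnion]
      exact ⟨p, Nat.mem_primeFactors.2 ⟨hp, hpq, by omega⟩,
        mem_filter.2 ⟨h1, h2, h3, (Nat.modEq_zero_iff_dvd).2 hpn⟩⟩
  have hcard := (card_le_card hcov).trans (card_union_le _ _)
  have hbad : ((q.primeFactors.biUnion Bd).card : ℝ) ≤ m * (ω * q / K0 + 1) := by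
    calc ((q.primeFactors.biUnion Bd).card : ℝ) ≤ ((∑ p ∈ q.primeFactors, (Bd p).card : ℕ) : ℝ) := by
          exact_mod_cast card_biUnion_le
      _ = ∑ p ∈ q.primeFactors, ((Bd p).card : ℝ) := by push_cast; rfl
      _ ≤ ∑ p ∈ q.primeFactors, (ω * q / K0 + 1) := by
          refine sum_le_sum fun p hp => ?_
          have hpp := (Nat.mem_primeFactors.1 hp).1
          have h1 := (hCap p 0 (w0 * q) ((w0 + ω) * q) (3 * q) hpp.pos hx0 hxy hyN).1
          rw [hsub] at h1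
          refine h1.trans ?_
          have h2 : (K0 : ℝ) ≤ p := by exact_mod_cast (hK p hp).le
          have h3 : ω * q / p ≤ ω * q / K0 :=
            div_le_div_of_nonneg_left (by positivity) K0pos h2
          linarith
      _ = q.primeFactors.card * (ω * q / K0 + 1) := by rw [sum_const, nsmul_eq_mul]
      _ ≤ m * (ω * q / K0 + 1) := by
          refine mul_le_mul_of_nonneg_right (by exact_mod_cast hm) ?_
          positivity
  have hcard' : (((range (3 * q + 1)).filter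
      (fun n : ℕ => w0 * q ≤ (n : ℝ) ∧ (n : ℝ) ≤ (w0 + ω) * q ∧ n ≡ 0 [MOD 1])).card : ℝ) ≤
      (G.card : ℝ) + ((q.primeFactors.biUnion Bd).card : ℝ) := by exact_mod_cast hcard
  have h1 : (m : ℝ) * (ω * q / K0) ≤ ω * q / 8 := by
    have h2 : (m : ℝ) / K0 ≤ 1 / 8 := by
      rw [div_le_iff₀ K0pos]
      nlinarith
    calc (m : ℝ) * (ω * q / K0) = (m / K0) * (ω * q) := by ring
      _ ≤ 1 / 8 * (ω * q) := mul_le_mul_of_nonneg_right h2 (by positivity)
      _ = ω * q / 8 := by ring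
  have h2 : (m : ℝ) + 1 ≤ ω * q / 4 := by
    have : (K0 : ℝ) * ω ≤ q * ω := mul_le_mul_of_nonneg_right hK0q hω.le
    linarith
  have h3 : (m : ℝ) * (ω * q / K0 + 1) = m * (ω * q / K0) + m := by ring
  have h4 : 0 ≤ ω * q := by positivity
  linarith

end Pool.Agent.Work.MP_a8fbd7_nt.PAR.EF.I_RhC
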