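import Pool.Agent.Work.MP_a8fbd7_nt.PAR.EF.QAsm
import Pool.Agent.Work.MP_a8fbd7_nt.PAR.EF.I_Ct1C
import Pool.Agent.Work.MP_a8fbd7_nt.PAR.EF.I_FnG
import Pool.Agent.Work.MP_a8fbd7_nt.PAR.EF.I_FqG
import Pool.Agent.Work.MP_a8fbd7_nt.PAR.EF.I_GpC
import Pool.Agent.Work.MP_a8fbd7_nt.PAR.EF.I_GdC
import Pool.Agent.Work.MP_a8fbd7_nt.PAR.EF.I_RhC
import Pool.Agent.Work.MP_a8fbd7_nt.PAR.EF.I_ElC
import Pool.Agent.Work.MP_a8fbd7_nt.PAR.LC.I_Cap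
import Pool.Agent.Work.MP_a8fbd7_nt.PAR.LC.I_Rgh
import Pool.Agent.Work.MP_a8fbd7_nt.PAR.LC.I_Har

set_option autoImplicit false

/-!
MP_a8fbd7_nt, block EF, part Q: the three interface statements, proved.
-/

noncomputable section

namespace Pool.Agent.Work.MP_a8fbd7_nt.PAR.EF

open Pool.Agent.Work.MP_a8fbd7_nt.PAR.LC

theorem Q_Ct1C : StCt1C := I_Ct1C.prf I_Cap.prf

theorem Q_Elo : StEloC := I_ElC.prf I_Cap.prf (I_RhC.prf I_Cap.prf)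

theorem Q_Fne : StFneC := Q_fne (I_FnG.prf I_Rgh.prf Q_Ct1C (I_Har.prf I_Cap.prf))

theorem Q_Feq : StFeqC := Q_feq (I_FqG.prf I_Rgh.prf Q_Ct1C)
  (I_GdC.prf (I_GpC.prf (I_Har.prf I_Cap.prf)) (I_Har.prf I_Cap.prf))

end Pool.Agent.Work.MP_a8fbd7_nt.PAR.EF
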