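import Pool.Agent.Work.MP_a8fbd7_nt.PAR.All
import Pool.Agent.Work.MP_a8fbd7_nt.PAR.EF.BridgeC
import Pool.Agent.Work.MP_a8fbd7_nt.PAR.EF.QAll
import Pool.Agent.Work.MP_a8fbd7_nt.PAR.EF.Opp
import Pool.Agent.Work.MP_a8fbd7_nt.PAR.EF.I_FK
import Pool.Agent.Work.MP_a8fbd7_nt.PAR.EF.I_GG
import Pool.Agent.Work.MP_a8fbd7_nt.PAR.EF.I_E1
import Pool.Agent.Work.MP_a8fbd7_nt.PAR.EF.I_E2
import Pool.Agent.Work.MP_a8fbd7_nt.PAR.EF.I_XS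
import Pool.Agent.Work.MP_a8fbd7_nt.PAR.EF.I_CB
import Pool.Agent.Work.MP_a8fbd7_nt.PAR.EF.I_AP
import Pool.Agent.Work.MP_a8fbd7_nt.PAR.EF.I_EQE
import Pool.Agent.Work.MP_a8fbd7_nt.PAR.EF.I_H1
import Pool.Agent.Work.MP_a8fbd7_nt.PAR.EF.I_H2
import Pool.Agent.Work.MP_a8fbd7_nt.PAR.EF.I_H3
import Pool.Agent.Work.MP_a8fbd7_nt.PAR.EF.I_Om
import Pool.Agent.Work.MP_a8fbd7_nt.PAR.EF.I_No
import Pool.Agent.Work.MP_a8fbd7_nt.PAR.EF.I_SrI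
import Pool.Agent.Work.MP_a8fbd7_nt.PAR.EF.I_SSu
import Pool.Agent.Work.MP_a8fbd7_nt.PAR.EF.I_Szz
import Pool.Agent.Work.MP_a8fbd7_nt.PAR.EF.I_Cn
import Pool.Agent.Work.MP_a8fbd7_nt.PAR.EF.I_Va
import Pool.Agent.Work.MP_a8fbd7_nt.PAR.EF.I_Bn
import Pool.Agent.Work.MP_a8fbd7_nt.PAR.EF.I_UnX
import Pool.Agent.Work.MP_a8fbd7_nt.PAR.EF.I_UmX
import Pool.Agent.Work.MP_a8fbd7_nt.PAR.EF.I_LkY
import Pool.Agent.Work.MP_a8fbd7_nt.PAR.EF.I_AtX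
import Pool.Agent.Work.MP_a8fbd7_nt.PAR.EF.I_Bd2
import Pool.Agent.Work.MP_a8fbd7_nt.PAR.EF.I_BdX
import Pool.Agent.Work.MP_a8fbd7_nt.PAR.EF.I_Tu2
import Pool.Agent.Work.MP_a8fbd7_nt.PAR.EF.I_EnX
import Pool.Agent.Work.MP_a8fbd7_nt.PAR.EF.I_Ch1
import Pool.Agent.Work.MP_a8fbd7_nt.PAR.EF.I_Mo
import Pool.Agent.Work.MP_a8fbd7_nt.PAR.EF.I_Mu
import Pool.Agent.Work.MP_a8fbd7_nt.PAR.EF.I_Ch4
import Pool.Agent.Work.MP_a8fbd7_nt.PAR.EF.I_Pa1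
import Pool.Agent.Work.MP_a8fbd7_nt.PAR.EF.I_Mes
import Pool.Agent.Work.MP_a8fbd7_nt.PAR.EF.I_Ph
import Pool.Agent.Work.MP_a8fbd7_nt.PAR.EF.I_T12
import Pool.Agent.Work.MP_a8fbd7_nt.PAR.EF.I_AmL
import Pool.Agent.Work.MP_a8fbd7_nt.PAR.EF.I_T3

/-!
MP_a8fbd7_nt, block EF: assembly of THEOREM S with many integers, without hypotheses.
-/

set_option autoImplicit false

namespace Pool.Agent.Work.MP_a8fbd7_nt.PAR.EF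

open Pool.Agent.Work.MP_a8fbd7_nt.PAR.LC

theorem e_EQE : StEQE := iEQE (iE2 (iE1 (iGG iFK))) iXS iCB iAP
theorem e_H2 : StH2 := I_H2.prf I_H1.prf
theorem e_Om : StOm := I_Om.prf e_H2 I_H3.prf
theorem e_No : StNo := I_No.prf e_H2 I_H3.prf
theorem e_Sr : StSr := I_SrI.prf
theorem e_SS : StSS := I_SSu.prf
theorem e_Sz : StSz := I_Szz.prf
theorem e_Va : StVa := I_Va.prf (I_Cn.prf e_EQE) e_Sz
theorem e_Bn : StBn := I_Bn.prf Q_Fne Q_Feq e_SS e_Sz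
theorem e_UmX : StUmX := I_UmX.prf e_Va e_Bn (I_UnX.prf Q_Elo e_Sz)
theorem e_Bd2 : StBd2 := I_Bd2.prf (I_LkY.prf a_LkD) (I_AtX.prf I_Atc.prf)
theorem e_BdX : StBdX := I_BdX.prf e_Bd2 e_UmX e_Om e_No I_Pa1.prf I_T12.prf I_T3.prf I_AmL.prf I_Mes.prf e_Sr I_Ph.prf
theorem e_Ch4 : StCh4 := I_Ch4.prf I_Ch1.prf (I_Mo.prf e_EQE) I_Mu.prf
theorem e_Tu2 : StTu2 := I_Tu2.prf I_Lan.prf I_St4.prf I_Cap.prf

/-- THEOREM S with many integers -/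
theorem thmSX : ThmSX := I_EnX.prf (bridge_Chg MR.all_MRchg) e_Ch4 e_BdX e_Tu2 I_Pa1.prf

end Pool.Agent.Work.MP_a8fbd7_nt.PAR.EF
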