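import Pool.Agent.Work.MP_a8fbd7_nt.PAR.EF.StmtsX

set_option autoImplicit false

/-!
# Item AtX of block EF (problem MP_a8fbd7_nt): the number of the attached `g`
-/

open Finset

namespace Pool.Agent.Work.MP_a8fbd7_nt.PAR.EF.I_AtX

open Pool.Agent.Work.MP_a8fbd7_nt.PAR.EF Pool.Agent.Work.MP_a8fbd7_nt.PAR.LC

open Classical in
theorem prf (hAtc : StAtc) : StAtX := by
  intro N G E hE
  obtain ⟨A, hA⟩ : ∃ A : ((ℕ × ℕ × ℕ) × ℕ) → Finset ℕ, ∀ x, A x =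
      (range G).filter (fun g => Att x.1.1 x.1.2.1 x.1.2.2 1 g x.2) := ⟨fun x => _, fun x => rfl⟩
  obtain ⟨P, hP⟩ : ∃ P : Finset ((ℕ × ℕ × ℕ) × ℕ),
      P = (Icc 1 N ×ˢ Icc 1 N ×ˢ Icc 1 N) ×ˢ E := ⟨_, rfl⟩
  have hsub : (range G).filter (fun g => AtE N E g) ⊆
      (P.filter (fun x => x.1.1 * x.1.2.1 ≤ N)).biUnion A := by
    intro g hg
    rw [mem_filter] at hg
    obtain ⟨hgG, q, t, z, m, hq1, hqN, ht1, htN, hz1, hzN, hqt, hm, hatt⟩ := hg
    rw [mem_biUnion]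
    refine ⟨((q, t, z), m), ?_, ?_⟩
    · rw [mem_filter, hP]
      simp only [mem_product, mem_Icc]
      exact ⟨⟨⟨⟨hq1, hqN⟩, ⟨ht1, htN⟩, hz1, hzN⟩, hm⟩, hqt⟩
    · rw [hA, mem_filter]
      exact ⟨hgG, hatt⟩
  have hcardA : ∀ x ∈ P.filter (fun x => x.1.1 * x.1.2.1 ≤ N),
      ((A x).card : ℝ) ≤ 5 * N * (x.2.divisors.card : ℝ) := by
    rintro ⟨⟨q, t, z⟩, m⟩ hx
    rw [mem_filter, hP] at hx
    simp only [mem_product, mem_Icc] at hx
    obtain ⟨⟨⟨⟨hq1, hqN⟩, ⟨ht1, htN⟩, hz1, hzN⟩, hm⟩, hqt⟩ := hx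
    rw [hA]
    have h1 : (((range G).filter (fun g => Att q t z 1 g m)).card : ℝ) ≤
        (m.divisors.card : ℝ) * (3 + 2 * (q * t) / z) := hAtc q t z 1 m G hq1 ht1 hz1 (hE m hm)
    have h2 : 3 + 2 * ((q : ℝ) * t) / z ≤ 5 * N := by
      have hz' : (1 : ℝ) ≤ z := by exact_mod_cast hz1
      have hN' : (1 : ℝ) ≤ N := by exact_mod_cast hq1.trans hqN
      have hqt' : (q : ℝ) * t ≤ N := by exact_mod_cast hqt
      have h3 : 2 * ((q : ℝ) * t) / z ≤ 2 * ((q : ℝ) * t) :=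
        div_le_self (by positivity) hz'
      linarith
    calc (((range G).filter (fun g => Att q t z 1 g m)).card : ℝ)
        ≤ (m.divisors.card : ℝ) * (3 + 2 * (q * t) / z) := h1
      _ ≤ (m.divisors.card : ℝ) * (5 * N) := mul_le_mul_of_nonneg_left h2 (Nat.cast_nonneg _)
      _ = 5 * N * (m.divisors.card : ℝ) := by ring
  calc (((range G).filter (fun g => AtE N E g)).card : ℝ)
      ≤ (((P.filter (fun x => x.1.1 * x.1.2.1 ≤ N)).biUnion A).card : ℝ) := by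
        exact_mod_cast card_le_card hsub
    _ ≤ ∑ x ∈ P.filter (fun x => x.1.1 * x.1.2.1 ≤ N), ((A x).card : ℝ) := by
        exact_mod_cast card_biUnion_le
    _ ≤ ∑ x ∈ P.filter (fun x => x.1.1 * x.1.2.1 ≤ N), 5 * N * (x.2.divisors.card : ℝ) :=
        sum_le_sum hcardA
    _ ≤ ∑ x ∈ P, 5 * N * (x.2.divisors.card : ℝ) :=
        sum_le_sum_of_subset_of_nonneg (filter_subset _ _) (fun x _ _ => by positivity)
    _ = 5 * (N : ℝ) ^ 4 * ∑ m ∈ E, (m.divisors.card : ℝ) := by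
        rw [hP, sum_product]
        simp only [← mul_sum, sum_const, card_product, Nat.card_Icc, Nat.add_sub_cancel,
          nsmul_eq_mul]
        push_cast
        ring

end Pool.Agent.Work.MP_a8fbd7_nt.PAR.EF.I_AtX
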