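import Pool.Agent.Work.MP_a8fbd7_nt.PAR.EF.StmtsM

set_option autoImplicit false

open Finset

noncomputable section

namespace Pool.Agent.Work.MP_a8fbd7_nt.PAR.EF.I_Bd1

open Pool.Agent.Work.MP_a8fbd7_nt.PAR.LC

/-- a point of a chain of intervals -/
theorem chain (F : ℕ → ℝ) (x : ℝ) (h0 : F 0 ≤ x) : ∀ N : ℕ, x < F N →
    ∃ i < N, F i ≤ x ∧ x < F (i + 1) := by
  intro N
  induction N with
  | zero => intro h; exact absurd h (not_lt.2 h0)
  | succ N ih =>
    intro h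
    by_cases h1 : x < F N
    · obtain ⟨i, hi, h2, h3⟩ := ih h1
      exact ⟨i, by omega, h2, h3⟩
    · exact ⟨N, by omega, not_lt.1 h1, h⟩

open Classical in
theorem prf (hLk : StLkE) : StBd1 := by
  intro f F n c J B W K0 K1 K2 K3 m hPa hSgn hCst
  set R : ℝ := 200 * J / c with hR
  have hc0 : 0 < c := hPa.c0
  have hn : 1 ≤ n := hPa.hn
  have hJ0 : (0 : ℝ) < J := by
    have h1 : 0 < 8 / c ^ 2 := by positivity
    exact lt_of_lt_of_le h1 hPa.J1
  have hR0 : 0 < R := by rw [hR]; positivity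
  have hB0 : (0 : ℝ) < B := by
    have h1 : 0 < 380000 * (J : ℝ) / c ^ 2 := by positivity
    exact lt_of_lt_of_le h1 hPa.B1
  have hn0 : (0 : ℝ) < n := by linarith
  set A1 := (Icc 1 ⌊1800 * J / c * n⌋₊).filter (fun g => om K0 K1 g < m) with hA1
  set A2 := (Icc 1 ⌊1800 * J / c * n⌋₊).filter (fun g => ∀ p ∈ Pr K2 K3, ¬ p ∣ g + 1) with hA2
  set A3 : ℕ → ℕ → Finset ℕ := fun i k =>
    (ce n ⌈R * (21 / 20 : ℝ) ^ i * n⌉₊ ⌊21 / 20 * (R * (21 / 20 : ℝ) ^ i) * n⌋₊ B k).filter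
        (fun g => m ≤ om K0 K1 g ∧ (∃ t ∈ Pr K2 K3, t ∣ g + 1) ∧
          ¬ Lkd n c (R * (21 / 20 : ℝ) ^ i) B k g) with hA3
  have hsub : Bd f n R J ⊆ A1 ∪ A2 ∪
      (range 46).biUnion (fun i => (range (B / J + 1)).biUnion (fun k => A3 i k)) := by
    intro g hg
    unfold Bd at hg
    rw [mem_filter, mem_Icc] at hg
    obtain ⟨⟨hg1, hg2⟩, hfr, hfg⟩ := hg
    have hg1' : R * n ≤ g := Nat.ceil_le.1 hg1
    have hRn : 0 < R * n := by positivity
    have hgpos : (0 : ℝ) < g := lt_of_lt_of_le hRn hg1'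
    have hgpos' : 1 ≤ g := by exact_mod_cast hgpos
    have hg2' : (g : ℝ) ≤ 9 * R * n := by
      rw [Nat.le_floor_iff (by positivity)] at hg2
      exact hg2
    have hgI : g ∈ Icc 1 ⌊1800 * J / c * n⌋₊ := by
      rw [mem_Icc]
      refine ⟨hgpos', ?_⟩
      have e : (1800 * J / c * n : ℝ) = 9 * R * n := by
        rw [hR]
        ring
      rw [e]
      exact hg2
    rw [mem_union, mem_union]
    by_cases h1 : om K0 K1 g < m
    · exact Or.inl (Or.inl (mem_filter.2 ⟨hgI, h1⟩))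
    by_cases h2 : ∀ p ∈ Pr K2 K3, ¬ p ∣ g + 1
    · exact Or.inl (Or.inr (mem_filter.2 ⟨hgI, h2⟩))
    right
    push Not at h2
    rw [not_lt] at h1
    -- the block
    have h46 : (9 : ℝ) < (21 / 20 : ℝ) ^ 46 := by norm_num
    have h45 : ((21 / 20 : ℝ)) ^ 45 ≤ 91 / 10 := by norm_num
    obtain ⟨i, hi, hi1, hi2⟩ := chain (fun i => R * (21 / 20 : ℝ) ^ i * n) (g : ℝ)
      (by simpa using hg1') 46 (by
        have : 9 * R * n < R * (21 / 20 : ℝ) ^ 46 * n := by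
          have h3 : R * n * 9 < R * n * (21 / 20 : ℝ) ^ 46 := mul_lt_mul_of_pos_left h46 hRn
          linarith
        exact lt_of_le_of_lt hg2' this)
    have hpi : (21 / 20 : ℝ) ^ i ≤ 91 / 10 :=
      (pow_le_pow_right₀ (by norm_num) (by omega : i ≤ 45)).trans h45
    have hpi1 : (1 : ℝ) ≤ (21 / 20 : ℝ) ^ i := one_le_pow₀ (by norm_num)
    have hr1 : 200 * J / c ≤ R * (21 / 20 : ℝ) ^ i := by
      rw [← hR]
      nlinarith
    have hr2 : R * (21 / 20 : ℝ) ^ i ≤ 1900 * J / c := by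
      have h3 : R * (21 / 20 : ℝ) ^ i ≤ R * (91 / 10) := mul_le_mul_of_nonneg_left hpi hR0.le
      have h4 : 1900 * J / c = R * (19 / 2) := by
        rw [hR]
        ring
      rw [h4]
      nlinarith
    -- the cell
    set fr : ℝ := n ^ 2 / (g : ℝ) - ⌊n ^ 2 / (g : ℝ)⌋₊ with hfr'
    have hfr0 : 0 ≤ fr := by
      have h3 : ((⌊n ^ 2 / (g : ℝ)⌋₊ : ℕ) : ℝ) ≤ n ^ 2 / (g : ℝ) := Nat.floor_le (by positivity)
      rw [hfr']
      linarith
    set k := ⌊B * fr⌋₊ with hk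
    have hk1 : (k : ℝ) ≤ B * fr := Nat.floor_le (by positivity)
    have hk2 : B * fr < k + 1 := Nat.lt_floor_add_one _
    have hkJ : k ≤ B / J := by
      have hJn : 0 < J := by exact_mod_cast hJ0
      rw [Nat.le_div_iff_mul_le hJn]
      have h3 : (k : ℝ) * J ≤ B := by
        have h4 : B * fr * J ≤ B * (1 / J) * J :=
          mul_le_mul_of_nonneg_right (mul_le_mul_of_nonneg_left hfr.le hB0.le) hJ0.le
        have h5 : (B : ℝ) * (1 / J) * J = B := by
          field_simp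
        have h6 : (k : ℝ) * J ≤ B * fr * J := mul_le_mul_of_nonneg_right hk1 hJ0.le
        linarith
      exact_mod_cast h3
    have hce : g ∈ ce n ⌈R * (21 / 20 : ℝ) ^ i * n⌉₊
        ⌊21 / 20 * (R * (21 / 20 : ℝ) ^ i) * n⌋₊ B k := by
      unfold ce cel2
      rw [mem_filter, mem_Icc]
      refine ⟨⟨Nat.ceil_le.2 hi1, Nat.le_floor ?_⟩, Nat.modEq_one, Nat.modEq_one, ?_, ?_⟩
      · have h3 : R * (21 / 20 : ℝ) ^ (i + 1) * n = 21 / 20 * (R * (21 / 20 : ℝ) ^ i) * n := by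
          rw [pow_succ]
          ring
        rw [← h3]
        exact hi2.le
      · rw [div_le_iff₀ hB0]
        linarith
      · rw [lt_div_iff₀ hB0]
        linarith
    rw [mem_biUnion]
    refine ⟨i, mem_range.2 hi, ?_⟩
    rw [mem_biUnion]
    refine ⟨k, mem_range.2 (by omega), ?_⟩
    rw [hA3]
    rw [mem_filter]
    refine ⟨hce, h1, h2, fun hL => hfg ?_⟩
    exact hLk f F n c (R * (21 / 20 : ℝ) ^ i) J B W K0 K1 K2 K3 m k g hPa hSgn hCst hr1 hr2 hkJ
      hce hL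
  have hcard := (card_le_card hsub).trans (card_union_le _ _)
  have hcard2 : (Bd f n R J).card ≤ A1.card + A2.card +
      ∑ i ∈ range 46, ∑ k ∈ range (B / J + 1), (A3 i k).card := by
    refine hcard.trans (Nat.add_le_add (card_union_le _ _) ?_)
    refine card_biUnion_le.trans (sum_le_sum fun i _ => ?_)
    exact card_biUnion_le
  have hcard3 : ((Bd f n R J).card : ℝ) ≤ (A1.card : ℝ) + (A2.card : ℝ) +
      ∑ i ∈ range 46, ∑ k ∈ range (B / J + 1), ((A3 i k).card : ℝ) := by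
    exact_mod_cast hcard2
  exact hcard3

end Pool.Agent.Work.MP_a8fbd7_nt.PAR.EF.I_Bd1
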