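import Pool.Agent.Work.MP_a8fbd7_nt.PAR.EF.StmtsZ

set_option autoImplicit false

/-!
MP_a8fbd7_nt, block EF, item BdS: few bad `g`.
-/

open Finset

noncomputable section

namespace Pool.Agent.Work.MP_a8fbd7_nt.PAR.EF.I_BdS

open Pool.Agent.Work.MP_a8fbd7_nt.PAR.LC
open Pool.Agent.Work.MP_a8fbd7_nt.PAR.EF

theorem ev_exp (A : ℝ) (hA : 0 ≤ A) :
    ∃ l0 : ℝ, ∀ l : ℝ, l0 ≤ l → A * l ^ (1 / 20 : ℝ) ≤ Real.exp (l / 400) := by
  have h := tendsto_rpow_mul_exp_neg_mul_atTop_nhds_zero (1 / 20 : ℝ) (1 / 400) (by norm_num)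
  have h1 := h.eventually_lt_const (show (0 : ℝ) < 1 / (A + 1) by positivity)
  obtain ⟨l0, hl0⟩ := Filter.eventually_atTop.mp h1
  refine ⟨l0, fun l hl => ?_⟩
  have h2 := hl0 l hl
  have h3 : Real.exp (-(1 / 400) * l) * Real.exp (l / 400) = 1 := by
    rw [← Real.exp_add]
    have : -(1 / 400) * l + l / 400 = 0 := by ring
    rw [this, Real.exp_zero]
  have hE : 0 < Real.exp (l / 400) := Real.exp_pos _
  have h4 : l ^ (1 / 20 : ℝ) = l ^ (1 / 20 : ℝ) * Real.exp (-(1 / 400) * l) * Real.exp (l / 400) := by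
    rw [mul_assoc, h3, mul_one]
  rw [h4]
  have h5 : l ^ (1 / 20 : ℝ) * Real.exp (-(1 / 400) * l) * Real.exp (l / 400) ≤
      1 / (A + 1) * Real.exp (l / 400) := mul_le_mul_of_nonneg_right h2.le hE.le
  have h6 : A * (1 / (A + 1)) ≤ 1 := by
    rw [mul_one_div, div_le_one (by positivity)]
    linarith
  calc A * (l ^ (1 / 20 : ℝ) * Real.exp (-(1 / 400) * l) * Real.exp (l / 400))
      ≤ A * (1 / (A + 1) * Real.exp (l / 400)) := mul_le_mul_of_nonneg_left h5 hA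
    _ = A * (1 / (A + 1)) * Real.exp (l / 400) := by ring
    _ ≤ 1 * Real.exp (l / 400) := mul_le_mul_of_nonneg_right h6 hE.le
    _ = Real.exp (l / 400) := one_mul _

theorem ev_log (d : ℝ) (hd : 0 < d) :
    ∃ l0 : ℝ, ∀ l : ℝ, l0 ≤ l → 1 ≤ d * l ^ (136 / 1000 : ℝ) / Real.log l := by
  have h := isLittleO_log_rpow_atTop (show (0 : ℝ) < 136 / 1000 by norm_num)
  have h1 := h.bound hd
  obtain ⟨l0, hl0⟩ := Filter.eventually_atTop.mp h1
  refine ⟨max l0 2, fun l hl => ?_⟩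
  have h2 := hl0 l (le_trans (le_max_left _ _) hl)
  have hl2 : (2 : ℝ) ≤ l := le_trans (le_max_right _ _) hl
  have hlog : 0 < Real.log l := Real.log_pos (by linarith)
  rw [Real.norm_eq_abs, Real.norm_eq_abs, abs_of_pos hlog, abs_of_nonneg (by positivity)] at h2
  rw [le_div_iff₀ hlog, one_mul]
  exact h2

open Classical in
theorem core (hBd1 : StBd1) {C1 C2 C3 κ : ℝ} (hC1 : 1 ≤ C1) (hC2 : 1 ≤ C2) (hC3 : 1 ≤ C3)
    (hOm : ∀ X a b m : ℕ, 2 ≤ X → b ≤ X →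
      (((Icc 1 X).filter (fun g => om a b g < m)).card : ℝ) ≤
        C1 * X * 2 ^ m * Real.exp (-(Sr a b / 2)))
    (hNo : ∀ X a b : ℕ, 2 ≤ X → b ≤ X →
      (((Icc 1 X).filter (fun g => ∀ p ∈ Pr a b, ¬ p ∣ g + 1)).card : ℝ) ≤
        C2 * X * Real.exp (-Sr a b))
    (n c : ℝ) (J B W K0 K1 K2 K3 m : ℕ) (hPa : Pa n c J B W K0 K1 K2 K3 m)
    (hUm : ∀ (r : ℝ) (k : ℕ), 200 * J / c ≤ r → r ≤ 1900 * J / c → k ≤ B / J →
      Am c r W m ^ 2 *
        (((ce n ⌈r * n⌉₊ ⌊21 / 20 * r * n⌋₊ B k).filter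
        (fun g => m ≤ om K0 K1 g ∧ (∃ t ∈ Pr K2 K3, t ∣ g + 1) ∧ ¬ Lkd n c r B k g)).card : ℝ) ≤
      (95 * J * n / c) / B * Sr K2 K3 * Vm c r W K0 K1 K3 m + C3 * n ^ (199 / 200 : ℝ))
    (hκ : 0 < κ)
    (hT1 : (J : ℝ) ^ 3 * (2 ^ m * Real.exp (-(Sr K0 K1 / 2))) ≤ κ / (36 * C1))
    (hT2 : (J : ℝ) ^ 3 * Real.exp (-Sr K2 K3) ≤ κ / (36 * C2))
    (hT3 : ∀ r : ℝ, 200 * J / c ≤ r → r ≤ 1900 * J / c →
      Sr K2 K3 * Vm c r W K0 K1 K3 m * (J : ℝ) ^ 2 ≤ κ / 200 * Am c r W m ^ 2)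
    (hAm : ∀ r : ℝ, 200 * J / c ≤ r → r ≤ 1900 * J / c → 1 ≤ Am c r W m)
    (hE : 92 * C3 * (400000 * (J : ℝ) ^ 2 / c) ≤ 50 * κ * n ^ (1 / 200 : ℝ))
    (f : ℕ → ℤ) (F : ℤ) (hS : Sgn f) (hC : Cst f F n c) :
    ((Bd f n (200 * J / c) J).card : ℝ) ≤ κ * (200 * n / (c * (J : ℝ) ^ 2)) := by
  have hn1 : 1 ≤ n := hPa.hn
  have hn0 : 0 < n := by linarith
  have hc0 : 0 < c := hPa.c0
  have hc1 : c ≤ 1 / 10 := hPa.c1
  have hJ1 : 8 / c ^ 2 ≤ J := hPa.J1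
  have hc2 : c ^ 2 ≤ 1 / 100 := by nlinarith
  have hJ800 : (800 : ℝ) ≤ J := by
    have : (800 : ℝ) ≤ 8 / c ^ 2 := by
      rw [le_div_iff₀ (by positivity)]
      linarith
    linarith
  have hJ0 : (0 : ℝ) < J := by linarith
  have hJc : (800 : ℝ) ≤ J / c := by
    rw [le_div_iff₀ hc0]
    nlinarith
  have hB1 : 380000 * J / c ^ 2 ≤ B := hPa.B1
  have hB2 : (B : ℝ) ≤ 400000 * J / c ^ 2 := hPa.B2
  have hBJ : (J : ℝ) ≤ B := by
    refine le_trans ?_ hB1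
    rw [le_div_iff₀ (by positivity)]
    nlinarith
  have hB0 : (0 : ℝ) < B := by linarith
  -- the numbers K1, K3
  have hK0 : 1 ≤ K0 := le_trans hPa.W1 hPa.WK
  have hK1 : 1 ≤ K1 := le_trans hK0 hPa.K01
  have hK1r : (1 : ℝ) ≤ K1 := by exact_mod_cast hK1
  have hK2 : (1 : ℝ) ≤ K2 := by
    refine le_trans ?_ hPa.K12
    have h1 : (1 : ℝ) ≤ (K1 : ℝ) ^ (2 * m) := one_le_pow₀ hK1r
    have h2 : (1 : ℝ) ≤ 95000 * J / c ^ 2 := by
      rw [le_div_iff₀ (by positivity)]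
      nlinarith
    nlinarith
  have hK3 : (1 : ℝ) ≤ K3 := le_trans hK2 (by exact_mod_cast hPa.K23)
  have hnr : n ^ (1 / 200 : ℝ) ≤ n := by
    conv_rhs => rw [← Real.rpow_one n]
    exact Real.rpow_le_rpow_of_exponent_le hn1 (by norm_num)
  have hK1m : (K1 : ℝ) ≤ (K1 : ℝ) ^ m := by
    calc (K1 : ℝ) = (K1 : ℝ) ^ 1 := (pow_one _).symm
      _ ≤ (K1 : ℝ) ^ m := pow_le_pow_right₀ hK1r hPa.m1
  have hK1n : (K1 : ℝ) ≤ n := by
    have h1 : (K1 : ℝ) ≤ (K1 : ℝ) ^ m * K3 := by nlinarith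
    exact h1.trans (hPa.s1.trans hnr)
  have hK3n : (K3 : ℝ) ≤ n := by
    have h1 : (K3 : ℝ) ≤ (K1 : ℝ) ^ m * K3 := by nlinarith
    exact h1.trans (hPa.s1.trans hnr)
  have hX0 : n ≤ 1800 * J / c * n := by
    have h1 : (1 : ℝ) ≤ 1800 * J / c := by
      rw [mul_div_assoc]
      linarith
    nlinarith
  have hX2 : (2 : ℝ) ≤ 1800 * J / c * n := by
    have h1 : (2 : ℝ) ≤ 1800 * J / c := by
      rw [mul_div_assoc]
      linarith
    nlinarith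
  have hXf : ((⌊1800 * J / c * n⌋₊ : ℕ) : ℝ) ≤ 1800 * J / c * n := Nat.floor_le (by linarith)
  have hXK1 : K1 ≤ ⌊1800 * J / c * n⌋₊ := Nat.le_floor (hK1n.trans hX0)
  have hXK3 : K3 ≤ ⌊1800 * J / c * n⌋₊ := Nat.le_floor (hK3n.trans hX0)
  have hX2' : 2 ≤ ⌊1800 * J / c * n⌋₊ := Nat.le_floor (by exact_mod_cast hX2)
  have hmain := hBd1 f F n c J B W K0 K1 K2 K3 m hPa hS hC
  set N : ℝ := n / (c * (J : ℝ) ^ 2) with hN
  have hN0 : 0 < N := by positivity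
  have hRN : 1800 * J / c * n = 1800 * N * (J : ℝ) ^ 3 := by
    rw [hN]
    field_simp
  -- first term
  have hA1 : (((Icc 1 ⌊1800 * J / c * n⌋₊).filter (fun g => om K0 K1 g < m)).card : ℝ) ≤
      50 * κ * N := by
    refine (hOm _ K0 K1 m hX2' hXK1).trans ?_
    have e1 : C1 * ((⌊1800 * J / c * n⌋₊ : ℕ) : ℝ) * 2 ^ m * Real.exp (-(Sr K0 K1 / 2)) ≤
        C1 * (1800 * J / c * n) * 2 ^ m * Real.exp (-(Sr K0 K1 / 2)) := by gcongr
    refine e1.trans ?_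
    rw [hRN]
    have e2 : C1 * (1800 * N * (J : ℝ) ^ 3) * 2 ^ m * Real.exp (-(Sr K0 K1 / 2)) =
        C1 * 1800 * N * ((J : ℝ) ^ 3 * (2 ^ m * Real.exp (-(Sr K0 K1 / 2)))) := by ring
    rw [e2]
    have e3 : C1 * 1800 * N * ((J : ℝ) ^ 3 * (2 ^ m * Real.exp (-(Sr K0 K1 / 2)))) ≤
        C1 * 1800 * N * (κ / (36 * C1)) := mul_le_mul_of_nonneg_left hT1 (by positivity)
    refine e3.trans (le_of_eq ?_)
    field_simp
    norm_num
  have hA2 : (((Icc 1 ⌊1800 * J / c * n⌋₊).filter (fun g => ∀ p ∈ Pr K2 K3, ¬ p ∣ g + 1)).card : ℝ) ≤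
      50 * κ * N := by
    refine (hNo _ K2 K3 hX2' hXK3).trans ?_
    have e1 : C2 * ((⌊1800 * J / c * n⌋₊ : ℕ) : ℝ) * Real.exp (-Sr K2 K3) ≤
        C2 * (1800 * J / c * n) * Real.exp (-Sr K2 K3) := by gcongr
    refine e1.trans ?_
    rw [hRN]
    have e2 : C2 * (1800 * N * (J : ℝ) ^ 3) * Real.exp (-Sr K2 K3) =
        C2 * 1800 * N * ((J : ℝ) ^ 3 * Real.exp (-Sr K2 K3)) := by ring
    rw [e2]
    have e3 : C2 * 1800 * N * ((J : ℝ) ^ 3 * Real.exp (-Sr K2 K3)) ≤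
        C2 * 1800 * N * (κ / (36 * C2)) := mul_le_mul_of_nonneg_left hT2 (by positivity)
    refine e3.trans (le_of_eq ?_)
    field_simp
    norm_num
  -- third term
  have hpow : ∀ i ∈ range 46, (1 : ℝ) ≤ (21 / 20 : ℝ) ^ i ∧ (21 / 20 : ℝ) ^ i ≤ 19 / 2 := by
    intro i hi
    rw [mem_range] at hi
    refine ⟨one_le_pow₀ (by norm_num), ?_⟩
    calc (21 / 20 : ℝ) ^ i ≤ (21 / 20 : ℝ) ^ 45 := pow_le_pow_right₀ (by norm_num) (by omega)
      _ ≤ 19 / 2 := by norm_num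
  have hn199 : 0 < n ^ (199 / 200 : ℝ) := Real.rpow_pos_of_pos hn0 _
  have hA3 : ∑ i ∈ range 46, ∑ k ∈ range (B / J + 1),
      (((ce n ⌈200 * J / c * (21 / 20 : ℝ) ^ i * n⌉₊ ⌊21 / 20 * (200 * J / c * (21 / 20 : ℝ) ^ i) * n⌋₊ B k).filter
        (fun g => m ≤ om K0 K1 g ∧ (∃ t ∈ Pr K2 K3, t ∣ g + 1) ∧
          ¬ Lkd n c (200 * J / c * (21 / 20 : ℝ) ^ i) B k g)).card : ℝ) ≤
      ∑ _i ∈ range 46, ∑ _k ∈ range (B / J + 1),
        ((95 * J * n / c) / B * (κ / 200 / (J : ℝ) ^ 2) + C3 * n ^ (199 / 200 : ℝ)) := by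
    refine Finset.sum_le_sum fun i hi => Finset.sum_le_sum fun k hk => ?_
    obtain ⟨hp1, hp2⟩ := hpow i hi
    have hk' : k ≤ B / J := by
      have := mem_range.mp hk
      omega
    have hR0 : 0 < 200 * J / c := by positivity
    have hr1 : 200 * J / c ≤ 200 * J / c * (21 / 20 : ℝ) ^ i := by nlinarith
    have hr2 : 200 * J / c * (21 / 20 : ℝ) ^ i ≤ 1900 * J / c := by
      calc 200 * J / c * (21 / 20 : ℝ) ^ i ≤ 200 * J / c * (19 / 2) :=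
            mul_le_mul_of_nonneg_left hp2 hR0.le
        _ = 1900 * J / c := by ring
    have hu := hUm (200 * J / c * (21 / 20 : ℝ) ^ i) k hr1 hr2 hk'
    have ha := hAm _ hr1 hr2
    have ht := hT3 _ hr1 hr2
    set A : ℝ := Am c (200 * J / c * (21 / 20 : ℝ) ^ i) W m with hA
    have hA2' : 1 ≤ A ^ 2 := one_le_pow₀ ha
    have hA0 : 0 < A ^ 2 := by linarith
    refine le_of_mul_le_mul_left (hu.trans ?_) hA0
    have hq : Sr K2 K3 * Vm c (200 * J / c * (21 / 20 : ℝ) ^ i) W K0 K1 K3 m ≤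
        κ / 200 / (J : ℝ) ^ 2 * A ^ 2 := by
      have h9 : Sr K2 K3 * Vm c (200 * J / c * (21 / 20 : ℝ) ^ i) W K0 K1 K3 m ≤
          κ / 200 * A ^ 2 / (J : ℝ) ^ 2 := (le_div_iff₀ (by positivity)).mpr ht
      refine h9.trans (le_of_eq ?_)
      ring
    have hco : 0 ≤ (95 * J * n / c) / B := by positivity
    have h1 := mul_le_mul_of_nonneg_left hq hco
    have h2 : C3 * n ^ (199 / 200 : ℝ) ≤ A ^ 2 * (C3 * n ^ (199 / 200 : ℝ)) := by
      have : 0 < C3 * n ^ (199 / 200 : ℝ) := by positivity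
      nlinarith
    calc (95 * J * n / c) / B * Sr K2 K3 *
          Vm c (200 * J / c * (21 / 20 : ℝ) ^ i) W K0 K1 K3 m + C3 * n ^ (199 / 200 : ℝ)
        = (95 * J * n / c) / B * (Sr K2 K3 *
          Vm c (200 * J / c * (21 / 20 : ℝ) ^ i) W K0 K1 K3 m) + C3 * n ^ (199 / 200 : ℝ) := by
          ring
      _ ≤ (95 * J * n / c) / B * (κ / 200 / (J : ℝ) ^ 2 * A ^ 2) +
          A ^ 2 * (C3 * n ^ (199 / 200 : ℝ)) := add_le_add h1 h2
      _ = A ^ 2 * ((95 * J * n / c) / B * (κ / 200 / (J : ℝ) ^ 2) + C3 * n ^ (199 / 200 : ℝ)) := by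
          ring
  have hcount : ∑ _i ∈ range 46, ∑ _k ∈ range (B / J + 1),
        ((95 * J * n / c) / B * (κ / 200 / (J : ℝ) ^ 2) + C3 * n ^ (199 / 200 : ℝ)) ≤
      92 * (B / J) * ((95 * J * n / c) / B * (κ / 200 / (J : ℝ) ^ 2) + C3 * n ^ (199 / 200 : ℝ)) := by
    rw [Finset.sum_const, Finset.sum_const, card_range, card_range, nsmul_eq_mul, nsmul_eq_mul,
      ← mul_assoc]
    refine mul_le_mul_of_nonneg_right ?_ (by positivity)
    have h1 : ((B / J : ℕ) : ℝ) ≤ (B : ℝ) / J := Nat.cast_div_le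
    have h2 : (1 : ℝ) ≤ (B : ℝ) / J := by rwa [le_div_iff₀ hJ0, one_mul]
    push_cast
    linarith
  have hfirst : 92 * (B / J) * ((95 * J * n / c) / B * (κ / 200 / (J : ℝ) ^ 2)) =
      437 / 10 * κ * N := by
    rw [hN]
    field_simp
    norm_num
  have hrp : n ^ (1 / 200 : ℝ) * n ^ (199 / 200 : ℝ) = n := by
    rw [← Real.rpow_add hn0]
    norm_num
  have hsecond : 92 * (B / J) * (C3 * n ^ (199 / 200 : ℝ)) ≤ 50 * κ * N := by
    have h1 : (B : ℝ) / J ≤ 400000 / c ^ 2 := by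
      rw [div_le_iff₀ hJ0]
      refine hB2.trans (le_of_eq ?_)
      ring
    have h2 : 92 * (B / J) * (C3 * n ^ (199 / 200 : ℝ)) ≤
        92 * (400000 / c ^ 2) * (C3 * n ^ (199 / 200 : ℝ)) := by gcongr
    refine h2.trans ?_
    have h3 : 92 * (400000 / c ^ 2) * (C3 * n ^ (199 / 200 : ℝ)) =
        92 * C3 * (400000 * (J : ℝ) ^ 2 / c) * n ^ (199 / 200 : ℝ) / (c * (J : ℝ) ^ 2) := by
      field_simp
    rw [h3, hN]
    have h4 : 92 * C3 * (400000 * (J : ℝ) ^ 2 / c) * n ^ (199 / 200 : ℝ) ≤ 50 * κ * n := by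
      have h5 := mul_le_mul_of_nonneg_right hE hn199.le
      calc 92 * C3 * (400000 * (J : ℝ) ^ 2 / c) * n ^ (199 / 200 : ℝ)
          ≤ 50 * κ * n ^ (1 / 200 : ℝ) * n ^ (199 / 200 : ℝ) := h5
        _ = 50 * κ * (n ^ (1 / 200 : ℝ) * n ^ (199 / 200 : ℝ)) := by ring
        _ = 50 * κ * n := by rw [hrp]
    have h6 : (0 : ℝ) ≤ c * (J : ℝ) ^ 2 := by positivity
    have h7 := div_le_div_of_nonneg_right h4 h6
    refine h7.trans (le_of_eq ?_)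
    ring
  have hA3' := (hA3.trans hcount)
  have hlast : 92 * (B / J) * ((95 * J * n / c) / B * (κ / 200 / (J : ℝ) ^ 2) +
      C3 * n ^ (199 / 200 : ℝ)) ≤ 437 / 10 * κ * N + 50 * κ * N := by
    rw [mul_add, hfirst]
    linarith
  have hgoal : κ * (200 * n / (c * (J : ℝ) ^ 2)) = 200 * κ * N := by
    rw [hN]
    ring
  rw [hgoal]
  have hκN : 0 < κ * N := mul_pos hκ hN0
  linarith

theorem prf (h1 : StBd1) (hUm : StUm) (hOm : StOm) (hNo : StNo) (hPa1 : StPa1) (hT12 : StT12)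
    (hT3 : StT3) (hAmL : StAmL) (hMes : StMes) (hSr : StSr) (hPh : StPh) : StBdS := by
  intro κ hκ
  obtain ⟨C1, hC1, hOm'⟩ := hOm
  obtain ⟨C2, hC2, hNo'⟩ := hNo
  obtain ⟨C3, hC3, hUm'⟩ := hUm
  have hC1p : 0 < C1 := by linarith
  have hC2p : 0 < C2 := by linarith
  have hC3p : 0 < C3 := by linarith
  obtain ⟨lP, hP⟩ := hPa1
  obtain ⟨l1, h1'⟩ := hT12 hMes hSr (κ / (36 * C1)) (by positivity)
  obtain ⟨l2, h2'⟩ := hT12 hMes hSr (κ / (36 * C2)) (by positivity)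
  obtain ⟨l3, h3'⟩ := hT3 hMes hSr hAmL hPh (κ / 200) (by positivity)
  obtain ⟨d, l4, hd, h4'⟩ := hAmL hPh
  obtain ⟨l5, h5'⟩ := ev_log d hd
  obtain ⟨l6, h6'⟩ := ev_exp (92 * C3 * 32400000 / (50 * κ)) (by positivity)
  refine ⟨max (max (max l1 l2) (max l3 l4)) (max (max l5 l6) (max lP 1)), ?_⟩
  intro l hl f F hS hC
  have q1 : l1 ≤ l := le_trans (le_trans (le_max_left _ _) (le_trans (le_max_left _ _) (le_max_left _ _))) hl
  have q2 : l2 ≤ l := le_trans (le_trans (le_max_right _ _) (le_trans (le_max_left _ _) (le_max_left _ _))) hl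
  have q3 : l3 ≤ l := le_trans (le_trans (le_max_left _ _) (le_trans (le_max_right _ _) (le_max_left _ _))) hl
  have q4 : l4 ≤ l := le_trans (le_trans (le_max_right _ _) (le_trans (le_max_right _ _) (le_max_left _ _))) hl
  have q5 : l5 ≤ l := le_trans (le_trans (le_max_left _ _) (le_trans (le_max_left _ _) (le_max_right _ _))) hl
  have q6 : l6 ≤ l := le_trans (le_trans (le_max_right _ _) (le_trans (le_max_left _ _) (le_max_right _ _))) hl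
  have qP : lP ≤ l := le_trans (le_trans (le_max_left _ _) (le_trans (le_max_right _ _) (le_max_right _ _))) hl
  have q0 : 1 ≤ l := le_trans (le_trans (le_max_right _ _) (le_trans (le_max_right _ _) (le_max_right _ _))) hl
  have hl0 : 0 < l := by linarith
  have hPa := hP l qP
  have hc0 : 0 < cL l := hPa.c0
  refine core h1 hC1 hC2 hC3 hOm' hNo' (Real.exp (l / 2)) (cL l) (JL l) (BL l) (WL l) (K0L l)
    (K1L l) (K2L l) (K3L l) (mL l) hPa ?_ hκ (h1' l q1).1 (h2' l q2).2 ?_ ?_ ?_ f F hS hC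
  · intro r k hr1 hr2 hk
    exact hUm' (Real.exp (l / 2)) (cL l) r (JL l) (BL l) (WL l) (K0L l) (K1L l) (K2L l) (K3L l)
      (mL l) k hPa hr1 hr2 hk
  · intro r hr1 hr2
    exact h3' l q3 r hr1 hr2
  · intro r hr1 hr2
    exact (h5' l q5).trans (h4' l q4 r hr1 hr2).2
  · have e1 : Real.exp (l / 2) ^ (1 / 200 : ℝ) = Real.exp (l / 400) := by
      rw [← Real.exp_mul]
      congr 1
      ring
    have e2 : (1 : ℝ) / cL l ^ 5 = l ^ (1 / 20 : ℝ) := by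
      unfold cL
      rw [← Real.rpow_natCast, ← Real.rpow_mul hl0.le, one_div, ← Real.rpow_neg hl0.le]
      congr 1
      norm_num
    have hJ2 : (JL l : ℝ) ≤ 9 / cL l ^ 2 := hPa.J2
    have hJsq : (JL l : ℝ) ^ 2 ≤ (9 / cL l ^ 2) ^ 2 := pow_le_pow_left₀ (by positivity) hJ2 2
    have e3 : 400000 * (JL l : ℝ) ^ 2 / cL l ≤ 32400000 * l ^ (1 / 20 : ℝ) := by
      rw [← e2]
      have : 400000 * (JL l : ℝ) ^ 2 / cL l ≤ 400000 * (9 / cL l ^ 2) ^ 2 / cL l := by gcongr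
      refine this.trans (le_of_eq ?_)
      field_simp
      norm_num
    have e4 := h6' l q6
    rw [e1]
    have e5 : 92 * C3 * (400000 * (JL l : ℝ) ^ 2 / cL l) ≤
        92 * C3 * (32400000 * l ^ (1 / 20 : ℝ)) := mul_le_mul_of_nonneg_left e3 (by positivity)
    refine e5.trans ?_
    have e6 : 92 * C3 * (32400000 * l ^ (1 / 20 : ℝ)) =
        50 * κ * (92 * C3 * 32400000 / (50 * κ) * l ^ (1 / 20 : ℝ)) := by
      field_simp
    rw [e6]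
    exact mul_le_mul_of_nonneg_left e4 (by positivity)

end Pool.Agent.Work.MP_a8fbd7_nt.PAR.EF.I_BdS
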