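import Pool.Agent.Work.MP_a8fbd7_nt.PAR.EF.StmtsZ

set_option autoImplicit false

/-!
MP_a8fbd7_nt, block EF, item EnS: conclusion.
-/

open Finset Filter Topology

noncomputable section

namespace Pool.Agent.Work.MP_a8fbd7_nt.PAR.EF.I_EnS

open Pool.Agent.Work.MP_a8fbd7_nt.PAR.LC

theorem lam_val (a : ℕ) (ha : 0 < a) : lam a = 1 ∨ lam a = -1 := by
  unfold lam
  rw [ArithmeticFunction.liouville_apply ha.ne']
  exact neg_one_pow_eq_or ℤ _

theorem lam_sgn : Sgn lam where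
  mul a b _ _ := ArithmeticFunction.liouville_apply_mul a b
  val := lam_val

theorem ev_pow (k : ℕ) (C b : ℝ) (hb : 0 < b) :
    ∀ᶠ l : ℝ in atTop, C * l ^ k ≤ Real.exp (b * l) := by
  have h := (isLittleO_pow_exp_pos_mul_atTop k hb).bound
    (show (0 : ℝ) < 1 / (|C| + 1) by positivity)
  filter_upwards [h, eventually_ge_atTop (0 : ℝ)] with l hl hl0
  rw [Real.norm_of_nonneg (by positivity), Real.norm_of_nonneg (Real.exp_pos _).le] at hl
  have h1 : (|C| + 1) * l ^ k ≤ Real.exp (b * l) := by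
    have h2 : (0 : ℝ) < |C| + 1 := by positivity
    calc (|C| + 1) * l ^ k ≤ (|C| + 1) * (1 / (|C| + 1) * Real.exp (b * l)) :=
          mul_le_mul_of_nonneg_left hl h2.le
      _ = Real.exp (b * l) := by field_simp
  refine le_trans (mul_le_mul_of_nonneg_right ?_ (by positivity)) h1
  have := le_abs_self C
  linarith

/-- The elementary inequalities for one value of `l`. -/
theorem core {c₁ κ n c : ℝ} {J X A Bd' : ℝ} (hc₁ : 0 < c₁) (hκ : κ = c₁ / 16) (hJ : 0 < J)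
    (hc : 0 < c) (hJ4 : 4 * J ^ (-(1 / 4) : ℝ) ≤ c₁ / 4)
    (hX : 200 * J / c * n / J ^ 2 ≤ X) (hX1 : 0 < X)
    (hA : A ≤ 3 * J * Bd' + 4 * J ^ (-(1 / 4) : ℝ) * X)
    (hB : Bd' ≤ κ * (200 * n / (c * J ^ 2))) (hM : c₁ * X ≤ A) : False := by
  have h1 : 3 * J * Bd' ≤ 3 * κ * X := by
    calc 3 * J * Bd' ≤ 3 * J * (κ * (200 * n / (c * J ^ 2))) :=
          mul_le_mul_of_nonneg_left hB (by positivity)
      _ = 3 * κ * (200 * J / c * n / J ^ 2) := by field_simp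
      _ ≤ 3 * κ * X := mul_le_mul_of_nonneg_left hX (by rw [hκ]; positivity)
  have h2 : 4 * J ^ (-(1 / 4) : ℝ) * X ≤ c₁ / 4 * X := mul_le_mul_of_nonneg_right hJ4 hX1.le
  rw [hκ] at h1
  have h3 : 0 < c₁ * X := by positivity
  linarith

theorem prf : StEnS := by
  rintro ⟨c₁, X0, hc₁, hMR⟩ ⟨n1, J0, hCh⟩ hBd ⟨l0, hPa⟩
  obtain ⟨l1, hB⟩ := hBd (c₁ / 16) (by positivity)
  -- the size of `J` which is needed
  obtain ⟨K, hKdef⟩ : ∃ K : ℝ, K = max (J0 : ℝ) ((16 / c₁) ^ 4) := ⟨_, rfl⟩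
  have hK0 : 0 ≤ K := by
    rw [hKdef]
    exact le_max_of_le_left (Nat.cast_nonneg _)
  have e1 : ∀ᶠ l : ℝ in atTop, cL l ≤ 1 / (K + 1) := by
    have h := tendsto_rpow_neg_atTop (show (0 : ℝ) < 1 / 100 by norm_num)
    exact h.eventually_le_const (by positivity)
  have e2 := ev_pow 3 9 (1 / 800) (by norm_num)
  have e3 := ev_pow 1 ((X0 : ℝ) + 1) (1 / 2) (by norm_num)
  have e4 := ev_pow 0 n1 (1 / 2) (by norm_num)
  have hall := ((e1.and (e2.and (e3.and e4))).and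
    ((eventually_ge_atTop l0).and ((eventually_ge_atTop l1).and (eventually_ge_atTop (1 : ℝ)))))
  obtain ⟨L, hL⟩ := eventually_atTop.1 hall
  refine ⟨Real.exp L, fun x hx s hs => ?_⟩
  have hx0 : 0 < x := lt_of_lt_of_le (Real.exp_pos _) hx
  obtain ⟨l, hl⟩ : ∃ l : ℝ, l = Real.log x := ⟨_, rfl⟩
  have hLl : L ≤ l := by
    rw [hl, Real.le_log_iff_exp_le hx0]
    exact hx
  obtain ⟨⟨h1, h2, h3, h4⟩, h5, h6, h7⟩ := hL l hLl
  have hxl : x = Real.exp l := by rw [hl, Real.exp_log hx0]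
  have hn2 : Real.exp (l / 2) ^ 2 = x := by
    rw [hxl, ← Real.exp_nat_mul]
    congr 1
    push_cast
    ring
  have hsq : Real.sqrt x = Real.exp (l / 2) := by
    rw [← hn2]
    exact Real.sqrt_sq (Real.exp_pos _).le
  have hP := hPa l h5
  have hBl := hB l h6
  obtain ⟨n, hn⟩ : ∃ n : ℝ, n = Real.exp (l / 2) := ⟨_, rfl⟩
  obtain ⟨c, hc⟩ : ∃ c : ℝ, c = cL l := ⟨_, rfl⟩
  obtain ⟨J, hJ⟩ : ∃ J : ℕ, J = JL l := ⟨_, rfl⟩
  have hcl : 1 / c = l ^ (1 / 100 : ℝ) := by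
    rw [hc]
    unfold cL
    rw [Real.rpow_neg (by linarith), one_div, inv_inv]
  have hcl' : 1 / c ≤ l := by
    rw [hcl]
    calc l ^ (1 / 100 : ℝ) ≤ l ^ (1 : ℝ) :=
          Real.rpow_le_rpow_of_exponent_le h7 (by norm_num)
      _ = l := Real.rpow_one l
  rw [← hn, ← hc, ← hJ] at hP hBl
  rw [← hn] at hn2 hsq
  rw [← hc] at h1
  have hc0 := hP.c0
  have hJ1 := hP.J1
  have hJ2 := hP.J2
  have hn0 : 0 < n := by rw [hn]; exact Real.exp_pos _
  -- size of `J`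
  have hic : K + 1 ≤ 1 / c := by
    rw [le_div_iff₀ hc0]
    rw [le_div_iff₀ (by positivity)] at h1
    linarith
  have hic0 : 0 ≤ 1 / c := by positivity
  have hKJ : K ≤ J := by
    have h8 : (8 : ℝ) / c ^ 2 = 8 * (1 / c) ^ 2 := by
      rw [one_div, inv_pow]
      rfl
    rw [h8] at hJ1
    nlinarith
  have hJpos : (0 : ℝ) < J := lt_of_lt_of_le (by positivity) hJ1
  have hJ0 : J0 ≤ J := by
    have h9 : (J0 : ℝ) ≤ J := le_trans (by rw [hKdef]; exact le_max_left _ _) hKJ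
    exact_mod_cast h9
  have hJ4 : 4 * (J : ℝ) ^ (-(1 / 4) : ℝ) ≤ c₁ / 4 := by
    have h9 : (16 / c₁) ^ 4 ≤ (J : ℝ) := le_trans (by rw [hKdef]; exact le_max_right _ _) hKJ
    have h10 : 16 / c₁ ≤ (J : ℝ) ^ (1 / 4 : ℝ) := by
      have h11 : ((16 / c₁) ^ 4) ^ (1 / 4 : ℝ) = 16 / c₁ := by
        rw [← Real.rpow_natCast, ← Real.rpow_mul (by positivity)]
        norm_num
      rw [← h11]
      exact Real.rpow_le_rpow (by positivity) h9 (by norm_num)
    rw [Real.rpow_neg hJpos.le]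
    have h12 : ((J : ℝ) ^ (1 / 4 : ℝ))⁻¹ ≤ (16 / c₁)⁻¹ := inv_anti₀ (by positivity) h10
    rw [inv_div] at h12
    linarith
  have hJc : (J : ℝ) / c ≤ n ^ (1 / 400 : ℝ) := by
    have h9 : n ^ (1 / 400 : ℝ) = Real.exp (1 / 800 * l) := by
      rw [hn, ← Real.exp_mul]
      congr 1
      ring
    rw [h9]
    refine le_trans ?_ h2
    have h10 : (J : ℝ) / c ≤ 9 * (1 / c) ^ 3 := by
      calc (J : ℝ) / c ≤ 9 / c ^ 2 / c := div_le_div_of_nonneg_right hJ2 hc0.le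
        _ = 9 * (1 / c) ^ 3 := by field_simp
    refine h10.trans (mul_le_mul_of_nonneg_left ?_ (by norm_num))
    exact pow_le_pow_left₀ hic0 hcl' 3
  have hn1 : n1 ≤ n := by
    rw [hn]
    rw [pow_zero, mul_one] at h4
    refine h4.trans_eq ?_
    congr 1
    ring
  -- size of `X`
  obtain ⟨X, hX⟩ : ∃ X : ℕ, X = ⌈200 * (J : ℝ) / c * n / (J : ℝ) ^ 2⌉₊ := ⟨_, rfl⟩
  have hXle : 200 * (J : ℝ) / c * n / (J : ℝ) ^ 2 ≤ X := by
    rw [hX]
    exact Nat.le_ceil _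
  have hXX : (X0 : ℝ) + 1 ≤ X := by
    refine le_trans ?_ hXle
    have h9 : 200 * (J : ℝ) / c * n / (J : ℝ) ^ 2 = 200 * n / (c * J) := by
      field_simp
    rw [h9, le_div_iff₀ (by positivity)]
    have h10 : c * J ≤ 9 * l := by
      calc c * J ≤ c * (9 / c ^ 2) := mul_le_mul_of_nonneg_left hJ2 hc0.le
        _ = 9 * (1 / c) := by field_simp
        _ ≤ 9 * l := mul_le_mul_of_nonneg_left hcl' (by norm_num)
    have h11 : ((X0 : ℝ) + 1) * l ≤ n := by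
      rw [hn]
      rw [pow_one] at h3
      refine h3.trans_eq ?_
      congr 1
      ring
    have h12 : (0 : ℝ) ≤ (X0 : ℝ) + 1 := by positivity
    calc ((X0 : ℝ) + 1) * (c * J) ≤ ((X0 : ℝ) + 1) * (9 * l) :=
          mul_le_mul_of_nonneg_left h10 h12
      _ = 9 * (((X0 : ℝ) + 1) * l) := by ring
      _ ≤ 9 * n := mul_le_mul_of_nonneg_left h11 (by norm_num)
      _ ≤ 200 * n := by linarith
  by_contra hcon
  push Not at hcon
  have hcst : Cst lam (-s) n c := by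
    intro m hm1 hm2
    have hmpos : 0 < m := by
      rcases Nat.eq_zero_or_pos m with h | h
      · exfalso
        rw [h, hn2, Nat.cast_zero] at hm1
        linarith
      · exact h
    have h9 : lam m ≠ s := by
      refine hcon m (by rw [← hn2]; exact hm1) (hm2.trans_eq ?_)
      rw [hn2, hsq, ← hl, ← hcl]
      field_simp
    rcases lam_val m hmpos with h | h <;> rcases hs with rfl | rfl
    · exact absurd h h9
    · rw [h]; norm_num
    · exact h
    · exact absurd h h9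
  have hA := hCh lam n c J hn1 hJ0 lam_sgn hc0 hP.c1 hJ1 hJ2 hJc
  have hBB := hBl lam (-s) lam_sgn hcst
  rw [← hX] at hA
  have hM := hMR X (by
    have : (X0 : ℝ) ≤ X := by linarith
    exact_mod_cast this)
  refine core hc₁ rfl hJpos hc0 hJ4 hXle ?_ hA hBB hM
  have : (0 : ℝ) ≤ X0 := Nat.cast_nonneg _
  linarith

end Pool.Agent.Work.MP_a8fbd7_nt.PAR.EF.I_EnS
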