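import Pool.Agent.Work.MP_a8fbd7_nt.PAR.EF.StmtsM

set_option autoImplicit false

/-!
# Item LkE: a link gives `f g = f (g+1)`
-/

open Finset

noncomputable section

namespace Pool.Agent.Work.MP_a8fbd7_nt.PAR.EF.I_LkE

open Pool.Agent.Work.MP_a8fbd7_nt.PAR.LC Pool.Agent.Work.MP_a8fbd7_nt.PAR.EF

theorem prf (hD : StLkD) : StLkE := by
  intro f F n c r J B W K0 K1 K2 K3 m k g hP hS hC hr hr' hk hg hL
  obtain ⟨q, t, z, ρ, hl, hq, ht, hz⟩ := hL
  have hc := hP.c0
  have hn := hP.hn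
  have hJ : (0 : ℝ) < J := lt_of_lt_of_le (by positivity) hP.J1
  have hJ1 : 1 ≤ J := by
    have : 0 < J := by exact_mod_cast hJ
    exact this
  have hr1 : r * c ≤ 1900 * J := by
    rwa [le_div_iff₀ hc] at hr'
  have hB1 : 200 * r / c ≤ B := by
    refine le_trans ?_ hP.B1
    rw [div_le_div_iff₀ hc (by positivity)]
    have h1 : 200 * r * c ^ 2 = 200 * (r * c) * c := by ring
    rw [h1]
    have h2 : 200 * (r * c) * c ≤ 200 * (1900 * J) * c := by
      apply mul_le_mul_of_nonneg_right _ hc.le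
      linarith
    linarith
  have hBpos : (0 : ℝ) < B := lt_of_lt_of_le (by positivity) hP.B1
  have hn1 : 1000 * J * r / c ^ 2 ≤ n := by
    have h1 : 1000 * J * r / c ^ 2 ≤ 10 ^ 7 * (J : ℝ) ^ 2 / c ^ 3 := by
      rw [div_le_div_iff₀ (by positivity) (by positivity)]
      have h2 : 1000 * J * r * c ^ 3 = 1000 * J * (r * c) * c ^ 2 := by ring
      rw [h2]
      have h3 : 1000 * (J : ℝ) * (r * c) * c ^ 2 ≤ 1000 * J * (1900 * J) * c ^ 2 := by
        apply mul_le_mul_of_nonneg_right _ (by positivity)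
        exact mul_le_mul_of_nonneg_left hr1 (by positivity)
      have h4 : 1000 * (J : ℝ) * (1900 * J) * c ^ 2 ≤ 10 ^ 7 * (J : ℝ) ^ 2 * c ^ 2 := by
        apply mul_le_mul_of_nonneg_right _ (by positivity)
        nlinarith [sq_nonneg (J : ℝ)]
      linarith
    have h5 : n ^ (1 / 100 : ℝ) ≤ n := by
      calc n ^ (1 / 100 : ℝ) ≤ n ^ (1 : ℝ) := Real.rpow_le_rpow_of_exponent_le hn (by norm_num)
        _ = n := Real.rpow_one n
    linarith [hP.s2]
  unfold ce cel2 at hg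
  rw [mem_filter, mem_Icc] at hg
  obtain ⟨⟨hg1, hg2⟩, -, -, hg3, hg4⟩ := hg
  have hr0 : 0 ≤ r := le_trans (by positivity) hr
  have hk1 : (k : ℝ) / B ≤ 1 / J := by
    rw [div_le_div_iff₀ hBpos hJ, one_mul]
    have h1 : k * J ≤ B := le_trans (Nat.mul_le_mul_right J hk) (Nat.div_mul_le_self B J)
    exact_mod_cast h1
  have hk0 : 0 ≤ (k : ℝ) / B := by positivity
  have hmain := hD f F c r n (17 / 20) J B 1 k g q t z ρ 0 hS hc (by linarith [hP.c1]) hP.J1 hr hB1
    hn1 le_rfl hJ1 (Nat.ceil_le.1 hg1)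
    (le_trans (by exact_mod_cast hg2) (Nat.floor_le (by positivity)))
    (by
      have : ((0 : ℤ) : ℝ) - ((1 : ℕ) : ℝ) * (k / B) = -(k / B) := by push_cast; ring
      rw [this, abs_neg, abs_of_nonneg hk0]
      exact hk1)
    (Or.inr ⟨rfl, by
      have : ((0 : ℤ) : ℝ) - ((1 : ℕ) : ℝ) * (k / B) = -(k / B) := by push_cast; ring
      rw [this]
      linarith⟩) hg3 hg4 hl hq ht hz
  rcases hmain with h | ⟨m', hm', -⟩
  · exact h
  · exfalso
    unfold Ex at hm'
    rw [mem_filter, mem_Icc] at hm'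
    refine hm'.2 (hC m' (Nat.ceil_le.1 hm'.1.1) ?_)
    exact le_trans (by exact_mod_cast hm'.1.2) (Nat.floor_le (by positivity))

end Pool.Agent.Work.MP_a8fbd7_nt.PAR.EF.I_LkE
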