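import Pool.Agent.Work.MP_a8fbd7_nt.PAR.EF.StmtsZ

set_option autoImplicit false

/-! Item Pa1 of the block `EF`: the conditions on the parameters. -/

namespace Pool.Agent.Work.MP_a8fbd7_nt.PAR.EF.I_Pa1

open Filter Pool.Agent.Work.MP_a8fbd7_nt.PAR.LC

theorem ev_pow (K a b : ℝ) (hab : a < b) : ∀ᶠ l : ℝ in atTop, K * l ^ a ≤ l ^ b := by
  have h1 := tendsto_rpow_atTop (sub_pos.2 hab)
  filter_upwards [h1.eventually_ge_atTop K, eventually_gt_atTop 0] with l hl h0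
  calc K * l ^ a ≤ l ^ (b - a) * l ^ a :=
        mul_le_mul_of_nonneg_right hl (Real.rpow_nonneg h0.le _)
    _ = l ^ b := by
        rw [← Real.rpow_add h0]
        congr 1
        ring

theorem ev_log : ∀ᶠ l : ℝ in atTop, Real.log l ≤ l ^ (1 / 100 : ℝ) := by
  have h1 := (isLittleO_log_rpow_atTop (r := 1 / 100) (by norm_num)).bound (c := 1) one_pos
  filter_upwards [h1, eventually_ge_atTop 1] with l hl h0
  rw [Real.norm_of_nonneg (Real.log_nonneg h0),
    Real.norm_of_nonneg (Real.rpow_nonneg (by linarith) _), one_mul] at hl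
  exact hl

theorem exp_bd (A q u : ℝ) (_hA : 0 ≤ A) (hq : 1 ≤ q) (hu : 0 ≤ u) :
    A * q * Real.exp u + 1 ≤ Real.exp (A + q + u) := by
  have h1 : A + 1 ≤ Real.exp A := Real.add_one_le_exp A
  have h2 : q ≤ Real.exp q := by linarith [Real.add_one_le_exp q]
  have h3 : 1 ≤ Real.exp u := Real.one_le_exp hu
  rw [Real.exp_add, Real.exp_add]
  have h4 : (A + 1) * q ≤ Real.exp A * Real.exp q :=
    mul_le_mul h1 h2 (by linarith) (Real.exp_pos _).le
  have h5 : A * q + 1 ≤ (A + 1) * q := by nlinarith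
  calc A * q * Real.exp u + 1 ≤ A * q * Real.exp u + 1 * Real.exp u := by linarith
    _ = (A * q + 1) * Real.exp u := by ring
    _ ≤ Real.exp A * Real.exp q * Real.exp u :=
        mul_le_mul_of_nonneg_right (h5.trans h4) (Real.exp_pos _).le

theorem prf : StPa1 := by
  refine Filter.eventually_atTop.1 ?_
  filter_upwards [ev_log, eventually_ge_atTop ((10 : ℝ) ^ 100),
    Real.tendsto_log_atTop.eventually_ge_atTop 25,
    ev_pow 800 (43 / 50) 1 (by norm_num), ev_pow 800 (49 / 50) 1 (by norm_num),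
    ev_pow (10 ^ 7 * 81 * 200) (7 / 100) 1 (by norm_num),
    ev_pow ((18).factorial : ℝ) (17 / 20) (9 / 10) (by norm_num),
    ev_pow ((18).factorial * 1710001 : ℝ) (1 / 20) (9 / 10) (by norm_num),
    ev_pow 5130004 (43 / 50) (9 / 10) (by norm_num)] with l hlog h10 hlog25 e1 e2 e3 e4 e5 e6
  have hl1 : (1 : ℝ) ≤ l := le_trans (by norm_num) h10
  have hl0 : 0 < l := by linarith
  rw [Real.rpow_one] at e1 e2 e3
  -- the basic quantity
  obtain ⟨p, hp⟩ : ∃ p : ℝ, p = l ^ (1 / 100 : ℝ) := ⟨_, rfl⟩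
  have hpp : 0 < p := by rw [hp]; exact Real.rpow_pos_of_pos hl0 _
  have hp10 : 10 ≤ p := by
    rw [hp]
    have h1 : (10 : ℝ) = ((10 : ℝ) ^ (100 : ℕ)) ^ (1 / 100 : ℝ) := by
      rw [← Real.rpow_natCast, ← Real.rpow_mul (by norm_num)]
      norm_num
    calc (10 : ℝ) = ((10 : ℝ) ^ (100 : ℕ)) ^ (1 / 100 : ℝ) := h1
      _ ≤ l ^ (1 / 100 : ℝ) := Real.rpow_le_rpow (by positivity) h10 (by norm_num)
  have hp1 : 1 ≤ p := by linarith
  have hc : cL l = p⁻¹ := by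
    unfold cL
    rw [Real.rpow_neg hl0.le, hp]
  have hppow : ∀ k : ℕ, p ^ k = l ^ ((k : ℝ) / 100) := by
    intro k
    rw [hp, ← Real.rpow_natCast, ← Real.rpow_mul hl0.le]
    congr 1
    ring
  rw [← hp] at hlog
  obtain ⟨w, hw⟩ : ∃ w : ℝ, w = l ^ (17 / 20 : ℝ) := ⟨_, rfl⟩
  obtain ⟨v, hv⟩ : ∃ v : ℝ, v = l ^ (43 / 50 : ℝ) := ⟨_, rfl⟩
  obtain ⟨z, hz⟩ : ∃ z : ℝ, z = l ^ (9 / 10 : ℝ) := ⟨_, rfl⟩
  obtain ⟨y, hy⟩ : ∃ y : ℝ, y = l ^ (49 / 50 : ℝ) := ⟨_, rfl⟩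
  obtain ⟨x, hx⟩ : ∃ x : ℝ, x = l ^ (1 / 20 : ℝ) := ⟨_, rfl⟩
  rw [← hv] at e1 e6
  rw [← hy] at e2
  rw [← hw, ← hz] at e4
  rw [← hx, ← hz] at e5
  rw [← hz] at e6
  have hw0 : 0 ≤ w := by rw [hw]; exact Real.rpow_nonneg hl0.le _
  have hw1 : 1 ≤ w := by rw [hw]; exact Real.one_le_rpow hl1 (by norm_num)
  have hv1 : 1 ≤ v := by rw [hv]; exact Real.one_le_rpow hl1 (by norm_num)
  have hx1 : 1 ≤ x := by rw [hx]; exact Real.one_le_rpow hl1 (by norm_num)
  have hpw : p * w = v := by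
    rw [hp, hw, hv, ← Real.rpow_add hl0]
    congr 1
    norm_num
  have hwv : w ≤ v := by
    rw [← hpw]
    exact le_mul_of_one_le_left hw0 hp1
  have hx5 : p ^ 5 = x := by
    rw [hppow, hx]
    congr 1
    norm_num
  have hx18 : x ^ 18 = z := by
    rw [hx, hz, ← Real.rpow_natCast, ← Real.rpow_mul hl0.le]
    congr 1
    norm_num
  have hxw : x ≤ w := by
    rw [hx, hw]
    exact Real.rpow_le_rpow_of_exponent_le hl1 (by norm_num)
  have hzy : z ≤ y := by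
    rw [hz, hy]
    exact Real.rpow_le_rpow_of_exponent_le hl1 (by norm_num)
  have hp4v : p ^ 4 ≤ v := by
    rw [hppow, hv]
    exact Real.rpow_le_rpow_of_exponent_le hl1 (by norm_num)
  have hf : (0 : ℝ) < ((18).factorial : ℝ) := by exact_mod_cast Nat.factorial_pos 18
  have hexpx : z / ((18).factorial : ℝ) ≤ Real.exp x := by
    rw [← hx18]
    exact Real.pow_div_factorial_le_exp x (by linarith) 18
  -- the parameters
  have hJ0 : (8 : ℝ) / (cL l) ^ 2 = 8 * p ^ 2 := by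
    rw [hc]
    field_simp
  have hJ1 : 8 * p ^ 2 ≤ (JL l : ℝ) := by
    rw [← hJ0]
    exact Nat.le_ceil _
  have hJ2 : (JL l : ℝ) ≤ 9 * p ^ 2 := by
    have h1 : (JL l : ℝ) < 8 / (cL l) ^ 2 + 1 := by
      refine Nat.ceil_lt_add_one ?_
      rw [hJ0]
      positivity
    rw [hJ0] at h1
    nlinarith
  have hJn : (0 : ℝ) ≤ (JL l : ℝ) := Nat.cast_nonneg _
  have hJc : ∀ a : ℝ, a * (JL l : ℝ) / (cL l) ^ 2 = a * ((JL l : ℝ) * p ^ 2) := by
    intro a
    rw [hc]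
    field_simp
  have hJp : (JL l : ℝ) * p ^ 2 ≤ 9 * p ^ 4 := by
    have h1 := mul_le_mul_of_nonneg_right hJ2 (pow_nonneg hpp.le 2)
    calc (JL l : ℝ) * p ^ 2 ≤ 9 * p ^ 2 * p ^ 2 := h1
      _ = 9 * p ^ 4 := by ring
  have hJp1 : 1 ≤ (JL l : ℝ) * p ^ 2 := by
    have h1 := mul_le_mul_of_nonneg_right hJ1 (pow_nonneg hpp.le 2)
    have h2 : (1 : ℝ) ≤ p ^ 2 := one_le_pow₀ hp1
    nlinarith
  have hm0 : (mL l : ℝ) ≤ 11 / 25 * Real.log l := by
    unfold mL
    exact Nat.floor_le (by linarith)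
  have hmp : (mL l : ℝ) ≤ p := by linarith
  have hm2p : 2 * (mL l : ℝ) ≤ p := by linarith
  have hm1p : (mL l : ℝ) + 1 ≤ p := by linarith
  have hK1 : (K1L l : ℝ) ≤ Real.exp w := by
    unfold K1L
    rw [← hw]
    exact Nat.floor_le (Real.exp_pos _).le
  have hK3 : (K3L l : ℝ) ≤ Real.exp y := by
    unfold K3L
    rw [← hy]
    exact Nat.floor_le (Real.exp_pos _).le
  have hK2 : Real.exp z - 1 ≤ (K2L l : ℝ) := by
    unfold K2L
    rw [← hz]
    exact (Nat.sub_one_lt_floor _).le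
  have hK0 : Real.exp x - 1 ≤ (K0L l : ℝ) := by
    unfold K0L
    rw [← hx]
    exact (Nat.sub_one_lt_floor _).le
  have hK1p : ∀ k : ℕ, (k : ℝ) ≤ p → (K1L l : ℝ) ^ k ≤ Real.exp v := by
    intro k hk
    calc (K1L l : ℝ) ^ k ≤ (Real.exp w) ^ k := pow_le_pow_left₀ (Nat.cast_nonneg _) hK1 k
      _ = Real.exp (k * w) := (Real.exp_nat_mul w k).symm
      _ ≤ Real.exp v := by
          refine Real.exp_le_exp.2 ?_
          rw [← hpw]
          exact mul_le_mul_of_nonneg_right hk hw0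
  refine ⟨?_, ?_, ?_, ?_, ?_, ?_, ?_, ?_, ?_, ?_, ?_, ?_, ?_, ?_, ?_, ?_, ?_⟩
  · exact Real.one_le_exp (by linarith)
  · rw [hc]
    exact inv_pos.2 hpp
  · rw [hc, one_div]
    exact inv_anti₀ (by norm_num) hp10
  · rw [hJ0]
    exact hJ1
  · have h1 : (9 : ℝ) / (cL l) ^ 2 = 9 * p ^ 2 := by
      rw [hc]
      field_simp
    rw [h1]
    exact hJ2
  · exact Nat.le_ceil _
  · have h1 : (BL l : ℝ) < 380000 * (JL l : ℝ) / (cL l) ^ 2 + 1 := by
      refine Nat.ceil_lt_add_one ?_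
      rw [hJc]
      nlinarith
    rw [hJc] at h1
    rw [hJc]
    linarith
  · -- s1
    have h1 : Real.exp (l / 2) ^ (1 / 200 : ℝ) = Real.exp (l / 400) := by
      rw [← Real.exp_mul]
      congr 1
      ring
    rw [h1]
    calc (K1L l : ℝ) ^ (mL l) * (K3L l : ℝ) ≤ Real.exp v * Real.exp y :=
          mul_le_mul (hK1p _ hmp) hK3 (Nat.cast_nonneg _) (Real.exp_pos _).le
      _ = Real.exp (v + y) := (Real.exp_add _ _).symm
      _ ≤ Real.exp (l / 400) := Real.exp_le_exp.2 (by linarith)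
  · -- s2
    have h1 : Real.exp (l / 2) ^ (1 / 100 : ℝ) = Real.exp (l / 200) := by
      rw [← Real.exp_mul]
      congr 1
      ring
    rw [h1]
    have h2 : (10 : ℝ) ^ 7 * (JL l : ℝ) ^ 2 / (cL l) ^ 3 = 10 ^ 7 * ((JL l : ℝ) ^ 2 * p ^ 3) := by
      rw [hc]
      field_simp
    rw [h2]
    have h3 : (JL l : ℝ) ^ 2 ≤ (9 * p ^ 2) ^ 2 := pow_le_pow_left₀ hJn hJ2 2
    have h4 : (JL l : ℝ) ^ 2 * p ^ 3 ≤ 81 * p ^ 7 := by
      calc (JL l : ℝ) ^ 2 * p ^ 3 ≤ (9 * p ^ 2) ^ 2 * p ^ 3 :=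
            mul_le_mul_of_nonneg_right h3 (pow_nonneg hpp.le 3)
        _ = 81 * p ^ 7 := by ring
    have h5 : p ^ 7 = l ^ (7 / 100 : ℝ) := by
      rw [hppow]
      norm_num
    rw [← h5] at e3
    have h6 : l / 200 + 1 ≤ Real.exp (l / 200) := Real.add_one_le_exp _
    have h7 : (10 : ℝ) ^ 7 * ((JL l : ℝ) ^ 2 * p ^ 3) ≤ 10 ^ 7 * (81 * p ^ 7) :=
      mul_le_mul_of_nonneg_left h4 (by positivity)
    nlinarith
  · -- W1
    unfold WL
    rw [← hw]
    exact Nat.le_floor (by exact_mod_cast hw1)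
  · -- WK
    unfold WL K0L
    rw [← hw, ← hx]
    refine Nat.floor_le_floor ?_
    refine le_trans ?_ hexpx
    rw [le_div_iff₀ hf, mul_comm]
    exact e4
  · -- m1
    unfold mL
    exact Nat.le_floor (by push_cast; linarith)
  · -- K0m
    rw [hJc]
    refine le_trans ?_ hK0
    have h1 : 1710001 * x ≤ Real.exp x := by
      refine le_trans ?_ hexpx
      rw [le_div_iff₀ hf]
      linarith
    have h2 : 4 * ((mL l : ℝ) + 1) * (47500 * ((JL l : ℝ) * p ^ 2)) ≤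
        4 * p * (47500 * (9 * p ^ 4)) := by
      refine mul_le_mul (by linarith) (by linarith) (by positivity) (by positivity)
    have h3 : 4 * p * (47500 * (9 * p ^ 4)) = 1710000 * x := by
      rw [← hx5]
      ring
    linarith
  · -- K01
    unfold K0L K1L
    rw [← hw, ← hx]
    exact Nat.floor_le_floor (Real.exp_le_exp.2 hxw)
  · -- K12
    rw [hJc]
    refine le_trans ?_ hK2
    have h1 : (K1L l : ℝ) ^ (2 * mL l) ≤ Real.exp v := by
      refine hK1p _ ?_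
      push_cast
      exact hm2p
    have h2 : 3 * (K1L l : ℝ) ^ (2 * mL l) * (95000 * ((JL l : ℝ) * p ^ 2)) ≤
        3 * Real.exp v * (95000 * (9 * p ^ 4)) := by
      refine mul_le_mul (by linarith) (by linarith) (by positivity) (by positivity)
    have h3 := exp_bd 2565000 (p ^ 4) v (by norm_num) (one_le_pow₀ hp1) (by linarith)
    have h4 : Real.exp (2565000 + p ^ 4 + v) ≤ Real.exp z := by
      refine Real.exp_le_exp.2 ?_
      linarith
    have h5 : 3 * Real.exp v * (95000 * (9 * p ^ 4)) = 2565000 * p ^ 4 * Real.exp v := by ring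
    linarith
  · -- PK
    rw [hJc]
    refine le_trans ?_ hK2
    have hW : (WL l : ℝ) ≤ w := by
      unfold WL
      rw [← hw]
      exact Nat.floor_le hw0
    have h0 : (primorial (WL l) : ℝ) ≤ Real.exp (3 * w) := by
      have g1 : (primorial (WL l) : ℝ) ≤ (4 : ℝ) ^ (WL l) := by
        exact_mod_cast primorial_le_four_pow (WL l)
      have g2 : (4 : ℝ) ≤ Real.exp 3 := by
        have := Real.add_one_le_exp (3 : ℝ)
        linarith
      calc (primorial (WL l) : ℝ) ≤ (4 : ℝ) ^ (WL l) := g1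
        _ ≤ (Real.exp 3) ^ (WL l) := pow_le_pow_left₀ (by norm_num) g2 _
        _ = Real.exp ((WL l : ℝ) * 3) := (Real.exp_nat_mul 3 _).symm
        _ ≤ Real.exp (3 * w) := Real.exp_le_exp.2 (by linarith)
    have h2 : 6 * (primorial (WL l) : ℝ) * (95000 * ((JL l : ℝ) * p ^ 2)) ≤
        6 * Real.exp (3 * w) * (95000 * (9 * p ^ 4)) := by
      refine mul_le_mul (by linarith) (by linarith) (by positivity) (by positivity)
    have h3 := exp_bd 5130000 (p ^ 4) (3 * w) (by norm_num) (one_le_pow₀ hp1) (by linarith)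
    have h4 : Real.exp (5130000 + p ^ 4 + 3 * w) ≤ Real.exp z := by
      refine Real.exp_le_exp.2 ?_
      linarith
    have h5 : 6 * Real.exp (3 * w) * (95000 * (9 * p ^ 4)) =
        5130000 * p ^ 4 * Real.exp (3 * w) := by ring
    linarith
  · -- K23
    unfold K2L K3L
    rw [← hz, ← hy]
    exact Nat.floor_le_floor (Real.exp_le_exp.2 hzy)

end Pool.Agent.Work.MP_a8fbd7_nt.PAR.EF.I_Pa1
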