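import Pool.Agent.Work.MP_a8fbd7_nt.PAR.EF.StmtsH
import Pool.Agent.Work.MP_56b8f5_nt.WM.I_Mert

set_option autoImplicit false

/-!
Item SrI: Mertens for the primes of an interval.
-/

open Finset

noncomputable section

namespace Pool.Agent.Work.MP_a8fbd7_nt.PAR.EF.I_SrI

open Pool.Agent.Work.MP_56b8f5_nt.WM

theorem Sr_eq {a b : ℕ} (hab : a ≤ b) : Sr a b = S1 b - S1 a := by
  have h : pr b = pr a ∪ Pr a b := by
    ext p
    simp only [pr, Pr, Finset.mem_union, Finset.mem_filter, Finset.mem_range, Finset.mem_Ioc]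
    constructor
    · rintro ⟨h1, h2⟩
      by_cases h3 : p ≤ a
      · exact Or.inl ⟨by omega, h2⟩
      · exact Or.inr ⟨⟨by omega, by omega⟩, h2⟩
    · rintro (⟨h1, h2⟩ | ⟨⟨h1, h3⟩, h2⟩)
      · exact ⟨by omega, h2⟩
      · exact ⟨by omega, h2⟩
  have hd : Disjoint (pr a) (Pr a b) := by
    rw [Finset.disjoint_left]
    intro p h1 h2
    have h3 := Finset.mem_range.1 (Finset.mem_filter.1 h1).1
    have h4 := Finset.mem_Ioc.1 (Finset.mem_filter.1 h2).1
    omega
  unfold Sr S1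
  rw [h, Finset.sum_union hd]
  ring

theorem prf : StSr := by
  obtain ⟨C, hC1, hC⟩ := Mert_pf
  have hC0 : 0 < C := by linarith
  have hl : 0 ≤ Real.log C := Real.log_nonneg hC1
  have key : ∀ x : ℕ, 2 ≤ x → |S1 x - Real.log (Real.log x)| ≤ Real.log C := by
    intro x hx
    obtain ⟨h1, h2⟩ := hC x hx
    have hx1 : (1 : ℝ) < x := by exact_mod_cast hx
    have hlx : 0 < Real.log x := Real.log_pos hx1
    have h3 := Real.log_le_log (Real.exp_pos _) h1
    rw [Real.log_exp, Real.log_mul hC0.ne' hlx.ne'] at h3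
    have h4 := Real.log_le_log hlx h2
    rw [Real.log_mul hC0.ne' (Real.exp_pos _).ne', Real.log_exp] at h4
    rw [abs_le]
    constructor <;> linarith
  refine ⟨1 + 2 * Real.log C, by linarith, fun a b ha hab => ?_⟩
  have ha1 : (1 : ℝ) < a := by exact_mod_cast ha
  have hb1 : (1 : ℝ) < b := by exact_mod_cast (le_trans ha hab)
  rw [Sr_eq hab, Real.log_div (Real.log_pos hb1).ne' (Real.log_pos ha1).ne']
  have h1 := abs_le.1 (key a ha)
  have h2 := abs_le.1 (key b (ha.trans hab))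
  rw [abs_le]
  constructor <;> linarith [h1.1, h1.2, h2.1, h2.2]

end Pool.Agent.Work.MP_a8fbd7_nt.PAR.EF.I_SrI
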