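import Pool.Agent.Work.MP_a8fbd7_nt.PAR.EF.StmtsM

set_option autoImplicit false

/-!
MP_a8fbd7_nt, block EF, item Um: the unlinked integers of a cell, numbers.
-/

open Finset

noncomputable section

namespace Pool.Agent.Work.MP_a8fbd7_nt.PAR.EF.I_Um

open Pool.Agent.Work.MP_a8fbd7_nt.PAR.LC Pool.Agent.Work.MP_a8fbd7_nt.PAR.EF

/-- numerical consequences of the conditions on the parameters -/
theorem nums {n c r : ℝ} {J B W K0 K1 K2 K3 m k : ℕ} (hP : Pa n c J B W K0 K1 K2 K3 m)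
    (hr1 : 200 * J / c ≤ r) (hr2 : r ≤ 1900 * J / c) (hk : k ≤ B / J) :
    800 ≤ (J : ℝ) ∧ 200 ≤ r ∧ r ≤ n ^ (1 / 50 : ℝ) ∧ 1 ≤ B ∧ (B : ℝ) ≤ n ^ (1 / 50 : ℝ) ∧ k < B ∧
      1 ≤ K1 ∧ K1 ≤ K2 := by
  have hc0 := hP.c0
  have hc1 := hP.c1
  have hn := hP.hn
  have hcinv : 10 ≤ 1 / c := by
    rw [le_div_iff₀ hc0]
    linarith
  have hc2 : 100 ≤ 1 / c ^ 2 := by
    have e : 1 / c ^ 2 = (1 / c) ^ 2 := by rw [div_pow, one_pow]
    rw [e]
    nlinarith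
  have hJ : 800 ≤ (J : ℝ) := by
    have e : 8 / c ^ 2 = 8 * (1 / c ^ 2) := by ring
    have h := hP.J1
    rw [e] at h
    linarith
  have hJc : 10 * (J : ℝ) ≤ J / c := by
    have e : (J : ℝ) / c = J * (1 / c) := by ring
    rw [e]
    nlinarith
  have hr : 200 ≤ r := by
    have e : 200 * (J : ℝ) / c = 200 * (J / c) := by ring
    rw [e] at hr1
    nlinarith
  -- the big quantity
  have hX1 : (J : ℝ) / c ≤ J ^ 2 / c ^ 3 := by
    have e : (J : ℝ) ^ 2 / c ^ 3 = (J / c) * (J * (1 / c ^ 2)) := by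
      field_simp
    rw [e]
    have h1 : 1 ≤ (J : ℝ) * (1 / c ^ 2) := by nlinarith
    have h2 : 0 ≤ (J : ℝ) / c := by positivity
    nlinarith
  have hX2 : (J : ℝ) / c ^ 2 ≤ J ^ 2 / c ^ 3 := by
    have e : (J : ℝ) ^ 2 / c ^ 3 = (J / c ^ 2) * (J * (1 / c)) := by
      field_simp
    rw [e]
    have h1 : 1 ≤ (J : ℝ) * (1 / c) := by nlinarith
    have h2 : 0 ≤ (J : ℝ) / c ^ 2 := by positivity
    nlinarith
  have hs2 : 10 ^ 7 * ((J : ℝ) ^ 2 / c ^ 3) ≤ n ^ (1 / 100 : ℝ) := by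
    have h := hP.s2
    have e : 10 ^ 7 * (J : ℝ) ^ 2 / c ^ 3 = 10 ^ 7 * ((J : ℝ) ^ 2 / c ^ 3) := by ring
    rw [e] at h
    exact h
  have hpow : n ^ (1 / 100 : ℝ) ≤ n ^ (1 / 50 : ℝ) :=
    Real.rpow_le_rpow_of_exponent_le hn (by norm_num)
  have hX0 : 0 ≤ (J : ℝ) ^ 2 / c ^ 3 := by positivity
  have hrn : r ≤ n ^ (1 / 50 : ℝ) := by
    have e : 1900 * (J : ℝ) / c = 1900 * (J / c) := by ring
    rw [e] at hr2
    nlinarith
  have hBpos : (1 : ℝ) ≤ B := by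
    have h := hP.B1
    have e : 380000 * (J : ℝ) / c ^ 2 = 380000 * (J * (1 / c ^ 2)) := by ring
    rw [e] at h
    nlinarith
  have hB1 : 1 ≤ B := by exact_mod_cast hBpos
  have hBn : (B : ℝ) ≤ n ^ (1 / 50 : ℝ) := by
    have h := hP.B2
    have e : 400000 * (J : ℝ) / c ^ 2 = 400000 * (J / c ^ 2) := by ring
    rw [e] at h
    nlinarith
  have hkB : k < B := by
    have hJ2 : 1 < J := by
      have : (1 : ℝ) < J := by linarith
      exact_mod_cast this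
    exact lt_of_le_of_lt hk (Nat.div_lt_self hB1 hJ2)
  have hK1 : 1 ≤ K1 := (hP.W1.trans hP.WK).trans hP.K01
  have hK12 : K1 ≤ K2 := by
    have hK1R : (1 : ℝ) ≤ K1 := by exact_mod_cast hK1
    have h1 : (K1 : ℝ) ^ 1 ≤ (K1 : ℝ) ^ (2 * m) :=
      pow_le_pow_right₀ hK1R (by have := hP.m1; omega)
    rw [pow_one] at h1
    have h2 := hP.K12
    have e : 3 * (K1 : ℝ) ^ (2 * m) * (95000 * J / c ^ 2) =
        (K1 : ℝ) ^ (2 * m) * (285000 * (J * (1 / c ^ 2))) := by ring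
    rw [e] at h2
    have h3 : 1 ≤ (285000 * ((J : ℝ) * (1 / c ^ 2))) := by nlinarith
    have h4 : (K1 : ℝ) ≤ K2 := by nlinarith
    exact_mod_cast h4
  exact ⟨hJ, hr, hrn, hB1, hBn, hkB, hK1, hK12⟩

/-- the windows -/
theorem wn {c r : ℝ} {B k : ℕ} (hc0 : 0 < c) (hc1 : c ≤ 1 / 10) (hr : 200 ≤ r) (hk : k < B) :
    Wn (((k : ℝ) + 1) / B + 17 / 20 * c / r) (c / (25 * r)) (2 * c / (5 * r)) (21 * c / (50 * r)) := by
  have hr0 : 0 < r := by linarith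
  have hB0 : (0 : ℝ) < B := by
    have : 0 < B := by omega
    exact_mod_cast this
  have hkB : (k : ℝ) + 1 ≤ B := by exact_mod_cast hk
  have hcr : 0 < c / r := by positivity
  have hcr1 : c / r ≤ 1 / 2 := by
    rw [div_le_iff₀ hr0]
    linarith
  have e1 : 17 / 20 * c / r = 17 / 20 * (c / r) := by ring
  have e2 : c / (25 * r) = 1 / 25 * (c / r) := by field_simp
  have e3 : 2 * c / (5 * r) = 2 / 5 * (c / r) := by field_simp
  have e4 : 21 * c / (50 * r) = 21 / 50 * (c / r) := by field_simp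
  have h1 : ((k : ℝ) + 1) / B ≤ 1 := by
    rw [div_le_one hB0]
    exact hkB
  have h2 : 0 ≤ ((k : ℝ) + 1) / B := by positivity
  rw [e1, e2, e3, e4]
  constructor <;> linarith

theorem exps {n : ℝ} (hn : 1 ≤ n) :
    n ^ (1 / 200 : ℝ) * n ^ (99 / 100 : ℝ) = n ^ (199 / 200 : ℝ) := by
  rw [← Real.rpow_add (by linarith)]
  norm_num

/-- the sum over `t` -/
theorem sumt {K2 K3 : ℕ} (A b D E : ℝ) (F : ℕ → ℝ) (hD : 0 ≤ D) (hK : (K3 : ℝ) ≤ E)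
    (h : ∀ t ∈ Pr K2 K3, F t ≤ A / (t * b) + D) :
    ∑ t ∈ Pr K2 K3, F t ≤ A / b * Sr K2 K3 + E * D := by
  calc ∑ t ∈ Pr K2 K3, F t ≤ ∑ t ∈ Pr K2 K3, (A / (t * b) + D) := Finset.sum_le_sum h
    _ = A / b * Sr K2 K3 + ((Pr K2 K3).card : ℝ) * D := by
        rw [Finset.sum_add_distrib, Finset.sum_const, nsmul_eq_mul, Sr, Finset.mul_sum]
        congr 1
        refine Finset.sum_congr rfl fun t _ => ?_
        rw [div_mul_div_comm, mul_one, mul_comm b]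
    _ ≤ A / b * Sr K2 K3 + E * D := by
        have h1 : ((Pr K2 K3).card : ℝ) ≤ K3 := by
          have h2 : (Pr K2 K3).card ≤ K3 := by
            refine (Finset.card_filter_le _ _).trans ?_
            rw [Nat.card_Ioc]
            omega
          exact_mod_cast h2
        have h3 := mul_le_mul_of_nonneg_right (h1.trans hK) hD
        linarith

theorem prf (hVa : StVa) (hBn : StBn) (hUn : StUn) : StUm := by
  obtain ⟨C, hC1, hVa⟩ := hVa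
  refine ⟨C, hC1, ?_⟩
  intro n c r J B W K0 K1 K2 K3 m k hP hr1 hr2 hk
  obtain ⟨hJ, hr, hrn, hB1, hBn', hkB, hK1, hK12⟩ := nums hP hr1 hr2 hk
  have hc0 := hP.c0
  have hc1 := hP.c1
  have hn := hP.hn
  have hn0 : 0 < n := by linarith
  have hr0 : 0 < r := by linarith
  have hB0 : (0 : ℝ) < B := by exact_mod_cast hB1
  have hK0 : 1 ≤ K0 := hP.W1.trans hP.WK
  have hrn20 : 20 ≤ r * n := by nlinarith
  have hu1 : r * n ≤ (⌈r * n⌉₊ : ℝ) := Nat.le_ceil _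
  have hu2 : (⌈r * n⌉₊ : ℝ) < r * n + 1 := Nat.ceil_lt_add_one (by positivity)
  have hv1 : (⌊21 / 20 * r * n⌋₊ : ℝ) ≤ 21 / 20 * r * n := Nat.floor_le (by positivity)
  have huv : ⌈r * n⌉₊ ≤ ⌊21 / 20 * r * n⌋₊ := by
    apply Nat.le_floor
    nlinarith
  have huvR : (⌈r * n⌉₊ : ℝ) ≤ (⌊21 / 20 * r * n⌋₊ : ℝ) := by exact_mod_cast huv
  have hneg : n ^ (-(1 / 50) : ℝ) ≤ r := by
    have h1 : n ^ (-(1 / 50) : ℝ) ≤ n ^ (0 : ℝ) :=
      Real.rpow_le_rpow_of_exponent_le hn (by norm_num)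
    rw [Real.rpow_zero] at h1
    linarith
  refine (hUn n c r J B W K0 K1 K2 K3 m k ⌈r * n⌉₊ ⌊21 / 20 * r * n⌋₊ hP hr1 hr2 hk).trans ?_
  set D : ℝ := Real.exp (5 * Sr K0 K1 / 4) *
      ((c / (25 * r)) ^ 2 / (10 * W) + (1 + Real.log (3 * (K1 : ℝ) ^ (2 * m))) / K0) +
    Real.exp (Sr K0 K1 / 4) * (3 + 3 * (1 + Real.log ((K1 : ℝ) ^ m * K3)) ^ 2 / K0) with hD
  have hK1R : (1 : ℝ) ≤ K1 := by exact_mod_cast hK1
  have hD0 : 0 ≤ D := by
    have h1 : 0 ≤ Real.log (3 * (K1 : ℝ) ^ (2 * m)) := by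
      apply Real.log_nonneg
      have : (1 : ℝ) ≤ (K1 : ℝ) ^ (2 * m) := one_le_pow₀ hK1R
      linarith
    positivity
  have hlen : (⌊21 / 20 * r * n⌋₊ : ℝ) - (⌈r * n⌉₊ : ℝ) ≤ 95 * J * n / c := by
    have h1 : (⌊21 / 20 * r * n⌋₊ : ℝ) - (⌈r * n⌉₊ : ℝ) ≤ 1 / 20 * (r * n) := by
      nlinarith
    have h2 : r * n ≤ 1900 * J / c * n := mul_le_mul_of_nonneg_right hr2 hn0.le
    have e : 95 * (J : ℝ) * n / c = 1 / 20 * (1900 * J / c * n) := by ring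
    rw [e]
    linarith
  have hK3 : (K3 : ℝ) ≤ n ^ (1 / 200 : ℝ) := by
    have h1 : (1 : ℝ) ≤ (K1 : ℝ) ^ m := one_le_pow₀ hK1R
    have h2 : (0 : ℝ) ≤ K3 := Nat.cast_nonneg _
    have h3 := hP.s1
    nlinarith
  have hE0 : 0 ≤ C * n ^ (99 / 100 : ℝ) := by positivity
  have key := sumt (K2 := K2) (K3 := K3) (95 * J * n / c * D) B (C * n ^ (99 / 100 : ℝ)) (n ^ (1 / 200 : ℝ))
    (fun t => ∑ g ∈ (ce n ⌈r * n⌉₊ ⌊21 / 20 * r * n⌋₊ B k).filter (fun g => t ∣ g + 1),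
      (Nt K0 K1 m W (((k : ℝ) + 1) / B + 17 / 20 * c / r) (c / (25 * r)) (2 * c / (5 * r)) (21 * c / (50 * r)) t g
          ⌊n ^ 2 / (g : ℝ)⌋₊ -
        At K0 K1 m W (((k : ℝ) + 1) / B + 17 / 20 * c / r) (c / (25 * r)) (2 * c / (5 * r)) (21 * c / (50 * r)) t g) ^ 2)
    hE0 hK3 (by
      intro t ht
      have ht' := ht
      rw [Pr, Finset.mem_filter, Finset.mem_Ioc] at ht'
      obtain ⟨⟨ht1, ht2⟩, ht3⟩ := ht'
      have ht0 : (0 : ℝ) < t := by exact_mod_cast ht3.pos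
      have h1 := hVa n r (((k : ℝ) + 1) / B + 17 / 20 * c / r) (c / (25 * r)) (2 * c / (5 * r))
        (21 * c / (50 * r)) ⌈r * n⌉₊ ⌊21 / 20 * r * n⌋₊ B k K0 K1 m W t hn hneg hrn hu1 huv
        (by nlinarith) hB1 hBn' hkB (wn hc0 hc1 hr hkB) hK0 hP.K01 ht3 (lt_of_le_of_lt hK12 ht1)
        (by
          have h2 : (t : ℝ) ≤ K3 := by exact_mod_cast ht2
          exact (mul_le_mul_of_nonneg_left h2 (by positivity)).trans hP.s1)
      have h2 := hBn n c r J B W K0 K1 K2 K3 m k t hP hr1 hr2 hk ht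
      refine h1.trans ?_
      have h3 : (((⌊21 / 20 * r * n⌋₊ : ℝ)) - (⌈r * n⌉₊ : ℝ)) / (t * B) ≤
          (95 * J * n / c) / (t * B) := div_le_div_of_nonneg_right hlen (by positivity)
      have h4 : 0 ≤ (((⌊21 / 20 * r * n⌋₊ : ℝ)) - (⌈r * n⌉₊ : ℝ)) / (t * B) :=
        div_nonneg (by linarith) (by positivity)
      have h5 := mul_le_mul_of_nonneg_left h2 h4
      have h6 := mul_le_mul_of_nonneg_right h3 hD0
      have e : 95 * (J : ℝ) * n / c * D / (t * B) = (95 * J * n / c) / (t * B) * D := by ring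
      rw [e]
      linarith)
  refine key.trans (le_of_eq ?_)
  have e1 := exps hn
  have e2 : n ^ (1 / 200 : ℝ) * (C * n ^ (99 / 100 : ℝ)) = C * n ^ (199 / 200 : ℝ) := by
    rw [← e1]
    ring
  rw [e2]
  ring

end Pool.Agent.Work.MP_a8fbd7_nt.PAR.EF.I_Um
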