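import Pool.Agent.Work.MP_a8fbd7_nt.PAR.EF.StmtsM

set_option autoImplicit false

/-!
MP_a8fbd7_nt, block EF, item Un: unlinked `g` of a cell.
-/

open Finset

noncomputable section

namespace Pool.Agent.Work.MP_a8fbd7_nt.PAR.EF.I_Un

open Pool.Agent.Work.MP_a8fbd7_nt.PAR.LC
open Pool.Agent.Work.MP_a8fbd7_nt.PAR.EF

/-- facts about the parameters -/
theorem basics {n c r : ℝ} {J B W K0 K1 K2 K3 m : ℕ} (P : Pa n c J B W K0 K1 K2 K3 m) (hr : 200 * J / c ≤ r) :
    0 < c ∧ c ≤ 1 / 10 ∧ (800 : ℝ) ≤ J ∧ (1000 : ℝ) ≤ B ∧ (1000 : ℝ) ≤ r := by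
  have c0 := P.c0
  have c1 := P.c1
  have hJ : (800 : ℝ) ≤ J := by
    refine le_trans ?_ P.J1
    rw [le_div_iff₀ (by positivity)]
    nlinarith
  have hr' : (1000 : ℝ) ≤ r := by
    refine le_trans ?_ hr
    rw [le_div_iff₀ c0]
    nlinarith
  have hB : (1000 : ℝ) ≤ B := by
    refine le_trans ?_ P.B1
    rw [le_div_iff₀ (by positivity)]
    nlinarith
  exact ⟨c0, c1, hJ, hB, hr'⟩

theorem wn {n c r : ℝ} {J B W K0 K1 K2 K3 m k : ℕ} (P : Pa n c J B W K0 K1 K2 K3 m) (hr : 200 * J / c ≤ r)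
    (hk : k ≤ B / J) :
    Wn (((k : ℝ) + 1) / B + 17 / 20 * c / r) (c / (25 * r)) (2 * c / (5 * r)) (21 * c / (50 * r)) := by
  obtain ⟨c0, c1, hJ, hB, hr'⟩ := basics P hr
  have hr0 : 0 < r := by linarith
  have hB0 : (0 : ℝ) < B := by linarith
  have hkB : (k : ℝ) ≤ B := by
    have : k ≤ B := le_trans hk (Nat.div_le_self _ _)
    exact_mod_cast this
  refine ⟨by positivity, ?_, by positivity, ?_, by positivity, ?_, ?_⟩
  · have h1 : ((k : ℝ) + 1) / B ≤ 3 / 2 := by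
      rw [div_le_iff₀ hB0]
      linarith
    have h2 : 17 / 20 * c / r ≤ 1 / 2 := by
      rw [div_le_iff₀ hr0]
      linarith
    linarith
  · rw [div_le_iff₀ (by positivity)]
    linarith
  · rw [div_lt_div_iff₀ (by positivity) (by positivity)]
    nlinarith [mul_pos c0 hr0]
  · rw [div_le_iff₀ (by positivity)]
    linarith

/-- the main estimate for one `t` -/
theorem key (h1 : StEloC) (h2 : StSz) {n c r : ℝ} {J B W K0 K1 K2 K3 m k g t : ℕ} (P : Pa n c J B W K0 K1 K2 K3 m)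
    (hr : 200 * J / c ≤ r) (hr2 : r ≤ 1900 * J / c) (hk : k ≤ B / J) (hm : m ≤ om K0 K1 g) (ht : t ∈ Pr K2 K3)
    (htg : t ∣ g + 1) (hL : ¬ Lkd n c r B k g) :
    (((c / (25 * r)) * (Nat.totient (primorial W) : ℝ) / (84 * (primorial W : ℝ))) * ((3 / 2 : ℝ) ^ m - 1)) ^ 2 ≤
    (Nt K0 K1 m W (((k : ℝ) + 1) / B + 17 / 20 * c / r) (c / (25 * r)) (2 * c / (5 * r)) (21 * c / (50 * r)) t g
        ⌊n ^ 2 / (g : ℝ)⌋₊ -
      At K0 K1 m W (((k : ℝ) + 1) / B + 17 / 20 * c / r) (c / (25 * r)) (2 * c / (5 * r)) (21 * c / (50 * r)) t g) ^ 2 := by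
  obtain ⟨c0, c1, hJ, hB, hr'⟩ := basics P hr
  have hr0 : 0 < r := by linarith
  have hJ0 : (0 : ℝ) < J := by linarith
  have hwn := wn P hr hk
  set w0 : ℝ := ((k : ℝ) + 1) / B + 17 / 20 * c / r with hw0
  have hK0 : 1 ≤ K0 := le_trans P.W1 P.WK
  obtain ⟨hc1, hc2, hc3⟩ := h2 K0 K1 m hK0 P.K01
  rw [Pr, mem_filter, mem_Ioc] at ht
  obtain ⟨⟨htK2, -⟩, htp⟩ := ht
  have hK1 : (1 : ℝ) ≤ K1 := by exact_mod_cast le_trans hK0 P.K01
  have hx1 : (1 : ℝ) ≤ 95000 * J / c ^ 2 := by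
    rw [le_div_iff₀ (by positivity)]
    nlinarith
  have hKm : K1 ^ m < t := by
    have h3 : (K1 : ℝ) ^ m ≤ (K1 : ℝ) ^ (2 * m) := pow_le_pow_right₀ hK1 (by omega)
    have h4 : (K1 : ℝ) ^ (2 * m) ≤ 3 * (K1 : ℝ) ^ (2 * m) * (95000 * J / c ^ 2) := by
      have : (0 : ℝ) ≤ (K1 : ℝ) ^ (2 * m) := by positivity
      nlinarith [mul_le_mul_of_nonneg_left hx1 this]
    have h5 : (K1 : ℝ) ^ m ≤ K2 := le_trans h3 (le_trans h4 P.K12)
    have h6 : K1 ^ m ≤ K2 := by exact_mod_cast h5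
    omega
  have hq : ∀ S ∈ SS K0 K1 m, 1 < qS S ∧ qS S < t ∧ (∀ p ∈ (qS S).primeFactors, K0 < p) ∧
      (qS S).primeFactors.card ≤ m := by
    intro S hS
    obtain ⟨ha, hb, hcc⟩ := hc2 S hS
    rw [SS, mem_filter, mem_powerset] at hS
    refine ⟨by omega, by omega, ?_, ?_⟩
    · intro p hp
      rw [hcc] at hp
      have := hS.1 hp
      rw [Pr, mem_filter, mem_Ioc] at this
      exact this.1.1
    · rw [hcc]
      exact hS.2.2
  -- the sum over the links is zero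
  have hN : Nt K0 K1 m W w0 (c / (25 * r)) (2 * c / (5 * r)) (21 * c / (50 * r)) t g ⌊n ^ 2 / (g : ℝ)⌋₊ = 0 := by
    unfold Nt
    apply Finset.sum_eq_zero
    intro S hS
    rw [mem_filter] at hS
    obtain ⟨hS1, hSg⟩ := hS
    obtain ⟨hq1, hq2, hq3, hq4⟩ := hq S hS1
    have : nq W w0 (c / (25 * r)) (2 * c / (5 * r)) (21 * c / (50 * r)) (qS S) t ⌊n ^ 2 / (g : ℝ)⌋₊ = 0 := by
      unfold nq
      rw [Nat.cast_eq_zero, Finset.card_eq_zero, Finset.filter_eq_empty_iff]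
      intro s hs hdv
      apply hL
      rw [Zs, mem_filter] at hs
      obtain ⟨-, z1, z2, z3, z4, z5, z6, z7⟩ := hs
      refine ⟨qS S, t, s.1, s.2, ⟨by omega, htp.one_lt.le, ?_, ?_, z4, z1, z2, z5, z6, z7⟩, hSg, htg, hdv⟩
      · have hpos : 0 < 2 * c / (5 * r) * (qS S : ℝ) * (t : ℝ) := by
          have h7 : (0 : ℝ) < (qS S : ℝ) := by exact_mod_cast (by omega : 0 < qS S)
          have h8 : (0 : ℝ) < (t : ℝ) := by exact_mod_cast htp.pos
          positivity
        have : (0 : ℝ) < (s.1 : ℝ) := lt_of_lt_of_le hpos z1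
        have : 0 < s.1 := by exact_mod_cast this
        omega
      · apply Nat.Coprime.symm
        rw [htp.coprime_iff_not_dvd]
        intro hd
        have := Nat.le_of_dvd (by omega) hd
        omega
    rw [this, mul_zero]
  -- the expectation is large
  have hA : ((c / (25 * r)) * (Nat.totient (primorial W) : ℝ) / (84 * (primorial W : ℝ))) * ((3 / 2 : ℝ) ^ m - 1) ≤
      At K0 K1 m W w0 (c / (25 * r)) (2 * c / (5 * r)) (21 * c / (50 * r)) t g := by
    have hPp : (0 : ℝ) < (primorial W : ℝ) := by exact_mod_cast primorial_pos W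
    have hem : 0 ≤ (c / (25 * r)) * (Nat.totient (primorial W) : ℝ) / (84 * (primorial W : ℝ)) := by positivity
    have hsz := hc3 g hm
    unfold At
    have hE : ∀ S ∈ (SS K0 K1 m).filter (fun S => qS S ∣ g),
        vS S * ((c / (25 * r)) * (Nat.totient (primorial W) : ℝ) / (84 * (primorial W : ℝ))) ≤
        vS S * Es W w0 (c / (25 * r)) (2 * c / (5 * r)) (21 * c / (50 * r)) (qS S) t := by
      intro S hS
      rw [mem_filter] at hS
      obtain ⟨hS1, hSg⟩ := hS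
      obtain ⟨hq1, hq2, hq3, hq4⟩ := hq S hS1
      have hv : 0 ≤ vS S := by
        unfold vS
        positivity
      apply mul_le_mul_of_nonneg_left _ hv
      have hA1 : 4 * ((m : ℝ) + 1) / (c / (25 * r)) ≤ K0 := by
        refine le_trans ?_ P.K0m
        rw [div_div_eq_mul_div, div_le_iff₀ c0]
        have h9 : 4 * ((m : ℝ) + 1) * (47500 * J / c ^ 2) * c = 4 * ((m : ℝ) + 1) * (25 * (1900 * J / c)) := by
          field_simp
          ring
        rw [h9]
        have : (0 : ℝ) ≤ 4 * ((m : ℝ) + 1) := by positivity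
        apply mul_le_mul_of_nonneg_left _ this
        linarith
      have hA2 : 6 * (primorial W : ℝ) / (21 * c / (50 * r) - 2 * c / (5 * r)) ≤ t := by
        have h10 : 21 * c / (50 * r) - 2 * c / (5 * r) = c / (50 * r) := by
          field_simp
          ring
        rw [h10]
        have h11 : 6 * (primorial W : ℝ) / (c / (50 * r)) ≤ K2 := by
          refine le_trans ?_ P.PK
          rw [div_div_eq_mul_div, div_le_iff₀ c0]
          have h9 : 6 * (primorial W : ℝ) * (95000 * J / c ^ 2) * c = 6 * (primorial W : ℝ) * (50 * (1900 * J / c)) := by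
            field_simp
            ring
          rw [h9]
          apply mul_le_mul_of_nonneg_left _ (by positivity)
          linarith
        refine le_trans h11 ?_
        exact_mod_cast htK2.le
      have h12 := h1 W w0 (c / (25 * r)) (2 * c / (5 * r)) (21 * c / (50 * r)) (qS S) t K0 m hwn hq1 hq3 hq4 htp hq2
        P.WK hA1 hA2
      refine le_trans (le_of_eq ?_) h12
      field_simp
      ring
    refine le_trans ?_ (Finset.sum_le_sum hE)
    rw [← Finset.sum_mul, mul_comm]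
    exact mul_le_mul_of_nonneg_right hsz hem
  rw [hN, zero_sub, neg_sq]
  have h32 : (1 : ℝ) ≤ (3 / 2 : ℝ) ^ m := one_le_pow₀ (by norm_num)
  have hx0 : 0 ≤ ((c / (25 * r)) * (Nat.totient (primorial W) : ℝ) / (84 * (primorial W : ℝ))) * ((3 / 2 : ℝ) ^ m - 1) := by
    apply mul_nonneg
    · positivity
    · linarith
  exact pow_le_pow_left₀ hx0 hA 2

/-- ITEM Un. -/
theorem prf (h1 : StEloC) (h2 : StSz) : StUn := by
  intro n c r J B W K0 K1 K2 K3 m k u v P hr hr2 hk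
  classical
  set X : ℝ := (((c / (25 * r)) * (Nat.totient (primorial W) : ℝ) / (84 * (primorial W : ℝ))) *
    ((3 / 2 : ℝ) ^ m - 1)) ^ 2 with hX
  rw [Finset.sum_comm' (s' := fun g => (Pr K2 K3).filter (fun t => t ∣ g + 1)) (t' := ce n u v B k)
    (h := by
      intro t g
      simp only [mem_filter]
      tauto)]
  rw [mul_comm, ← nsmul_eq_mul, ← Finset.sum_const]
  refine le_trans (Finset.sum_le_sum ?_) (Finset.sum_le_sum_of_subset_of_nonneg (Finset.filter_subset _ _) ?_)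
  · intro g hg
    rw [mem_filter] at hg
    obtain ⟨-, hm, ⟨t, ht, htg⟩, hL⟩ := hg
    have hk1 := key h1 h2 P hr hr2 hk hm ht htg hL
    refine le_trans hk1 ?_
    exact Finset.single_le_sum (f := fun t => (Nt K0 K1 m W (((k : ℝ) + 1) / B + 17 / 20 * c / r) (c / (25 * r))
        (2 * c / (5 * r)) (21 * c / (50 * r)) t g ⌊n ^ 2 / (g : ℝ)⌋₊ -
      At K0 K1 m W (((k : ℝ) + 1) / B + 17 / 20 * c / r) (c / (25 * r)) (2 * c / (5 * r)) (21 * c / (50 * r)) t g) ^ 2)
      (fun i _ => sq_nonneg _) (mem_filter.mpr ⟨ht, htg⟩)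
  · intro g _ _
    exact Finset.sum_nonneg (fun t _ => sq_nonneg _)

end Pool.Agent.Work.MP_a8fbd7_nt.PAR.EF.I_Un
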