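import Pool.Agent.Work.MP_a8fbd7_nt.PAR.EF.StmtsQ

set_option autoImplicit false

/-!
MP_a8fbd7_nt, block EF, part Q: assembly of the three interface statements.
-/

open Finset

noncomputable section

namespace Pool.Agent.Work.MP_a8fbd7_nt.PAR.EF

open Pool.Agent.Work.MP_a8fbd7_nt.PAR.LC

theorem Q_fne (h : StFnG) : StFneC := by
  intro W w0 ω e0 e1 q q' t hw hq hq' hne ht hW hoq hoq' hD
  exact h W w0 ω e0 e1 q t q' t hw hq hq' hne ht ht hW hoq hoq' hD hD

theorem Q_feq (h : StFqG) (hg : StGdC) : StFeqC := by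
  intro W w0 ω e0 e1 q t hw hq ht hc hW hoq hD
  have h1 := h W w0 ω e0 e1 q t t hw hq ht ht hW hoq hD hD
  have h2 := hg W w0 ω e0 e1 q t hw hq ht hc
  nlinarith [h1, h2]

end Pool.Agent.Work.MP_a8fbd7_nt.PAR.EF
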