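import Pool.Agent.Work.MP_a8fbd7_nt.PAR.EF.Defs

set_option autoImplicit false

/-!
MP_a8fbd7_nt, block EF, part H (anatomy of integers), captain helper73.  The docstring of each statement is its complete proof.  An item is
`theorem prf (h1 : StA) ... : StNAME` in `PAR/EF/I_NAME.lean` (namespace `...PAR.EF.I_NAME`) with exactly the hypotheses listed.
-/

open Finset

noncomputable section

namespace Pool.Agent.Work.MP_a8fbd7_nt.PAR.EF

open Pool.Agent.Work.MP_a8fbd7_nt.PAR.LC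

/-- `y` to the number of the elements of `S` which divide `g` -/
def yS (S : Finset ℕ) (y : ℝ) (g : ℕ) : ℝ := y ^ (S.filter (fun p => p ∣ g)).card

/-- ITEM H1 (Chebyshev with prime powers).  Primes: `∑ log p = θ(M) ≤ log 4 · M` (Mathlib `Chebyshev.theta_le_log4_mul_x`).  `d = p^k ≤ M`, `k ≥ 2`: `log d = k log p = k Λ(d)` and `k ≤ log M/log 2`, so this part is at most
`(log M/log 2)(ψ(M) - θ(M)) ≤ (log M/log 2) · 2 √M log M ≤ C M` (Mathlib `Chebyshev.psi_sub_theta_le`, `Chebyshev.psi_sub_theta_eq_sum_not_prime`). -/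
def StH1 : Prop := ∃ C : ℝ, 1 ≤ C ∧ ∀ M : ℕ, ∑ d ∈ (Icc 1 M).filter IsPrimePow, Real.log d ≤ C * M

/-- ITEM H2 (mean value, Hall-Tenenbaum).  Uses StH1.  `f = yS S y`, `0 ≤ f ≤ 1`.  For `g ≥ 1`: `log g = ∑_{p ∣ g} log p^(v_p g)`; write `g = d m`, `d = p^(v_p g)`: `f(g) ≤ f(m)` because every element of `S` dividing `m` divides `g` and `0 ≤ y ≤ 1`.  The map `(g, p) ↦ (d, m)` is
injective, so `∑_{g ≤ X} f(g) log g ≤ ∑_{m ≤ X} f(m) ∑_{d ≤ X/m prime power} log d ≤ C X ∑_{m ≤ X} f(m)/m`.  `∑ f(g) log(X/g) ≤ ∑ f(g) X/g` and `∑ f(g) ≤ X ∑ f(g)/g`.  Add the three. -/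
def StH2 : Prop := ∃ C : ℝ, 1 ≤ C ∧ ∀ (X : ℕ) (S : Finset ℕ) (y : ℝ), 1 ≤ X → 0 ≤ y → y ≤ 1 →
  (1 + Real.log X) * ∑ g ∈ Icc 1 X, yS S y g ≤ C * X * ∑ g ∈ Icc 1 X, yS S y g / g

/-- ITEM H3 (Euler product).  `f = yS S y` satisfies `f(1) = 1` and `f(ab) = f(a) f(b)` for coprime `a, b` (`S` a set of primes), `f(p^k) = f(p)` for `k ≥ 1`, which is `y` for `p ∈ S` and `1` otherwise.  All `m ≤ X` are in `Nat.smoothNumbers (X+1)`, so by Mathlib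
`EulerProduct.summable_and_hasSum_smoothNumbers_prod_primesBelow_tsum` (for `m ↦ f(m)/m`) the sum is at most `∏_{p ≤ X} (1 + f(p)/(p-1)) ≤ exp(∑_{p ≤ X} f(p)/p + ∑ 1/(p(p-1))) ≤ e · exp(∑_{p ≤ X} 1/p - (1-y) ∑_{p ∈ S} 1/p)`, and
`exp(∑_{p ≤ X} 1/p) ≤ C log X` for `X ≥ 2` (`S_Mert` of `Pool.Agent.Work.MP_56b8f5_nt.WM`, theorem `I_Mert.Mert_pf`, `S1`). -/
def StH3 : Prop := ∃ C : ℝ, 1 ≤ C ∧ ∀ (X : ℕ) (S : Finset ℕ) (y : ℝ), 2 ≤ X → (∀ p ∈ S, p.Prime ∧ p ≤ X) → 0 ≤ y → y ≤ 1 →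
  ∑ g ∈ Icc 1 X, yS S y g / g ≤ C * (1 + Real.log X) * Real.exp (-((1 - y) * ∑ p ∈ S, 1 / (p : ℝ)))

/-- ITEM Om (few small prime factors).  Uses StH2, StH3.  StH2 and StH3 give `∑_{g ≤ X} yS S y g ≤ C X exp(-(1-y) ∑_{p ∈ S} 1/p)`.  `S = Pr a b`, `y = 1/2`: if `om a b g < m` then `2^m (1/2)^(om a b g) ≥ 1`, so the number is at most `2^m ∑_{g ≤ X} (1/2)^(om a b g)`. -/
def StOm' : Prop := StH2 → StH3 → StOm

/-- ITEM No (no prime factor).  Uses StH2, StH3.  As StOm with `y = 0` (`0^0 = 1`, so `yS S 0 g = 1` if no element of `S` divides `g`) and `X + 1` for `X`: the `g + 1` are in `[1, X+1]`, `X + 1 ≤ 2X`. -/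
def StNo' : Prop := StH2 → StH3 → StNo

/-- ITEM SrI (Mertens).  `S_Mert` of `Pool.Agent.Work.MP_56b8f5_nt.WM` (theorem `I_Mert.Mert_pf`; `S1 y = ∑_{p ≤ y} 1/p`, `exp (S1 y)` is between `(log y)/C` and `C log y` for `y ≥ 2`): `Sr a b = S1 b - S1 a`, so `exp(Sr a b)` is between
`log b/(C² log a)` and `C² log b/log a`. -/
def StSrI : Prop := StSr

/-- ITEM SSu (sums over `SS`).  All terms are positive, so sum over all subsets of `Pr a b`.  (i) `vS S²/qS S = ∏_{p ∈ S} 1/(4p)`: `∑_S = ∏_{p ∈ Pr} (1 + 1/(4p)) ≤ exp(Sr/4)` (Mathlib `Finset.prod_one_add` or `Finset.prod_add`).  (ii) `lcm(qS S, qS S') = ∏_{p ∈ S ∪ S'} p` and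
`vS S vS S'/lcm = ∏_{p ∈ Pr} h_p`, `h_p = 1` if `p ∉ S ∪ S'`, `1/(2p)` if `p` is in exactly one of `S`, `S'`, `1/(4p)` if in both; so the double sum is `∏_{p} (1 + 1/(2p) + 1/(2p) + 1/(4p)) = ∏ (1 + 5/(4p)) ≤ exp(5 Sr/4)`.  (For instance: for fixed `S` the sum over
`S'` is `∏_{p ∈ S} (1/(2p))(1 + 1/2) ∏_{p ∉ S} (1 + 1/(2p))`; then sum over `S`: `∏ (3/(4p) + 1 + 1/(2p))`.) -/
def StSSu : Prop := StSS

/-- ITEM Szz (sizes).  (i) a nonempty set of at most `m` elements of `(a, b]` is the set of the values of some `m`-tuple of elements of `{0, ..., b}` with `0` removed: at most `(b+1)^m`.  (ii) `qS S` is the product of between `1` and `m` primes of `(a, b]`, `a ≥ 1`.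
(iii) choose a set `U` of exactly `m` primes of `(a, b]` dividing `g`: every nonempty `S ⊆ U` is in `SS a b m` and `qS S ∣ g`, and `∑_{S ⊆ U} (1/2)^|S| = (3/2)^m`. -/
def StSzz : Prop := StSz

end Pool.Agent.Work.MP_a8fbd7_nt.PAR.EF
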