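import Pool.Agent.Work.MP_a8fbd7_nt.PAR.EF.Defs

set_option autoImplicit false

/-!
MP_a8fbd7_nt, block EF, parts M (second moment over the cells) and C (chain), captain helper73.  The docstring of each statement is its
complete proof.  An item is `theorem prf (h1 : StA) (h2 : StB) ... : StNAME` in `PAR/EF/I_NAME.lean` (namespace `...PAR.EF.I_NAME`) with
exactly the hypotheses listed in the docstring.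
-/

open Finset

noncomputable section

namespace Pool.Agent.Work.MP_a8fbd7_nt.PAR.EF

open Pool.Agent.Work.MP_a8fbd7_nt.PAR.LC

/-! ## Definitions -/

/-- the number of pairs of `Zs` with `z ∣ q M + ρ` -/
def nq (W : ℕ) (w0 ω e0 e1 : ℝ) (q t M : ℕ) : ℝ := (((Zs W w0 ω e0 e1 q t).filter (fun s => s.1 ∣ q * M + s.2)).card : ℝ)

/-- the weighted number of links at `g` with the given `t`; `q` runs over the products of at most `m` primes of `(a, b]` -/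
def Nt (a b m W : ℕ) (w0 ω e0 e1 : ℝ) (t g M : ℕ) : ℝ :=
  ∑ S ∈ (SS a b m).filter (fun S => qS S ∣ g), vS S * nq W w0 ω e0 e1 (qS S) t M

/-- its expectation -/
def At (a b m W : ℕ) (w0 ω e0 e1 : ℝ) (t g : ℕ) : ℝ :=
  ∑ S ∈ (SS a b m).filter (fun S => qS S ∣ g), vS S * Es W w0 ω e0 e1 (qS S) t

/-- the `g` of `[u, v]` in the cell `k` -/
def ce (n : ℝ) (u v B k : ℕ) : Finset ℕ := cel2 (n ^ 2) u v 1 0 1 0 B k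

/-- `g` has a link of the block `r`, cell `k` (with `j = 1`) -/
def Lkd (n c r : ℝ) (B k g : ℕ) : Prop := ∃ q t z ρ : ℕ,
  Lnk (((k : ℝ) + 1) / B + 17 / 20 * c / r) (c / (25 * r)) (2 * c / (5 * r)) (21 * c / (50 * r)) q t z ρ ∧
  q ∣ g ∧ t ∣ g + 1 ∧ z ∣ q * ⌊n ^ 2 / (g : ℝ)⌋₊ + ρ

/-- The conditions on the parameters.  `R = 200 J/c`; the blocks are `[r n, (21/20) r n]`, `R ≤ r ≤ (19/2) R`. -/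
structure Pa (n c : ℝ) (J B W K0 K1 K2 K3 m : ℕ) : Prop where
  hn : 1 ≤ n
  c0 : 0 < c
  c1 : c ≤ 1 / 10
  J1 : 8 / c ^ 2 ≤ J
  J2 : (J : ℝ) ≤ 9 / c ^ 2
  B1 : 380000 * J / c ^ 2 ≤ B
  B2 : (B : ℝ) ≤ 400000 * J / c ^ 2
  /-- all the parameters are small powers of `n` -/
  s1 : (K1 : ℝ) ^ m * K3 ≤ n ^ (1 / 200 : ℝ)
  s2 : 10 ^ 7 * (J : ℝ) ^ 2 / c ^ 3 ≤ n ^ (1 / 100 : ℝ)
  W1 : 1 ≤ W
  WK : W ≤ K0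
  m1 : 1 ≤ m
  K0m : 4 * ((m : ℝ) + 1) * (47500 * J / c ^ 2) ≤ K0
  K01 : K0 ≤ K1
  K12 : 3 * (K1 : ℝ) ^ (2 * m) * (95000 * J / c ^ 2) ≤ K2
  PK : 6 * (primorial W : ℝ) * (95000 * J / c ^ 2) ≤ K2
  K23 : K2 ≤ K3

/-! ## Part M -/

/-- ITEM Cn (joint counts).  Uses StEQE.  `M = ⌊n²/g⌋`, `X = v - u`, error `E = C n^(19/20)` with the `C` of StEQE.  `lcm(q,q') ∣ g` and `t ∣ g + 1`, the two moduli coprime: one class of `g` modulo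
`D = lcm(q,q') t ≤ q q' t ≤ n^(3/200)` (Chinese remainder theorem).  `z ∣ q M + ρ`, `gcd(z,q) = 1`: one class of `M` modulo `z`.  Both conditions on `M`: if they have a common solution `M0` then
`gcd(z,z') ∣ q'ρ - qρ'` (both `q q' M0 ≡ -q'ρ` and `≡ -qρ'` modulo the gcd) and the solutions are one class modulo `lcm(z,z') = z z'/gcd(z,z') ≤ n^(1/100)`: the count is
`≤ X gcd(z,z')/(D z z' B) + E = (X/(DB)) cor + E`; otherwise it is `0`.  (i) is StEQE with `Z = 1`, (ii) with `Z = z`. -/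
def StCn : Prop := ∃ C : ℝ, 1 ≤ C ∧ ∀ (n r : ℝ) (u v B k q q' t z z' ρ ρ' : ℕ), 1 ≤ n → n ^ (-(1 / 50) : ℝ) ≤ r → r ≤ n ^ (1 / 50 : ℝ) →
  r * n ≤ u → u ≤ v → (v : ℝ) ≤ 2 * r * n → 1 ≤ B → (B : ℝ) ≤ n ^ (1 / 50 : ℝ) → k < B →
  1 ≤ q → 1 ≤ q' → 1 ≤ t → 1 ≤ z → 1 ≤ z' → q.Coprime t → q'.Coprime t → z.Coprime q → z'.Coprime q' →
  (q : ℝ) ≤ n ^ (1 / 200 : ℝ) → (q' : ℝ) ≤ n ^ (1 / 200 : ℝ) → (t : ℝ) ≤ n ^ (1 / 200 : ℝ) → (z : ℝ) ≤ n ^ (1 / 200 : ℝ) →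
  (z' : ℝ) ≤ n ^ (1 / 200 : ℝ) →
  (((ce n u v B k).filter (fun g => q ∣ g ∧ q' ∣ g ∧ t ∣ g + 1)).card : ℝ) ≤
    ((v : ℝ) - u) / ((Nat.lcm q q' : ℝ) * t * B) + C * n ^ (19 / 20 : ℝ) ∧
  ((v : ℝ) - u) / ((Nat.lcm q q' : ℝ) * t * B) / z - C * n ^ (19 / 20 : ℝ) ≤
    (((ce n u v B k).filter (fun g => q ∣ g ∧ q' ∣ g ∧ t ∣ g + 1 ∧ z ∣ q * ⌊n ^ 2 / (g : ℝ)⌋₊ + ρ)).card : ℝ) ∧
  (((ce n u v B k).filter (fun g => q ∣ g ∧ q' ∣ g ∧ t ∣ g + 1 ∧ z ∣ q * ⌊n ^ 2 / (g : ℝ)⌋₊ + ρ ∧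
      z' ∣ q' * ⌊n ^ 2 / (g : ℝ)⌋₊ + ρ')).card : ℝ) ≤
    ((v : ℝ) - u) / ((Nat.lcm q q' : ℝ) * t * B) * cor q q' (z, ρ) (z', ρ') + C * n ^ (19 / 20 : ℝ)

/-- ITEM Va (variance for one `t`).  Uses StCn, StSz.  `q = qS S ∈ (a, b^m]`, `q' = qS S'`, `M = ⌊n²/g⌋`.  `Nt - At = ∑_{S : q ∣ g} vS ∑_{s ∈ Zs(q,t)} (1[z ∣ qM+ρ] - 1/z)`.  Square and sum over the `g ∈ ce`,
`t ∣ g + 1`: `∑_{S,S'} vS vS' ∑_{s,s'} ∑_{g : q ∣ g, q' ∣ g, t ∣ g + 1} (1_s - 1/z)(1_s' - 1/z')`, the inner sum is `C2 - C1/z' - C1'/z + C0/(zz')`, by StCn (`X = v - u`, `D = lcm(q,q') t`, (ii) also with the roles of `q`, `q'`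
exchanged, `E = C n^(19/20)`) `≤ (X/(DB)) (cor - 1/(zz')) + 4E`.  Sum over `s, s'`: `∑ cor = Fs`, `∑ 1/(zz') = Es Es'`, and `0 ≤ vS ≤ 1`; the error is `≤ 4E (∑_S |Zs(qS S, t)|)²`; `|SS| ≤ (b+1)^m ≤ (b^m)²` (`b ≥ 2` if `SS` is nonempty),
`|Zs| ≤ (qt+1)(3q+1) ≤ 8 q² t`, so `∑_S |Zs| ≤ 8 (b^m t)⁴ ≤ 8 n^(1/50)` and the error is `≤ 256 C n^(19/20 + 1/25) ≤ 256 C n^(99/100)`.  (`z ≤ e1 q t ≤ q t ≤ n^(1/200)`; `t` prime `> b`, so prime to `q`; `z ≥ e0 q t > 0`.) -/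
def StVa : Prop := ∃ C : ℝ, 1 ≤ C ∧ ∀ (n r w0 ω e0 e1 : ℝ) (u v B k a b m W t : ℕ), 1 ≤ n → n ^ (-(1 / 50) : ℝ) ≤ r →
  r ≤ n ^ (1 / 50 : ℝ) → r * n ≤ u → u ≤ v → (v : ℝ) ≤ 2 * r * n → 1 ≤ B → (B : ℝ) ≤ n ^ (1 / 50 : ℝ) → k < B → Wn w0 ω e0 e1 →
  1 ≤ a → a ≤ b → t.Prime → b < t → (b : ℝ) ^ m * t ≤ n ^ (1 / 200 : ℝ) →
  ∑ g ∈ (ce n u v B k).filter (fun g => t ∣ g + 1),
      (Nt a b m W w0 ω e0 e1 t g ⌊n ^ 2 / (g : ℝ)⌋₊ - At a b m W w0 ω e0 e1 t g) ^ 2 ≤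
    ((v : ℝ) - u) / (t * B) * ∑ S ∈ SS a b m, ∑ S' ∈ SS a b m, vS S * vS S' / (Nat.lcm (qS S) (qS S') : ℝ) *
      (Fs W w0 ω e0 e1 (qS S) t (qS S') t - Es W w0 ω e0 e1 (qS S) t * Es W w0 ω e0 e1 (qS S') t) + C * n ^ (99 / 100 : ℝ)

/-- ITEM Bn (bound for the main term of StVa in the windows of a block).  Uses StFneC, StFeqC, StSS, StSz.  `ω = c/(25 r)`, `e0 = 2c/(5r)`, `e1 = 21c/(50r)`, `η = e1 - e0 = c/(50 r)`: `η/e0 = 1/20`, `e1/e0 = 21/20`,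
`1/ω = 25r/c ≤ 47500 J/c² ≤ K0`, `1/η ≤ 95000 J/c²`.  `S ≠ S'`: `qS S ≠ qS S'` (StSz: their sets of prime factors are `S`, `S'`), StFneC (`3 q q' ≤ 3 K1^(2m) ≤ η K2 ≤ η t`, `q' > K0`) gives
`Fs - Es Es' ≤ (8 ω/400)(ω/W + (1 + log (3 K1^(2m)))/K0) ≤ Δ`, `Δ = ω²/(10 W) + (1 + log (3 K1^(2m)))/K0` (`ω ≤ 1`).  `S = S'`: StFeqC gives `≤ 16 ω²/(400 W) + 21/10 + (21/10)(1 + log(qt))²/q ≤ Δ + 3 (1 + log (K1^m K3))²/K0 + 3`.  By StSS the total is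
`≤ exp(5 Sr/4) Δ + exp(Sr/4) (3 + 3 (1 + log (K1^m K3))²/K0)` (all terms of the bounds are nonnegative; `lcm(q,q) = q`). -/
def StBn : Prop := ∀ (n c r : ℝ) (J B W K0 K1 K2 K3 m k t : ℕ), Pa n c J B W K0 K1 K2 K3 m → 200 * J / c ≤ r →
  r ≤ 1900 * J / c → k ≤ B / J → t ∈ Pr K2 K3 →
  ∑ S ∈ SS K0 K1 m, ∑ S' ∈ SS K0 K1 m, vS S * vS S' / (Nat.lcm (qS S) (qS S') : ℝ) *
      (Fs W (((k : ℝ) + 1) / B + 17 / 20 * c / r) (c / (25 * r)) (2 * c / (5 * r)) (21 * c / (50 * r)) (qS S) t (qS S') t -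
        Es W (((k : ℝ) + 1) / B + 17 / 20 * c / r) (c / (25 * r)) (2 * c / (5 * r)) (21 * c / (50 * r)) (qS S) t *
        Es W (((k : ℝ) + 1) / B + 17 / 20 * c / r) (c / (25 * r)) (2 * c / (5 * r)) (21 * c / (50 * r)) (qS S') t) ≤
    Real.exp (5 * Sr K0 K1 / 4) * ((c / (25 * r)) ^ 2 / (10 * W) + (1 + Real.log (3 * (K1 : ℝ) ^ (2 * m))) / K0) +
    Real.exp (Sr K0 K1 / 4) * (3 + 3 * (1 + Real.log ((K1 : ℝ) ^ m * K3)) ^ 2 / K0)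

open Classical in
/-- ITEM Un (unlinked `g` of a cell).  Uses StEloC, StSz.  For a `g` of the left set choose `t ∈ Pr K2 K3` with `t ∣ g + 1`.  `Nt(t, g, M) = 0`: a pair `s ∈ Zs(qS S, t)`, `qS S ∣ g`, with `z ∣ qM + ρ` would give a link
(`Lnk`: `z ≥ e0 q t > 0`; `q` and `t` are coprime because `t` is a prime `> K2 ≥ K1^m ≥ q`).  `At(t, g) ≥ Em ∑_{S : qS S ∣ g} vS S ≥ Em ((3/2)^m - 1)` by StEloC (`q > K0 ≥ W`, the primes of `q` are `> K0`, at most `m` of them,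
`4(m+1)/ω ≤ K0` as `1/ω ≤ 47500J/c²`, `6 primorial W/η ≤ K2 < t`; `η/e1 = 1/21`, so the bound of StEloC is `Em = (c/(25r)) φ(P)/(84 P)`) and StSz.  So `(Nt - At)² ≥ (Em ((3/2)^m - 1))²`, and `g` is in the sum for this `t`. -/
def StUn : Prop := ∀ (n c r : ℝ) (J B W K0 K1 K2 K3 m k u v : ℕ), Pa n c J B W K0 K1 K2 K3 m → 200 * J / c ≤ r →
  r ≤ 1900 * J / c → k ≤ B / J →
  (((c / (25 * r)) * (Nat.totient (primorial W) : ℝ) / (84 * (primorial W : ℝ))) * ((3 / 2 : ℝ) ^ m - 1)) ^ 2 *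
    (((ce n u v B k).filter (fun g => m ≤ om K0 K1 g ∧ (∃ t ∈ Pr K2 K3, t ∣ g + 1) ∧ ¬ Lkd n c r B k g)).card : ℝ) ≤
  ∑ t ∈ Pr K2 K3, ∑ g ∈ (ce n u v B k).filter (fun g => t ∣ g + 1),
    (Nt K0 K1 m W (((k : ℝ) + 1) / B + 17 / 20 * c / r) (c / (25 * r)) (2 * c / (5 * r)) (21 * c / (50 * r)) t g
        ⌊n ^ 2 / (g : ℝ)⌋₊ -
      At K0 K1 m W (((k : ℝ) + 1) / B + 17 / 20 * c / r) (c / (25 * r)) (2 * c / (5 * r)) (21 * c / (50 * r)) t g) ^ 2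

open Classical in
/-- ITEM Um (unlinked `g` of a cell, numbers).  Uses StVa, StBn, StUn.  `u = ⌈r n⌉`, `v = ⌊(21/20) r n⌋`, `v - u ≤ r n/20 ≤ 95 J n/c`.  Sum StVa over `t ∈ Pr K2 K3`: `∑ 1/t = Sr K2 K3`, at most `K3 ≤ n^(1/200)` values of `t`, and
`99/100 + 1/200 ≤ 199/200`.  (StVa: `n^(-1/50) ≤ 1 ≤ r ≤ 1900J/c ≤ n^(1/50)` by `s2`, `B ≤ n^(1/50)` by `B2`, `s2`; `k ≤ B/J < B`; `Wn`: `w0 = (k+1)/B + 17c/(20r) ≤ 2`, `ω ≤ 1/2`, `e1 ≤ 1`; `u ≤ v` as `r n ≥ 20`... `r ≥ 200 J/c ≥ 200`.) -/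
def StUm : Prop := ∃ C : ℝ, 1 ≤ C ∧ ∀ (n c r : ℝ) (J B W K0 K1 K2 K3 m k : ℕ), Pa n c J B W K0 K1 K2 K3 m → 200 * J / c ≤ r →
  r ≤ 1900 * J / c → k ≤ B / J →
  (((c / (25 * r)) * (Nat.totient (primorial W) : ℝ) / (84 * (primorial W : ℝ))) * ((3 / 2 : ℝ) ^ m - 1)) ^ 2 *
    (((ce n ⌈r * n⌉₊ ⌊21 / 20 * r * n⌋₊ B k).filter
      (fun g => m ≤ om K0 K1 g ∧ (∃ t ∈ Pr K2 K3, t ∣ g + 1) ∧ ¬ Lkd n c r B k g)).card : ℝ) ≤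
  (95 * J * n / c) / B * Sr K2 K3 *
    (Real.exp (5 * Sr K0 K1 / 4) * ((c / (25 * r)) ^ 2 / (10 * W) + (1 + Real.log (3 * (K1 : ℝ) ^ (2 * m))) / K0) +
      Real.exp (Sr K0 K1 / 4) * (3 + 3 * (1 + Real.log ((K1 : ℝ) ^ m * K3)) ^ 2 / K0)) + C * n ^ (199 / 200 : ℝ)

/-! ## Part C: the chain -/

/-- the bad `g`: `n²/g` is slightly above an integer, but `f g ≠ f (g+1)` -/
def Bd (f : ℕ → ℤ) (n R : ℝ) (J : ℕ) : Finset ℕ :=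
  (Icc ⌈R * n⌉₊ ⌊9 * R * n⌋₊).filter (fun g => n ^ 2 / (g : ℝ) - ⌊n ^ 2 / (g : ℝ)⌋₊ < 1 / (J : ℝ) ∧ f g ≠ f (g + 1))

/-- `p` is aligned to `m`: the residue of `⌊n²/m⌋` modulo `p` is in `[p/(2J), p/J - 1]` -/
def Al (n : ℝ) (J p m : ℕ) : Prop := (p : ℝ) / (2 * J) ≤ ((⌊n ^ 2 / (m : ℝ)⌋₊ % p : ℕ) : ℝ) ∧
  ((⌊n ^ 2 / (m : ℝ)⌋₊ % p : ℕ) : ℝ) + 1 ≤ (p : ℝ) / J

/-- the number of the residues of `Al` -/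
def np (J p : ℕ) : ℕ := ((range p).filter (fun b : ℕ => (p : ℝ) / (2 * J) ≤ (b : ℝ) ∧ (b : ℝ) + 1 ≤ (p : ℝ) / J)).card

/-- the mean number of aligned primes of `(J², 4J²]` -/
def muJ (J : ℕ) : ℝ := ∑ p ∈ Pr (J ^ 2) (4 * J ^ 2), (np J p : ℝ) / p

open Classical in
/-- ITEM LkE (a link gives `f g = f (g+1)`).  Uses StLkD.  StLkD with `j = 1`, `k0 = 0`, `a0 = 17/20`: `|0 - k/B| ≤ 1/J` and `0 - k/B ≤ 0` as `k ≤ B/J`; `200 r/c ≤ 380000 J/c² ≤ B`; `1000 J r/c² ≤ 1.9·10⁶ J²/c³ ≤ n` by `s2`; `Ex f F n c` is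
empty by `Cst` (its elements `m` have `n² ≤ m ≤ n² + cn`). -/
def StLkE : Prop := ∀ (f : ℕ → ℤ) (F : ℤ) (n c r : ℝ) (J B W K0 K1 K2 K3 m k g : ℕ), Pa n c J B W K0 K1 K2 K3 m → Sgn f →
  Cst f F n c → 200 * J / c ≤ r → r ≤ 1900 * J / c → k ≤ B / J → g ∈ ce n ⌈r * n⌉₊ ⌊21 / 20 * r * n⌋₊ B k →
  Lkd n c r B k g → f g = f (g + 1)

open Classical in
/-- ITEM Bd1 (the bad `g` are unlinked or exceptional).  Uses StLkE.  Let `g ∈ Bd`, `r_i = R (21/20)^i`, `i < 46` (`(21/20)^46 > 9`; `(21/20)^45 ≤ 9.1`, so `r_i ≤ 9.5 R = 1900 J/c`): `g` lies in some `[⌈r_i n⌉, ⌊(21/20) r_i n⌋]`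
(the reals `[r_i n, r_(i+1) n]`, `i < 46`, cover `[Rn, 9Rn]`).  With `k = ⌊B · frac⌋`, `frac = n²/g - ⌊n²/g⌋ < 1/J`: `k/B ≤ frac < (k+1)/B` and `k ≤ B/J` (`k ≤ B frac < B/J` in the reals), so `g ∈ ce n ⌈r_i n⌉ ⌊(21/20) r_i n⌋ B k`.  By StLkE
`g` has no link there.  So `g` has `om < m`, or no `t`, or is in one of the sets of the sum. -/
def StBd1 : Prop := ∀ (f : ℕ → ℤ) (F : ℤ) (n c : ℝ) (J B W K0 K1 K2 K3 m : ℕ), Pa n c J B W K0 K1 K2 K3 m → Sgn f → Cst f F n c →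
  ((Bd f n (200 * J / c) J).card : ℝ) ≤
    (((Icc 1 ⌊1800 * J / c * n⌋₊).filter (fun g => om K0 K1 g < m)).card : ℝ) +
    (((Icc 1 ⌊1800 * J / c * n⌋₊).filter (fun g => ∀ p ∈ Pr K2 K3, ¬ p ∣ g + 1)).card : ℝ) +
    ∑ i ∈ range 46, ∑ k ∈ range (B / J + 1),
      (((ce n ⌈200 * J / c * (21 / 20 : ℝ) ^ i * n⌉₊ ⌊21 / 20 * (200 * J / c * (21 / 20 : ℝ) ^ i) * n⌋₊ B k).filter
        (fun g => m ≤ om K0 K1 g ∧ (∃ t ∈ Pr K2 K3, t ∣ g + 1) ∧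
          ¬ Lkd n c (200 * J / c * (21 / 20 : ℝ) ^ i) B k g)).card : ℝ)

open Classical in
/-- ITEM Ch1 (one prime).  `R = 200J/c`, `X = ⌈Rn/J²⌉`, `M = ⌊n²/m⌋`, `b = M % p`, `M = pQ + b`, `n²/(pm) = Q + (b + θ)/p`, `θ = n²/m - M ∈ [0,1)`, so `n²/(pm) ∈ [Q + 1/(2J), Q + 1/J)` by `Al`.  For `g = pm + i`, `i < p`:
`n²/(pm) ≥ n²/g > n²/(pm) - n²/(p m (m+1)) ≥ n²/(pm) - J²/R²` (`p > J²`, `m ≥ X ≥ Rn/J²`: `n²/(p m²) ≤ n² J⁴/(J² R² n²)`), and `J²/R² = c²/40000 ≤ 1/(2J)` (`J ≤ 9/c²`).  So `⌊n²/g⌋ = Q` and `n²/g - Q < 1/J`.  If `f m ≠ f(m+1)` then `f(pm) = f(p)f(m) ≠ f(p)f(m+1) = f(pm+p)`,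
so `f g ≠ f(g+1)` for some `g = pm + i`, `i < p`; `g ≥ pm ≥ Rn`, `g ≤ 4J² · 2X ≤ 8Rn + 8J² ≤ 9Rn` (`m + 1 ≤ 2X`, `Rn ≥ 8J²`): `g ∈ Bd`.  Different `m` give different `g` (`m = g / p`). -/
def StCh1 : Prop := ∀ (f : ℕ → ℤ) (n c : ℝ) (J p : ℕ), Sgn f → 0 < c → c ≤ 1 / 10 → 8 / c ^ 2 ≤ J → (J : ℝ) ≤ 9 / c ^ 2 →
  8 * (J : ℝ) ^ 2 ≤ 200 * J / c * n → 1 ≤ n → p ∈ Pr (J ^ 2) (4 * J ^ 2) →
  (((Ico ⌈200 * J / c * n / J ^ 2⌉₊ (2 * ⌈200 * J / c * n / J ^ 2⌉₊)).filter (fun m => Al n J p m ∧ f m ≠ f (m + 1))).card : ℝ) ≤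
    ((Bd f n (200 * J / c) J).card : ℝ)

open Classical in
/-- ITEM Mo (moments).  Uses StEQE.  `P = Pr (J²) (4J²)`, `X = ⌈200 n/(cJ)⌉`, `N(m) = #{p ∈ P : Al}`, `μ = muJ J`, `M = ⌊n²/m⌋`.  StEQE with `r = X/n`, `a = X`, `b = 2X - 1`, `D = 1`, `B = 1`, `k = 0`, `x0 = 0` (all `m`; the fractional part is in
`[0,1)`): `|#{m ∈ [X,2X) : M ≡ M0 mod Z} - (X-1)/Z| ≤ E`, `E = C n^(19/20)`, for `Z = p` and `Z = p p' ≤ 16J⁴` (`200/(cJ) ≥ 22c ≥ n^(-1/50)`, `X/n ≤ 25c + 1 ≤ n^(1/50)`, `16 J⁴ ≤ n^(1/50)` by the hypothesis on `J`, `c`).  `∑ N = ∑_p ∑_b #{M ≡ b mod p} ≥ (X-1) μ - E ∑ np`;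
`∑ N² = ∑_{p,p'}`: the terms `p = p'` give `∑ N ≤ (X-1) μ + E ∑ np`, the terms `p ≠ p'` (Chinese remainder theorem: one class modulo `pp'` for each pair of residues) `≤ ∑ np np' ((X-1)/(pp') + E) ≤ (X-1) μ² + E (∑ np)²`.  So
`∑ (N-μ)² = ∑ N² - 2μ ∑ N + μ² X ≤ (X-1)(μ² + μ) - 2μ²(X-1) + μ² X + E' = (X-1) μ + μ² + E'`, `E' ≤ E((∑np)² + ∑np + 2μ∑np)`, `∑ np ≤ 4J² · 4J = 16J³`, `μ ≤ ∑ 1 ≤ 4J²`: `μ² + E' ≤ 10⁴ C J⁶ n^(19/20) ≤ X` for `n ≥ n1` (`X ≥ 22 c n`, `J⁶ ≤ n^(6/400)`, `c ≥ n^(-1/400)`). -/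
def StMo : Prop := ∃ n1 : ℝ, ∀ (n c : ℝ) (J : ℕ), n1 ≤ n → 0 < c → c ≤ 1 / 10 → 8 / c ^ 2 ≤ J → (J : ℝ) ≤ 9 / c ^ 2 →
  (J : ℝ) / c ≤ n ^ (1 / 400 : ℝ) →
  ∑ m ∈ Ico ⌈200 * J / c * n / J ^ 2⌉₊ (2 * ⌈200 * J / c * n / J ^ 2⌉₊),
    ((((Pr (J ^ 2) (4 * J ^ 2)).filter (fun p => Al n J p m)).card : ℝ) - muJ J) ^ 2 ≤
    (⌈200 * J / c * n / J ^ 2⌉₊ : ℝ) * (muJ J + 1)

/-- ITEM Mu (mean).  `J ≥ 12`, `p > J²`: `np J p ≥ p/J - 1 - p/(2J) - 1 = p/(2J) - 2 ≥ p/(3J)` (`p/(6J) ≥ J/6 ≥ 2`; the integers of `[p/(2J), p/J - 1]`, all `< p`).  So `muJ ≥ |P|/(3J)`, and `|P| ≥ J^(3/2)` for large `J`: Mathlib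
`Chebyshev.theta_ge` and `Chebyshev.theta_le_log4_mul_x` give `θ(4x) - θ(x) ≥ 4x log 2 - 2x log 2 - o(x) ≥ x` for `x = J²` large, so `|P| ≥ x/log(4x) ≥ x^(3/4)`. -/
def StMu : Prop := ∃ J0 : ℕ, ∀ J : ℕ, J0 ≤ J → ((Pr (J ^ 2) (4 * J ^ 2)).card : ℝ) / (3 * J) ≤ muJ J ∧
  (J : ℝ) ^ (1 / 2 : ℝ) / 3 ≤ muJ J

open Classical in
/-- ITEM Ch4 (few sign changes).  Uses StCh1, StMo, StMu.  `χ(m) = 1` if `f m ≠ f(m+1)`, else `0`; sums over `m ∈ [X, 2X)`.  `∑ χ N ≤ |P| · |Bd|` by StCh1 for each `p ∈ P`.  `μ ∑ χ = ∑ χ N + ∑ χ (μ - N) ≤ |P||Bd| + (∑ χ)^(1/2) (∑ (N-μ)²)^(1/2) ≤ |P||Bd| + X √(μ+1)`.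
Divide by `μ ≥ 1`: `|P|/μ ≤ 3J`, `√(μ+1)/μ ≤ 2/√μ`, `μ ≥ √J/3`, so `2/√μ ≤ 4 J^(-1/4)`. -/
def StCh4 : Prop := ∃ (n1 : ℝ) (J0 : ℕ), ∀ (f : ℕ → ℤ) (n c : ℝ) (J : ℕ), n1 ≤ n → J0 ≤ J → Sgn f → 0 < c → c ≤ 1 / 10 →
  8 / c ^ 2 ≤ J → (J : ℝ) ≤ 9 / c ^ 2 → (J : ℝ) / c ≤ n ^ (1 / 400 : ℝ) →
  (((Ico ⌈200 * J / c * n / J ^ 2⌉₊ (2 * ⌈200 * J / c * n / J ^ 2⌉₊)).filter (fun m => f m ≠ f (m + 1))).card : ℝ) ≤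
    3 * J * ((Bd f n (200 * J / c) J).card : ℝ) + 4 * (J : ℝ) ^ (-(1 / 4) : ℝ) * (⌈200 * J / c * n / J ^ 2⌉₊ : ℝ)

end Pool.Agent.Work.MP_a8fbd7_nt.PAR.EF
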