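import Pool.Agent.Work.MP_a8fbd7_nt.PAR.EF.Defs

set_option autoImplicit false

/-!
MP_a8fbd7_nt, block EF, part Q (captain helper30): the sums over `Zs` for composite `q`.  An item is
`theorem prf_NAME (h1 : StA) (h2 : StB) ... : StNAME := ...` in `PAR/EF/I_NAME.lean` (import this file).  Every item is a COPY of
a landed file of block LC in which the primality of `q` is only used through `gcd(ρ, q) = 1` (which follows from `t ρ ≡ z mod q`,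
`gcd(z, q) = 1`) and through `gcd(q, t) = 1`.
-/

open Finset

noncomputable section

namespace Pool.Agent.Work.MP_a8fbd7_nt.PAR.EF

open Pool.Agent.Work.MP_a8fbd7_nt.PAR.LC

/-- ITEM Ct1C (pairs with `d ∣ z`, composite `q`).  Copy of `LC/I_Ct1.lean` (hypotheses: StCap).  The proof never uses that `q` is prime,
only `q ≥ 1`: for fixed `ρ` the `z` with `z ≡ tρ mod q`, `z ≡ 0 mod d` form one class modulo `dq` (`gcd(d,q) = 1`), at most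
`ηqt/(dq) + 1 ≤ 2ηt/d` in an interval of length `ηqt`; count the `ρ` by StCap (modulus `1`: `ωq + 1 ≤ 2ωq`, modulus `d`). -/
def StCt1C : Prop := ∀ (W : ℕ) (w0 ω e0 e1 : ℝ) (q t d : ℕ), Wn w0 ω e0 e1 → 1 ≤ q → 1 ≤ t → 1 / ω ≤ q → 1 ≤ d →
  d.Coprime q → (d : ℝ) ≤ (e1 - e0) * t →
  ((((Zs W w0 ω e0 e1 q t).filter (fun s => d ∣ s.1)).card : ℝ) ≤ 4 * ω * (e1 - e0) * q * t / d) ∧
  (∀ v : ℕ, (((Zs W w0 ω e0 e1 q t).filter (fun s => d ∣ s.1 ∧ s.2 ≡ v [MOD d])).card : ℝ) ≤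
    (ω * q / d + 1) * (2 * (e1 - e0) * t / d)) ∧
  (∀ ρ0 : ℕ, (((Zs W w0 ω e0 e1 q t).filter (fun s => d ∣ s.1 ∧ s.2 = ρ0)).card : ℝ) ≤ 2 * (e1 - e0) * t / d)

/-- ITEM FnG (correlations for `q ≠ q'`, composite).  Copy of `LC/I_Fne.lean` (hypotheses: StRgh, StCt1C, StHar).  The only use of
primality is the lemma `q'ρ ≠ qρ'`: here `gcd(ρ,q) = 1` (a common divisor of `ρ` and `q` divides `tρ` and `q`, hence `z`, but
`gcd(z,q) = 1`) and `gcd(ρ',q') = 1`, so `q'ρ = qρ'` gives `q ∣ q'` and `q' ∣ q`, hence `q = q'`.  The rest is unchanged: split by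
`d = gcd(z,z')`; `d = 1`: total `≤ Es·Es'`; `d > 1`: `W < d ≤ 3qq'`, number of pairs at most
`(4ωηqt/d)·(ωq'/d + 1)(2ηt'/d)` (StCt1C (i), (ii)), `cor ≤ d/(e0² q t q' t')`; sum over `d`. -/
def StFnG : Prop := ∀ (W : ℕ) (w0 ω e0 e1 : ℝ) (q t q' t' : ℕ), Wn w0 ω e0 e1 → 1 ≤ q → 1 ≤ q' → q ≠ q' →
  1 ≤ t → 1 ≤ t' → 1 ≤ W → 1 / ω ≤ q → 1 / ω ≤ q' → (3 * q * q' : ℝ) ≤ (e1 - e0) * t → (3 * q * q' : ℝ) ≤ (e1 - e0) * t' →
  Fs W w0 ω e0 e1 q t q' t' ≤ Es W w0 ω e0 e1 q t * Es W w0 ω e0 e1 q' t' +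
    (8 * ω * (e1 - e0) ^ 2 / e0 ^ 2) * (ω / W + (1 + Real.log (3 * q * q')) / q')

/-- ITEM FqG (correlations for `q = q'`, composite).  Copy of `LC/I_Feq.lean` (hypotheses: StRgh, StCt1C).  Primality of `q` is used only to
see that `gcd(d,q) = 1` for a divisor `d` of `z`; this follows directly from `gcd(z,q) = 1`.  Split by `ρ = ρ'` (this part is `Gs`) or
not; `ρ ≠ ρ'`, `d = gcd(z,z') = 1`: total `≤ Es·Es'`; `ρ ≠ ρ'`, `d > 1`: `d > W`, `d ∣ q(ρ - ρ')`, so `d ∣ ρ - ρ' ≠ 0` and `d ≤ ωq`;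
number of pairs `≤ (4ωηqt/d)(ωq/d + 1)(2ηt'/d)`, `cor ≤ d/(e0² q² t t')`. -/
def StFqG : Prop := ∀ (W : ℕ) (w0 ω e0 e1 : ℝ) (q t t' : ℕ), Wn w0 ω e0 e1 → 1 ≤ q →
  1 ≤ t → 1 ≤ t' → 1 ≤ W → 1 / ω ≤ q → (q : ℝ) ≤ (e1 - e0) * t → (q : ℝ) ≤ (e1 - e0) * t' →
  Fs W w0 ω e0 e1 q t q t' ≤ Es W w0 ω e0 e1 q t * Es W w0 ω e0 e1 q t' +
    16 * ω ^ 2 * (e1 - e0) ^ 2 / e0 ^ 2 / W + Gs W w0 ω e0 e1 q t t'

/-- ITEM GpC (the sum over `a, a', g`, composite `q`).  Copy of `LC/I_Gpa.lean` (hypotheses: StHar).  Primality is used only for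
`gcd(q,t) = gcd(q,t') = 1`, which are now hypotheses, and for `gcd(g,q) = gcd(a,q) = 1` for divisors `g`, `a` of `z`
(from `gcd(z,q) = 1`). -/
def StGpC : Prop := ∀ (W : ℕ) (w0 ω e0 e1 : ℝ) (q t t' N : ℕ), Wn w0 ω e0 e1 → 1 ≤ q →
  1 ≤ t → 1 ≤ t' → q.Coprime t → q.Coprime t' → q * t ≤ N → q * t' ≤ N →
  Gs W w0 ω e0 e1 q t t' ≤ (e1 / e0) * ∑ a ∈ (Icc 1 N).filter (fun a => a.Coprime q),
    ∑ a' ∈ (Icc 1 N).filter (fun a' => a * t' ≡ a' * t [MOD q] ∧ a' * t * e0 ≤ a * t' * e1 ∧ a * t' * e0 ≤ a' * t * e1),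
      1 / ((a : ℝ) * a')

/-- ITEM GdC (diagonal `t = t'`, composite `q`).  Copy of `LC/I_Gsd.lean` (hypotheses: StGpC, StHar).  StGpC with `t' = t`, `N = q t`: the
condition is `a ≡ a' mod q` (`t` is invertible modulo `q`).  `a = a'`: `∑ 1/a² ≤ 2`.  `a ≠ a'`: twice the part `a' = a + kq`. -/
def StGdC : Prop := ∀ (W : ℕ) (w0 ω e0 e1 : ℝ) (q t : ℕ), Wn w0 ω e0 e1 → 1 ≤ q → 1 ≤ t → q.Coprime t →
  Gs W w0 ω e0 e1 q t t ≤ 2 * (e1 / e0) + 2 * (e1 / e0) * (1 + Real.log (q * t)) ^ 2 / q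

/-- ITEM RhC (the `ρ` prime to `q`).  Hypotheses: StCap.  `q > 1` with all prime factors `> K0`, at most `m` of them, `4(m+1)/ω ≤ K0`.  The
integers `ρ` of `[w0 q, (w0+ω) q]` prime to `q`: at least `ωq/2`.  Proof: by StCap (modulus `1`) the interval contains at least
`ωq - 1` integers; for each prime `p ∣ q` at most `ωq/p + 1 ≤ ωq/K0 + 1` of them are divisible by `p` (StCap, modulus `p`, class `0`); an
integer not prime to `q` is divisible by some prime factor of `q`.  So at least `ωq - 1 - m(ωq/K0 + 1)` remain.  `q > K0` (it has a prime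
factor `> K0`), `m ω q/K0 ≤ ω² q/4 ≤ ωq/8` and `1 + m ≤ ωK0/4 ≤ ωq/4`. -/
def StRhC : Prop := ∀ (w0 ω : ℝ) (q K0 m : ℕ), 0 ≤ w0 → w0 ≤ 2 → 0 < ω → ω ≤ 1 / 2 → 1 < q → (∀ p ∈ q.primeFactors, K0 < p) →
  q.primeFactors.card ≤ m → 4 * ((m : ℝ) + 1) / ω ≤ K0 →
  ω * q / 2 ≤ (((range (3 * q + 1)).filter (fun r : ℕ => w0 * q ≤ (r : ℝ) ∧ (r : ℝ) ≤ (w0 + ω) * q ∧ r.Coprime q)).card : ℝ)

/-- ITEM ElC (lower bound for the single sum, composite `q`).  Copy of `LC/I_Elo.lean` (hypotheses: StCap, StRhC).  `P = primorial W`,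
`η = e1 - e0`.  For each `ρ` of StRhC (at least `ωq/2`) the `z ∈ [e0 q t, e1 q t]` with `z ≡ tρ mod q` and `z` prime to `P`: for each of
the `φ(P)` unit classes `u` modulo `P` (`gcd(P,q) = 1` since all prime factors of `q` are `> K0 ≥ W`) one class modulo `qP` by the Chinese
remainder theorem, at least `η q t/(qP) - 1 ≥ ηt/(2P)` elements by StCap.  They are prime to `q` since `gcd(tρ, q) = 1` (`t` is a
prime `> q`).  So at least `(ωq/2) φ(P) ηt/(2P)` pairs, each with `1/z ≥ 1/(e1 q t)`. -/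
def StElC : Prop := StEloC

end Pool.Agent.Work.MP_a8fbd7_nt.PAR.EF
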