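import Pool.Agent.Work.MP_a8fbd7_nt.PAR.EF.Defs

set_option autoImplicit false

/-!
MP_a8fbd7_nt, block EF, part U (effective equidistribution), owner helper95: statements with proofs in the docstrings.

A weak form of the inequality of Erdős and Turán (Fejér kernel, error `N/√H`), the second difference test
(`Pool.Agent.Work.MP_56b8f5_nt.UT.StVB`, proved there), and the interface statement `StEQE` of `EF/Defs.lean`.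
`ee` is the `ee` of `PAR.LC` (`PAR/LC/Stmts2.lean`), `ee x = exp(2πix)`.
-/

open Finset

noncomputable section

namespace Pool.Agent.Work.MP_a8fbd7_nt.PAR.EF

open Pool.Agent.Work.MP_a8fbd7_nt.PAR.LC

/-- the Fejér kernel `1 + ∑_{h ≤ H} 2 (1 - h/(H+1)) cos(2πht)` -/
def FH (H : ℕ) (t : ℝ) : ℝ :=
  1 + ∑ h ∈ Icc 1 H, 2 * (1 - (h : ℝ) / (H + 1)) * Real.cos (2 * Real.pi * h * t)

/-- its primitive `t + ∑_{h ≤ H} (1 - h/(H+1)) sin(2πht)/(πh)` -/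
def GH (H : ℕ) (t : ℝ) : ℝ :=
  t + ∑ h ∈ Icc 1 H, (1 - (h : ℝ) / (H + 1)) * (Real.sin (2 * Real.pi * h * t) / (Real.pi * h))

/-- ITEM FK (the Fejér kernel).  Let `A_H = (H+1) FH H t` and `D_k = 1 + ∑_{h ≤ k} 2 cos(2πht)`.  (i) `D_k sin(πt) = sin((2k+1)πt)`
(induction: `2 cos(2π(k+1)t) sin(πt) = sin((2k+3)πt) - sin((2k+1)πt)`).  (ii) `A_0 = 1 = D_0` and `A_{H+1} = A_H + D_{H+1}`
(`A_H = (H+1) + ∑_{h ≤ H} 2(H+1-h) cos(2πht)`; the term `h = H+1` of the sum with `H+1-h` is `0`).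
(iii) `A_H sin²(πt) = sin²((H+1)πt)` (induction from (i), (ii): `sin((2H+3)πt) sin(πt) = sin²((H+2)πt) - sin²((H+1)πt)`).  So
`FH (H+1) sin² ≤ 1`, which is the second assertion, and `FH H t ≥ 0` if `sin(πt) ≠ 0`.  If `sin(πt) = 0` then `t` is an integer, all
cosines are `1` and all terms are `≥ 0`. -/
def StFK : Prop := ∀ (H : ℕ) (t : ℝ), 0 ≤ FH H t ∧ FH H t * ((H + 1) * Real.sin (Real.pi * t) ^ 2) ≤ 1

/-- ITEM GG (the primitive; uses StFK).  `GH H` has the derivative `FH H` at every point (`d/dt sin(2πht)/(πh) = 2 cos(2πht)`), so it is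
monotone.  `sin(2πh(x + k)) = sin(2πhx)` for integers `k`, and `sin` is odd.  `GH H (1/2) = 1/2` (`sin(πh) = 0`).  For
`ε ≤ t ≤ 1/2`: `sin(πt) ≥ 2t` (Mathlib: `Real.mul_le_sin` or `Real.mul_abs_le_abs_sin`, Jordan), so by StFK
`FH H t ≤ 1/(4(H+1)t²)`: the function `GH H t + 1/(4(H+1)t)` has derivative `≤ 0` on `[ε, 1/2]`, it is antitone there and
`1/2 ≤ 1/2 + 1/(2(H+1)) ≤ GH H ε + 1/(4(H+1)ε)`. -/
def StGG : Prop := ∀ H : ℕ, Monotone (GH H) ∧ (∀ (x : ℝ) (k : ℤ), GH H (x + k) = GH H x + k) ∧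
  (∀ x : ℝ, GH H (-x) = -GH H x) ∧ ∀ ε : ℝ, 0 < ε → ε ≤ 1 / 2 → 1 / 2 - 1 / (4 * ((H : ℝ) + 1) * ε) ≤ GH H ε

/-- ITEM E1 (weak Erdős-Turán, upper bound; uses StGG).  `ε = 1/(2√H) ≤ 1/2`, `P(y) = GH H (y + ε) - GH H (y - β - ε)`.  `P ≥ 0` (monotone).  If
`fract y < β` then, with `y' = fract y ∈ [0, β)`, `P(y) = P(y')` (shift by the integer `⌊y⌋`) and
`P(y') ≥ GH H ε - GH H (-ε) = 2 GH H ε ≥ 1 - 1/(2(H+1)ε) = 1 - √H/(H+1) ≥ 1 - 1/√H`.  So the indicator of `fract y < β` is at most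
`P(y) + 1/√H`, and the count is at most `∑_i P(x_i - α) + N/√H`.  Finally
`∑_i P(x_i - α) = N(β + 2ε) + ∑_h (1 - h/(H+1)) (1/(πh)) (∑_i sin(2πh(x_i - α + ε)) - ∑_i sin(2πh(x_i - α - β - ε)))`, and each inner sum
is in absolute value at most `|∑_i ee(h(x_i - γ))| = |∑_i ee(h x_i)|` (imaginary part; `ee(h(x - γ)) = ee(hx) ee(-hγ)`).  `2ε = 1/√H`,
`2/π ≤ 1`. -/
def StE1 : Prop := ∀ (H N : ℕ) (x : ℕ → ℝ) (α β : ℝ), 1 ≤ H → 0 ≤ β →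
  (((range N).filter (fun i => Int.fract (x i - α) < β)).card : ℝ) ≤
    β * N + (2 * N / Real.sqrt H + ∑ h ∈ Icc 1 H, ‖∑ i ∈ range N, ee (h * x i)‖ / h)

/-- ITEM E2 (weak Erdős-Turán; uses StE1).  Upper bound: StE1.  Lower bound: if `fract (x_i - α) ≥ β` then
`fract (x_i - (α + β)) = fract (x_i - α) - β < 1 - β`, so the number of these `i` is at most `(1 - β) N + error` by StE1 with `α + β`, `1 - β`;
the two counts add up to `N`. -/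
def StE2 : Prop := ∀ (H N : ℕ) (x : ℕ → ℝ) (α β : ℝ), 1 ≤ H → 0 ≤ β → β ≤ 1 →
  |(((range N).filter (fun i => Int.fract (x i - α) < β)).card : ℝ) - β * N| ≤
    2 * N / Real.sqrt H + ∑ h ∈ Icc 1 H, ‖∑ i ∈ range N, ee (h * x i)‖ / h

/-- ITEM XS (exponential sums over progressions, uniform).  As `PAR/LC/I_Sec.lean`, from `StVB` of `Pool.Agent.Work.MP_56b8f5_nt.UT` (proved there:
`UT.iVB UT.iKL`) with ratio `8`: for `f(i) = h n²/(Z g)`, `g = x0 + D i`, the second difference is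
`(h n²/Z) · 2D²/(g (g+D) (g+2D))`, with `g, g+D, g+2D ∈ [rn, 2rn]`, so it lies in `[λ, 8λ]`, `λ = h D²/(4 Z r³ n)`.  The number of terms is
`N ≤ rn/D + 1` (if `N ≥ 1`: `D(N-1) ≤ 2rn - x0 ≤ rn`), take `L = rn/D + 1 ≥ 1`. -/
def StXS : Prop := ∃ C : ℝ, 1 ≤ C ∧ ∀ (n r : ℝ) (D Z h x0 N : ℕ), 0 < n → 0 < r → 1 ≤ D → 1 ≤ Z → 1 ≤ h → r * n ≤ x0 →
  (∀ i < N, ((x0 + D * i : ℕ) : ℝ) ≤ 2 * r * n) →
  ‖∑ i ∈ range N, ee (h * (n ^ 2 / (Z * ((x0 + D * i : ℕ) : ℝ))))‖ ≤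
    C * ((r * n / D + 1) * Real.sqrt ((h : ℝ) * D ^ 2 / (4 * Z * r ^ 3 * n)) +
      1 / Real.sqrt ((h : ℝ) * D ^ 2 / (4 * Z * r ^ 3 * n)))

/-- ITEM CB (the cells as a condition on one fractional part).  `Y ≥ 0`, `g ≥ 1`, `k < B`.  (⇒) is
`PAR.LC.I_EQ.fract_lt`.  (⇐) Let `Y/(Zg) - (M0 + k/B)/Z = z + t` with `z = ⌊·⌋` and `t` its fractional part `< 1/(ZB)`.  Multiply by `Z`:
`Y/g = M0 + Zz + k/B + Zt`, `0 ≤ Zt < 1/B`, `k + 1 ≤ B`, so `⌊Y/g⌋ = M0 + Zz` and the fractional part `k/B + Zt` is in the cell. -/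
def StCB : Prop := ∀ (Y : ℝ) (g Z B M0 k : ℕ), 0 ≤ Y → 1 ≤ g → 1 ≤ Z → 1 ≤ B → k < B →
  ((⌊Y / g⌋₊ ≡ M0 [MOD Z] ∧ (k : ℝ) / B ≤ Y / g - ⌊Y / g⌋₊ ∧ Y / g - ⌊Y / g⌋₊ < ((k : ℝ) + 1) / B) ↔
    Int.fract (Y / (Z * g) - (M0 + (k : ℝ) / B) / Z) < 1 / ((Z : ℝ) * B))

/-- ITEM AP (arithmetic progressions in `[a, b]`).  `g0` = the least `g ≥ a` with `g ≡ x0 mod D` (`a ≤ g0 < a + D`), `N = (b - g0)/D + 1` if
`g0 ≤ b` (natural division), `N = 0` otherwise. -/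
def StAP : Prop := ∀ a b D x0 : ℕ, a ≤ b → 1 ≤ D → ∃ g0 N : ℕ, a ≤ g0 ∧ |(N : ℝ) - ((b : ℝ) - a) / D| ≤ 1 ∧
  (Icc a b).filter (fun g => g ≡ x0 [MOD D]) = (range N).image (fun i => g0 + D * i)

/-- ITEM EQE (the interface statement StEQE of `EF/Defs.lean`; uses StE2, StXS, StCB, StAP).  By StAP and StCB (`Y = n²`, `g ≥ a ≥ rn > 0`) the
cardinality of `cel2` is `#{i < N : fract(x_i - α) < β}` with `x_i = n²/(Z(g0 + D i))`, `α = (M0 + k/B)/Z`, `β = 1/(ZB)` (the map `i ↦ g0 + D i` is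
injective).  StE2 with `H = ⌈n^(1/4)⌉₊` (`n^(1/4) ≤ H ≤ 2 n^(1/4)`, `√H ≥ n^(1/8)`).  `N ≤ rn/D + 1 ≤ 2 n^(51/50)`: `2N/√H ≤ 4 n^(51/50 - 1/8) ≤ 4 n^(19/20)`.
StXS (its hypothesis: `g0 + D i ≤ b ≤ 2rn`): with `√λ = √h D/(2 √(Z r³ n))`: `(rn/D)√λ = √h √n/(2√(Zr)) ≤ √h n^(51/100)`,
`√λ ≤ √h D r^(-3/2) n^(-1/2) ≤ √h`, `1/√λ = 2√(Z r³ n)/(√h D) ≤ 2 n^(54/100)`; so the sum for `h` is at most `4 C √h n^(54/100)`, and divided by `h`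
at most `4 C n^(54/100)`; over `h ≤ H`: at most `8 C n^(79/100)`.  Finally `|βN - (b-a)/(DZB)| ≤ 1`.  Constant `8C + 5`. -/
def StEQE' : Prop := StEQE

end Pool.Agent.Work.MP_a8fbd7_nt.PAR.EF
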