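import Pool.Agent.Work.MP_a8fbd7_nt.PAR.EF.StmtsZ

set_option autoImplicit false

/-!
MP_a8fbd7_nt, block EF, part X (captain helper73): THEOREM S with many integers.  The length of the interval is `√x/(log x)^(1/100)`; the number of
the integers of each sign is at least `√x exp(-(log x)^(99/100))`.  The items are copies of the items Un, Um, LkE, Bd1, BdS, EnS of `StmtsM.lean`, `StmtsZ.lean` with small changes: instead of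
`Cst f F n c` we assume that the exceptions in the interval have small divisor weight `Dv f F n c` (`LC/Stmts3.lean`), and the links are required to have `q t ≤ N`.
-/

open Finset

noncomputable section

namespace Pool.Agent.Work.MP_a8fbd7_nt.PAR.EF

open Pool.Agent.Work.MP_a8fbd7_nt.PAR.LC

/-- `g` has a link of the block `r`, cell `k` (with `j = 1`) with `q t ≤ N` -/
def LkX (n c r : ℝ) (N B k g : ℕ) : Prop := ∃ q t z ρ : ℕ, q * t ≤ N ∧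
  Lnk (((k : ℝ) + 1) / B + 17 / 20 * c / r) (c / (25 * r)) (2 * c / (5 * r)) (21 * c / (50 * r)) q t z ρ ∧
  q ∣ g ∧ t ∣ g + 1 ∧ z ∣ q * ⌊n ^ 2 / (g : ℝ)⌋₊ + ρ

/-- `g` is attached to some element of `E` by data bounded by `N` -/
def AtE (N : ℕ) (E : Finset ℕ) (g : ℕ) : Prop := ∃ q t z m : ℕ, 1 ≤ q ∧ q ≤ N ∧ 1 ≤ t ∧ t ≤ N ∧ 1 ≤ z ∧ z ≤ N ∧ q * t ≤ N ∧ m ∈ E ∧
  Att q t z 1 g m

open Classical in
/-- ITEM UnX (copy of `I_Un.lean`; uses StEloC, StSz).  The same proof: the link found there has `q = qS S ≤ K1^m`, `t ≤ K3`, so `q t ≤ K1^m K3`. -/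
def StUnX : Prop := ∀ (n c r : ℝ) (J B W K0 K1 K2 K3 m k u v : ℕ), Pa n c J B W K0 K1 K2 K3 m → 200 * J / c ≤ r →
  r ≤ 1900 * J / c → k ≤ B / J →
  (Am c r W m) ^ 2 *
    (((ce n u v B k).filter (fun g => m ≤ om K0 K1 g ∧ (∃ t ∈ Pr K2 K3, t ∣ g + 1) ∧ ¬ LkX n c r (K1 ^ m * K3) B k g)).card : ℝ) ≤
  ∑ t ∈ Pr K2 K3, ∑ g ∈ (ce n u v B k).filter (fun g => t ∣ g + 1),
    (Nt K0 K1 m W (((k : ℝ) + 1) / B + 17 / 20 * c / r) (c / (25 * r)) (2 * c / (5 * r)) (21 * c / (50 * r)) t g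
        ⌊n ^ 2 / (g : ℝ)⌋₊ -
      At K0 K1 m W (((k : ℝ) + 1) / B + 17 / 20 * c / r) (c / (25 * r)) (2 * c / (5 * r)) (21 * c / (50 * r)) t g) ^ 2

open Classical in
/-- ITEM UmX (copy of `I_Um.lean`; uses StVa, StBn, StUnX). -/
def StUmX : Prop := ∃ C : ℝ, 1 ≤ C ∧ ∀ (n c r : ℝ) (J B W K0 K1 K2 K3 m k : ℕ), Pa n c J B W K0 K1 K2 K3 m → 200 * J / c ≤ r →
  r ≤ 1900 * J / c → k ≤ B / J →
  (Am c r W m) ^ 2 *
    (((ce n ⌈r * n⌉₊ ⌊21 / 20 * r * n⌋₊ B k).filter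
      (fun g => m ≤ om K0 K1 g ∧ (∃ t ∈ Pr K2 K3, t ∣ g + 1) ∧ ¬ LkX n c r (K1 ^ m * K3) B k g)).card : ℝ) ≤
  (95 * J * n / c) / B * Sr K2 K3 * Vm c r W K0 K1 K3 m + C * n ^ (199 / 200 : ℝ)

open Classical in
/-- ITEM LkY (copy of `I_LkE.lean`; uses StLkD).  StLkD with `j = 1`, `k0 = 0`, `a0 = 17/20` (see StLkE): `f g = f (g+1)` or some `m ∈ Ex` with `Att q t z 1 g m`; the link gives `1 ≤ q, t, z`, `q t ≤ N` (so `q, t ≤ N`) and `z ≤ e1 q t ≤ q t ≤ N`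
(`e1 = 21c/(50r) ≤ 1`). -/
def StLkY : Prop := ∀ (f : ℕ → ℤ) (F : ℤ) (n c r : ℝ) (J B W K0 K1 K2 K3 m k g N : ℕ), Pa n c J B W K0 K1 K2 K3 m → Sgn f →
  200 * J / c ≤ r → r ≤ 1900 * J / c → k ≤ B / J → g ∈ ce n ⌈r * n⌉₊ ⌊21 / 20 * r * n⌋₊ B k →
  LkX n c r N B k g → f g = f (g + 1) ∨ AtE N (Ex f F n c) g

open Classical in
/-- ITEM AtX (count of the attached `g`; uses StAtc).  For each of the `N³` triples `(q, t, z)` and each `m ∈ E` at most `τ(m)(3 + 2qt/z) ≤ 5 N τ(m)` of the `g < G` are attached (StAtc; `1 ≤ z`, `q t ≤ N`, `N ≥ 1` if there is a triple; all `m ∈ E` are `≥ 1`). -/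
def StAtX : Prop := ∀ (N G : ℕ) (E : Finset ℕ), (∀ m ∈ E, 1 ≤ m) →
  (((range G).filter (fun g => AtE N E g)).card : ℝ) ≤ 5 * (N : ℝ) ^ 4 * ∑ m ∈ E, (m.divisors.card : ℝ)

open Classical in
/-- ITEM Bd2 (copy of `I_Bd1.lean`; uses StLkY, StAtX).  As StBd1; a `g ∈ Bd` with a link is attached (StLkY), there are at most `5 N⁴ Dv` of them (`N = K1^m K3`; the elements of `Ex` are `≥ n² ≥ 1`). -/
def StBd2 : Prop := ∀ (f : ℕ → ℤ) (F : ℤ) (n c : ℝ) (J B W K0 K1 K2 K3 m : ℕ), Pa n c J B W K0 K1 K2 K3 m → Sgn f →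
  ((Bd f n (200 * J / c) J).card : ℝ) ≤
    (((Icc 1 ⌊1800 * J / c * n⌋₊).filter (fun g => om K0 K1 g < m)).card : ℝ) +
    (((Icc 1 ⌊1800 * J / c * n⌋₊).filter (fun g => ∀ p ∈ Pr K2 K3, ¬ p ∣ g + 1)).card : ℝ) +
    ∑ i ∈ range 46, ∑ k ∈ range (B / J + 1),
      (((ce n ⌈200 * J / c * (21 / 20 : ℝ) ^ i * n⌉₊ ⌊21 / 20 * (200 * J / c * (21 / 20 : ℝ) ^ i) * n⌋₊ B k).filter
        (fun g => m ≤ om K0 K1 g ∧ (∃ t ∈ Pr K2 K3, t ∣ g + 1) ∧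
          ¬ LkX n c (200 * J / c * (21 / 20 : ℝ) ^ i) (K1 ^ m * K3) B k g)).card : ℝ) +
    5 * ((K1 : ℝ) ^ m * K3) ^ 4 * Dv f F n c

/-- ITEM BdX (copy of `I_BdS.lean`; uses StBd2, StUmX, StOm, StNo, StPa1, StT12, StT3, StAmL, StMes, StSr, StPh).  As StBdS; the new term: `K1^m K3 ≤ exp((11/25) log l · l^(17/20) + l^(49/50)) ≤ exp(2 l^(49/50))` for large `l`, so it is
`≤ 5 exp(8 l^(49/50)) n exp(-10 l^(49/50)) ≤ κ' n/(c J²)` for large `l`. -/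
def StBdX : Prop := ∀ κ : ℝ, 0 < κ → ∃ l0 : ℝ, ∀ l : ℝ, l0 ≤ l → ∀ (f : ℕ → ℤ) (F : ℤ), Sgn f →
  Dv f F (Real.exp (l / 2)) (cL l) ≤ Real.exp (l / 2) * Real.exp (-(10 * l ^ (49 / 50 : ℝ))) →
  ((Bd f (Real.exp (l / 2)) (200 * (JL l : ℝ) / cL l) (JL l)).card : ℝ) ≤ κ * (200 * Real.exp (l / 2) / (cL l * (JL l : ℝ) ^ 2))

/-- ITEM Tu2 (second moment of the divisor function in the interval; uses StLan, StSt4, StCap).  This is the first part of the proof of `PAR/LC/I_CnL.lean`.  `x = n²`, `N = ⌊√(2x)⌋`.  By StLan `τ(m)² ≤ 4 τ(d)^4` for some `d ∣ m`, `d² ≤ m ≤ 2x`, so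
`∑_{m ∈ I} τ(m)² ≤ 4 ∑_{d ≤ N} τ(d)^4 #{m ∈ I : d ∣ m} ≤ 4 ∑_{d ≤ N} τ(d)^4 (n/d + 1) ≤ 4 (n + N) ∑_{d ≤ N} τ(d)^4/d ≤ 12 n (1 + log N)^16 ≤ 12 n (2 + log n)^16`. -/
def StTu2 : Prop := ∀ n c : ℝ, 2 ≤ n → 0 < c → c ≤ 1 →
  ∑ m ∈ Icc ⌈n ^ 2⌉₊ ⌊n ^ 2 + c * n⌋₊, (m.divisors.card : ℝ) ^ 2 ≤ 12 * n * (2 + Real.log n) ^ 16

/-- THEOREM S, with many integers: for all large `x` the interval `[x, x + √x/(log x)^(1/100)]` contains at least `√x exp(-(log x)^(99/100))` integers of each sign of the Liouville function. -/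
def ThmSX : Prop := ∃ x0 : ℝ, ∀ x : ℝ, x0 ≤ x → ∀ s : ℤ, s = 1 ∨ s = -1 →
  Real.sqrt x * Real.exp (-(Real.log x ^ (99 / 100 : ℝ))) ≤
    (((Icc ⌈x⌉₊ ⌊x + Real.sqrt x / Real.log x ^ (1 / 100 : ℝ)⌋₊).filter (fun m => ArithmeticFunction.liouville m = s)).card : ℝ)

/-- ITEM EnX (copy of `I_EnS.lean`).  Suppose `x` is large and the set `E` of ThmSX has fewer than `n exp(-l^(99/100))` elements, `l = log x`, `n = √x = exp(l/2)`, `c = cL l`.  `E = Ex lam (-s) n c` (the values of the Liouville function at `m ≥ 1` are `±1`), so by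
Cauchy-Schwarz and StTu2 `Dv lam (-s) n c = ∑_{m ∈ E} τ(m) ≤ |E|^(1/2) (12 n (2 + l)^16)^(1/2) ≤ n · 4 (2 + l)^8 exp(-l^(99/100)/2) ≤ n exp(-10 l^(49/50))` for large `l`.  Now as StEnS with StBdX in the place of StBdS. -/
def StEnX : Prop := Chg → StCh4 → StBdX → StTu2 → StPa1 → ThmSX

end Pool.Agent.Work.MP_a8fbd7_nt.PAR.EF
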